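import Mathlib

/-!
# Segment mirrors in the plane: basic geometry

`cr u v` is the cross product, `rf e v` the reflection of `v` in the line with direction `e`.
-/

set_option autoImplicit false

open Complex ComplexConjugate Set Filter Topology

namespace Pool.Agent.H628_Mirror

/-- cross product of plane vectors -/
noncomputable def cr (u v : ℂ) : ℝ := (conj u * v).im

/-- reflection of the vector `v` in the line with direction `e` -/
noncomputable def rf (e v : ℂ) : ℂ := e / conj e * conj v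

lemma cr_def (u v : ℂ) : cr u v = u.re * v.im - u.im * v.re := by
  simp [cr, Complex.mul_im]; ring

@[simp] lemma cr_self (u : ℂ) : cr u u = 0 := by rw [cr_def]; ring
lemma cr_comm (u v : ℂ) : cr u v = - cr v u := by simp only [cr_def]; ring
@[simp] lemma cr_zero_left (v : ℂ) : cr 0 v = 0 := by simp [cr_def]
@[simp] lemma cr_zero_right (v : ℂ) : cr v 0 = 0 := by simp [cr_def]
lemma cr_add_left (u v w : ℂ) : cr (u + v) w = cr u w + cr v w := by
  simp only [cr_def, add_re, add_im]; ring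
lemma cr_add_right (u v w : ℂ) : cr u (v + w) = cr u v + cr u w := by
  simp only [cr_def, add_re, add_im]; ring
lemma cr_sub_left (u v w : ℂ) : cr (u - v) w = cr u w - cr v w := by
  simp only [cr_def, sub_re, sub_im]; ring
lemma cr_sub_right (u v w : ℂ) : cr u (v - w) = cr u v - cr u w := by
  simp only [cr_def, sub_re, sub_im]; ring
lemma cr_neg_left (u v : ℂ) : cr (-u) v = - cr u v := by
  simp only [cr_def, neg_re, neg_im]; ring
lemma cr_neg_right (u v : ℂ) : cr u (-v) = - cr u v := by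
  simp only [cr_def, neg_re, neg_im]; ring
lemma cr_mul_left (t : ℝ) (u v : ℂ) : cr (t * u) v = t * cr u v := by
  simp only [cr_def, mul_re, mul_im, ofReal_re, ofReal_im]; ring
lemma cr_mul_right (t : ℝ) (u v : ℂ) : cr u (t * v) = t * cr u v := by
  simp only [cr_def, mul_re, mul_im, ofReal_re, ofReal_im]; ring

lemma continuous_cr : Continuous (fun p : ℂ × ℂ => cr p.1 p.2) := by
  unfold cr; fun_prop

lemma cAt_cr {X : Type*} [TopologicalSpace X] {f g : X → ℂ} {x : X}
    (hf : ContinuousAt f x) (hg : ContinuousAt g x) :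
    ContinuousAt (fun y => cr (f y) (g y)) x :=
  ContinuousAt.comp (f := fun y => (f y, g y)) (g := fun p : ℂ × ℂ => Pool.Agent.H628_Mirror.cr p.1 p.2)
    continuous_cr.continuousAt (hf.prodMk hg)

lemma cAt_rf {X : Type*} [TopologicalSpace X] {f g : X → ℂ} {x : X}
    (hf : ContinuousAt f x) (hg : ContinuousAt g x) (h0 : f x ≠ 0) :
    ContinuousAt (fun y => rf (f y) (g y)) x := by
  unfold Pool.Agent.H628_Mirror.rf
  have h1 : conj (f x) ≠ 0 := by simpa using h0
  have hc : ContinuousAt (fun y => conj (f y)) x := continuous_conj.continuousAt.comp hf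
  have hc' : ContinuousAt (fun y => conj (g y)) x := continuous_conj.continuousAt.comp hg
  exact (hf.div hc h1).mul hc'

/-- two independent linear conditions -/
lemma eq_zero_of_cr {φ e w : ℂ} (h : cr φ e ≠ 0) (h1 : cr φ w = 0) (h2 : cr w e = 0) : w = 0 := by
  simp only [cr_def] at h h1 h2
  have hre : (φ.re * e.im - φ.im * e.re) * w.re = 0 := by
    linear_combination φ.re * h2 + e.re * h1
  have him : (φ.re * e.im - φ.im * e.re) * w.im = 0 := by
    linear_combination φ.im * h2 + e.im * h1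
  apply Complex.ext
  · simpa [h] using hre
  · simpa [h] using him

lemma cr_ne_zero_left {φ e : ℂ} (h : cr φ e ≠ 0) : φ ≠ 0 := by
  rintro rfl; simp at h
lemma cr_ne_zero_right {φ e : ℂ} (h : cr φ e ≠ 0) : e ≠ 0 := by
  rintro rfl; simp at h

/-- parallel vectors -/
lemma exists_smul_of_cr_eq_zero {φ e : ℂ} (he : e ≠ 0) (h : cr φ e = 0) :
    ∃ μ : ℝ, φ = μ * e := by
  refine ⟨(φ * conj e).re / normSq e, ?_⟩
  have hn : normSq e ≠ 0 := by simpa using he
  have hn' : e.re * e.re + e.im * e.im ≠ 0 := by rwa [normSq_apply] at hn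
  rw [cr_def] at h
  apply Complex.ext
  · simp only [mul_re, ofReal_re, ofReal_im, conj_re, conj_im, normSq_apply, zero_mul, sub_zero]
    rw [div_mul_eq_mul_div, eq_div_iff hn']
    linear_combination e.im * h
  · simp only [mul_re, mul_im, ofReal_re, ofReal_im, conj_re, conj_im, normSq_apply, zero_mul,
      add_zero]
    rw [div_mul_eq_mul_div, eq_div_iff hn']
    linear_combination -e.re * h

lemma rf_add (e u v : ℂ) : rf e (u + v) = rf e u + rf e v := by
  simp only [rf, map_add]; ring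
lemma rf_sub (e u v : ℂ) : rf e (u - v) = rf e u - rf e v := by
  simp only [rf, map_sub]; ring
lemma rf_neg (e u : ℂ) : rf e (-u) = - rf e u := by
  simp only [rf, map_neg]; ring
lemma rf_mul (e : ℂ) (t : ℝ) (u : ℂ) : rf e (t * u) = t * rf e u := by
  simp only [rf, map_mul, conj_ofReal]; ring
lemma rf_self {e : ℂ} (he : e ≠ 0) : rf e e = e := by
  have : conj e ≠ 0 := by simpa using he
  simp only [rf]; field_simp
lemma rf_rf {e : ℂ} (he : e ≠ 0) (v : ℂ) : rf e (rf e v) = v := by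
  have : conj e ≠ 0 := by simpa using he
  simp only [rf, map_mul, map_div₀, conj_conj]; field_simp
lemma norm_rf {e : ℂ} (he : e ≠ 0) (v : ℂ) : ‖rf e v‖ = ‖v‖ := by
  have : ‖e‖ ≠ 0 := by simpa using he
  simp only [rf, norm_mul, norm_div, Complex.norm_conj]; field_simp
lemma rf_mul_left {e : ℂ} {c : ℝ} (hc : c ≠ 0) (v : ℂ) : rf (c * e) v = rf e v := by
  have hc' : (c : ℂ) ≠ 0 := by exact_mod_cast hc
  by_cases he : e = 0
  · simp [rf, he]
  have : conj e ≠ 0 := by simpa using he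
  simp only [rf, map_mul, conj_ofReal]; field_simp

lemma cr_rf_rf {e : ℂ} (he : e ≠ 0) (u v : ℂ) : cr (rf e u) (rf e v) = - cr u v := by
  have h1 : conj e ≠ 0 := by simpa using he
  have : conj (rf e u) * rf e v = u * conj v := by
    simp only [rf, map_mul, map_div₀, conj_conj]; field_simp
  simp only [cr, this, mul_im, conj_re, conj_im]; ring

lemma cr_rf_self {e : ℂ} (he : e ≠ 0) (v : ℂ) : cr (rf e v) e = - cr v e := by
  have := cr_rf_rf he v e
  rwa [rf_self he] at this

/-! ### Segments -/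

/-- the coordinate of `z` on the line through `a` and `b` -/
noncomputable def co (a b z : ℂ) : ℝ := ((z - a) * conj (b - a)).re / normSq (b - a)

lemma eq_of_on_line {a b z : ℂ} (hab : a ≠ b) (h : cr (z - a) (b - a) = 0) :
    z = a + co a b z * (b - a) := by
  have he : b - a ≠ 0 := sub_ne_zero.2 hab.symm
  obtain ⟨μ, hμ⟩ := exists_smul_of_cr_eq_zero he h
  have : co a b z = μ := by
    unfold co
    rw [hμ]
    have hn : normSq (b - a) ≠ 0 := by simpa using he
    have : (μ : ℂ) * (b - a) * conj (b - a) = ((μ * normSq (b - a) : ℝ) : ℂ) := by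
      rw [mul_assoc, mul_conj]; push_cast; ring
    rw [this, ofReal_re]
    field_simp
  rw [this, ← hμ]; ring

lemma co_add_mul {a b : ℂ} (hab : a ≠ b) (z : ℂ) (s : ℝ) :
    co a b (z + s * (b - a)) = co a b z + s := by
  have he : b - a ≠ 0 := sub_ne_zero.2 hab.symm
  have hn : normSq (b - a) ≠ 0 := by simpa using he
  unfold co
  have : (z + s * (b - a) - a) * conj (b - a)
      = (z - a) * conj (b - a) + ((s * normSq (b - a) : ℝ) : ℂ) := by
    push_cast; rw [← mul_conj]; ring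
  rw [this, add_re, ofReal_re]
  field_simp

lemma mem_segment_iff' {a b z : ℂ} : z ∈ segment ℝ a b ↔ ∃ τ : ℝ, 0 ≤ τ ∧ τ ≤ 1 ∧ z = a + τ * (b - a) := by
  rw [segment_eq_image']
  simp only [mem_image, mem_Icc, Complex.real_smul, and_assoc]
  constructor
  · rintro ⟨τ, h0, h1, rfl⟩; exact ⟨τ, h0, h1, rfl⟩
  · rintro ⟨τ, h0, h1, rfl⟩; exact ⟨τ, h0, h1, rfl⟩

lemma mem_openSegment_iff' {a b z : ℂ} :
    z ∈ openSegment ℝ a b ↔ ∃ τ : ℝ, 0 < τ ∧ τ < 1 ∧ z = a + τ * (b - a) := by
  rw [openSegment_eq_image']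
  simp only [mem_image, mem_Ioo, Complex.real_smul, and_assoc]
  constructor
  · rintro ⟨τ, h0, h1, rfl⟩; exact ⟨τ, h0, h1, rfl⟩
  · rintro ⟨τ, h0, h1, rfl⟩; exact ⟨τ, h0, h1, rfl⟩

lemma cr_of_mem_segment {a b z : ℂ} (h : z ∈ segment ℝ a b) : cr (z - a) (b - a) = 0 := by
  obtain ⟨τ, -, -, rfl⟩ := mem_segment_iff'.1 h
  rw [add_sub_cancel_left, cr_mul_left, cr_self, mul_zero]

lemma mem_openSegment_iff_co {a b z : ℂ} (hab : a ≠ b) :
    z ∈ openSegment ℝ a b ↔ cr (z - a) (b - a) = 0 ∧ 0 < co a b z ∧ co a b z < 1 := by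
  constructor
  · intro h
    have h1 := cr_of_mem_segment (openSegment_subset_segment ℝ a b h)
    obtain ⟨τ, h0, h2, rfl⟩ := mem_openSegment_iff'.1 h
    refine ⟨h1, ?_⟩
    rw [co_add_mul hab]
    have : co a b a = 0 := by simp [co]
    rw [this]; constructor <;> linarith
  · rintro ⟨h1, h2, h3⟩
    rw [mem_openSegment_iff']
    exact ⟨co a b z, h2, h3, eq_of_on_line hab h1⟩

lemma mem_segment_iff_co {a b z : ℂ} (hab : a ≠ b) :
    z ∈ segment ℝ a b ↔ cr (z - a) (b - a) = 0 ∧ 0 ≤ co a b z ∧ co a b z ≤ 1 := by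
  constructor
  · intro h
    have h1 := cr_of_mem_segment h
    obtain ⟨τ, h0, h2, rfl⟩ := mem_segment_iff'.1 h
    refine ⟨h1, ?_⟩
    rw [co_add_mul hab]
    have : co a b a = 0 := by simp [co]
    rw [this]; constructor <;> linarith
  · rintro ⟨h1, h2, h3⟩
    rw [mem_segment_iff']
    exact ⟨co a b z, h2, h3, eq_of_on_line hab h1⟩

lemma openSegment_of_segment {a b z : ℂ} (h : z ∈ segment ℝ a b) (ha : z ≠ a) (hb : z ≠ b) :
    z ∈ openSegment ℝ a b := by
  obtain ⟨τ, h0, h1, rfl⟩ := mem_segment_iff'.1 h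
  rw [mem_openSegment_iff']
  refine ⟨τ, lt_of_le_of_ne h0 ?_, lt_of_le_of_ne h1 ?_, rfl⟩
  · rintro rfl; simp at ha
  · rintro rfl; simp at hb

lemma ne_left_of_mem_openSegment {a b z : ℂ} (hab : a ≠ b) (h : z ∈ openSegment ℝ a b) :
    z ≠ a := by
  obtain ⟨τ, h0, h1, rfl⟩ := mem_openSegment_iff'.1 h
  intro h2
  have : (τ : ℂ) * (b - a) = 0 := by linear_combination h2
  rcases mul_eq_zero.1 this with h3 | h3
  · have : τ = 0 := by exact_mod_cast h3
    linarith
  · exact hab (sub_eq_zero.1 h3).symm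

lemma ne_right_of_mem_openSegment {a b z : ℂ} (hab : a ≠ b) (h : z ∈ openSegment ℝ a b) :
    z ≠ b := by
  obtain ⟨τ, h0, h1, rfl⟩ := mem_openSegment_iff'.1 h
  intro h2
  have : (1 - τ : ℂ) * (b - a) = 0 := by linear_combination -h2
  rcases mul_eq_zero.1 this with h3 | h3
  · have : 1 - τ = 0 := by exact_mod_cast h3
    linarith
  · exact hab (sub_eq_zero.1 h3).symm

/-- Disjointness of two segments is an open condition on the end points. -/
lemma eventually_disjoint {X : Type*} [TopologicalSpace X] {p q a b : X → ℂ} {x : X}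
    (hp : ContinuousAt p x) (hq : ContinuousAt q x) (ha : ContinuousAt a x)
    (hb : ContinuousAt b x) (h : Disjoint (segment ℝ (p x) (q x)) (segment ℝ (a x) (b x))) :
    ∀ᶠ y in 𝓝 x, Disjoint (segment ℝ (p y) (q y)) (segment ℝ (a y) (b y)) := by
  have hK : IsCompact (Icc (0 : ℝ) 1 ×ˢ Icc (0 : ℝ) 1) := isCompact_Icc.prod isCompact_Icc
  have key : ∀ᶠ y in 𝓝 x, ∀ st ∈ Icc (0 : ℝ) 1 ×ˢ Icc (0 : ℝ) 1,
      p y + (st.1 : ℂ) * (q y - p y) ≠ a y + (st.2 : ℂ) * (b y - a y) := by
    apply hK.eventually_forall_of_forall_eventually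
    rintro ⟨s, t⟩ hst
    have hne : p x + (s : ℂ) * (q x - p x) - (a x + (t : ℂ) * (b x - a x)) ≠ 0 := by
      intro h0
      have h1 : p x + (s : ℂ) * (q x - p x) ∈ segment ℝ (p x) (q x) :=
        mem_segment_iff'.2 ⟨s, hst.1.1, hst.1.2, rfl⟩
      have h2 : p x + (s : ℂ) * (q x - p x) ∈ segment ℝ (a x) (b x) := by
        rw [sub_eq_zero.1 h0]
        exact mem_segment_iff'.2 ⟨t, hst.2.1, hst.2.2, rfl⟩
      exact Set.disjoint_left.1 h h1 h2
    have hcont : ContinuousAt (fun z : X × (ℝ × ℝ) => p z.1 + (z.2.1 : ℂ) * (q z.1 - p z.1)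
        - (a z.1 + (z.2.2 : ℂ) * (b z.1 - a z.1))) (x, (s, t)) := by
      have e1 : ContinuousAt (fun z : X × (ℝ × ℝ) => p z.1) (x, (s, t)) :=
        ContinuousAt.comp (f := Prod.fst) (g := p) hp continuousAt_fst
      have e2 : ContinuousAt (fun z : X × (ℝ × ℝ) => q z.1) (x, (s, t)) :=
        ContinuousAt.comp (f := Prod.fst) (g := q) hq continuousAt_fst
      have e3 : ContinuousAt (fun z : X × (ℝ × ℝ) => a z.1) (x, (s, t)) :=
        ContinuousAt.comp (f := Prod.fst) (g := a) ha continuousAt_fst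
      have e4 : ContinuousAt (fun z : X × (ℝ × ℝ) => b z.1) (x, (s, t)) :=
        ContinuousAt.comp (f := Prod.fst) (g := b) hb continuousAt_fst
      have e5 : ContinuousAt (fun z : X × (ℝ × ℝ) => ((z.2.1 : ℝ) : ℂ)) (x, (s, t)) := by fun_prop
      have e6 : ContinuousAt (fun z : X × (ℝ × ℝ) => ((z.2.2 : ℝ) : ℂ)) (x, (s, t)) := by fun_prop
      exact (e1.add (e5.mul (e2.sub e1))).sub (e3.add (e6.mul (e4.sub e3)))
    have := hcont.eventually_ne hne
    filter_upwards [this] with z hz h0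
    exact hz (sub_eq_zero.2 h0)
  filter_upwards [key] with y hy
  rw [Set.disjoint_left]
  intro w hw1 hw2
  obtain ⟨s, hs0, hs1, rfl⟩ := mem_segment_iff'.1 hw1
  obtain ⟨t, ht0, ht1, h2⟩ := mem_segment_iff'.1 hw2
  exact hy (s, t) ⟨⟨hs0, hs1⟩, ⟨ht0, ht1⟩⟩ h2

end Pool.Agent.H628_Mirror
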