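import Pool.Agent.H628_Mirror.NoGap

/-!
# The region swept by an invariant family is a component of the complement of the mirrors
-/

set_option autoImplicit false

open Complex ComplexConjugate Set Filter Topology

namespace Pool.Agent.H628_Mirror

variable {ι : Type*} {a b : ι → ℂ} {D : Set ℂ} {R : ℝ} {Λ : ι → ℂ → ℂ → Prop}

/-- the point `x` is on a flight of the family in direction `φ` -/
def Yb (a b : ι → ℂ) (Λ : ι → ℂ → ℂ → Prop) (φ x : ℂ) : Prop :=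
  ∃ i, Hit a b ∅ x (-φ) i ∧ Λ i (x + tt a b i x (-φ) * -φ) φ

/-- the reversed family -/
def Rev (a b : ι → ℂ) (Λ : ι → ℂ → ℂ → Prop) : ι → ℂ → ℂ → Prop :=
  fun i z ψ => Λ i z (-rf (b i - a i) ψ)

lemma rev_rev (hne : ∀ j, a j ≠ b j) : Rev a b (Rev a b Λ) = Λ := by
  funext i z ψ
  unfold Rev
  rw [rf_neg, rf_rf (sub_ne_zero.2 (hne i).symm), neg_neg]

lemma st_off {x φ : ℂ} (hx : x ∉ MM a b) (hφ : φ ≠ 0) : St a b ∅ x φ := ⟨hφ, Or.inl ⟨rfl, hx⟩⟩

lemma hit_unique {A : Set ι} {z φ : ℂ} {i j : ι} (hs : St a b A z φ) (hi : Hit a b A z φ i)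
    (hj : Hit a b A z φ j) : i = j := by
  by_contra hij
  have h1 := fl_unique (hit_fl hs hi) (hit_fl hs hj)
  have h2 := hit_not_mem hs hi j (Ne.symm hij)
  apply h2; rw [h1]; exact hit_mem' hj

lemma seg_join {x φ : ℂ} {s t : ℝ} (hs : 0 ≤ s) (ht : 0 ≤ t) {K : Set ℂ}
    (h1 : Disjoint (segment ℝ x (x + s * -φ)) K) (h2 : Disjoint (segment ℝ x (x + t * φ)) K) :
    Disjoint (segment ℝ (x + s * -φ) (x + s * -φ + ((s + t : ℝ) : ℂ) * φ)) K := by
  rw [Set.disjoint_left]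
  intro q hq
  obtain ⟨r, hr0, hr1, rfl⟩ := mem_segment_add_mul (by linarith) hq
  rcases le_total r s with h | h
  · have e : x + s * -φ + r * φ = x + ((s - r : ℝ) : ℂ) * -φ := by push_cast; ring
    rw [e]
    exact Set.disjoint_left.1 h1 (add_mul_mem_segment (by linarith) (by linarith))
  · have e : x + s * -φ + r * φ = x + ((r - s : ℝ) : ℂ) * φ := by push_cast; ring
    rw [e]
    exact Set.disjoint_left.1 h2 (add_mul_mem_segment (by linarith) (by linarith))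

lemma yb_bd (hI : Inv a b D R Λ) {φ x : ℂ} (h : Yb a b Λ φ x) : ‖x‖ ≤ R := by
  obtain ⟨i, hh, hΛ⟩ := h
  have e : x + tt a b i x (-φ) * -φ + tt a b i x (-φ) * φ = x := by ring
  have := hI.ff i _ φ (tt a b i x (-φ)) hΛ hh.t0.le (by
    intro k hk
    rw [e, segment_symm]
    exact hh.cl k (by simp) hk)
  rwa [e] at this

lemma yb_open (hg : Good a b) (hI : Inv a b D R Λ) (hD : DirOK a b D) {Q : Set ℂ}
    (h0 : (0 : ℂ) ∈ Q) (hQ : Vx a b ⊆ Q) (hbad : ∀ φ ∈ D, φ ∉ BadQ a b Q) {φ x : ℂ}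
    (h : Yb a b Λ φ x) : ∀ᶠ x' in 𝓝 x, Yb a b Λ φ x' := by
  obtain ⟨i, hh, hΛ⟩ := h
  have h1 : ∀ᶠ x' in 𝓝 x, Hit a b ∅ x' (-φ) i :=
    hit_eventually (a := fun _ : ℂ => a) (b := fun _ => b) (hg.ulf x)
      (fun k => continuousAt_const) (fun k => continuousAt_const) (z := fun w => w)
      (φ := fun _ => -φ) continuousAt_id continuousAt_const hh
  have h2 := inv_open hg hI hD h0 hQ hbad hΛ
  have h3 : ContinuousAt (fun x' => ss a b i x' (-φ) - ss a b i x (-φ)) x :=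
    (continuousAt_ss (a := fun _ : ℂ => a) (b := fun _ => b) continuousAt_const continuousAt_const
      (z := fun w => w) (φ := fun _ => -φ) continuousAt_id continuousAt_const hh.tr).sub
      continuousAt_const
  have h3' := h3.tendsto
  rw [sub_self] at h3'
  have h4 := h3'.eventually h2
  filter_upwards [h1, h4] with x' a1 a2
  refine ⟨i, a1, ?_⟩
  rw [hit_pt a1.tr]
  rw [hit_pt hh.tr] at a2
  have e : a i + ss a b i x (-φ) * (b i - a i)
      + ((ss a b i x' (-φ) - ss a b i x (-φ) : ℝ) : ℂ) * (b i - a i)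
      = a i + ss a b i x' (-φ) * (b i - a i) := by push_cast; ring
  rwa [e] at a2

lemma clear_of_no_hit {x φ : ℂ} (hx : x ∉ MM a b)
    (h : ∀ t : ℝ, 0 < t → x + t * φ ∉ MM a b) {T : ℝ} (hT : 0 ≤ T) (k : ι) :
    Disjoint (segment ℝ x (x + T * φ)) (mir a b k) := by
  rw [Set.disjoint_left]
  intro q hq hqk
  obtain ⟨r, hr0, -, rfl⟩ := mem_segment_add_mul hT hq
  rcases eq_or_lt_of_le hr0 with h1 | h1
  · subst h1
    exact hx (mem_MM.2 ⟨k, by simpa using hqk⟩)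
  · exact h r h1 (mem_MM.2 ⟨k, hqk⟩)

lemma norm_far {x φ : ℂ} (hφ : ‖φ‖ = 1) {T : ℝ} (hT : 0 ≤ T) : T - ‖x‖ ≤ ‖x + T * φ‖ := by
  have h3 : ‖(T : ℂ) * φ‖ = T := by
    rw [norm_mul, hφ, mul_one, Complex.norm_real, Real.norm_eq_abs, abs_of_nonneg hT]
  have := norm_sub_le (x + T * φ) x
  rw [add_sub_cancel_left, h3] at this
  linarith

lemma eventually_norm_lt (x : ℂ) : ∀ᶠ x' in 𝓝 x, ‖x'‖ < ‖x‖ + 1 :=
  (continuous_norm.continuousAt (x := x)).eventually_lt_const (by linarith)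

lemma back_hit (hg : Good a b) (hI : Inv a b D R Λ) {φ x : ℂ} (hφ : ‖φ‖ = 1)
    (hx : x ∉ MM a b) (hR : 0 ≤ R) (h : ∃ᶠ x' in 𝓝 x, Yb a b Λ φ x') :
    ∃ t : ℝ, 0 < t ∧ x + t * -φ ∈ MM a b := by
  by_contra hno
  push Not at hno
  have hT : 0 ≤ R + ‖x‖ + 1 := by positivity
  have h1 := clear_eventually (a := fun _ : ℂ => a) (b := fun _ => b) (x₀ := x) (hg.ulf x)
    (fun k => continuousAt_const) (fun k => continuousAt_const) (z := fun w => w)
    (w := fun w => w + ((R + ‖x‖ + 1 : ℝ) : ℂ) * -φ)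
    continuousAt_id (by fun_prop) (B := ∅) (fun k _ => clear_of_no_hit hx hno hT k)
  obtain ⟨x', ⟨i, hh, hΛ⟩, h2, h3⟩ := (h.and_eventually (h1.and (eventually_norm_lt x))).exists
  have h4 := hI.bd _ _ _ hΛ
  have h5 := norm_far (x := x') (φ := -φ) (by rwa [norm_neg]) hh.t0.le
  exact Set.disjoint_left.1 (h2 i (by simp))
    (add_mul_mem_segment (s := tt a b i x' (-φ)) hh.t0.le (by linarith)) (hit_mem' hh)

lemma fwd_hit (hg : Good a b) (hI : Inv a b D R Λ) {φ x : ℂ} (hφ : ‖φ‖ = 1)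
    (hx : x ∉ MM a b) (hR : 0 ≤ R) (h : ∃ᶠ x' in 𝓝 x, Yb a b Λ φ x') :
    ∃ t : ℝ, 0 < t ∧ x + t * φ ∈ MM a b := by
  by_contra hno
  push Not at hno
  have hT : 0 ≤ R + ‖x‖ + 1 := by positivity
  have h1 := clear_eventually (a := fun _ : ℂ => a) (b := fun _ => b) (x₀ := x) (hg.ulf x)
    (fun k => continuousAt_const) (fun k => continuousAt_const) (z := fun w => w)
    (w := fun w => w + ((R + ‖x‖ + 1 : ℝ) : ℂ) * φ)
    continuousAt_id (by fun_prop) (B := ∅) (fun k _ => clear_of_no_hit hx hno hT k)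
  obtain ⟨x', ⟨i, hh, hΛ⟩, h2, h3⟩ := (h.and_eventually (h1.and (eventually_norm_lt x))).exists
  have h4 := hI.ff i _ φ (tt a b i x' (-φ) + (R + ‖x‖ + 1)) hΛ (by have := hh.t0; positivity)
    (fun k hk => seg_join hh.t0.le hT (hh.cl k (by simp) hk) (h2 k (by simp)))
  have e : x' + tt a b i x' (-φ) * -φ + ((tt a b i x' (-φ) + (R + ‖x‖ + 1) : ℝ) : ℂ) * φ
      = x' + ((R + ‖x‖ + 1 : ℝ) : ℂ) * φ := by push_cast; ring
  rw [e] at h4
  have h5 := norm_far (x := x') hφ hT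
  linarith

lemma close_back (hg : Good a b) (hI : Inv a b D R Λ) {φ x : ℂ} (hφ : φ ≠ 0)
    (hx : x ∉ MM a b) (h : ∃ᶠ x' in 𝓝 x, Yb a b Λ φ x') {i : ι} (hi : Hit a b ∅ x (-φ) i) :
    Yb a b Λ φ x := by
  refine ⟨i, hi, hI.cls i _ φ (hit_mem' hi) (hit_not_vx (st_off hx (neg_ne_zero.2 hφ)) hi) ?_⟩
  intro ε hε
  have h1 : ∀ᶠ x' in 𝓝 x, Hit a b ∅ x' (-φ) i :=
    hit_eventually (a := fun _ : ℂ => a) (b := fun _ => b) (hg.ulf x)
      (fun k => continuousAt_const) (fun k => continuousAt_const) (z := fun w => w)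
      (φ := fun _ => -φ) continuousAt_id continuousAt_const hi
  have h2 : ∀ᶠ x' in 𝓝 x, x' ∉ MM a b := hg.isOpen_compl.mem_nhds hx
  have h3 := continuousAt_pt (a := fun _ : ℂ => a) (b := fun _ => b) (x₀ := x) (j := i)
    continuousAt_const continuousAt_const (z := fun w => w) (φ := fun _ => -φ) continuousAt_id
    continuousAt_const hi.tr
  have h4 : ∀ᶠ x' in 𝓝 x, ‖(x' + tt a b i x' (-φ) * -φ) - (x + tt a b i x (-φ) * -φ)‖ < ε := by
    have := (h3.sub (continuousAt_const (y := x + tt a b i x (-φ) * -φ))).norm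
    refine this.eventually_lt_const ?_
    simpa using hε
  obtain ⟨x', ⟨i', hh, hΛ⟩, h5, h6, h7⟩ := (h.and_eventually (h1.and (h2.and h4))).exists
  have := hit_unique (st_off h6 (neg_ne_zero.2 hφ)) hh h5
  subst this
  exact ⟨_, hΛ, h7⟩

lemma close_fwd (hg : Good a b) (hI : Inv a b D R Λ) {φ x : ℂ} (hφ : φ ≠ 0)
    (hx : x ∉ MM a b) (h : ∃ᶠ x' in 𝓝 x, Yb a b Λ φ x') {j : ι} (hj : Hit a b ∅ x φ j) :
    Λ j (x + tt a b j x φ * φ) (rf (b j - a j) φ) := by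
  refine hI.cls j _ _ (hit_mem' hj) (hit_not_vx (st_off hx hφ) hj) ?_
  intro ε hε
  have h1 : ∀ᶠ x' in 𝓝 x, Hit a b ∅ x' φ j :=
    hit_eventually (a := fun _ : ℂ => a) (b := fun _ => b) (hg.ulf x)
      (fun k => continuousAt_const) (fun k => continuousAt_const) (z := fun w => w)
      (φ := fun _ => φ) continuousAt_id continuousAt_const hj
  have h3 := continuousAt_pt (a := fun _ : ℂ => a) (b := fun _ => b) (x₀ := x) (j := j)
    continuousAt_const continuousAt_const (z := fun w => w) (φ := fun _ => φ) continuousAt_id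
    continuousAt_const hj.tr
  have h4 : ∀ᶠ x' in 𝓝 x, ‖(x' + tt a b j x' φ * φ) - (x + tt a b j x φ * φ)‖ < ε := by
    have := (h3.sub (continuousAt_const (y := x + tt a b j x φ * φ))).norm
    refine this.eventually_lt_const ?_
    simpa using hε
  obtain ⟨x', ⟨i, hh, hΛ⟩, h5, h7⟩ := (h.and_eventually (h1.and h4)).exists
  set z := x' + tt a b i x' (-φ) * -φ with hz
  have e1 : z + ((tt a b i x' (-φ) + tt a b j x' φ : ℝ) : ℂ) * φ = x' + tt a b j x' φ * φ := by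
    rw [hz]; push_cast; ring
  obtain ⟨e2, e3⟩ := tt_of (z := z) (t := tt a b i x' (-φ) + tt a b j x' φ) (τ := ss a b j x' φ)
    h5.tr (by rw [e1, hit_pt h5.tr])
  have hH : Hit a b {i} z φ j := by
    refine ⟨h5.tr, by rw [e2]; have := hh.t0; have := h5.t0; positivity, by rw [e3]; exact h5.s0,
      by rw [e3]; exact h5.s1, fun k hk hkj => ?_⟩
    rw [e2]
    exact seg_join hh.t0.le h5.t0.le (hh.cl k (by simp) (by simpa using hk))
      (h5.cl k (by simp) hkj)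
  have := hI.fw i z φ j hΛ hH
  rw [e2, e1] at this
  exact ⟨_, this, h7⟩

lemma yb_closure (hg : Good a b) (hI : Inv a b D R Λ) (hD : DirOK a b D) {Q : Set ℂ}
    (hQ : Vx a b ⊆ Q) (hbad : ∀ φ ∈ D, φ ∉ BadQ a b Q) (hR : 0 ≤ R) {φ x : ℂ} (hφ : φ ∈ D)
    (hx : x ∉ MM a b) (h : ∃ᶠ x' in 𝓝 x, Yb a b Λ φ x') :
    Yb a b Λ φ x ∨ Yb a b (Rev a b Λ) (-φ) x := by
  have h1 := hD.one φ hφ
  have hφ0 : φ ≠ 0 := by rintro rfl; simp at h1
  have s1 := st_off (a := a) (b := b) hx hφ0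
  have s2 := st_off (a := a) (b := b) hx (neg_ne_zero.2 hφ0)
  obtain ⟨t₁, ht₁, hm₁⟩ := back_hit hg hI h1 hx hR h
  obtain ⟨t₂, ht₂, hm₂⟩ := fwd_hit hg hI h1 hx hR h
  obtain ⟨r₁, hr₁, -, hr₁', hf₁⟩ := Pool.Agent.H628_Mirror.exists_fl hg s2 ht₁ hm₁
  obtain ⟨r₂, hr₂, -, hr₂', hf₂⟩ := Pool.Agent.H628_Mirror.exists_fl hg s1 ht₂ hm₂
  by_cases hv₁ : x + r₁ * -φ ∈ Vx a b
  · by_cases hv₂ : x + r₂ * φ ∈ Vx a b
    · exfalso
      apply hbad φ hφ
      refine ⟨[], [], _, hQ hv₂, _, hQ hv₁, ?_⟩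
      have e : Uw a b [] (x + r₂ * φ) - Uw a b [] (x + r₁ * -φ) = ((r₂ + r₁ : ℝ) : ℂ) * φ := by
        rw [Uw_nil, Uw_nil]; push_cast; ring
      rw [e, nrm_mul h1 (by linarith)]
    · right
      obtain ⟨j, hj⟩ := mem_MM.1 hr₂'
      obtain ⟨hH, -⟩ := hit_of_fl s1 (hg.ne j) ⟨r₂, hr₂, rfl, hr₂', hf₂⟩ hv₂ hj
      refine ⟨j, by rwa [neg_neg], ?_⟩
      have := close_fwd hg hI hφ0 hx h hH
      unfold Rev
      rw [neg_neg, rf_neg, neg_neg]
      exact this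
  · left
    obtain ⟨i, hi⟩ := mem_MM.1 hr₁'
    obtain ⟨hH, -⟩ := hit_of_fl s2 (hg.ne i) ⟨r₁, hr₁, rfl, hr₁', hf₁⟩ hv₁ hi
    exact close_back hg hI hφ0 hx h hH

/-- the region -/
def Reg (a b : ι → ℂ) (D : Set ℂ) (Λ : ι → ℂ → ℂ → Prop) : Set ℂ :=
  ⋃ φ ∈ D, {x | Yb a b Λ φ x ∨ Yb a b (Rev a b Λ) φ x}

theorem comp_bounded (hg : Good a b) (hI : Inv a b D R Λ) (hD : DirOK a b D) {Q : Set ℂ}
    (h0 : (0 : ℂ) ∈ Q) (hQ : Vx a b ⊆ Q) (hbad : ∀ φ ∈ D, φ ∉ BadQ a b Q) {x : ℂ}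
    (hx : x ∉ MM a b) (hY : x ∈ Reg a b D Λ) :
    connectedComponentIn (MM a b)ᶜ x ⊆ Metric.closedBall 0 R := by
  have hI' : Inv a b D R (Rev a b Λ) := hI.rev hg hD
  have hRx : ‖x‖ ≤ R := by
    simp only [Reg, mem_iUnion, mem_ofPred_eq] at hY
    obtain ⟨φ, -, h | h⟩ := hY
    · exact yb_bd hI h
    · exact yb_bd hI' h
  have hR : 0 ≤ R := (norm_nonneg x).trans hRx
  have hopen : IsOpen (Reg a b D Λ) := by
    refine isOpen_biUnion fun φ _ => isOpen_iff_mem_nhds.2 fun y hy => ?_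
    rcases hy with h | h
    · filter_upwards [yb_open hg hI hD h0 hQ hbad h] with y' hy' using Or.inl hy'
    · filter_upwards [yb_open hg hI' hD h0 hQ hbad h] with y' hy' using Or.inr hy'
  have hsub : Reg a b D Λ ⊆ Metric.closedBall 0 R := by
    intro y hy
    simp only [Reg, mem_iUnion, mem_ofPred_eq] at hy
    rw [mem_closedBall_zero_iff]
    obtain ⟨φ, -, h | h⟩ := hy
    · exact yb_bd hI h
    · exact yb_bd hI' h
  have hpre : IsPreconnected (connectedComponentIn (MM a b)ᶜ x) := isPreconnected_connectedComponentIn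
  refine (hpre.subset_of_closure_inter_subset hopen ⟨x, mem_connectedComponentIn hx, hY⟩ ?_).trans hsub
  rintro y ⟨hy1, hy2⟩
  have hym : y ∉ MM a b := connectedComponentIn_subset _ _ hy2
  rw [Reg, hD.fin.closure_biUnion] at hy1
  simp only [mem_iUnion] at hy1
  obtain ⟨φ, hφ, hcl⟩ := hy1
  rw [mem_closure_iff_frequently] at hcl
  have hcl' : (∃ᶠ x' in 𝓝 y, Yb a b Λ φ x') ∨ ∃ᶠ x' in 𝓝 y, Yb a b (Rev a b Λ) φ x' := by
    rw [← Filter.frequently_or_distrib]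
    exact hcl
  simp only [Reg, mem_iUnion, mem_ofPred_eq]
  rcases hcl' with h | h
  · rcases yb_closure hg hI hD hQ hbad hR hφ hym h with h1 | h1
    · exact ⟨φ, hφ, Or.inl h1⟩
    · refine ⟨-φ, ?_, Or.inr h1⟩
      obtain ⟨i, -, h2⟩ := h1
      exact hI'.dir _ _ _ h2
  · rcases yb_closure hg hI' hD hQ hbad hR hφ hym h with h1 | h1
    · exact ⟨φ, hφ, Or.inr h1⟩
    · rw [rev_rev hg.ne] at h1
      refine ⟨-φ, ?_, Or.inl h1⟩
      obtain ⟨i, -, h2⟩ := h1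
      exact hI.dir _ _ _ h2

end Pool.Agent.H628_Mirror
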