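import Pool.Agent.H628_Mirror.Basic

/-!
# Families of segment mirrors: flights, hits

`mir a b i` is the mirror with end points `a i`, `b i`; `MM` the union; `Vx` the vertices (end points of
mirrors and points common to two mirrors). `Hit a b A z φ j`: a ray leaves `z` in direction `φ` (the
mirrors with index in `A` are those on which `z` lies) and the first mirror it meets is the `j`-th, at
a point which is not a vertex.
-/

set_option autoImplicit false

open Complex ComplexConjugate Set Filter Topology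

namespace Pool.Agent.H628_Mirror

variable {ι : Type*} {a b : ι → ℂ}

/-- the `i`-th mirror -/
def mir (a b : ι → ℂ) (i : ι) : Set ℂ := segment ℝ (a i) (b i)

/-- the union of the mirrors -/
def MM (a b : ι → ℂ) : Set ℂ := ⋃ i, mir a b i

/-- end points and common points -/
def Vx (a b : ι → ℂ) : Set ℂ :=
  {u | (∃ i, u = a i ∨ u = b i) ∨ ∃ i j, i ≠ j ∧ u ∈ mir a b i ∧ u ∈ mir a b j}

/-- the standing hypotheses on the family -/
structure Good (a b : ι → ℂ) : Prop where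
  ne : ∀ i, a i ≠ b i
  lf : ∀ R : ℝ, {i | (mir a b i ∩ Metric.closedBall 0 R).Nonempty}.Finite
  pw : ∀ i j, i ≠ j → (mir a b i ∩ mir a b j).Subsingleton

/-- free flight from `x` in direction `d` to the first point `y` of `MM` -/
def Fl (a b : ι → ℂ) (x d y : ℂ) : Prop :=
  ∃ t : ℝ, 0 < t ∧ y = x + t * d ∧ y ∈ MM a b ∧ ∀ s : ℝ, 0 < s → s < t → x + s * d ∉ MM a b

/-- time of crossing the line of mirror `j` -/
noncomputable def tt (a b : ι → ℂ) (j : ι) (z φ : ℂ) : ℝ :=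
  cr (a j - z) (b j - a j) / cr φ (b j - a j)

/-- coordinate on mirror `j` of the crossing point -/
noncomputable def ss (a b : ι → ℂ) (j : ι) (z φ : ℂ) : ℝ :=
  cr φ (z - a j) / cr φ (b j - a j)

/-- see the header -/
structure Hit (a b : ι → ℂ) (A : Set ι) (z φ : ℂ) (j : ι) : Prop where
  tr : cr φ (b j - a j) ≠ 0
  t0 : 0 < tt a b j z φ
  s0 : 0 < ss a b j z φ
  s1 : ss a b j z φ < 1
  cl : ∀ k, k ∉ A → k ≠ j → Disjoint (segment ℝ z (z + tt a b j z φ * φ)) (mir a b k)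

/-- admissible start: either off the mirrors, or at a point of mirror `i` which is not a vertex, and
not along the mirror -/
def St (a b : ι → ℂ) (A : Set ι) (z φ : ℂ) : Prop :=
  φ ≠ 0 ∧ ((A = ∅ ∧ z ∉ MM a b) ∨
    ∃ i, A = {i} ∧ z ∈ openSegment ℝ (a i) (b i) ∧ cr φ (b i - a i) ≠ 0 ∧
      ∀ k, k ≠ i → z ∉ mir a b k)

lemma mem_MM {x : ℂ} : x ∈ MM a b ↔ ∃ i, x ∈ mir a b i := by simp [MM]

lemma hit_pt {j : ι} {z φ : ℂ} (h : cr φ (b j - a j) ≠ 0) :
    z + tt a b j z φ * φ = a j + ss a b j z φ * (b j - a j) := by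
  have h1 : cr φ (z + tt a b j z φ * φ - (a j + ss a b j z φ * (b j - a j))) = 0 := by
    have : z + tt a b j z φ * φ - (a j + ss a b j z φ * (b j - a j))
        = (z - a j) + tt a b j z φ * φ - ss a b j z φ * (b j - a j) := by ring
    rw [this, cr_sub_right, cr_add_right, cr_mul_right, cr_mul_right, cr_self, ss]
    field_simp; ring
  have h2 : cr (z + tt a b j z φ * φ - (a j + ss a b j z φ * (b j - a j))) (b j - a j) = 0 := by
    have : z + tt a b j z φ * φ - (a j + ss a b j z φ * (b j - a j))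
        = tt a b j z φ * φ - (a j - z) - ss a b j z φ * (b j - a j) := by ring
    rw [this, cr_sub_left, cr_sub_left, cr_mul_left, cr_mul_left, cr_self, tt]
    field_simp; ring
  exact sub_eq_zero.1 (eq_zero_of_cr h h1 h2)

lemma tt_of {j : ι} {z φ : ℂ} {t τ : ℝ} (h : cr φ (b j - a j) ≠ 0)
    (he : z + t * φ = a j + τ * (b j - a j)) : tt a b j z φ = t ∧ ss a b j z φ = τ := by
  have h1 : a j - z = t * φ - τ * (b j - a j) := by linear_combination -he
  have h2 : z - a j = τ * (b j - a j) - t * φ := by linear_combination he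
  constructor
  · rw [tt, h1, cr_sub_left, cr_mul_left, cr_mul_left, cr_self]
    field_simp; ring
  · rw [ss, h2, cr_sub_right, cr_mul_right, cr_mul_right, cr_self]
    field_simp; ring

/-- a ray meets a transversal line only once -/
lemma tt_of_mem {j : ι} {z φ : ℂ} {t : ℝ} (h : cr φ (b j - a j) ≠ 0)
    (he : z + t * φ ∈ mir a b j) : tt a b j z φ = t := by
  obtain ⟨τ, -, -, h1⟩ := mem_segment_iff'.1 he
  exact (tt_of h h1).1

lemma hit_mem {A : Set ι} {z φ : ℂ} {j : ι} (h : Hit a b A z φ j) :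
    z + tt a b j z φ * φ ∈ openSegment ℝ (a j) (b j) := by
  rw [hit_pt h.tr, mem_openSegment_iff']
  exact ⟨_, h.s0, h.s1, rfl⟩

lemma hit_mem' {A : Set ι} {z φ : ℂ} {j : ι} (h : Hit a b A z φ j) :
    z + tt a b j z φ * φ ∈ mir a b j :=
  openSegment_subset_segment ℝ _ _ (hit_mem h)

lemma add_mul_mem_segment {z φ : ℂ} {s t : ℝ} (h0 : 0 ≤ s) (h1 : s ≤ t) :
    z + s * φ ∈ segment ℝ z (z + t * φ) := by
  rcases eq_or_lt_of_le (h0.trans h1) with h | h
  · have : s = 0 := le_antisymm (by linarith) h0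
    subst this
    simp [left_mem_segment]
  · rw [mem_segment_iff']
    refine ⟨s / t, by positivity, by rw [div_le_one h]; exact h1, ?_⟩
    have : (t : ℂ) ≠ 0 := by exact_mod_cast h.ne'
    push_cast; field_simp; ring

lemma mem_segment_add_mul {z φ q : ℂ} {t : ℝ} (ht : 0 ≤ t) (h : q ∈ segment ℝ z (z + t * φ)) :
    ∃ s : ℝ, 0 ≤ s ∧ s ≤ t ∧ q = z + s * φ := by
  obtain ⟨τ, h0, h1, rfl⟩ := mem_segment_iff'.1 h
  refine ⟨τ * t, by positivity, by nlinarith, ?_⟩
  push_cast; ring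

/-- the open flight of a hit is free of mirrors -/
lemma hit_free {A : Set ι} {z φ : ℂ} {j : ι} (hs : St a b A z φ) (h : Hit a b A z φ j)
    {s : ℝ} (h0 : 0 < s) (h1 : s < tt a b j z φ) : z + s * φ ∉ MM a b := by
  intro hm
  obtain ⟨k, hk⟩ := mem_MM.1 hm
  by_cases hkj : k = j
  · subst hkj
    have := tt_of_mem h.tr hk
    linarith
  by_cases hkA : k ∈ A
  · rcases hs.2 with ⟨hA, -⟩ | ⟨i, hA, hz, hi, -⟩
    · rw [hA] at hkA; exact hkA
    · rw [hA] at hkA
      have : k = i := hkA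
      subst this
      have h2 := tt_of_mem hi hk
      have h3 : tt a b k z φ = 0 :=
        tt_of_mem hi (t := 0) (by simpa [mir] using openSegment_subset_segment ℝ _ _ hz)
      linarith
  · exact Set.disjoint_left.1 (h.cl k hkA hkj) (add_mul_mem_segment h0.le h1.le) hk

lemma hit_not_mem {A : Set ι} {z φ : ℂ} {j : ι} (hs : St a b A z φ) (h : Hit a b A z φ j)
    (k : ι) (hkj : k ≠ j) : z + tt a b j z φ * φ ∉ mir a b k := by
  intro hk
  by_cases hkA : k ∈ A
  · rcases hs.2 with ⟨hA, -⟩ | ⟨i, hA, hz, hi, -⟩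
    · rw [hA] at hkA; exact hkA
    · rw [hA] at hkA
      have : k = i := hkA
      subst this
      have h2 := tt_of_mem hi hk
      have h3 : tt a b k z φ = 0 :=
        tt_of_mem hi (t := 0) (by simpa [mir] using openSegment_subset_segment ℝ _ _ hz)
      have := h.t0
      linarith
  · exact Set.disjoint_left.1 (h.cl k hkA hkj) (right_mem_segment ℝ _ _) hk

lemma hit_fl {A : Set ι} {z φ : ℂ} {j : ι} (hs : St a b A z φ) (h : Hit a b A z φ j) :
    Fl a b z φ (z + tt a b j z φ * φ) :=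
  ⟨_, h.t0, rfl, mem_MM.2 ⟨j, hit_mem' h⟩, fun _ h0 h1 => hit_free hs h h0 h1⟩

lemma hit_ne {A : Set ι} {z φ : ℂ} {j : ι} (h : Hit a b A z φ j) : a j ≠ b j := fun h0 => by
  have := cr_ne_zero_right h.tr
  rw [h0] at this; simp at this

lemma not_vx_of {z : ℂ} {j : ι} (hne : a j ≠ b j) (h1 : z ∈ openSegment ℝ (a j) (b j))
    (h2 : ∀ k, k ≠ j → z ∉ mir a b k) : z ∉ Vx a b := by
  rintro (⟨k, hk⟩ | ⟨k, l, hkl, hk, hl⟩)
  · by_cases hkj : k = j
    · subst hkj
      rcases hk with h | h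
      · exact ne_left_of_mem_openSegment hne h1 h
      · exact ne_right_of_mem_openSegment hne h1 h
    · apply h2 k hkj
      rcases hk with h | h
      · rw [h]; exact left_mem_segment ℝ _ _
      · rw [h]; exact right_mem_segment ℝ _ _
  · by_cases hkj : k = j
    · subst hkj
      exact h2 l (fun h => hkl h.symm) hl
    · exact h2 k hkj hk

lemma hit_not_vx {A : Set ι} {z φ : ℂ} {j : ι} (hs : St a b A z φ) (h : Hit a b A z φ j) :
    z + tt a b j z φ * φ ∉ Vx a b :=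
  not_vx_of (hit_ne h) (hit_mem h) (hit_not_mem hs h)

/-- the state after a hit -/
lemma hit_st {A : Set ι} {z φ : ℂ} {j : ι} (hs : St a b A z φ) (h : Hit a b A z φ j) :
    St a b {j} (z + tt a b j z φ * φ) (rf (b j - a j) φ) := by
  have he : b j - a j ≠ 0 := sub_ne_zero.2 (hit_ne h).symm
  refine ⟨?_, Or.inr ⟨j, rfl, hit_mem h, ?_, hit_not_mem hs h⟩⟩
  · rw [← norm_ne_zero_iff, norm_rf he, norm_ne_zero_iff]; exact hs.1
  · rw [cr_rf_self he]; exact neg_ne_zero.2 h.tr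

lemma fl_unique {x d y y' : ℂ} (h : Fl a b x d y) (h' : Fl a b x d y') : y = y' := by
  obtain ⟨t, ht, rfl, hm, hf⟩ := h
  obtain ⟨t', ht', rfl, hm', hf'⟩ := h'
  rcases lt_trichotomy t t' with h1 | h1 | h1
  · exact absurd hm (hf' t ht h1)
  · rw [h1]
  · exact absurd hm' (hf t' ht' h1)

/-- A point of `MM` which is not a vertex lies on exactly one mirror, in its interior. -/
lemma mem_of_not_vx {z : ℂ} {j : ι} (hv : z ∉ Vx a b) (hj : z ∈ mir a b j) :
    z ∈ openSegment ℝ (a j) (b j) ∧ ∀ k, k ≠ j → z ∉ mir a b k := by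
  refine ⟨openSegment_of_segment hj ?_ ?_, fun k hk hz => hv (Or.inr ⟨k, j, hk, hz, hj⟩)⟩
  · intro h; exact hv (Or.inl ⟨j, Or.inl h⟩)
  · intro h; exact hv (Or.inl ⟨j, Or.inr h⟩)

/-- a flight to an interior point of a mirror is transversal to it -/
lemma fl_transversal {x d y : ℂ} {j : ι} (hne : a j ≠ b j) (h : Fl a b x d y)
    (hj : y ∈ openSegment ℝ (a j) (b j)) : cr d (b j - a j) ≠ 0 := by
  intro h0
  have he : b j - a j ≠ 0 := sub_ne_zero.2 hne.symm
  obtain ⟨μ, hμ⟩ := exists_smul_of_cr_eq_zero he h0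
  obtain ⟨t, ht, hy, hm, hf⟩ := h
  obtain ⟨τ, hτ0, hτ1, hτ⟩ := mem_openSegment_iff'.1 hj
  have hcont : ContinuousAt (fun s : ℝ => τ - s * μ) 0 := by fun_prop
  have h1 : ∀ᶠ s in 𝓝 (0 : ℝ), 0 < τ - s * μ := by
    apply hcont.eventually_const_lt; simpa using hτ0
  have h2 : ∀ᶠ s in 𝓝 (0 : ℝ), τ - s * μ < 1 := by
    apply hcont.eventually_lt_const; simpa using hτ1
  have h3 : ∀ᶠ s in 𝓝 (0 : ℝ), s < t := by
    apply (continuousAt_id (x := (0 : ℝ))).eventually_lt_const; simpa using ht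
  have h4 : ∀ᶠ s in 𝓝[>] (0 : ℝ), 0 < τ - s * μ ∧ τ - s * μ < 1 ∧ s < t ∧ 0 < s := by
    filter_upwards [nhdsWithin_le_nhds h1, nhdsWithin_le_nhds h2, nhdsWithin_le_nhds h3,
      self_mem_nhdsWithin] with s a1 a2 a3 a4
    exact ⟨a1, a2, a3, a4⟩
  obtain ⟨s, b1, b2, b3, b4⟩ := h4.exists
  apply hf (t - s) (by linarith) (by linarith)
  refine mem_MM.2 ⟨j, mem_segment_iff'.2 ⟨τ - s * μ, b1.le, b2.le, ?_⟩⟩
  have : x + ((t - s : ℝ) : ℂ) * d = y - s * d := by rw [hy]; push_cast; ring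
  rw [this, hτ, hμ]; push_cast; ring

/-- a flight from an admissible start to a point which is not a vertex is a hit -/
lemma hit_of_fl {A : Set ι} {z φ y : ℂ} {j : ι} (hs : St a b A z φ) (hne : a j ≠ b j)
    (h : Fl a b z φ y) (hv : y ∉ Vx a b) (hj : y ∈ mir a b j) :
    Hit a b A z φ j ∧ y = z + tt a b j z φ * φ := by
  obtain ⟨hj', hk'⟩ := mem_of_not_vx hv hj
  have htr := fl_transversal hne h hj'
  obtain ⟨t, ht, hy, hm, hf⟩ := h
  obtain ⟨τ, hτ0, hτ1, hτ⟩ := mem_openSegment_iff'.1 hj'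
  obtain ⟨h1, h2⟩ := tt_of htr (by rw [← hy, hτ])
  refine ⟨⟨htr, by rw [h1]; exact ht, by rw [h2]; exact hτ0, by rw [h2]; exact hτ1, ?_⟩, by rw [h1, hy]⟩
  intro k hkA hkj
  rw [h1, Set.disjoint_left]
  intro q hq hqk
  obtain ⟨s, hs0, hs1, rfl⟩ := mem_segment_add_mul ht.le hq
  rcases eq_or_lt_of_le hs0 with h3 | h3
  · subst h3
    have hzk : z ∈ mir a b k := by simpa using hqk
    rcases hs.2 with ⟨-, hz⟩ | ⟨i, hA, hz, hi, hki⟩
    · exact hz (mem_MM.2 ⟨k, hzk⟩)
    · refine hki k ?_ hzk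
      rintro rfl
      exact hkA (by rw [hA]; rfl)
  rcases eq_or_lt_of_le hs1 with h4 | h4
  · subst h4
    rw [← hy] at hqk
    exact hk' k hkj hqk
  · exact hf s h3 h4 (mem_MM.2 ⟨k, hqk⟩)

end Pool.Agent.H628_Mirror
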