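import Pool.Agent.H628_Mirror.Trajectory

/-!
# The core theorem

A bounded non-exceptional trajectory with finitely many directions, whose initial direction is outside
a countable set, fills the component of the complement of the mirrors in which it starts, and so this
component is bounded.
-/

set_option autoImplicit false

open Complex ComplexConjugate Set Filter Topology

namespace Pool.Agent.H628_Mirror

variable {ι : Type*} {a b : ι → ℂ} {p : ℂ} {x d : ℕ → ℂ} {m : ℕ → ι} {R : ℝ}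

lemma abs_cr_le (u v : ℂ) : |cr u v| ≤ ‖u‖ * ‖v‖ := by
  unfold cr
  calc |(conj u * v).im| ≤ ‖conj u * v‖ := Complex.abs_im_le_norm _
    _ = ‖u‖ * ‖v‖ := by rw [norm_mul, Complex.norm_conj]

lemma eventually_norm_sub_lt {l : Filter ℕ} {y : ℕ → ℂ} {v : ℂ} (h : Tendsto y l (𝓝 v)) {ε : ℝ}
    (hε : 0 < ε) : ∀ᶠ k in l, ‖y k - v‖ < ε := by
  have h1 := h.eventually (Metric.ball_mem_nhds v hε)
  refine h1.mono fun k hk => ?_
  have h2 : dist (y k) v < ε := hk
  rwa [dist_eq_norm] at h2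

/-- the trajectory cannot converge to a vertex -/
lemma not_tendsto_vx (hg : Good a b) (hT : Traj a b p x d m) {v : ℂ}
    (hv : v ∈ Vx a b) (h : Tendsto x atTop (𝓝 v)) : False := by
  have he : ∀ j, b j - a j ≠ 0 := fun j => sub_ne_zero.2 (hg.ne j).symm
  -- mirrors met near `v` contain `v`
  have h1 := clear_eventually (a := fun _ : ℂ => a) (b := fun _ => b) (x₀ := v) (hg.ulf v)
    (fun k => continuousAt_const) (fun k => continuousAt_const) (z := fun w => w)
    (w := fun w => w) continuousAt_id continuousAt_id (B := {k | v ∈ mir a b k}) (by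
      intro k hk
      rw [segment_same, Set.disjoint_singleton_left]
      exact hk)
  have h2 : ∀ᶠ k in atTop, v ∈ mir a b (m (k + 1)) := by
    have h3 := ((tendsto_add_atTop_nat 1).eventually (h.eventually h1))
    filter_upwards [h3] with k hk
    by_contra hno
    have := hk (m (k + 1)) hno
    rw [segment_same, Set.disjoint_singleton_left] at this
    exact this (hT.mem k)
  obtain ⟨k₀, hk₀⟩ := eventually_atTop.1 h2
  -- the distance of `v` to the line of flight is constant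
  have hstep : ∀ k, k₀ ≤ k → cr (d (k + 1)) (v - x (k + 1)) = -cr (d k) (v - x k) := by
    intro k hk
    have e1 := cr_of_mem_segment (hk₀ k hk)
    have e2 := cr_of_mem_segment (hT.mem k)
    have e3 : cr (v - x (k + 1)) (b (m (k + 1)) - a (m (k + 1))) = 0 := by
      rw [show v - x (k + 1) = (v - a (m (k + 1))) - (x (k + 1) - a (m (k + 1))) by ring,
        cr_sub_left, e1, e2, sub_zero]
    obtain ⟨μ, hμ⟩ := exists_smul_of_cr_eq_zero (he _) e3
    have e4 : rf (b (m (k + 1)) - a (m (k + 1))) (v - x (k + 1)) = v - x (k + 1) := by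
      rw [hμ, rf_mul, rf_self (he _)]
    have e5 : cr (d (k + 1)) (v - x (k + 1)) = - cr (d k) (v - x (k + 1)) := by
      conv_lhs => rw [hT.rf k, ← e4]
      rw [cr_rf_rf (he _)]
    rw [e5, (hT.hit hg k).2]
    rw [show v - (x k + tt a b (m (k + 1)) (x k) (d k) * d k)
      = (v - x k) - tt a b (m (k + 1)) (x k) (d k) * d k by ring, cr_sub_right, cr_mul_right,
      cr_self, mul_zero, sub_zero]
  have hconst : ∀ n, |cr (d (k₀ + n)) (v - x (k₀ + n))| = |cr (d k₀) (v - x k₀)| := by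
    intro n
    induction n with
    | zero => rfl
    | succ n ih => rw [show k₀ + (n + 1) = k₀ + n + 1 by ring, hstep _ (by omega), abs_neg, ih]
  have hzero : cr (d k₀) (v - x k₀) = 0 := by
    rw [← abs_eq_zero]
    by_contra hne
    have hpos : 0 < |cr (d k₀) (v - x k₀)| := lt_of_le_of_ne (abs_nonneg _) (Ne.symm hne)
    obtain ⟨N, hN⟩ := Metric.tendsto_atTop.1 h _ hpos
    have h3 := hN (k₀ + N) (by omega)
    have h4 := abs_cr_le (d (k₀ + N)) (v - x (k₀ + N))
    rw [hconst N, hT.norm hg, one_mul] at h4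
    rw [dist_comm, dist_eq_norm] at h3
    linarith
  -- hence `v` is on the line of flight
  have e1 := cr_of_mem_segment (hk₀ k₀ le_rfl)
  have e2 := cr_of_mem_segment (hT.mem k₀)
  have e3 : cr (v - x (k₀ + 1)) (b (m (k₀ + 1)) - a (m (k₀ + 1))) = 0 := by
    rw [show v - x (k₀ + 1) = (v - a (m (k₀ + 1))) - (x (k₀ + 1) - a (m (k₀ + 1))) by ring,
      cr_sub_left, e1, e2, sub_zero]
  have e4 : cr (d k₀) (v - x (k₀ + 1)) = 0 := by
    rw [(hT.hit hg k₀).2, show v - (x k₀ + tt a b (m (k₀ + 1)) (x k₀) (d k₀) * d k₀)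
      = (v - x k₀) - tt a b (m (k₀ + 1)) (x k₀) (d k₀) * d k₀ by ring, cr_sub_right, cr_mul_right,
      cr_self, mul_zero, sub_zero, hzero]
  have e5 := eq_zero_of_cr (hT.hit hg k₀).1.tr e4 e3
  have e6 : v = x (k₀ + 1) := sub_eq_zero.1 e5
  exact hT.nv k₀ (e6 ▸ hv)

/-- a finite set of the plane is separated -/
lemma exists_sep {F : Set ℂ} (hF : F.Finite) :
    ∃ δ : ℝ, 0 < δ ∧ ∀ v ∈ F, ∀ w ∈ F, v ≠ w → δ < ‖v - w‖ := by
  have h : ∀ᶠ δ : ℝ in 𝓝[>] 0, ∀ q ∈ F ×ˢ F, q.1 ≠ q.2 → δ < ‖q.1 - q.2‖ := by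
    rw [eventually_all_finite (hF.prod hF)]
    intro q _
    by_cases hq : q.1 = q.2
    · exact Eventually.of_forall fun δ h => absurd hq h
    · have h1 : 0 < ‖q.1 - q.2‖ := norm_pos_iff.2 (sub_ne_zero.2 hq)
      have h2 : ∀ᶠ δ : ℝ in 𝓝 0, δ < ‖q.1 - q.2‖ := eventually_lt_nhds h1
      filter_upwards [nhdsWithin_le_nhds h2] with δ hδ _ using hδ
  obtain ⟨δ, h1, h2⟩ := (h.and self_mem_nhdsWithin).exists
  exact ⟨δ, h2, fun v hv w hw hne => h1 (v, w) ⟨hv, hw⟩ hne⟩

theorem lam_nonempty (hg : Good a b) (hT : Traj a b p x d m) (hR : ∀ k, ‖x k‖ ≤ R) {Q : Set ℂ}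
    (hQ : Vx a b ⊆ Q) (hb : d 0 ∉ BadInit a b Q) (hfin : (range d).Finite) :
    ∃ i z φ, Lam a b x d m i z φ := by
  by_contra hno
  push Not at hno
  have hD := hT.dirOK hg hQ hb hfin
  have hK : IsCompact (Metric.closedBall (0 : ℂ) R) := isCompact_closedBall 0 R
  have hcl : IsClosed (MM a b) := by rw [← isOpen_compl_iff]; exact hg.isOpen_compl
  -- all limits are vertices
  have hlim : ∀ U : Ultrafilter ℕ, (U : Filter ℕ) ≤ atTop →
      ∃ v ∈ Vx a b ∩ Metric.closedBall 0 R, Tendsto x U (𝓝 v) := by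
    intro U hU
    obtain ⟨z, hz, hzU⟩ := hK.ultrafilter_le_nhds (U.map x) (by
      rw [le_principal_iff]
      exact Filter.Eventually.of_forall (f := (U : Filter ℕ)) fun k => by simpa using hR k)
    have hzU' : Tendsto x U (𝓝 z) := hzU
    by_cases hzv : z ∈ Vx a b
    · exact ⟨z, ⟨hzv, hz⟩, hzU'⟩
    exfalso
    have hxm : ∀ᶠ k in (U : Filter ℕ), x k ∈ MM a b := by
      apply hU
      filter_upwards [eventually_ge_atTop 1] with k hk
      obtain ⟨l, rfl⟩ : ∃ l, k = l + 1 := ⟨k - 1, by omega⟩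
      exact mem_MM.2 ⟨_, hT.mem l⟩
    have hzm : z ∈ MM a b := hcl.mem_of_tendsto hzU' hxm
    obtain ⟨i, hi⟩ := mem_MM.1 hzm
    obtain ⟨hio, hik⟩ := mem_of_not_vx hzv hi
    have h1 : ∀ᶠ k in (U : Filter ℕ), m k = i := by
      filter_upwards [hzU'.eventually (hg.local_mirror hik), hU (eventually_ge_atTop 1)] with k h2 h3
      obtain ⟨l, rfl⟩ : ∃ l, k = l + 1 := ⟨k - 1, by omega⟩
      by_contra hne
      exact h2 _ hne (hT.mem l)
    have h2 : ∃ φ, ∀ᶠ k in (U : Filter ℕ), d k = φ := by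
      have h3 : ∀ᶠ k in (U : Filter ℕ), ∃ φ ∈ range d, d k = φ :=
        Filter.Eventually.of_forall fun k => ⟨d k, ⟨k, rfl⟩, rfl⟩
      rw [Ultrafilter.eventually_exists_mem_iff hfin] at h3
      obtain ⟨φ, -, h4⟩ := h3
      exact ⟨φ, h4⟩
    obtain ⟨φ, h2⟩ := h2
    refine hno i z φ ⟨hi, hzv, fun ε hε => ?_⟩
    have h3 : ∀ᶠ k in (U : Filter ℕ), ‖x k - z‖ < ε := eventually_norm_sub_lt hzU' hε
    have h4 : ∃ᶠ k in (U : Filter ℕ), m k = i ∧ d k = φ ∧ ‖x k - z‖ < ε :=
      (h1.and (h2.and h3)).frequently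
    exact h4.filter_mono hU
  -- successive limits agree
  have hdiff : Tendsto (fun k => x (k + 1) - x k) atTop (𝓝 0) := by
    rw [tendsto_iff_ultrafilter]
    intro U hU
    obtain ⟨v, hv, hvU⟩ := hlim U hU
    obtain ⟨v', hv', hvU'⟩ := hlim (U.map (fun k => k + 1)) (by
      rw [Ultrafilter.coe_map]
      exact (tendsto_add_atTop_nat 1).mono_left hU)
    rw [Ultrafilter.coe_map, tendsto_map'_iff] at hvU'
    have hvU'' : Tendsto (fun k => x (k + 1)) U (𝓝 v') := hvU'
    have h2 : ∃ φ ∈ range d, ∀ᶠ k in (U : Filter ℕ), d k = φ := by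
      have h3 : ∀ᶠ k in (U : Filter ℕ), ∃ φ ∈ range d, d k = φ :=
        Filter.Eventually.of_forall fun k => ⟨d k, ⟨k, rfl⟩, rfl⟩
      rw [Ultrafilter.eventually_exists_mem_iff hfin] at h3
      exact h3
    obtain ⟨φ, ⟨k₁, hk₁⟩, h2⟩ := h2
    have hφ1 : ‖φ‖ = 1 := by rw [← hk₁]; exact hT.norm hg k₁
    have hφ0 : φ ≠ 0 := by rintro rfl; simp at hφ1
    have h3 : Tendsto (fun k => x (k + 1) - x k) U (𝓝 (v' - v)) := hvU''.sub hvU
    have h4 : cr φ (v' - v) = 0 := by
      have h5 : Tendsto (fun k => cr φ (x (k + 1) - x k)) U (𝓝 (cr φ (v' - v))) := by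
        have hc : Continuous (fun w : ℂ => cr φ w) := by
          unfold Pool.Agent.H628_Mirror.cr; fun_prop
        exact (hc.tendsto _).comp h3
      have h6 : ∀ᶠ k in (U : Filter ℕ), cr φ (x (k + 1) - x k) = 0 := by
        filter_upwards [h2] with k hk
        rw [(hT.hit hg k).2, ← hk]
        rw [show x k + tt a b (m (k + 1)) (x k) (d k) * d k - x k
          = tt a b (m (k + 1)) (x k) (d k) * d k by ring, cr_mul_right, cr_self, mul_zero]
      exact tendsto_nhds_unique_of_eventuallyEq h5 tendsto_const_nhds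
        (h6.mono fun k hk => hk)
    have h5 : v' = v := by
      by_contra hne
      have h6 : cr (v' - v) φ = 0 := by rw [cr_comm, h4, neg_zero]
      obtain ⟨μ, hμ⟩ := exists_smul_of_cr_eq_zero hφ0 h6
      have hμ0 : μ ≠ 0 := by
        rintro rfl
        rw [ofReal_zero, zero_mul] at hμ
        exact hne (sub_eq_zero.1 hμ)
      have hbad : φ ∉ BadQ a b Q := by rw [← hk₁]; exact hT.not_bad hg hb k₁
      rcases lt_or_gt_of_ne hμ0 with h7 | h7
      · apply hbad
        refine ⟨[], [], v, hQ hv.1, v', hQ hv'.1, ?_⟩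
        have e : Uw a b [] v - Uw a b [] v' = ((-μ : ℝ) : ℂ) * φ := by
          rw [Uw_nil, Uw_nil]; push_cast; linear_combination -hμ
        rw [e, nrm_mul hφ1 (by linarith)]
      · apply hbad
        refine ⟨[], [], v', hQ hv'.1, v, hQ hv.1, ?_⟩
        have e : Uw a b [] v' - Uw a b [] v = (μ : ℂ) * φ := by
          rw [Uw_nil, Uw_nil]; exact hμ
        rw [e, nrm_mul hφ1 h7]
    rw [h5, sub_self] at h3
    exact h3
  obtain ⟨δ, hδ, hsep⟩ := exists_sep (hg.finite_vx R)
  have hnear : ∀ᶠ k in atTop, ∃ v ∈ Vx a b ∩ Metric.closedBall 0 R, ‖x k - v‖ < δ / 4 := by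
    by_contra hcon
    rw [not_eventually] at hcon
    obtain ⟨U, hU1, hU2⟩ : ∃ U : Ultrafilter ℕ, (U : Filter ℕ) ≤ atTop ∧
        ∀ᶠ k in (U : Filter ℕ), ¬ ∃ v ∈ Vx a b ∩ Metric.closedBall 0 R, ‖x k - v‖ < δ / 4 := by
      have := Filter.frequently_iff_neBot.1 hcon
      refine ⟨@Ultrafilter.of _ _ this, ?_, ?_⟩
      · exact (@Ultrafilter.of_le _ _ this).trans inf_le_left
      · have h1 := (@Ultrafilter.of_le _ _ this).trans inf_le_right
        exact le_principal_iff.1 h1
    obtain ⟨v, hv, hvU⟩ := hlim U hU1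
    have h3 : ∀ᶠ k in (U : Filter ℕ), ‖x k - v‖ < δ / 4 :=
      eventually_norm_sub_lt hvU (by positivity)
    obtain ⟨k, h4, h5⟩ := (hU2.and h3).exists
    exact h4 ⟨v, hv, h5⟩
  have hsmall : ∀ᶠ k in atTop, ‖x (k + 1) - x k‖ < δ / 4 := by
    have := eventually_norm_sub_lt hdiff (show 0 < δ / 4 by positivity)
    filter_upwards [this] with k hk
    rwa [sub_zero] at hk
  obtain ⟨k₀, hk₀⟩ := eventually_atTop.1 (hnear.and hsmall)
  obtain ⟨v, hv, hv0⟩ := (hk₀ k₀ le_rfl).1
  have hstay : ∀ n, ‖x (k₀ + n) - v‖ < δ / 4 := by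
    intro n
    induction n with
    | zero => exact hv0
    | succ n ih =>
      obtain ⟨v', hv', h1⟩ := (hk₀ (k₀ + (n + 1)) (by omega)).1
      have h2 := (hk₀ (k₀ + n) (by omega)).2
      rw [show k₀ + n + 1 = k₀ + (n + 1) by ring] at h2
      by_cases hvv : v = v'
      · rw [hvv]; exact h1
      · exfalso
        have h3 := hsep v hv v' hv' hvv
        have h4 : v - v' = -(x (k₀ + n) - v) - (x (k₀ + (n + 1)) - x (k₀ + n))
          + (x (k₀ + (n + 1)) - v') := by ring
        rw [h4] at h3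
        have h5 := norm_add_le (-(x (k₀ + n) - v) - (x (k₀ + (n + 1)) - x (k₀ + n)))
          (x (k₀ + (n + 1)) - v')
        have h6 := norm_sub_le (-(x (k₀ + n) - v)) (x (k₀ + (n + 1)) - x (k₀ + n))
        rw [norm_neg] at h6
        linarith
  refine not_tendsto_vx hg hT hv.1 ?_
  rw [tendsto_iff_ultrafilter]
  intro U hU
  obtain ⟨v', hv', hvU⟩ := hlim U hU
  have h1 : v' = v := by
    by_contra hne
    have h2 := hsep v' hv' v hv hne
    have h3 : ∀ᶠ k in (U : Filter ℕ), ‖x k - v'‖ < δ / 4 :=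
      eventually_norm_sub_lt hvU (by positivity)
    obtain ⟨k, h4, h5⟩ := (h3.and (hU (eventually_ge_atTop k₀))).exists
    have h6 := hstay (k - k₀)
    rw [show k₀ + (k - k₀) = k by omega] at h6
    have h7 : v' - v = -(x k - v') + (x k - v) := by ring
    rw [h7] at h2
    have h8 := norm_add_le (-(x k - v')) (x k - v)
    rw [norm_neg] at h8
    linarith
  rw [← h1]; exact hvU

/-! ### The trajectory stays in the component of its starting point -/

lemma conn_of_segment {y z : ℂ} (h : ∀ θ : ℝ, 0 ≤ θ → θ ≤ 1 → y + θ * (z - y) ∉ MM a b)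
    (hy : y ∈ connectedComponentIn (MM a b)ᶜ p) : z ∈ connectedComponentIn (MM a b)ᶜ p := by
  have hsub : segment ℝ y z ⊆ (MM a b)ᶜ := by
    intro w hw
    obtain ⟨θ, h0, h1, rfl⟩ := mem_segment_iff'.1 hw
    exact h θ h0 h1
  have h1 : segment ℝ y z ⊆ connectedComponentIn (MM a b)ᶜ y :=
    (convex_segment y z).isPreconnected.subset_connectedComponentIn (left_mem_segment ℝ y z) hsub
  rw [connectedComponentIn_eq hy]
  exact h1 (right_mem_segment ℝ y z)

/-- the flights are in the component of the starting point -/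
theorem flight_mem (hg : Good a b) (hT : Traj a b p x d m) (k : ℕ) (s : ℝ) (h0 : 0 < s)
    (h1 : s < tt a b (m (k + 1)) (x k) (d k)) :
    x k + s * d k ∈ connectedComponentIn (MM a b)ᶜ p := by
  induction k generalizing s with
  | zero =>
    have hp : p ∈ connectedComponentIn (MM a b)ᶜ p := mem_connectedComponentIn hT.off
    refine conn_of_segment (y := p) ?_ hp
    intro θ hθ0 hθ1
    rw [hT.x0]
    rw [hT.x0] at h1
    rcases eq_or_lt_of_le hθ0 with h2 | h2
    · rw [← h2]; simpa using hT.off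
    · have e : p + (θ : ℂ) * (p + s * d 0 - p) = p + ((θ * s : ℝ) : ℂ) * d 0 := by push_cast; ring
      rw [e]
      have h3 := (hT.hit hg 0).1
      have h4 := hT.st hg 0
      rw [hT.x0] at h3 h4
      exact hit_free h4 h3 (by positivity) (by nlinarith)
  | succ k ih =>
    have hH := (hT.hit hg k).1
    have hS := hT.st hg k
    have hH' := (hT.hit hg (k + 1)).1
    have hS' := hT.st hg (k + 1)
    set j := m (k + 1) with hj
    have he : b j - a j ≠ 0 := sub_ne_zero.2 (hg.ne j).symm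
    set e := b j - a j with hedef
    set z := x (k + 1) with hz
    set T := tt a b j (x k) (d k) with hTdef
    have hzT : z = x k + T * d k := (hT.hit hg k).2
    have hzm : z ∈ mir a b j := hT.mem k
    have hzk : ∀ l, l ≠ j → z ∉ mir a b l := (mem_of_not_vx (hT.nv k) hzm).2
    have hcre : cr (z - a j) e = 0 := cr_of_mem_segment hzm
    have htr : cr (d k) e ≠ 0 := hH.tr
    have hpar : cr (d k + rf e (d k)) e = 0 := by rw [cr_add_left, cr_rf_self he]; ring
    obtain ⟨μ, hμ⟩ := exists_smul_of_cr_eq_zero he hpar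
    have hd' : d (k + 1) = rf e (d k) := hT.rf k
    -- choose a small time `r`
    have hloc : ∀ᶠ r : ℝ in 𝓝 0, ∀ l, l ≠ j →
        Disjoint (segment ℝ (z - r * d k) (z + r * d (k + 1))) (mir a b l) := by
      have := clear_eventually (a := fun _ : ℝ => a) (b := fun _ => b) (x₀ := (0 : ℝ)) (hg.ulf 0)
        (fun k => continuousAt_const) (fun k => continuousAt_const) (z := fun r => z - r * d k)
        (w := fun r => z + r * d (k + 1)) (by fun_prop) (by fun_prop) (B := {j}) (by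
          intro l hl
          simp only [ofReal_zero, zero_mul, sub_zero, add_zero, segment_same,
            Set.disjoint_singleton_left]
          exact hzk l (by simpa using hl))
      filter_upwards [this] with r hr l hl using hr l (by simpa using hl)
    have hT0 : 0 < T := hH.t0
    obtain ⟨r, ⟨hr1, hr2⟩, hr3, hr4⟩ : ∃ r : ℝ, ((∀ l, l ≠ j →
        Disjoint (segment ℝ (z - r * d k) (z + r * d (k + 1))) (mir a b l)) ∧ r < T) ∧ r < s ∧ 0 < r := by
      have h5 : ∀ᶠ r : ℝ in 𝓝 0, r < T := eventually_lt_nhds hT0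
      have h6 : ∀ᶠ r : ℝ in 𝓝 0, r < s := eventually_lt_nhds h0
      have h7 : ∀ᶠ r : ℝ in 𝓝[>] 0, ((∀ l, l ≠ j →
        Disjoint (segment ℝ (z - r * d k) (z + r * d (k + 1))) (mir a b l)) ∧ r < T) ∧ r < s ∧ 0 < r := by
        filter_upwards [nhdsWithin_le_nhds hloc, nhdsWithin_le_nhds h5, nhdsWithin_le_nhds h6,
          self_mem_nhdsWithin] with r e1 e2 e3 e4
        exact ⟨⟨e1, e2⟩, e3, e4⟩
      exact h7.exists
    have c1 : z - r * d k ∈ connectedComponentIn (MM a b)ᶜ p := by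
      have := ih (T - r) (by linarith) (by linarith)
      have e1 : x k + ((T - r : ℝ) : ℂ) * d k = z - r * d k := by rw [hzT]; push_cast; ring
      rwa [e1] at this
    have c2 : z + r * d (k + 1) ∈ connectedComponentIn (MM a b)ᶜ p := by
      refine conn_of_segment (y := z - r * d k) ?_ c1
      intro θ hθ0 hθ1 hm
      obtain ⟨l, hl⟩ := mem_MM.1 hm
      have hlj : l = j := by
        by_contra hne
        refine Set.disjoint_left.1 (hr1 l hne) ?_ hl
        exact mem_segment_iff'.2 ⟨θ, hθ0, hθ1, rfl⟩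
      rw [hlj] at hl
      have h5 := cr_of_mem_segment hl
      have e1 : z - r * d k + θ * (z + r * d (k + 1) - (z - r * d k)) - a j
          = (z - a j) - r * d k + ((θ * r * μ : ℝ) : ℂ) * e := by
        have : z + r * d (k + 1) - (z - r * d k) = r * (μ * e) := by
          rw [← hμ, hd']; ring
        rw [this]; push_cast; ring
      rw [← hedef, e1, cr_add_left, cr_sub_left, hcre, cr_mul_left, cr_mul_left, cr_self, mul_zero,
        add_zero, zero_sub, neg_eq_zero] at h5
      rcases mul_eq_zero.1 h5 with h6 | h6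
      · linarith
      · exact htr h6
    refine conn_of_segment (y := z + r * d (k + 1)) ?_ c2
    intro θ hθ0 hθ1
    have e1 : z + r * d (k + 1) + θ * (z + s * d (k + 1) - (z + r * d (k + 1)))
        = z + ((r + θ * (s - r) : ℝ) : ℂ) * d (k + 1) := by push_cast; ring
    rw [e1]
    exact hit_free hS' hH' (by nlinarith) (by nlinarith)

/-- **Core theorem.** -/
theorem core (hg : Good a b) (hT : Traj a b p x d m) (hR : ∀ k, ‖x k‖ ≤ R)
    (hfin : (range d).Finite) {Q : Set ℂ} (h0 : (0 : ℂ) ∈ Q) (hQ : Vx a b ⊆ Q)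
    (hb : d 0 ∉ BadInit a b Q) : connectedComponentIn (MM a b)ᶜ p ⊆ Metric.closedBall 0 R := by
  have he : ∀ j, b j - a j ≠ 0 := fun j => sub_ne_zero.2 (hg.ne j).symm
  have hD := hT.dirOK hg hQ hb hfin
  have hI := lam_inv hg hT hR hD
  have hbad := hT.dd_not_bad hg hb
  obtain ⟨i, z, φ, hΛ⟩ := lam_nonempty hg hT hR hQ hb hfin
  have h1 := inv_open hg hI hD h0 hQ hbad hΛ
  -- the trajectory itself consists of states of the family
  have h2 : ∃ k, 2 ≤ k ∧ m k = i ∧ d k = φ ∧ Lam a b x d m i (x k) φ := by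
    rw [Metric.eventually_nhds_iff] at h1
    obtain ⟨ρ, hρ, h1⟩ := h1
    have hne : 0 < ‖b i - a i‖ := norm_pos_iff.2 (he i)
    have h3 : ∀ᶠ w in 𝓝 z, ‖w - z‖ < ρ * ‖b i - a i‖ := by
      have := Metric.ball_mem_nhds z (show 0 < ρ * ‖b i - a i‖ by positivity)
      filter_upwards [this] with w hw
      rwa [Metric.mem_ball, dist_eq_norm] at hw
    obtain ⟨k, ⟨h4, h5, h6⟩, h7⟩ := ((lam_freq hΛ h3).and_eventually (eventually_ge_atTop 2)).exists
    refine ⟨k, h7, h4, h5, ?_⟩
    obtain ⟨l, rfl⟩ : ∃ l, k = l + 1 := ⟨k - 1, by omega⟩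
    have e1 := cr_of_mem_segment (hT.mem l)
    rw [h4] at e1
    have e2 := cr_of_mem_segment hΛ.1
    have e3 : cr (x (l + 1) - z) (b i - a i) = 0 := by
      rw [show x (l + 1) - z = (x (l + 1) - a i) - (z - a i) by ring, cr_sub_left, e1, e2, sub_zero]
    obtain ⟨μ, hμ⟩ := exists_smul_of_cr_eq_zero (he i) e3
    have e4 : x (l + 1) = z + μ * (b i - a i) := by rw [← hμ]; ring
    rw [e4]
    apply h1
    rw [Real.dist_eq, sub_zero]
    rw [hμ, norm_mul, Complex.norm_real, Real.norm_eq_abs] at h6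
    exact lt_of_mul_lt_mul_right h6 (norm_nonneg _)
  obtain ⟨k, hk, hmk, hdk, hΛk⟩ := h2
  obtain ⟨s1, s2, -⟩ := hT.late hg hk
  have hT0 := s2.t0
  set T := tt a b (m (k + 1)) (x k) (d k) with hTdef
  -- a point of the flight after `x k`
  set y := x k + ((T / 2 : ℝ) : ℂ) * d k with hy
  have hyc : y ∈ connectedComponentIn (MM a b)ᶜ p :=
    flight_mem hg hT k (T / 2) (by positivity) (by linarith)
  have hym : y ∉ MM a b := connectedComponentIn_subset _ _ hyc
  have hfl : Fl a b y (-d k) (x k) := by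
    refine ⟨T / 2, by positivity, by rw [hy]; ring, ?_, fun s hs0 hs1 => ?_⟩
    · obtain ⟨l, rfl⟩ : ∃ l, k = l + 1 := ⟨k - 1, by omega⟩
      exact mem_MM.2 ⟨_, hT.mem l⟩
    · have e : y + (s : ℂ) * -d k = x k + ((T / 2 - s : ℝ) : ℂ) * d k := by
        rw [hy]; push_cast; ring
      rw [e]
      exact hit_free s1 s2 (by linarith) (by linarith)
  have hyR : y ∈ Reg a b (Dd d) (Lam a b x d m) := by
    simp only [Reg, mem_iUnion, mem_ofPred_eq]
    refine ⟨φ, hI.dir _ _ _ hΛk, Or.inl ⟨i, ?_⟩⟩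
    have h3 := hit_of_fl (st_off hym (neg_ne_zero.2 s1.1)) (hg.ne i) hfl hΛk.2.1 hΛk.1
    rw [hdk] at h3
    refine ⟨h3.1, ?_⟩
    rw [← h3.2]
    exact hΛk
  rw [connectedComponentIn_eq hyc]
  exact comp_bounded hg hI hD h0 hQ hbad hym hyR

end Pool.Agent.H628_Mirror
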