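import Mathlib

/-!
# Light rays among segment mirrors: definitions

The definitions are those of the problem: a set of segments, and the light ray given by its successive
reflection points and directions.
-/

set_option autoImplicit false

open Complex ComplexConjugate Set Filter Topology

namespace Pool.Agent.H628_Mirror

/-- `S` is a locally finite family of nondegenerate closed segments of the plane (the mirrors), any
two of which meet in at most one point. -/
structure MirrorFamily (S : Set (Set ℂ)) : Prop where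
  seg : ∀ m ∈ S, ∃ a b : ℂ, a ≠ b ∧ m = segment ℝ a b
  locfin : ∀ R : ℝ, {m ∈ S | (m ∩ Metric.ball (0 : ℂ) R).Nonempty}.Finite
  meet : ∀ m₁ ∈ S, ∀ m₂ ∈ S, m₁ ≠ m₂ → (m₁ ∩ m₂).Subsingleton

/-- One step of the light ray: it leaves `x` in direction `d`, the first point of the mirrors it meets
is `y`, and there it is reflected into the direction `d'` by a mirror through `y`. -/
def Step (S : Set (Set ℂ)) (x d y d' : ℂ) : Prop :=
  (∃ t : ℝ, 0 < t ∧ y = x + (t : ℂ) * d ∧ y ∈ ⋃₀ S ∧
    ∀ s : ℝ, 0 < s → s < t → x + (s : ℂ) * d ∉ ⋃₀ S) ∧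
  ∃ a b : ℂ, segment ℝ a b ∈ S ∧ y ∈ segment ℝ a b ∧ d' = (b - a) / conj (b - a) * conj d

/-- The point `y` is an end point of a mirror or is common to two mirrors. -/
def Singular (S : Set (Set ℂ)) (y : ℂ) : Prop :=
  (∃ a b : ℂ, segment ℝ a b ∈ S ∧ (y = a ∨ y = b)) ∨
    ∃ m₁ ∈ S, ∃ m₂ ∈ S, m₁ ≠ m₂ ∧ y ∈ m₁ ∧ y ∈ m₂

/-- The light ray from `p` at angle `α` hits, after finitely many steps, a singular point. -/
def Exceptional (S : Set (Set ℂ)) (p : ℂ) (α : ℝ) : Prop :=
  ∃ (n : ℕ) (x d : ℕ → ℂ), x 0 = p ∧ d 0 = Complex.exp ((α : ℂ) * Complex.I) ∧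
    (∀ k < n, Step S (x k) (d k) (x (k + 1)) (d (k + 1))) ∧ Singular S (x n)

/-- `x 0 = p, x 1, x 2, …` are the successive reflection points and `d 0, d 1, …` the successive
directions of a light ray from `p` at angle `α` which is reflected infinitely often. -/
def IsRay (S : Set (Set ℂ)) (p : ℂ) (α : ℝ) (x d : ℕ → ℂ) : Prop :=
  x 0 = p ∧ d 0 = Complex.exp ((α : ℂ) * Complex.I) ∧
    ∀ k : ℕ, Step S (x k) (d k) (x (k + 1)) (d (k + 1))

/-- the light ray from `p` at angle `α` is reflected forever and stays in a bounded region -/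
def Trapped (S : Set (Set ℂ)) (p : ℂ) (α : ℝ) : Prop :=
  ∃ x d : ℕ → ℂ, IsRay S p α x d ∧ Bornology.IsBounded (Set.range x)

end Pool.Agent.H628_Mirror
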