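import Pool.Agent.H628_Mirror.FinDir

/-!
# Leaving discs; general index types
-/

set_option autoImplicit false

open Complex ComplexConjugate Set Filter Topology

namespace Pool.Agent.H628_Mirror

variable {ι : Type*} {a b : ι → ℂ}

/-! ### Families indexed by an arbitrary type -/

section
variable {S : Set (Set ℂ)}

lemma gMM (h : S = range (mir a b)) : MM a b = ⋃₀ S := by
  rw [h, sUnion_range]; rfl

lemma mir_injective (hg : Good a b) : Function.Injective (mir a b) := by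
  intro i j h
  by_contra hij
  have h1 := hg.pw i j hij
  rw [← h, inter_self] at h1
  exact hg.ne i (h1 (left_mem_segment ℝ _ _) (right_mem_segment ℝ _ _))

lemma gsingular (hg : Good a b) (h : S = range (mir a b)) (u : ℂ) :
    Singular S u ↔ u ∈ Vx a b := by
  constructor
  · rintro (⟨a', b', h1, h2⟩ | ⟨m₁, h1, m₂, h2, h3, h4, h5⟩)
    · rw [h] at h1
      obtain ⟨i, hi⟩ := h1
      left
      refine ⟨i, ?_⟩
      rcases segment_ends (hg.ne i) hi with ⟨e1, e2⟩ | ⟨e1, e2⟩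
      · rw [e1, e2]; exact h2
      · rw [e1, e2]; exact h2.symm
    · rw [h] at h1 h2
      obtain ⟨i, rfl⟩ := h1
      obtain ⟨j, rfl⟩ := h2
      right
      exact ⟨i, j, fun hij => h3 (by rw [hij]), h4, h5⟩
  · rintro (⟨i, h1⟩ | ⟨i, j, hij, h1, h2⟩)
    · left
      exact ⟨a i, b i, by rw [h]; exact ⟨i, rfl⟩, h1⟩
    · right
      exact ⟨mir a b i, by rw [h]; exact ⟨i, rfl⟩, mir a b j, by rw [h]; exact ⟨j, rfl⟩,
        fun he => hij (mir_injective hg he), h1, h2⟩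

lemma gstep (hg : Good a b) (h : S = range (mir a b)) {x d y d' : ℂ} (hs : Step S x d y d') :
    Fl a b x d y ∧ ∃ j : ι, y ∈ mir a b j ∧ d' = rf (b j - a j) d := by
  obtain ⟨⟨t, ht, hy, hym, hf⟩, a', b', h1, h2, h3⟩ := hs
  refine ⟨⟨t, ht, hy, by rw [gMM h]; exact hym, by rw [gMM h]; exact hf⟩, ?_⟩
  rw [h] at h1
  obtain ⟨i, hi⟩ := h1
  refine ⟨i, by rw [hi]; exact h2, ?_⟩
  rw [h3]
  rcases segment_ends (hg.ne i) hi with ⟨e1, e2⟩ | ⟨e1, e2⟩
  · rw [e1, e2]; rfl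
  · rw [e1, e2, rf]
    have : conj (b' - a') = - conj (a' - b') := by rw [← map_neg]; congr 1; ring
    rw [this, show b' - a' = -(a' - b') by ring, neg_div_neg_eq]

lemma gtraj (hg : Good a b) (hS : S = range (mir a b)) {p : ℂ}
    (hp : p ∉ ⋃₀ S) {α : ℝ} (hex : ¬ Exceptional S p α) {x d : ℕ → ℂ} (h : IsRay S p α x d) :
    ∃ m : ℕ → ι, Traj a b p x d m := by
  have h1 : ∀ k, ∃ j : ι, x (k + 1) ∈ mir a b j ∧ d (k + 1) = rf (b j - a j) (d k) := fun k =>
    (gstep hg hS (h.2.2 k)).2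
  choose j hj1 hj2 using h1
  have hnv : ∀ k, x (k + 1) ∉ Vx a b := by
    intro k hk
    rw [← gsingular hg hS] at hk
    exact hex ⟨k + 1, x, d, h.1, h.2.1, fun l _ => h.2.2 l, hk⟩
  refine ⟨fun k => j (k - 1), h.1, ?_, norm_eq_one_of_ray h,
    fun k => (gstep hg hS (h.2.2 k)).1, hnv, fun k => hj1 k, fun k => hj2 k⟩
  rw [gMM hS]; exact hp

lemma gbad_of_exceptional (hg : Good a b) (hS : S = range (mir a b)) {p : ℂ}
    (hp : p ∉ ⋃₀ S) {α : ℝ} (hex : Exceptional S p α) {Q : Set ℂ} (hQ : Vx a b ⊆ Q) (hpQ : p ∈ Q) :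
    Complex.exp ((α : ℂ) * Complex.I) ∈ BadQ a b Q := by
  obtain ⟨n, x, d, h1, h2, h3, h4⟩ := hex
  rw [gsingular hg hS] at h4
  have hne : Nonempty ι := by
    rcases h4 with ⟨i, -⟩ | ⟨i, -⟩ <;> exact ⟨i⟩
  have h5 : ∀ k, ∃ j : ι, k < n → x (k + 1) ∈ mir a b j ∧ d (k + 1) = rf (b j - a j) (d k) := by
    intro k
    by_cases hk : k < n
    · obtain ⟨j, hj⟩ := (gstep hg hS (h3 k hk)).2
      exact ⟨j, fun _ => hj⟩
    · exact ⟨hne.some, fun h => absurd h hk⟩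
  choose j hj using h5
  rw [← h2]
  refine bad_of_vertex (m := fun k => j (k - 1)) hg (by rw [h1, gMM hS]; exact hp)
    (by rw [h2]; exact norm_exp_angle α) hQ (by rw [h1]; exact hpQ) n ?_ h4
  intro k hk
  exact ⟨(gstep hg hS (h3 k hk)).1, fun _ => hj k hk⟩

lemma gcountable_exceptional (hg : Good a b) (hS : S = range (mir a b)) {p : ℂ}
    (hp : p ∉ ⋃₀ S) : {α : ℝ | Exceptional S p α}.Countable := by
  have := hg.countable
  have h1 : (Vx a b ∪ {p}).Countable := hg.countable_vx.union (countable_singleton p)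
  refine (countable_angle (countable_badQ (a := a) (b := b) h1)).mono ?_
  intro α hα
  exact gbad_of_exceptional hg hS hp hα subset_union_left (by simp)

end

/-! ### Trajectories in a disc do not leave it -/

section
variable {p : ℂ} {x d : ℕ → ℂ} {m : ℕ → ι} {R : ℝ}

lemma path_of_traj (hg : Good a b) (hT : Traj a b p x d m) {w : List ι} :
    ∀ {k : ℕ} {A' : Set ι} {z' φ' : ℂ}, Path a b (Ak m k) (x k) (d k) w A' z' φ' →
      z' = x (k + w.length) ∧ φ' = d (k + w.length) ∧ A' = Ak m (k + w.length) := by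
  induction w with
  | nil =>
    intro k A' z' φ' h
    cases h
    exact ⟨rfl, rfl, rfl⟩
  | cons j w ih =>
    intro k A' z' φ' h
    cases h with
    | cons h hp =>
      have h1 := hT.hit hg k
      have h2 := hit_unique (hT.st hg k) h h1.1
      subst h2
      rw [← h1.2, ← hT.rf k] at hp
      have h3 : ({m (k + 1)} : Set ι) = Ak m (k + 1) := rfl
      rw [h3] at hp
      obtain ⟨e1, e2, e3⟩ := ih hp
      have e : k + (m (k + 1) :: w).length = k + 1 + w.length := by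
        rw [List.length_cons]; omega
      rw [e]
      exact ⟨e1, e2, e3⟩

lemma not_mem_Ak (hg : Good a b) (hT : Traj a b p x d m) (k : ℕ) : m (k + 1) ∉ Ak m k := by
  intro h
  have h1 := hT.st hg k
  have h2 := (hT.hit hg k).1
  rcases h1.2 with ⟨hA, -⟩ | ⟨i, hA, hz, hi, -⟩
  · rw [hA] at h; exact h
  · rw [hA] at h
    have h3 : m (k + 1) = i := h
    rw [← h3] at hz hi
    have h4 : tt a b (m (k + 1)) (x k) (d k) = 0 :=
      tt_of_mem hi (t := 0) (by simpa [mir] using openSegment_subset_segment ℝ _ _ hz)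
    have := h2.t0
    linarith

theorem not_leaves (hg : Good a b) (hT : Traj a b p x d m) (hR : ∀ k, ‖x k‖ ≤ R) :
    ¬ Leaves a b ∅ p (d 0) R := by
  rintro ⟨w, A', z', φ', hp, t, ht, hlt, hc⟩
  have hp' : Path a b (Ak m 0) (x 0) (d 0) w A' z' φ' := by rw [hT.x0]; exact hp
  obtain ⟨e1, e2, e3⟩ := path_of_traj hg hT hp'
  rw [zero_add] at e1 e2 e3
  set n := w.length
  obtain ⟨h1, h2⟩ := hT.hit hg n
  rw [e1, e2] at hlt hc
  rw [e3] at hc
  rcases le_or_gt (tt a b (m (n + 1)) (x n) (d n)) t with h | h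
  · exact Set.disjoint_left.1 (hc _ (not_mem_Ak hg hT n)) (add_mul_mem_segment h1.t0.le h)
      (hit_mem' h1)
  · have h3 := segment_subset_closedBall (hR n) (hR (n + 1))
    rw [h2] at h3
    have := h3 (add_mul_mem_segment (z := x n) (φ := d n) ht.le h.le)
    rw [mem_closedBall_zero_iff] at this
    linarith

end

/-! ### Rays outside the bad directions leave the disc -/

lemma exit_of_free {A : Set ι} {z ψ : ℂ} {R t : ℝ} (hs : St a b A z ψ) (ht : 0 < t)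
    (hR : R < ‖z + t * ψ‖) (hf : ∀ s : ℝ, 0 < s → s ≤ t → z + s * ψ ∉ MM a b) :
    Exit a b A z ψ R := by
  refine ⟨t, ht, hR, fun k hk => ?_⟩
  rw [Set.disjoint_left]
  intro q hq hqk
  obtain ⟨s, hs0, hs1, rfl⟩ := mem_segment_add_mul ht.le hq
  rcases eq_or_lt_of_le hs0 with h | h
  · rw [← h] at hqk
    simp only [ofReal_zero, zero_mul, add_zero] at hqk
    rcases hs.2 with ⟨-, hz⟩ | ⟨i, hA, -, -, hki⟩
    · exact hz (mem_MM.2 ⟨k, hqk⟩)
    · refine hki k ?_ hqk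
      rintro rfl
      exact hk (by rw [hA]; rfl)
  · exact hf s h hs1 (mem_MM.2 ⟨k, hqk⟩)

/-- a state which is not an exit state has a next hit in the disc, if it does not fly to a vertex -/
lemma next_hit (hg : Good a b) {A : Set ι} {z ψ : ℂ} {R : ℝ} (hs : St a b A z ψ) (h1 : ‖ψ‖ = 1)
    (hex : ¬ Exit a b A z ψ R) (hnv : ∀ u ∈ Vx a b, ¬ Fl a b z ψ u) :
    ∃ j, Hit a b A z ψ j ∧ ‖z + tt a b j z ψ * ψ‖ ≤ R := by
  have hT : 0 < max R 0 + ‖z‖ + 1 := by positivity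
  have h2 : ∃ t : ℝ, 0 < t ∧ z + t * ψ ∈ MM a b := by
    by_contra hno
    push Not at hno
    apply hex
    refine exit_of_free (t := max R 0 + ‖z‖ + 1) hs hT ?_ fun s h0 _ => hno s h0
    have := norm_far (x := z) h1 hT.le
    have := le_max_left R 0
    linarith
  obtain ⟨t, ht, hm⟩ := h2
  obtain ⟨r, hr, -, hr1, hr2⟩ := Pool.Agent.H628_Mirror.exists_fl hg hs ht hm
  have hfl : Fl a b z ψ (z + r * ψ) := ⟨r, hr, rfl, hr1, hr2⟩
  have hv : z + r * ψ ∉ Vx a b := fun hv => hnv _ hv hfl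
  obtain ⟨j, hj⟩ := mem_MM.1 hr1
  obtain ⟨h3, h4⟩ := hit_of_fl hs (hg.ne j) hfl hv hj
  refine ⟨j, h3, ?_⟩
  rw [← h4]
  by_contra hlt
  rw [not_le] at hlt
  have hc : ContinuousAt (fun s : ℝ => ‖z + s * ψ‖) r := by fun_prop
  have h5 : ∀ᶠ s : ℝ in 𝓝[<] r, R < ‖z + s * ψ‖ ∧ 0 < s ∧ s < r := by
    filter_upwards [nhdsWithin_le_nhds (hc.eventually_const_lt hlt),
      nhdsWithin_le_nhds (eventually_gt_nhds hr), self_mem_nhdsWithin] with s g1 g2 g3
    exact ⟨g1, g2, g3⟩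
  obtain ⟨s, g1, g2, g3⟩ := h5.exists
  exact hex (exit_of_free hs g2 g1 fun s' k0 k1 => hr2 s' k0 (by linarith))

/-- if the ray does not leave the disc and its direction is not bad, there is an infinite trajectory
in the disc -/
theorem exists_traj (hg : Good a b) {p : ℂ} (hp : p ∉ MM a b) {R : ℝ} {φ : ℂ} (h1 : ‖φ‖ = 1)
    {Q : Set ℂ} (hQ : Vx a b ⊆ Q) (hpQ : p ∈ Q) (hφ : φ ∉ BadQ a b Q)
    (hL : ¬ Leaves a b ∅ p φ R) :
    ∃ (x d : ℕ → ℂ) (m : ℕ → ι), Traj a b p x d m ∧ d 0 = φ ∧ ∀ k, ‖x k‖ ≤ R := by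
  have hφ0 : φ ≠ 0 := by rintro rfl; simp at h1
  have hpR : ‖p‖ ≤ R := by
    by_contra hlt
    rw [not_le] at hlt
    apply hL
    refine ⟨[], ∅, p, φ, Path.nil _ _ _, ?_⟩
    have hs := st_off (a := a) (b := b) hp hφ0
    have hc : ContinuousAt (fun s : ℝ => ‖p + s * φ‖) 0 := by fun_prop
    have h2 : ∀ᶠ s : ℝ in 𝓝 0, R < ‖p + s * φ‖ := hc.eventually_const_lt (by simpa using hlt)
    have h3 := hs.free hg
    rw [eventually_nhdsWithin_iff, Metric.eventually_nhds_iff] at h3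
    obtain ⟨ρ, hρ, hfree⟩ := h3
    have h4 : ∀ᶠ s : ℝ in 𝓝[>] 0, R < ‖p + s * φ‖ ∧ s < ρ ∧ 0 < s := by
      filter_upwards [nhdsWithin_le_nhds h2, nhdsWithin_le_nhds (eventually_lt_nhds hρ),
        self_mem_nhdsWithin] with s g1 g2 g3
      exact ⟨g1, g2, g3⟩
    obtain ⟨s, g1, g2, g3⟩ := h4.exists
    refine exit_of_free hs g3 g1 fun s' k0 k1 => hfree ?_ k0
    rw [Real.dist_eq, sub_zero, abs_of_pos k0]; linarith
  have hstep : ∀ s : {s : Set ι × ℂ × ℂ // ∃ w, Path a b ∅ p φ w s.1 s.2.1 s.2.2},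
      ∃ j, Hit a b s.1.1 s.1.2.1 s.1.2.2 j ∧
        ‖s.1.2.1 + tt a b j s.1.2.1 s.1.2.2 * s.1.2.2‖ ≤ R := by
    rintro ⟨⟨A, z, ψ⟩, w, hw⟩
    simp only at hw
    have hs := path_st hw (st_off hp hφ0)
    refine next_hit hg hs (by rw [path_norm hw, h1]) ?_ ?_
    · intro he; exact hL ⟨w, A, z, ψ, hw, he⟩
    · intro u hu hf
      obtain ⟨T, hT, h2⟩ := path_fl_unfold hw hf
      apply hφ
      refine ⟨w, [], u, hQ hu, p, hpQ, ?_⟩
      rw [Uw_nil, h2, add_sub_cancel_left, nrm_mul h1 hT]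
  choose J hJ1 hJ2 using hstep
  let nxt : {s : Set ι × ℂ × ℂ // ∃ w, Path a b ∅ p φ w s.1 s.2.1 s.2.2} →
      {s : Set ι × ℂ × ℂ // ∃ w, Path a b ∅ p φ w s.1 s.2.1 s.2.2} := fun s =>
    ⟨({J s}, s.1.2.1 + tt a b (J s) s.1.2.1 s.1.2.2 * s.1.2.2, rf (b (J s) - a (J s)) s.1.2.2), by
      obtain ⟨w, hw⟩ := s.2
      exact ⟨w ++ [J s], path_append hw (Path.cons (hJ1 s) (Path.nil _ _ _))⟩⟩
  let st : ℕ → {s : Set ι × ℂ × ℂ // ∃ w, Path a b ∅ p φ w s.1 s.2.1 s.2.2} := fun n =>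
    Nat.rec ⟨(∅, p, φ), [], Path.nil _ _ _⟩ (fun _ s => nxt s) n
  have hst : ∀ n, st (n + 1) = nxt (st n) := fun n => rfl
  have hSt : ∀ n, St a b (st n).1.1 (st n).1.2.1 (st n).1.2.2 := by
    intro n
    obtain ⟨w, hw⟩ := (st n).2
    exact path_st hw (st_off hp hφ0)
  refine ⟨fun n => (st n).1.2.1, fun n => (st n).1.2.2, fun n => J (st (n - 1)),
    ⟨rfl, hp, h1, ?_, ?_, ?_, ?_⟩, rfl, ?_⟩
  · intro k
    show Fl a b (st k).1.2.1 (st k).1.2.2 (st (k + 1)).1.2.1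
    rw [hst]
    exact hit_fl (hSt k) (hJ1 (st k))
  · intro k
    show (st (k + 1)).1.2.1 ∉ Vx a b
    rw [hst]
    exact hit_not_vx (hSt k) (hJ1 (st k))
  · intro k
    show (st (k + 1)).1.2.1 ∈ mir a b (J (st k))
    rw [hst]
    exact hit_mem' (hJ1 (st k))
  · intro k
    show (st (k + 1)).1.2.2 = rf (b (J (st k)) - a (J (st k))) (st k).1.2.2
    rw [hst]
  · intro k
    cases k with
    | zero => exact hpR
    | succ k =>
      show ‖(st (k + 1)).1.2.1‖ ≤ R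
      rw [hst]
      exact hJ2 (st k)

/-- commensurable mirrors give finitely many directions -/
theorem gfinite_of_commensurable (hg : Good a b) {p : ℂ}
    {x d : ℕ → ℂ} {m : ℕ → ι} (hT : Traj a b p x d m) {R : ℝ} (hR : ∀ k, ‖x k‖ ≤ R)
    (hc : ∀ i j : ι, ∃ (q : ℚ) (r : ℝ),
      b j - a j = r * Complex.exp ((q : ℂ) * Real.pi * Complex.I) * (b i - a i)) :
    (Set.range d).Finite := by
  have he : ∀ j, b j - a j ≠ 0 := fun j => sub_ne_zero.2 (hg.ne j).symm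
  set c : ι → ℂ := fun j => (b j - a j) / conj (b j - a j) with hcdef
  set J : Set ι := {i | (mir a b i ∩ Metric.closedBall 0 R).Nonempty} with hJ
  have hJf : J.Finite := hg.lf R
  set H : Set ι := {i | ∃ k, i = m (k + 1)} with hH
  have hHf : H.Finite := by
    refine hJf.subset ?_
    rintro i ⟨k, rfl⟩
    exact ⟨x (k + 1), hT.mem k, by rw [mem_closedBall_zero_iff]; exact hR _⟩
  set F : Set ℂ := (fun q : ι × ι => c q.1 * conj (c q.2)) '' (H ×ˢ H) with hF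
  have hFf : F.Finite := (hHf.prod hHf).image _
  obtain ⟨N, hN, hN1⟩ := exists_common_exponent hFf (by
    rintro z ⟨⟨i, j⟩, -, rfl⟩
    obtain ⟨q, r, hqr⟩ := hc j i
    exact ratio_root (he j) (he i) hqr)
  have hstep : ∀ k, d (k + 2) ^ N = d k ^ N := by
    intro k
    have h1 : d (k + 2) = c (m (k + 2)) * conj (c (m (k + 1))) * d k := by
      have e1 : d (k + 2) = c (m (k + 2)) * conj (d (k + 1)) := hT.rf (k + 1)
      have e2 : d (k + 1) = c (m (k + 1)) * conj (d k) := hT.rf k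
      rw [e1, e2, map_mul, Complex.conj_conj]; ring
    rw [h1, mul_pow, hN1 _ ⟨(m (k + 2), m (k + 1)), ⟨⟨k + 1, rfl⟩, ⟨k, rfl⟩⟩, rfl⟩, one_mul]
  refine ((finite_roots hN (d 0 ^ N)).union (finite_roots hN (d 1 ^ N))).subset ?_
  rintro z ⟨k, rfl⟩
  have : ∀ k, d (2 * k) ^ N = d 0 ^ N ∧ d (2 * k + 1) ^ N = d 1 ^ N := by
    intro k
    induction k with
    | zero => exact ⟨rfl, rfl⟩
    | succ k ih =>
      have e1 : 2 * (k + 1) = 2 * k + 2 := by ring
      have e2 : 2 * k + 2 + 1 = 2 * k + 1 + 2 := by ring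
      rw [e1, e2, hstep (2 * k), hstep (2 * k + 1)]
      exact ih
  rcases Nat.even_or_odd' k with ⟨l, rfl | rfl⟩
  · exact Or.inl (this l).1
  · exact Or.inr (this l).2

/-- **Rays among commensurable mirrors leave every disc which does not contain the component.** -/
theorem leaves_of_commensurable (hg : Good a b) {p : ℂ} (hp : p ∉ MM a b) {R : ℝ}
    (hC : ¬ connectedComponentIn (MM a b)ᶜ p ⊆ Metric.closedBall 0 R)
    (hc : ∀ i j : ι, ∃ (q : ℚ) (r : ℝ),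
      b j - a j = r * Complex.exp ((q : ℂ) * Real.pi * Complex.I) * (b i - a i))
    {φ : ℂ} (h1 : ‖φ‖ = 1) (hb1 : φ ∉ BadInit a b (Vx a b ∪ {0, p}))
    (hb2 : φ ∉ BadQ a b (Vx a b ∪ {0, p})) : Leaves a b ∅ p φ R := by
  by_contra hL
  obtain ⟨x, d, m, hT, hd, hR⟩ := exists_traj hg hp h1 (Q := Vx a b ∪ {0, p}) subset_union_left
    (by simp) hb2 hL
  apply hC
  exact core hg hT hR (gfinite_of_commensurable hg hT hR hc) (Q := Vx a b ∪ {0, p}) (by simp)
    subset_union_left (by rw [hd]; exact hb1)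

end Pool.Agent.H628_Mirror
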