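import Pool.Agent.H628_Mirror.LogEnc
import Pool.Agent.H628_Mirror.Leave

/-!
# Bounded components are stable

For finitely many segments no end point of which lies on another segment, a bounded component of the
complement stays bounded when the segments are moved a little.
-/

set_option autoImplicit false

open Complex ComplexConjugate Set Filter Topology

namespace Pool.Agent.H628_Mirror

/-- general position: no end point lies on another mirror -/
def GP {ι : Type*} (a b : ι → ℂ) : Prop := ∀ i j, i ≠ j → a i ∉ mir a b j ∧ b i ∉ mir a b j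

section
variable {ι : Type*} {a b : ι → ℂ}

/-- crossings are transversal -/
lemma GP.cross (h : GP a b) (hne : ∀ i, a i ≠ b i) {i j : ι} (hij : i ≠ j) {u : ℂ}
    (hi : u ∈ mir a b i) (hj : u ∈ mir a b j) :
    cr (b i - a i) (b j - a j) ≠ 0 ∧ u ∈ openSegment ℝ (a i) (b i) ∧
      u ∈ openSegment ℝ (a j) (b j) := by
  have hi' : u ∈ openSegment ℝ (a i) (b i) := by
    refine openSegment_of_segment hi ?_ ?_
    · rintro rfl; exact (h i j hij).1 hj
    · rintro rfl; exact (h i j hij).2 hj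
  have hj' : u ∈ openSegment ℝ (a j) (b j) := by
    refine openSegment_of_segment hj ?_ ?_
    · rintro rfl; exact (h j i hij.symm).1 hi
    · rintro rfl; exact (h j i hij.symm).2 hi
  refine ⟨fun h0 => ?_, hi', hj'⟩
  have he : b j - a j ≠ 0 := sub_ne_zero.2 (hne j).symm
  have hei : b i - a i ≠ 0 := sub_ne_zero.2 (hne i).symm
  obtain ⟨r, hr⟩ := exists_smul_of_cr_eq_zero he h0
  have hr0 : r ≠ 0 := by
    rintro rfl
    apply hei
    rw [hr]; simp
  obtain ⟨s, hs0, hs1, hs⟩ := mem_openSegment_iff'.1 hi'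
  obtain ⟨t, ht0, ht1, ht⟩ := mem_openSegment_iff'.1 hj'
  -- coordinates of the end points of mirror i on mirror j
  have ha : a i = a j + ((t - s * r : ℝ) : ℂ) * (b j - a j) := by
    push_cast; linear_combination hs.symm + ht - s * hr
  have hb : b i = a j + ((t + (1 - s) * r : ℝ) : ℂ) * (b j - a j) := by
    push_cast; linear_combination hs.symm + ht + (1 - s) * hr
  have h1 : ¬ (0 ≤ t - s * r ∧ t - s * r ≤ 1) := fun hh =>
    (h i j hij).1 (mem_segment_iff'.2 ⟨_, hh.1, hh.2, ha⟩)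
  have h2 : ¬ (0 ≤ t + (1 - s) * r ∧ t + (1 - s) * r ≤ 1) := fun hh =>
    (h i j hij).2 (mem_segment_iff'.2 ⟨_, hh.1, hh.2, hb⟩)
  -- the end point a j lies on mirror i
  have hrr : (r : ℂ) ≠ 0 := by exact_mod_cast hr0
  have h3 : a j = a i + ((s - t / r : ℝ) : ℂ) * (b i - a i) := by
    rw [hr, ha]; push_cast; field_simp; ring
  have h5 : ¬ (0 ≤ s - t / r ∧ s - t / r ≤ 1) := fun hh =>
    (h j i hij.symm).1 (mem_segment_iff'.2 ⟨_, hh.1, hh.2, h3⟩)
  rcases lt_or_gt_of_ne hr0 with hr1 | hr1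
  · -- r < 0
    have k1 : 1 < t - s * r := by
      by_contra hle
      rw [not_lt] at hle
      exact h1 ⟨by nlinarith, hle⟩
    have k2 : t + (1 - s) * r < 0 := by
      by_contra hle
      rw [not_lt] at hle
      exact h2 ⟨hle, by nlinarith⟩
    apply h5
    constructor
    · have : t / r < 0 := div_neg_of_pos_of_neg ht0 hr1
      linarith
    · have : -(1 - s) ≤ t / r := by
        rw [le_div_iff_of_neg hr1]; linarith
      linarith
  · have k1 : t - s * r < 0 := by
      by_contra hle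
      rw [not_lt] at hle
      exact h1 ⟨hle, by nlinarith⟩
    have k2 : 1 < t + (1 - s) * r := by
      by_contra hle
      rw [not_lt] at hle
      exact h2 ⟨by nlinarith, hle⟩
    apply h5
    constructor
    · have : t / r ≤ s := by rw [div_le_iff₀ hr1]; linarith
      linarith
    · have : 0 < t / r := by positivity
      linarith

/-- a continuous logarithm of one along an interval is constant -/
lemma const_of_exp {f : ℝ → ℂ} (hf : ContinuousOn f (Icc 0 1))
    (h : ∀ t ∈ Icc (0 : ℝ) 1, Complex.exp (f t) = 1) : f 1 = f 0 := by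
  have hc : {z : ℂ | Complex.exp z = 1}.Countable := by
    refine (countable_range (fun n : ℤ => (n : ℂ) * (2 * Real.pi * I))).mono ?_
    intro z hz
    obtain ⟨n, hn⟩ := Complex.exp_eq_one_iff.1 hz
    exact ⟨n, hn.symm⟩
  have hp : IsPreconnected (f '' Icc 0 1) := isPreconnected_Icc.image f hf
  have hs := hc.isTotallyDisconnected (f '' Icc 0 1) (by rintro _ ⟨t, ht, rfl⟩; exact h t ht) hp
  exact hs ⟨1, by simp, rfl⟩ ⟨0, by simp, rfl⟩

/-- along a short segment a continuous logarithm changes by the principal one -/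
lemma LogOn.seg {K : Set ℂ} {q v w : ℂ} {g : ℂ → ℂ} (hg : LogOn K q g)
    (hK : segment ℝ v w ⊆ K) (h : ‖w - v‖ < ‖v - q‖) :
    g w = g v + Complex.log ((w - q) / (v - q)) := by
  have hv : v - q ≠ 0 := by
    intro h0
    rw [h0, norm_zero] at h
    exact absurd h (not_lt.2 (norm_nonneg _))
  have hmem : ∀ t ∈ Icc (0 : ℝ) 1, v + (t : ℂ) * (w - v) ∈ segment ℝ v w := fun t ht =>
    mem_segment_iff'.2 ⟨t, ht.1, ht.2, rfl⟩
  have hsl : ∀ t ∈ Icc (0 : ℝ) 1, (v + (t : ℂ) * (w - v) - q) / (v - q) ∈ Complex.slitPlane := by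
    intro t ht
    have e : (v + (t : ℂ) * (w - v) - q) / (v - q) = 1 + (t : ℂ) * (w - v) / (v - q) := by
      field_simp; ring
    rw [e]
    apply Complex.mem_slitPlane_of_norm_lt_one
    rw [norm_div, div_lt_one (norm_pos_iff.2 hv), norm_mul, Complex.norm_real, Real.norm_eq_abs,
      abs_of_nonneg ht.1]
    have := norm_nonneg (w - v)
    nlinarith [ht.2]
  have hlin : Continuous fun t : ℝ => v + (t : ℂ) * (w - v) := by fun_prop
  have hc1 : ContinuousOn (fun t : ℝ => g (v + (t : ℂ) * (w - v))) (Icc 0 1) :=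
    hg.1.comp hlin.continuousOn fun t ht => hK (hmem t ht)
  have hc2 : ContinuousOn (fun t : ℝ => Complex.log ((v + (t : ℂ) * (w - v) - q) / (v - q)))
      (Icc 0 1) := by
    apply ContinuousOn.clog
    · exact ((hlin.sub continuous_const).div_const _).continuousOn
    · exact hsl
  have h1 := const_of_exp (f := fun t : ℝ => g (v + (t : ℂ) * (w - v)) - g v
      - Complex.log ((v + (t : ℂ) * (w - v) - q) / (v - q)))
    ((hc1.sub continuousOn_const).sub hc2) (by
      intro t ht
      have e1 := hg.2 _ (hK (hmem t ht))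
      have e2 := hg.2 v (hK (left_mem_segment ℝ v w))
      rw [Complex.exp_sub, Complex.exp_sub, e1, e2,
        Complex.exp_log (Complex.slitPlane_ne_zero (hsl t ht))]
      have e3 : (v + (t : ℂ) * (w - v) - q) / (v - q) ≠ 0 := Complex.slitPlane_ne_zero (hsl t ht)
      exact div_self e3)
  simp only [ofReal_one, one_mul, add_sub_cancel, ofReal_zero, zero_mul, add_zero, sub_self,
    div_self hv, Complex.log_one] at h1
  linear_combination h1

lemma norm_log_le {w : ℂ} (h : ‖w‖ ≤ 1 / 4) : ‖Complex.log (1 + w)‖ ≤ 1 / 2 := by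
  have h1 := Complex.norm_log_one_add_le (z := w) (by linarith)
  have h2 := norm_nonneg w
  have h3 : (1 - ‖w‖)⁻¹ ≤ 2 := by
    rw [inv_le_comm₀ (by linarith) (by norm_num)]; linarith
  have h4 : 0 ≤ (1 - ‖w‖)⁻¹ := by
    rw [inv_nonneg]; linarith
  nlinarith [mul_nonneg h2 h2, mul_nonneg (mul_nonneg h2 h2) h4]

lemma norm_log_div_le {u v q : ℂ} (hv : v - q ≠ 0) (h : 4 * ‖u - v‖ ≤ ‖v - q‖) :
    ‖Complex.log ((u - q) / (v - q))‖ ≤ 1 / 2 := by
  have e : (u - q) / (v - q) = 1 + (u - v) / (v - q) := by field_simp; ring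
  rw [e]
  apply norm_log_le
  rw [norm_div, div_le_iff₀ (norm_pos_iff.2 hv)]
  linarith

/-- two logarithms of one number at distance less than `2 π` coincide -/
lemma log_eq_of_close {z w : ℂ} (h : Complex.exp z = Complex.exp w) (hd : ‖z - w‖ ≤ 2) : z = w := by
  obtain ⟨n, hn⟩ := Complex.exp_eq_exp_iff_exists_int.1 h
  have h1 : z - w = n * (2 * Real.pi * I) := by rw [hn]; ring
  rw [h1] at hd
  have h2 : ‖(n : ℂ) * (2 * Real.pi * I)‖ = |(n : ℝ)| * (2 * Real.pi) := by
    rw [norm_mul, norm_mul, norm_mul, Complex.norm_I, mul_one, Complex.norm_intCast,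
      Complex.norm_real, Real.norm_eq_abs, abs_of_pos Real.pi_pos]
    simp
  rw [h2] at hd
  have h3 : n = 0 := by
    by_contra hne
    have h4 : (1 : ℝ) ≤ |(n : ℝ)| := by
      have : (1 : ℤ) ≤ |n| := Int.one_le_abs hne
      exact_mod_cast this
    have := Real.pi_gt_three
    nlinarith
  rw [h3] at h1
  simp only [Int.cast_zero, zero_mul] at h1
  exact sub_eq_zero.1 h1

end

section
variable {ι : Type*} [Finite ι] {a b a' b' : ι → ℂ}

/-- the point of the moved mirror with the same coordinate -/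
noncomputable def shf (a b a' b' : ι → ℂ) (i : ι) (z : ℂ) : ℂ :=
  a' i + (co (a i) (b i) z : ℂ) * (b' i - a' i)

omit [Finite ι] in
lemma continuous_shf (i : ι) : Continuous (shf a b a' b' i) := by
  unfold shf co
  fun_prop

omit [Finite ι] in
lemma shf_mem {i : ι} (hne : a i ≠ b i) {z : ℂ} (hz : z ∈ mir a b i) :
    shf a b a' b' i z ∈ mir a' b' i := by
  obtain ⟨-, h0, h1⟩ := (mem_segment_iff_co hne).1 hz
  exact mem_segment_iff'.2 ⟨_, h0, h1, rfl⟩

omit [Finite ι] in
lemma norm_shf {i : ι} (hne : a i ≠ b i) {z : ℂ} (hz : z ∈ mir a b i) {δ : ℝ}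
    (ha : ‖a' i - a i‖ ≤ δ) (hb : ‖b' i - b i‖ ≤ δ) : ‖shf a b a' b' i z - z‖ ≤ δ := by
  obtain ⟨hc, h0, h1⟩ := (mem_segment_iff_co hne).1 hz
  have h2 := eq_of_on_line hne hc
  set s := co (a i) (b i) z with hs
  have e : shf a b a' b' i z - z = ((1 - s : ℝ) : ℂ) * (a' i - a i) + (s : ℂ) * (b' i - b i) := by
    rw [shf, ← hs]
    push_cast
    linear_combination -h2
  rw [e]
  refine (norm_add_le _ _).trans ?_
  rw [norm_mul, norm_mul, Complex.norm_real, Complex.norm_real, Real.norm_eq_abs,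
    Real.norm_eq_abs, abs_of_nonneg h0, abs_of_nonneg (show (0 : ℝ) ≤ 1 - s by linarith)]
  nlinarith

/-- transport of a continuous logarithm from the moved mirrors to the original ones -/
theorem transport (hne : ∀ i, a i ≠ b i) {q : ℂ} {δ : ℝ} (hδ : 0 < δ)
    (ha : ∀ i, ‖a' i - a i‖ ≤ δ) (hb : ∀ i, ‖b' i - b i‖ ≤ δ)
    (hcr : ∀ i j, i ≠ j → ∀ u ∈ mir a b i, u ∈ mir a b j →
      ∃ v ∈ mir a' b' i, v ∈ mir a' b' j ∧ ‖v - u‖ ≤ δ)
    (hq : ∀ z ∈ MM a b, 10 * δ ≤ ‖z - q‖) {g : ℂ → ℂ} (hg : LogOn (MM a' b') q g) :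
    ∃ g', LogOn (MM a b) q g' := by
  classical
  set L : ι → ℂ → ℂ := fun i z => g (shf a b a' b' i z)
    + Complex.log ((z - q) / (shf a b a' b' i z - q)) with hL
  have hsub : ∀ i, mir a b i ⊆ MM a b := fun i z hz => mem_MM.2 ⟨i, hz⟩
  have hsub' : ∀ i, mir a' b' i ⊆ MM a' b' := fun i z hz => mem_MM.2 ⟨i, hz⟩
  have hn : ∀ i, ∀ z ∈ mir a b i, ‖shf a b a' b' i z - z‖ ≤ δ := fun i z hz =>
    norm_shf (hne i) hz (ha i) (hb i)
  have hfar : ∀ i, ∀ z ∈ mir a b i, 9 * δ ≤ ‖shf a b a' b' i z - q‖ := by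
    intro i z hz
    have h1 := hn i z hz
    have h2 := hq z (hsub i hz)
    have h3 : ‖z - q‖ ≤ ‖z - shf a b a' b' i z‖ + ‖shf a b a' b' i z - q‖ := by
      have := norm_add_le (z - shf a b a' b' i z) (shf a b a' b' i z - q)
      rwa [sub_add_sub_cancel] at this
    rw [norm_sub_rev z (shf a b a' b' i z)] at h3
    linarith
  have hne0 : ∀ i, ∀ z ∈ mir a b i, shf a b a' b' i z - q ≠ 0 := by
    intro i z hz h0
    have := hfar i z hz
    rw [h0, norm_zero] at this
    linarith
  have hsl : ∀ i, ∀ z ∈ mir a b i, (z - q) / (shf a b a' b' i z - q) ∈ Complex.slitPlane := by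
    intro i z hz
    have e : (z - q) / (shf a b a' b' i z - q)
        = 1 + (z - shf a b a' b' i z) / (shf a b a' b' i z - q) := by
      have := hne0 i z hz
      field_simp; ring
    rw [e]
    apply Complex.mem_slitPlane_of_norm_lt_one
    rw [norm_div, div_lt_one (norm_pos_iff.2 (hne0 i z hz)), norm_sub_rev]
    have := hn i z hz
    have := hfar i z hz
    linarith
  have hLc : ∀ i, ContinuousOn (L i) (mir a b i) := by
    intro i
    apply ContinuousOn.add
    · exact hg.1.comp (continuous_shf i).continuousOn fun z hz => hsub' i (shf_mem (hne i) hz)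
    · apply ContinuousOn.clog _ (hsl i)
      exact ((continuousOn_id.sub continuousOn_const).div
        ((continuous_shf i).continuousOn.sub continuousOn_const) (hne0 i))
  have hLe : ∀ i, ∀ z ∈ mir a b i, Complex.exp (L i z) = z - q := by
    intro i z hz
    have h1 := hne0 i z hz
    rw [hL]
    simp only
    rw [Complex.exp_add, hg.2 _ (hsub' i (shf_mem (hne i) hz)),
      Complex.exp_log (Complex.slitPlane_ne_zero (hsl i z hz))]
    field_simp
  -- consistency
  have hcons : ∀ i j, ∀ u ∈ mir a b i, u ∈ mir a b j → L i u = L j u := by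
    intro i j u hi hj
    by_cases hij : i = j
    · rw [hij]
    obtain ⟨v, hvi, hvj, hvu⟩ := hcr i j hij u hi hj
    apply log_eq_of_close (by rw [hLe i u hi, hLe j u hj])
    have hqu := hq u (hsub i hi)
    have hvq : 9 * δ ≤ ‖v - q‖ := by
      have h3 : ‖u - q‖ ≤ ‖u - v‖ + ‖v - q‖ := by
        have := norm_add_le (u - v) (v - q)
        rwa [sub_add_sub_cancel] at this
      rw [norm_sub_rev u v] at h3
      linarith
    have hv0 : v - q ≠ 0 := by
      intro h0
      rw [h0, norm_zero] at hvq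
      linarith
    have key : ∀ k, u ∈ mir a b k → v ∈ mir a' b' k →
        ∃ w : ℂ, ‖w‖ ≤ 1 ∧ L k u = g v + w := by
      intro k hk hvk
      have h1 : ‖shf a b a' b' k u - v‖ ≤ 2 * δ := by
        have := norm_add_le (shf a b a' b' k u - u) (u - v)
        rw [sub_add_sub_cancel, norm_sub_rev u v] at this
        linarith [hn k u hk]
      have h2 : segment ℝ v (shf a b a' b' k u) ⊆ MM a' b' :=
        ((convex_segment (𝕜 := ℝ) (a' k) (b' k)).segment_subset hvk (shf_mem (hne k) hk)).trans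
          (hsub' k)
      have h3 := hg.seg h2 (by linarith)
      refine ⟨Complex.log ((shf a b a' b' k u - q) / (v - q))
        + Complex.log ((u - q) / (shf a b a' b' k u - q)), ?_, ?_⟩
      · have e1 := norm_log_div_le (u := shf a b a' b' k u) hv0 (by linarith)
        have e2 := norm_log_div_le (u := u) (hne0 k u hk) (by
          rw [norm_sub_rev]
          have := hn k u hk
          have := hfar k u hk
          linarith)
        refine (norm_add_le _ _).trans ?_
        linarith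
      · rw [hL]
        simp only
        rw [h3]; ring
    obtain ⟨w₁, hw₁, e₁⟩ := key i hi hvi
    obtain ⟨w₂, hw₂, e₂⟩ := key j hj hvj
    rw [e₁, e₂]
    have : g v + w₁ - (g v + w₂) = w₁ - w₂ := by ring
    rw [this]
    exact (norm_sub_le _ _).trans (by linarith)
  -- the global logarithm
  by_cases hne' : Nonempty ι
  · set pick : ℂ → ι := fun z => if h : ∃ i, z ∈ mir a b i then h.choose else hne'.some with hpick
    have hpm : ∀ i, ∀ z ∈ mir a b i, z ∈ mir a b (pick z) := by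
      intro i z hz
      have h : ∃ i, z ∈ mir a b i := ⟨i, hz⟩
      rw [hpick]
      simp only [dif_pos h]
      exact h.choose_spec
    refine ⟨fun z => L (pick z) z, ?_, ?_⟩
    · have hlf : LocallyFinite fun i => mir a b i := locallyFinite_of_finite _
      rw [show MM a b = ⋃ i, mir a b i from rfl]
      apply hlf.continuousOn_iUnion
      · intro i
        exact isClosed_mir i
      · intro i
        refine (hLc i).congr fun z hz => ?_
        exact hcons _ _ z (hpm i z hz) hz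
    · intro z hz
      obtain ⟨i, hi⟩ := mem_MM.1 hz
      exact hLe _ z (hpm i z hi)
  · refine ⟨fun _ => 0, ?_, ?_⟩
    · exact continuousOn_const
    · intro z hz
      obtain ⟨i, -⟩ := mem_MM.1 hz
      exact absurd ⟨i⟩ hne'

end

section
variable {X : Type*} [TopologicalSpace X] {ι : Type*} [Finite ι] {A B : X → ι → ℂ} {x₀ : X}

omit [Finite ι] in
/-- crossings are stable -/
lemma crossing_eventually (hA : ∀ i, ContinuousAt (fun x => A x i) x₀)
    (hB : ∀ i, ContinuousAt (fun x => B x i) x₀) (hne : ∀ i, A x₀ i ≠ B x₀ i)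
    (hgp : GP (A x₀) (B x₀)) {i j : ι} (hij : i ≠ j) {δ : ℝ} (hδ : 0 < δ) :
    ∀ᶠ x in 𝓝 x₀, ∀ u ∈ mir (A x₀) (B x₀) i, u ∈ mir (A x₀) (B x₀) j →
      ∃ v ∈ mir (A x) (B x) i, v ∈ mir (A x) (B x) j ∧ ‖v - u‖ ≤ δ := by
  by_cases hex : ∃ u, u ∈ mir (A x₀) (B x₀) i ∧ u ∈ mir (A x₀) (B x₀) j
  · obtain ⟨u₀, hi, hj⟩ := hex
    obtain ⟨hcr, hi', hj'⟩ := hgp.cross hne hij hi hj
    obtain ⟨s, hs0, hs1, hs⟩ := mem_openSegment_iff'.1 hi'
    obtain ⟨t, ht0, ht1, ht⟩ := mem_openSegment_iff'.1 hj'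
    obtain ⟨e1, e2⟩ := tt_of (a := A x₀) (b := B x₀) (j := j) (z := A x₀ i)
      (φ := B x₀ i - A x₀ i) hcr (by rw [← hs, ht])
    have huniq : ∀ u ∈ mir (A x₀) (B x₀) i, u ∈ mir (A x₀) (B x₀) j → u = u₀ := by
      intro u hui huj
      obtain ⟨s', -, -, hs'⟩ := mem_segment_iff'.1 hui
      have := tt_of_mem (a := A x₀) (b := B x₀) (j := j) (z := A x₀ i)
        (φ := B x₀ i - A x₀ i) hcr (t := s') (by rw [← hs']; exact huj)
      rw [hs', ← this, e1, hs]
    have hφ : ContinuousAt (fun x => B x i - A x i) x₀ := (hB i).sub (hA i)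
    have c1 := continuousAt_tt (hA j) (hB j) (hA i) hφ hcr
    have c2 := continuousAt_ss (hA j) (hB j) (hA i) hφ hcr
    have c3 := continuousAt_pt (hA j) (hB j) (hA i) hφ hcr
    have c4 : ∀ᶠ x in 𝓝 x₀, cr (B x i - A x i) (B x j - A x j) ≠ 0 :=
      (cAt_cr hφ ((hB j).sub (hA j))).eventually_ne hcr
    have c5 : ContinuousAt (fun x => ‖A x i + tt (A x) (B x) j (A x i) (B x i - A x i)
        * (B x i - A x i) - u₀‖) x₀ := (c3.sub continuousAt_const).norm
    have v0 : A x₀ i + tt (A x₀) (B x₀) j (A x₀ i) (B x₀ i - A x₀ i) * (B x₀ i - A x₀ i) = u₀ := by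
      rw [e1, ← hs]
    have d1 : ∀ᶠ x in 𝓝 x₀, 0 < tt (A x) (B x) j (A x i) (B x i - A x i) := by
      apply c1.eventually_const_lt
      show 0 < tt (A x₀) (B x₀) j (A x₀ i) (B x₀ i - A x₀ i)
      rw [e1]; exact hs0
    have d2 : ∀ᶠ x in 𝓝 x₀, tt (A x) (B x) j (A x i) (B x i - A x i) < 1 := by
      apply c1.eventually_lt_const
      show tt (A x₀) (B x₀) j (A x₀ i) (B x₀ i - A x₀ i) < 1
      rw [e1]; exact hs1
    have d3 : ∀ᶠ x in 𝓝 x₀, 0 < ss (A x) (B x) j (A x i) (B x i - A x i) := by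
      apply c2.eventually_const_lt
      show 0 < ss (A x₀) (B x₀) j (A x₀ i) (B x₀ i - A x₀ i)
      rw [e2]; exact ht0
    have d4 : ∀ᶠ x in 𝓝 x₀, ss (A x) (B x) j (A x i) (B x i - A x i) < 1 := by
      apply c2.eventually_lt_const
      show ss (A x₀) (B x₀) j (A x₀ i) (B x₀ i - A x₀ i) < 1
      rw [e2]; exact ht1
    have d5 : ∀ᶠ x in 𝓝 x₀, ‖A x i + tt (A x) (B x) j (A x i) (B x i - A x i)
        * (B x i - A x i) - u₀‖ < δ := by
      apply c5.eventually_lt_const
      show ‖A x₀ i + tt (A x₀) (B x₀) j (A x₀ i) (B x₀ i - A x₀ i) * (B x₀ i - A x₀ i) - u₀‖ < δ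
      rw [v0, sub_self, norm_zero]; exact hδ
    filter_upwards [d1, d2, d3, d4, c4, d5]
      with x g1 g2 g3 g4 g5 g6 u hui huj
    rw [huniq u hui huj]
    refine ⟨A x i + tt (A x) (B x) j (A x i) (B x i - A x i) * (B x i - A x i), ?_, ?_, g6.le⟩
    · exact mem_segment_iff'.2 ⟨_, g1.le, g2.le, rfl⟩
    · rw [hit_pt g5]
      exact mem_segment_iff'.2 ⟨_, g3.le, g4.le, rfl⟩
  · exact Eventually.of_forall fun x u hi hj => absurd ⟨u, hi, hj⟩ hex

/-- **Bounded components are stable.** -/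
theorem bounded_eventually (hA : ∀ i, ContinuousAt (fun x => A x i) x₀)
    (hB : ∀ i, ContinuousAt (fun x => B x i) x₀) (hne : ∀ i, A x₀ i ≠ B x₀ i)
    (hgp : GP (A x₀) (B x₀)) {q : ℂ} (hq : q ∉ MM (A x₀) (B x₀))
    (hb : Bornology.IsBounded (connectedComponentIn (MM (A x₀) (B x₀))ᶜ q)) :
    ∀ᶠ x in 𝓝 x₀, q ∉ MM (A x) (B x) →
      Bornology.IsBounded (connectedComponentIn (MM (A x) (B x))ᶜ q) := by
  have hcl : ∀ x, IsClosed (MM (A x) (B x)) := fun x => isClosed_iUnion_of_finite fun i =>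
    isClosed_mir i
  have hcpt : ∀ x, IsCompact (MM (A x) (B x)) := fun x => isCompact_iUnion fun i => by
    rw [mir, segment_eq_image]
    exact isCompact_Icc.image (by fun_prop)
  obtain ⟨ρ, hρ, hball⟩ := Metric.isOpen_iff.1 (hcl x₀).isOpen_compl q hq
  set δ := ρ / 10 with hδ
  have hδ0 : 0 < δ := by positivity
  have h1 : ∀ᶠ x in 𝓝 x₀, ∀ i, ‖A x i - A x₀ i‖ ≤ δ := by
    rw [eventually_all]
    intro i
    have c : ContinuousAt (fun x => ‖A x i - A x₀ i‖) x₀ := ((hA i).sub continuousAt_const).norm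
    filter_upwards [c.eventually_lt_const (show _ < δ by simpa using hδ0)] with x hx using hx.le
  have h2 : ∀ᶠ x in 𝓝 x₀, ∀ i, ‖B x i - B x₀ i‖ ≤ δ := by
    rw [eventually_all]
    intro i
    have c : ContinuousAt (fun x => ‖B x i - B x₀ i‖) x₀ := ((hB i).sub continuousAt_const).norm
    filter_upwards [c.eventually_lt_const (show _ < δ by simpa using hδ0)] with x hx using hx.le
  have h3 : ∀ᶠ x in 𝓝 x₀, ∀ i j, i ≠ j → ∀ u ∈ mir (A x₀) (B x₀) i, u ∈ mir (A x₀) (B x₀) j →
      ∃ v ∈ mir (A x) (B x) i, v ∈ mir (A x) (B x) j ∧ ‖v - u‖ ≤ δ := by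
    rw [eventually_all]
    intro i
    rw [eventually_all]
    intro j
    by_cases hij : i = j
    · exact Eventually.of_forall fun x h => absurd hij h
    · filter_upwards [crossing_eventually hA hB hne hgp hij hδ0] with x hx _ using hx
  filter_upwards [h1, h2, h3] with x g1 g2 g3 hqx
  by_contra hub
  obtain ⟨g, hg⟩ := log_of_unbounded (hcpt x) hqx hub
  obtain ⟨g', hg'⟩ := transport hne hδ0 g1 g2 g3 (fun z hz => by
    by_contra hlt
    rw [not_le] at hlt
    exact hball (show z ∈ Metric.ball q ρ by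
      rw [Metric.mem_ball, dist_eq_norm]; rw [hδ] at hlt; linarith) hz) hg
  exact no_log_of_bounded (hcl x₀) hq hb hg'

end

end Pool.Agent.H628_Mirror
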