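import Pool.Agent.H628_Mirror.Defs

/-!
# Rays that escape
-/

set_option autoImplicit false

namespace Pool.Agent.H628_Mirror

/-- The light ray that leaves the point `z` in direction `v` never arrives at a singular point, and
it is not reflected forever in a bounded region. -/
def Escapes (S : Set (Set ℂ)) (z v : ℂ) : Prop :=
  (∀ (n : ℕ) (x d : ℕ → ℂ), x 0 = z → d 0 = v →
    (∀ k ≤ n, Step S (x k) (d k) (x (k + 1)) (d (k + 1))) → ¬ Singular S (x (n + 1))) ∧
  ¬ ∃ x d : ℕ → ℂ, x 0 = z ∧ d 0 = v ∧ (∀ k : ℕ, Step S (x k) (d k) (x (k + 1)) (d (k + 1))) ∧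
    Bornology.IsBounded (Set.range x)

end Pool.Agent.H628_Mirror
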