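import Pool.Agent.H628_Mirror.Leave

/-!
# Rays that start at a mirror point, for instance at an end point along the mirror
-/

set_option autoImplicit false

open Complex ComplexConjugate Set Filter Topology

namespace Pool.Agent.H628_Mirror

variable {ι : Type*} {a b : ι → ℂ}

/-- weak admissible start: `z` is on no mirror outside `A`, and the ray does not meet the mirrors in
`A` again -/
def StW (a b : ι → ℂ) (A : Set ι) (z φ : ℂ) : Prop :=
  φ ≠ 0 ∧ (∀ k, k ∉ A → z ∉ mir a b k) ∧ ∀ k ∈ A, ∀ s : ℝ, 0 < s → z + s * φ ∉ mir a b k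

lemma St.weak {A : Set ι} {z φ : ℂ} (hs : St a b A z φ) : StW a b A z φ := by
  refine ⟨hs.1, ?_, ?_⟩
  · rcases hs.2 with ⟨-, hz⟩ | ⟨i, hA, -, -, hki⟩
    · intro k _ hk; exact hz (mem_MM.2 ⟨k, hk⟩)
    · intro k hk
      refine hki k ?_
      rintro rfl
      exact hk (by rw [hA]; rfl)
  · rcases hs.2 with ⟨hA, -⟩ | ⟨i, hA, hz, hi, -⟩
    · intro k hk; rw [hA] at hk; exact absurd hk (by simp)
    · intro k hk s hs0 hm
      rw [hA] at hk
      have : k = i := hk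
      subst this
      have h2 := tt_of_mem hi hm
      have h3 : tt a b k z φ = 0 :=
        tt_of_mem hi (t := 0) (by simpa [mir] using openSegment_subset_segment ℝ _ _ hz)
      linarith

lemma whit_free {A : Set ι} {z φ : ℂ} {j : ι} (hs : StW a b A z φ) (h : Hit a b A z φ j)
    {s : ℝ} (h0 : 0 < s) (h1 : s < tt a b j z φ) : z + s * φ ∉ MM a b := by
  intro hm
  obtain ⟨k, hk⟩ := mem_MM.1 hm
  by_cases hkj : k = j
  · subst hkj
    have := tt_of_mem h.tr hk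
    linarith
  by_cases hkA : k ∈ A
  · exact hs.2.2 k hkA s h0 hk
  · exact Set.disjoint_left.1 (h.cl k hkA hkj) (add_mul_mem_segment h0.le h1.le) hk

lemma whit_not_mem {A : Set ι} {z φ : ℂ} {j : ι} (hs : StW a b A z φ) (h : Hit a b A z φ j)
    (k : ι) (hkj : k ≠ j) : z + tt a b j z φ * φ ∉ mir a b k := by
  intro hk
  by_cases hkA : k ∈ A
  · exact hs.2.2 k hkA _ h.t0 hk
  · exact Set.disjoint_left.1 (h.cl k hkA hkj) (right_mem_segment ℝ _ _) hk

lemma whit_fl {A : Set ι} {z φ : ℂ} {j : ι} (hs : StW a b A z φ) (h : Hit a b A z φ j) :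
    Fl a b z φ (z + tt a b j z φ * φ) :=
  ⟨_, h.t0, rfl, mem_MM.2 ⟨j, hit_mem' h⟩, fun _ h0 h1 => whit_free hs h h0 h1⟩

lemma whit_st {A : Set ι} {z φ : ℂ} {j : ι} (hs : StW a b A z φ) (h : Hit a b A z φ j) :
    St a b {j} (z + tt a b j z φ * φ) (rf (b j - a j) φ) := by
  have he : b j - a j ≠ 0 := sub_ne_zero.2 (hit_ne h).symm
  refine ⟨?_, Or.inr ⟨j, rfl, hit_mem h, ?_, whit_not_mem hs h⟩⟩
  · rw [← norm_ne_zero_iff, norm_rf he, norm_ne_zero_iff]; exact hs.1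
  · rw [cr_rf_self he]; exact neg_ne_zero.2 h.tr

lemma whit_of_fl {A : Set ι} {z φ y : ℂ} {j : ι} (hs : StW a b A z φ) (hne : a j ≠ b j)
    (h : Fl a b z φ y) (hv : y ∉ Vx a b) (hj : y ∈ mir a b j) :
    Hit a b A z φ j ∧ y = z + tt a b j z φ * φ := by
  obtain ⟨hj', hk'⟩ := mem_of_not_vx hv hj
  have htr := fl_transversal hne h hj'
  obtain ⟨t, ht, hy, hm, hf⟩ := h
  obtain ⟨τ, hτ0, hτ1, hτ⟩ := mem_openSegment_iff'.1 hj'
  obtain ⟨h1, h2⟩ := tt_of htr (by rw [← hy, hτ])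
  refine ⟨⟨htr, by rw [h1]; exact ht, by rw [h2]; exact hτ0, by rw [h2]; exact hτ1, ?_⟩, by rw [h1, hy]⟩
  intro k hkA hkj
  rw [h1, Set.disjoint_left]
  intro q hq hqk
  obtain ⟨s, hs0, hs1, rfl⟩ := mem_segment_add_mul ht.le hq
  rcases eq_or_lt_of_le hs0 with h3 | h3
  · subst h3
    exact hs.2.1 k hkA (by simpa using hqk)
  rcases eq_or_lt_of_le hs1 with h4 | h4
  · subst h4
    rw [← hy] at hqk
    exact hk' k hkj hqk
  · exact hf s h3 h4 (mem_MM.2 ⟨k, hqk⟩)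

lemma StW.free (h : Good a b) {A : Set ι} {z φ : ℂ} (hs : StW a b A z φ) :
    ∀ᶠ t : ℝ in 𝓝[>] 0, z + t * φ ∉ MM a b := by
  have hc : ContinuousAt (fun t : ℝ => z + (t : ℂ) * φ) 0 := by fun_prop
  have h0 : z + ((0 : ℝ) : ℂ) * φ = z := by simp
  have h1 := clear_eventually (a := fun _ : ℂ => a) (b := fun _ => b) (x₀ := z) (h.ulf z)
    (fun k => continuousAt_const) (fun k => continuousAt_const) (z := fun w => w) (w := fun w => w)
    continuousAt_id continuousAt_id (B := A) (by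
      intro k hk
      rw [segment_same, Set.disjoint_singleton_left]
      exact hs.2.1 k hk)
  have h2 := hc.tendsto
  rw [h0] at h2
  filter_upwards [nhdsWithin_le_nhds (h2.eventually h1), self_mem_nhdsWithin] with t ht ht0 hm
  obtain ⟨k, hk⟩ := mem_MM.1 hm
  by_cases hkA : k ∈ A
  · exact hs.2.2 k hkA t ht0 hk
  · have := ht k hkA
    rw [segment_same, Set.disjoint_singleton_left] at this
    exact this hk

lemma wexists_fl (h : Good a b) {A : Set ι} {z φ : ℂ} (hs : StW a b A z φ) {t : ℝ} (ht : 0 < t)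
    (hm : z + t * φ ∈ MM a b) :
    ∃ r : ℝ, 0 < r ∧ r ≤ t ∧ z + r * φ ∈ MM a b ∧
      ∀ s : ℝ, 0 < s → s < r → z + s * φ ∉ MM a b := by
  have h1 := hs.free h
  rw [eventually_nhdsWithin_iff, Metric.eventually_nhds_iff] at h1
  obtain ⟨ρ, hρ, hfree⟩ := h1
  have hfree' : ∀ s : ℝ, 0 < s → s < ρ → z + s * φ ∉ MM a b := fun s h0 h1 =>
    hfree (by rw [Real.dist_eq, sub_zero, abs_of_pos h0]; exact h1) h0
  have hρt : ρ ≤ t := by
    by_contra hlt
    exact hfree' t ht (not_le.1 hlt) hm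
  have hcl : IsClosed {s : ℝ | z + s * φ ∈ MM a b} := by
    have : IsClosed (MM a b) := by
      rw [← isOpen_compl_iff]; exact h.isOpen_compl
    exact this.preimage (by fun_prop : Continuous fun s : ℝ => z + (s : ℂ) * φ)
  have hK : IsCompact ({s : ℝ | z + s * φ ∈ MM a b} ∩ Icc ρ t) :=
    isCompact_Icc.inter_left hcl
  obtain ⟨r, hr, hr2⟩ := hK.exists_isLeast ⟨t, hm, hρt, le_refl _⟩
  refine ⟨r, by linarith [hr.2.1], hr.2.2, hr.1, fun s h0 h1 hms => ?_⟩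
  by_cases hsρ : s < ρ
  · exact hfree' s h0 hsρ hms
  · have := hr2 ⟨hms, not_lt.1 hsρ, by linarith [hr.2.2]⟩
    linarith

lemma wexit_of_free {A : Set ι} {z ψ : ℂ} {R t : ℝ} (hs : StW a b A z ψ) (ht : 0 < t)
    (hR : R < ‖z + t * ψ‖) (hf : ∀ s : ℝ, 0 < s → s ≤ t → z + s * ψ ∉ MM a b) :
    Exit a b A z ψ R := by
  refine ⟨t, ht, hR, fun k hk => ?_⟩
  rw [Set.disjoint_left]
  intro q hq hqk
  obtain ⟨s, hs0, hs1, rfl⟩ := mem_segment_add_mul ht.le hq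
  rcases eq_or_lt_of_le hs0 with h | h
  · rw [← h] at hqk
    simp only [ofReal_zero, zero_mul, add_zero] at hqk
    exact hs.2.1 k hk hqk
  · exact hf s h hs1 (mem_MM.2 ⟨k, hqk⟩)

lemma wnext_hit (hg : Good a b) {A : Set ι} {z ψ : ℂ} {R : ℝ} (hs : StW a b A z ψ) (h1 : ‖ψ‖ = 1)
    (hex : ¬ Exit a b A z ψ R) (hnv : ∀ u ∈ Vx a b, ¬ Fl a b z ψ u) :
    ∃ j, Hit a b A z ψ j ∧ ‖z + tt a b j z ψ * ψ‖ ≤ R := by
  have hT : 0 < max R 0 + ‖z‖ + 1 := by positivity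
  have h2 : ∃ t : ℝ, 0 < t ∧ z + t * ψ ∈ MM a b := by
    by_contra hno
    push Not at hno
    apply hex
    refine wexit_of_free (t := max R 0 + ‖z‖ + 1) hs hT ?_ fun s h0 _ => hno s h0
    have := norm_far (x := z) h1 hT.le
    have := le_max_left R 0
    linarith
  obtain ⟨t, ht, hm⟩ := h2
  obtain ⟨r, hr, -, hr1, hr2⟩ := wexists_fl hg hs ht hm
  have hfl : Fl a b z ψ (z + r * ψ) := ⟨r, hr, rfl, hr1, hr2⟩
  have hv : z + r * ψ ∉ Vx a b := fun hv => hnv _ hv hfl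
  obtain ⟨j, hj⟩ := mem_MM.1 hr1
  obtain ⟨h3, h4⟩ := whit_of_fl hs (hg.ne j) hfl hv hj
  refine ⟨j, h3, ?_⟩
  rw [← h4]
  by_contra hlt
  rw [not_le] at hlt
  have hc : ContinuousAt (fun s : ℝ => ‖z + s * ψ‖) r := by fun_prop
  have h5 : ∀ᶠ s : ℝ in 𝓝[<] r, R < ‖z + s * ψ‖ ∧ 0 < s ∧ s < r := by
    filter_upwards [nhdsWithin_le_nhds (hc.eventually_const_lt hlt),
      nhdsWithin_le_nhds (eventually_gt_nhds hr), self_mem_nhdsWithin] with s g1 g2 g3
    exact ⟨g1, g2, g3⟩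
  obtain ⟨s, g1, g2, g3⟩ := h5.exists
  exact hex (wexit_of_free hs g2 g1 fun s' k0 k1 => hr2 s' k0 (by linarith))

lemma wpath_st {A : Set ι} {z φ : ℂ} {w : List ι} {A' : Set ι} {z' φ' : ℂ}
    (h : Path a b A z φ w A' z' φ') (hs : StW a b A z φ) : StW a b A' z' φ' := by
  induction h with
  | nil A z φ => exact hs
  | @cons A z φ j w A' z' φ' h hp ih => exact ih (whit_st hs h).weak

/-- an infinite sequence of hits inside the disc, when the ray neither leaves it nor meets a vertex -/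
theorem exists_seq (hg : Good a b) {A : Set ι} {z φ : ℂ} {R : ℝ} (hs : StW a b A z φ)
    (h1 : ‖φ‖ = 1)
    (hnv : ∀ w A' z' φ', Path a b A z φ w A' z' φ' → ∀ u ∈ Vx a b, ¬ Fl a b z' φ' u)
    (hL : ¬ Leaves a b A z φ R) :
    ∃ (x d : ℕ → ℂ) (m : ℕ → ι), x 0 = z ∧ d 0 = φ ∧
      ∀ k, Fl a b (x k) (d k) (x (k + 1)) ∧ x (k + 1) ∈ mir a b (m (k + 1)) ∧
        d (k + 1) = rf (b (m (k + 1)) - a (m (k + 1))) (d k) ∧ ‖x (k + 1)‖ ≤ R := by
  have hstep : ∀ s : {s : Set ι × ℂ × ℂ // ∃ w, Path a b A z φ w s.1 s.2.1 s.2.2},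
      ∃ j, Hit a b s.1.1 s.1.2.1 s.1.2.2 j ∧
        ‖s.1.2.1 + tt a b j s.1.2.1 s.1.2.2 * s.1.2.2‖ ≤ R := by
    rintro ⟨⟨A', z', ψ⟩, w, hw⟩
    simp only at hw
    refine wnext_hit hg (wpath_st hw hs) (by rw [path_norm hw, h1]) ?_ ?_
    · intro he; exact hL ⟨w, A', z', ψ, hw, he⟩
    · exact hnv _ _ _ _ hw
  choose J hJ1 hJ2 using hstep
  let nxt : {s : Set ι × ℂ × ℂ // ∃ w, Path a b A z φ w s.1 s.2.1 s.2.2} →
      {s : Set ι × ℂ × ℂ // ∃ w, Path a b A z φ w s.1 s.2.1 s.2.2} := fun s =>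
    ⟨({J s}, s.1.2.1 + tt a b (J s) s.1.2.1 s.1.2.2 * s.1.2.2, rf (b (J s) - a (J s)) s.1.2.2), by
      obtain ⟨w, hw⟩ := s.2
      exact ⟨w ++ [J s], path_append hw (Path.cons (hJ1 s) (Path.nil _ _ _))⟩⟩
  let st : ℕ → {s : Set ι × ℂ × ℂ // ∃ w, Path a b A z φ w s.1 s.2.1 s.2.2} := fun n =>
    Nat.rec ⟨(A, z, φ), [], Path.nil _ _ _⟩ (fun _ s => nxt s) n
  have hst : ∀ n, st (n + 1) = nxt (st n) := fun n => rfl
  have hSt : ∀ n, StW a b (st n).1.1 (st n).1.2.1 (st n).1.2.2 := by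
    intro n
    obtain ⟨w, hw⟩ := (st n).2
    exact wpath_st hw hs
  refine ⟨fun n => (st n).1.2.1, fun n => (st n).1.2.2, fun n => J (st (n - 1)), rfl, rfl,
    fun k => ⟨?_, ?_, ?_, ?_⟩⟩
  · show Fl a b (st k).1.2.1 (st k).1.2.2 (st (k + 1)).1.2.1
    rw [hst]
    exact whit_fl (hSt k) (hJ1 (st k))
  · show (st (k + 1)).1.2.1 ∈ mir a b (J (st k))
    rw [hst]
    exact hit_mem' (hJ1 (st k))
  · show (st (k + 1)).1.2.2 = rf (b (J (st k)) - a (J (st k))) (st k).1.2.2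
    rw [hst]
  · show ‖(st (k + 1)).1.2.1‖ ≤ R
    rw [hst]
    exact hJ2 (st k)

/-! ### Back to sets of mirrors -/

lemma gstep_of {S : Set (Set ℂ)} (h : S = range (mir a b)) {x d y : ℂ} {j : ι}
    (hf : Fl a b x d y) (hj : y ∈ mir a b j) : Step S x d y (rf (b j - a j) d) := by
  obtain ⟨t, ht, hy, hym, hf⟩ := hf
  rw [gMM h] at hym hf
  refine ⟨⟨t, ht, hy, hym, hf⟩, a j, b j, ?_, hj, rfl⟩
  rw [h]; exact ⟨j, rfl⟩

lemma path_seq {S : Set (Set ℂ)} (hS : S = range (mir a b)) {A : Set ι} {z φ : ℂ} {w : List ι}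
    {A' : Set ι} {z' φ' : ℂ} (h : Path a b A z φ w A' z' φ') (hs : StW a b A z φ) :
    ∃ x d : ℕ → ℂ, x 0 = z ∧ d 0 = φ ∧ x w.length = z' ∧ d w.length = φ' ∧
      ∀ k < w.length, Step S (x k) (d k) (x (k + 1)) (d (k + 1)) := by
  induction h with
  | nil A z φ => exact ⟨fun _ => z, fun _ => φ, rfl, rfl, rfl, rfl, by simp⟩
  | @cons A z φ j w A' z' φ' h hp ih =>
    obtain ⟨x, d, h1, h2, h3, h4, h5⟩ := ih (whit_st hs h).weak
    refine ⟨fun k => Nat.casesOn k z x, fun k => Nat.casesOn k φ d, rfl, rfl, h3, h4, ?_⟩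
    intro k hk
    cases k with
    | zero =>
      show Step S z φ (x 0) (d 0)
      rw [h1, h2]
      exact gstep_of hS (whit_fl hs h) (hit_mem' h)
    | succ k =>
      show Step S (x k) (d k) (x (k + 1)) (d (k + 1))
      exact h5 k (by simpa using hk)

/-- leaving, from a point of the mirror, along the mirror -/
lemma leaves_along {i : ι} {y g : ℂ} {R t₀ : ℝ} (ht₀ : 0 ≤ t₀)
    (hc : ∀ k, k ≠ i → Disjoint (segment ℝ y (y + t₀ * g)) (mir a b k))
    (h : Leaves a b {i} (y + t₀ * g) g R) : Leaves a b {i} y g R := by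
  have hjoin : ∀ {t : ℝ}, 0 ≤ t → ∀ k, k ≠ i →
      Disjoint (segment ℝ (y + t₀ * g) (y + t₀ * g + t * g)) (mir a b k) →
      Disjoint (segment ℝ y (y + ((t₀ + t : ℝ) : ℂ) * g)) (mir a b k) := by
    intro t ht k hk h1
    rw [Set.disjoint_left]
    intro q hq hqk
    obtain ⟨r, hr0, hr1, rfl⟩ := mem_segment_add_mul (by linarith) hq
    rcases le_total r t₀ with h2 | h2
    · exact Set.disjoint_left.1 (hc k hk) (add_mul_mem_segment hr0 h2) hqk
    · refine Set.disjoint_left.1 h1 ?_ hqk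
      have : y + r * g = y + t₀ * g + ((r - t₀ : ℝ) : ℂ) * g := by push_cast; ring
      rw [this]
      exact add_mul_mem_segment (by linarith) (by linarith)
  obtain ⟨w, A', z', φ', hp, he⟩ := h
  cases hp with
  | nil =>
    obtain ⟨t, ht, hR, hcl⟩ := he
    refine ⟨[], {i}, y, g, Path.nil _ _ _, t₀ + t, by linarith, ?_, ?_⟩
    · have : y + ((t₀ + t : ℝ) : ℂ) * g = y + t₀ * g + t * g := by push_cast; ring
      rw [this]; exact hR
    · intro k hk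
      exact hjoin ht.le k (by simpa using hk) (hcl k hk)
  | cons hh hp =>
    rename_i j w
    have e1 : y + ((t₀ + tt a b j (y + t₀ * g) g : ℝ) : ℂ) * g
        = y + t₀ * g + tt a b j (y + t₀ * g) g * g := by push_cast; ring
    obtain ⟨e2, e3⟩ := tt_of (z := y) (t := t₀ + tt a b j (y + t₀ * g) g)
      (τ := ss a b j (y + t₀ * g) g) hh.tr (by rw [e1, hit_pt hh.tr])
    have hh' : Hit a b {i} y g j := by
      refine ⟨hh.tr, by rw [e2]; have := hh.t0; linarith, by rw [e3]; exact hh.s0,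
        by rw [e3]; exact hh.s1, fun k hk hkj => ?_⟩
      rw [e2]
      exact hjoin hh.t0.le k (by simpa using hk) (hh.cl k hk hkj)
    refine ⟨j :: w, A', z', φ', Path.cons hh' ?_, he⟩
    rw [e2, e1]
    exact hp

end Pool.Agent.H628_Mirror
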