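import Pool.Agent.H628_Mirror.Ray

/-!
# Bounded rays with finitely many directions, and with commensurable mirrors
-/

set_option autoImplicit false

open Complex ComplexConjugate Set Filter Topology

namespace Pool.Agent.H628_Mirror

variable {S : Set (Set ℂ)} {a b : S → ℂ}

lemma norm_eq_one_of_ray {p : ℂ} {α : ℝ} {x d : ℕ → ℂ} (h : IsRay S p α x d) : ‖d 0‖ = 1 := by
  rw [h.2.1]; exact norm_exp_angle α

lemma traj_of_ray (hm : ∀ i : S, (i : Set ℂ) = mir a b i) (hg : Good a b) {p : ℂ}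
    (hp : p ∉ ⋃₀ S) {α : ℝ} (hex : ¬ Exceptional S p α) {x d : ℕ → ℂ} (h : IsRay S p α x d) :
    ∃ m : ℕ → S, Traj a b p x d m := by
  have h1 : ∀ k, ∃ j : S, x (k + 1) ∈ mir a b j ∧ d (k + 1) = rf (b j - a j) (d k) := fun k =>
    (step_index hm hg (h.2.2 k)).2
  choose j hj1 hj2 using h1
  have hnv : ∀ k, x (k + 1) ∉ Vx a b := by
    intro k hk
    rw [← singular_iff hm hg] at hk
    exact hex ⟨k + 1, x, d, h.1, h.2.1, fun l _ => h.2.2 l, hk⟩
  refine ⟨fun k => j (k - 1), h.1, ?_, norm_eq_one_of_ray h,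
    fun k => (step_index hm hg (h.2.2 k)).1, hnv, fun k => hj1 k, fun k => hj2 k⟩
  rw [MM_eq hm]; exact hp

lemma bad_of_exceptional (hm : ∀ i : S, (i : Set ℂ) = mir a b i) (hg : Good a b) {p : ℂ}
    (hp : p ∉ ⋃₀ S) {α : ℝ} (hex : Exceptional S p α) {Q : Set ℂ} (hQ : Vx a b ⊆ Q) (hpQ : p ∈ Q) :
    Complex.exp ((α : ℂ) * Complex.I) ∈ BadQ a b Q := by
  obtain ⟨n, x, d, h1, h2, h3, h4⟩ := hex
  rw [singular_iff hm hg] at h4
  have hne : Nonempty S := by
    rcases h4 with ⟨i, -⟩ | ⟨i, -⟩ <;> exact ⟨i⟩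
  have h5 : ∀ k, ∃ j : S, k < n → x (k + 1) ∈ mir a b j ∧ d (k + 1) = rf (b j - a j) (d k) := by
    intro k
    by_cases hk : k < n
    · obtain ⟨j, hj⟩ := (step_index hm hg (h3 k hk)).2
      exact ⟨j, fun _ => hj⟩
    · exact ⟨hne.some, fun h => absurd h hk⟩
  choose j hj using h5
  rw [← h2]
  refine bad_of_vertex (m := fun k => j (k - 1)) hg (by rw [h1, MM_eq hm]; exact hp)
    (by rw [h2]; exact norm_exp_angle α) hQ (by rw [h1]; exact hpQ) n ?_ h4
  intro k hk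
  exact ⟨(step_index hm hg (h3 k hk)).1, fun _ => hj k hk⟩

/-- the bad initial directions at `p` -/
def BadAt (a b : S → ℂ) (p : ℂ) : Set ℂ :=
  BadInit a b (Vx a b ∪ {0, p}) ∪ BadQ a b (Vx a b ∪ {0, p})

lemma countable_badAt (hg : Good a b) (p : ℂ) : (BadAt a b p).Countable := by
  have := hg.countable
  have h1 : (Vx a b ∪ {0, p}).Countable := hg.countable_vx.union (by simp)
  exact (countable_badInit h1).union (countable_badQ h1)

theorem finDir_bad (hm : ∀ i : S, (i : Set ℂ) = mir a b i) (hg : Good a b) {p : ℂ}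
    (hp : p ∉ ⋃₀ S) {R : ℝ} (hC : ¬ connectedComponentIn (⋃₀ S)ᶜ p ⊆ Metric.closedBall 0 R)
    {α : ℝ} (h : Exceptional S p α ∨ ∃ x d : ℕ → ℂ, IsRay S p α x d ∧
      (∀ k, ‖x k‖ ≤ R) ∧ (Set.range d).Finite) :
    Complex.exp ((α : ℂ) * Complex.I) ∈ BadAt a b p := by
  have hQ : Vx a b ⊆ Vx a b ∪ {0, p} := subset_union_left
  by_cases hex : Exceptional S p α
  · exact Or.inr (bad_of_exceptional hm hg hp hex hQ (by simp))
  · rcases h with h | ⟨x, d, h1, h2, h3⟩
    · exact absurd h hex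
    obtain ⟨m, hT⟩ := traj_of_ray hm hg hp hex h1
    by_contra hbad
    apply hC
    have := core hg hT h2 h3 (Q := Vx a b ∪ {0, p}) (by simp) hQ (by
      rw [h1.2.1]; exact fun hb => hbad (Or.inl hb))
    rwa [MM_eq hm] at this

/-- **Bounded rays with finitely many directions.** -/
theorem finite_directions (hS : MirrorFamily S) {p : ℂ} (hp : p ∉ ⋃₀ S)
    (hC : ¬ Bornology.IsBounded (connectedComponentIn (⋃₀ S)ᶜ p)) :
    {α : ℝ | Exceptional S p α ∨ ∃ x d : ℕ → ℂ, IsRay S p α x d ∧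
      Bornology.IsBounded (Set.range x) ∧ (Set.range d).Finite}.Countable := by
  obtain ⟨a, b, hm, hg⟩ := hS.exists_index
  refine (countable_angle (countable_badAt hg p)).mono ?_
  rintro α h
  rcases h with h | ⟨x, d, h1, h2, h3⟩
  · refine finDir_bad (R := 0) hm hg hp (fun hsub => hC ?_) (Or.inl h)
    exact Metric.isBounded_closedBall.subset hsub
  · obtain ⟨R, hR⟩ := h2.subset_closedBall 0
    refine finDir_bad (R := R) hm hg hp (fun hsub => hC ?_) (Or.inr ⟨x, d, h1, ?_, h3⟩)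
    · exact Metric.isBounded_closedBall.subset hsub
    · intro k
      have := hR (mem_range_self k)
      rwa [mem_closedBall_zero_iff] at this

/-! ### Commensurable mirrors -/

lemma exists_common_exponent {F : Set ℂ} (hF : F.Finite) (h : ∀ z ∈ F, ∃ n : ℕ, 0 < n ∧ z ^ n = 1) :
    ∃ N : ℕ, 0 < N ∧ ∀ z ∈ F, z ^ N = 1 := by
  induction F, hF using Set.Finite.induction_on with
  | empty => exact ⟨1, one_pos, by simp⟩
  | @insert z F _ _ ih =>
    obtain ⟨N, hN, h1⟩ := ih fun w hw => h w (mem_insert_of_mem _ hw)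
    obtain ⟨n, hn, h2⟩ := h z (mem_insert _ _)
    refine ⟨n * N, Nat.mul_pos hn hN, ?_⟩
    intro w hw
    rcases mem_insert_iff.1 hw with rfl | hw
    · rw [pow_mul, h2, one_pow]
    · rw [mul_comm, pow_mul, h1 w hw, one_pow]

lemma finite_roots {N : ℕ} (hN : 0 < N) (c : ℂ) : {z : ℂ | z ^ N = c}.Finite := by
  classical
  refine (Polynomial.nthRoots N c).toFinset.finite_toSet.subset ?_
  intro z hz
  rw [Finset.mem_coe, Multiset.mem_toFinset, Polynomial.mem_nthRoots hN]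
  exact hz

lemma ratio_root {u v : ℂ} (hu : u ≠ 0) (hv : v ≠ 0) {q : ℚ} {r : ℝ}
    (h : v = r * Complex.exp ((q : ℂ) * Real.pi * Complex.I) * u) :
    ∃ n : ℕ, 0 < n ∧ (v / conj v * conj (u / conj u)) ^ n = 1 := by
  refine ⟨q.den, q.den_pos, ?_⟩
  have hr : (r : ℂ) ≠ 0 := by
    intro h0; rw [h0, zero_mul, zero_mul] at h; exact hv h
  have hu' : conj u ≠ 0 := (map_ne_zero _).2 hu
  set ζ := Complex.exp ((q : ℂ) * Real.pi * Complex.I) with hζ
  have hζ0 : ζ ≠ 0 := Complex.exp_ne_zero _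
  have hζ1 : conj ζ = ζ⁻¹ := by
    rw [hζ, ← Complex.exp_conj, ← Complex.exp_neg]
    congr 1
    simp only [map_mul, Complex.conj_I, Complex.conj_ofReal]
    have : conj (q : ℂ) = (q : ℂ) := by
      have : (q : ℂ) = ((q : ℝ) : ℂ) := by push_cast; rfl
      rw [this, Complex.conj_ofReal]
    rw [this]; ring
  have h1 : v / conj v * conj (u / conj u) = ζ ^ 2 := by
    rw [h, map_mul, map_mul, Complex.conj_ofReal, hζ1, map_div₀, Complex.conj_conj]
    field_simp
  rw [h1, ← pow_mul, hζ, ← Complex.exp_nat_mul]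
  have h2 : ((2 * q.den : ℕ) : ℂ) * ((q : ℂ) * Real.pi * Complex.I)
      = (q.num : ℂ) * (2 * Real.pi * Complex.I) := by
    have h3 : (q : ℂ) * (q.den : ℂ) = (q.num : ℂ) := by exact_mod_cast q.mul_den_eq_num
    push_cast
    linear_combination (2 * Real.pi * Complex.I) * h3
  rw [h2]
  exact Complex.exp_int_mul_two_pi_mul_I q.num

/-- A bounded ray which meets only mirrors with pairwise commensurable inclinations has finitely many
directions. -/
theorem finite_of_commensurable (hm : ∀ i : S, (i : Set ℂ) = mir a b i) (hg : Good a b) {p : ℂ}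
    {x d : ℕ → ℂ} {m : ℕ → S} (hT : Traj a b p x d m) {R : ℝ}
    (hR : ∀ k, ‖x k‖ ≤ R)
    (hc : ∀ a₁ b₁ a₂ b₂ : ℂ, segment ℝ a₁ b₁ ∈ S → segment ℝ a₂ b₂ ∈ S →
      (∃ k, x (k + 1) ∈ segment ℝ a₁ b₁) → (∃ k, x (k + 1) ∈ segment ℝ a₂ b₂) →
      ∃ (q : ℚ) (r : ℝ), b₂ - a₂ = r * Complex.exp ((q : ℂ) * Real.pi * Complex.I) * (b₁ - a₁)) :
    (Set.range d).Finite := by
  have he : ∀ j, b j - a j ≠ 0 := fun j => sub_ne_zero.2 (hg.ne j).symm
  set c : S → ℂ := fun j => (b j - a j) / conj (b j - a j) with hcdef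
  set J : Set S := {i | (mir a b i ∩ Metric.closedBall 0 R).Nonempty} with hJ
  have hJf : J.Finite := hg.lf R
  set H : Set S := {i | ∃ k, i = m (k + 1)} with hH
  have hHf : H.Finite := by
    refine hJf.subset ?_
    rintro i ⟨k, rfl⟩
    exact ⟨x (k + 1), hT.mem k, by rw [mem_closedBall_zero_iff]; exact hR _⟩
  set F : Set ℂ := (fun q : S × S => c q.1 * conj (c q.2)) '' (H ×ˢ H) with hF
  have hFf : F.Finite := (hHf.prod hHf).image _
  obtain ⟨N, hN, hN1⟩ := exists_common_exponent hFf (by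
    rintro z ⟨⟨i, j⟩, ⟨⟨k, hk⟩, ⟨l, hl⟩⟩, rfl⟩
    simp only at hk hl
    have e1 : segment ℝ (a j) (b j) ∈ S := by
      have := hm j; rw [mir] at this; rw [← this]; exact j.2
    have e2 : segment ℝ (a i) (b i) ∈ S := by
      have := hm i; rw [mir] at this; rw [← this]; exact i.2
    obtain ⟨q, r, hqr⟩ := hc _ _ _ _ e1 e2 ⟨l, by rw [hl]; exact hT.mem l⟩
      ⟨k, by rw [hk]; exact hT.mem k⟩
    exact ratio_root (he j) (he i) hqr)
  have hstep : ∀ k, d (k + 2) ^ N = d k ^ N := by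
    intro k
    have h1 : d (k + 2) = c (m (k + 2)) * conj (c (m (k + 1))) * d k := by
      have e1 : d (k + 2) = c (m (k + 2)) * conj (d (k + 1)) := hT.rf (k + 1)
      have e2 : d (k + 1) = c (m (k + 1)) * conj (d k) := hT.rf k
      rw [e1, e2, map_mul, Complex.conj_conj]; ring
    rw [h1, mul_pow, hN1 _ ⟨(m (k + 2), m (k + 1)), ⟨⟨k + 1, rfl⟩, ⟨k, rfl⟩⟩, rfl⟩, one_mul]
  refine ((finite_roots hN (d 0 ^ N)).union (finite_roots hN (d 1 ^ N))).subset ?_
  rintro z ⟨k, rfl⟩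
  have : ∀ k, d (2 * k) ^ N = d 0 ^ N ∧ d (2 * k + 1) ^ N = d 1 ^ N := by
    intro k
    induction k with
    | zero => exact ⟨rfl, rfl⟩
    | succ k ih =>
      have e1 : 2 * (k + 1) = 2 * k + 2 := by ring
      have e2 : 2 * k + 2 + 1 = 2 * k + 1 + 2 := by ring
      rw [e1, e2, hstep (2 * k), hstep (2 * k + 1)]
      exact ih
  rcases Nat.even_or_odd' k with ⟨l, rfl | rfl⟩
  · exact Or.inl (this l).1
  · exact Or.inr (this l).2

end Pool.Agent.H628_Mirror
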