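import Pool.Agent.H628_Mirror.Inv

/-!
# An infinite orbit of boundary states is periodic
-/

set_option autoImplicit false

open Complex ComplexConjugate Set Filter Topology

namespace Pool.Agent.H628_Mirror

variable {ι : Type*} {a b : ι → ℂ}

/-- an infinite orbit of states -/
structure Orb (a b : ι → ℂ) (Λ : ι → ℂ → ℂ → Prop) (I : ℕ → ι) (Z Φ : ℕ → ℂ) : Prop where
  st : ∀ k, Λ (I k) (Z k) (Φ k)
  hit : ∀ k, Hit a b {I k} (Z k) (Φ k) (I (k + 1))
  nz : ∀ k, Z (k + 1) = Z k + tt a b (I (k + 1)) (Z k) (Φ k) * Φ k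
  nd : ∀ k, Φ (k + 1) = rf (b (I (k + 1)) - a (I (k + 1))) (Φ k)

/-- speeds of the parallel points on the mirrors -/
noncomputable def cc (a b : ι → ℂ) (I : ℕ → ι) (Φ : ℕ → ℂ) (c₀ : ℝ) : ℕ → ℝ
  | 0 => c₀
  | k + 1 => cc a b I Φ c₀ k * cr (Φ k) (b (I k) - a (I k)) /
      cr (Φ k) (b (I (k + 1)) - a (I (k + 1)))

/-- signed distance of the parallel orbits, per unit of the parameter -/
noncomputable def kap (a b : ι → ℂ) (I : ℕ → ι) (Φ : ℕ → ℂ) (c₀ : ℝ) (k : ℕ) : ℝ :=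
  cc a b I Φ c₀ k * cr (Φ k) (b (I k) - a (I k))

/-- the parallel points -/
noncomputable def pt (a b : ι → ℂ) (I : ℕ → ι) (Z Φ : ℕ → ℂ) (c₀ : ℝ) (k : ℕ) (s : ℝ) : ℂ :=
  Z k + ((s * cc a b I Φ c₀ k : ℝ) : ℂ) * (b (I k) - a (I k))

section
variable {D : Set ℂ} {R : ℝ} {Λ : ι → ℂ → ℂ → Prop} {I : ℕ → ι} {Z Φ : ℕ → ℂ} {c₀ : ℝ}

lemma pt_zero (k : ℕ) : pt a b I Z Φ c₀ k 0 = Z k := by simp [pt]

lemma kap_succ (hg : Good a b) (hO : Orb a b Λ I Z Φ) (k : ℕ) :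
    kap a b I Φ c₀ (k + 1) = - kap a b I Φ c₀ k := by
  have he : b (I (k + 1)) - a (I (k + 1)) ≠ 0 := sub_ne_zero.2 (hg.ne _).symm
  have htr := (hO.hit k).tr
  unfold kap
  rw [hO.nd k, cr_rf_self he]
  simp only [cc]
  field_simp

lemma kap_mem (hg : Good a b) (hO : Orb a b Λ I Z Φ) (k : ℕ) :
    kap a b I Φ c₀ k = kap a b I Φ c₀ 0 ∨ kap a b I Φ c₀ k = - kap a b I Φ c₀ 0 := by
  induction k with
  | zero => exact Or.inl rfl
  | succ k ih =>
    rw [kap_succ hg hO]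
    rcases ih with h | h <;> rw [h] <;> simp

lemma kap_zero_ne (hI : Inv a b D R Λ) (hD : DirOK a b D) (hO : Orb a b Λ I Z Φ) (hc : c₀ ≠ 0) :
    kap a b I Φ c₀ 0 ≠ 0 := by
  unfold kap
  simp only [cc]
  exact mul_ne_zero hc (hD.np _ (hI.dir _ _ _ (hO.st 0)) _)

lemma kap_ne (hg : Good a b) (hI : Inv a b D R Λ) (hD : DirOK a b D) (hO : Orb a b Λ I Z Φ)
    (hc : c₀ ≠ 0) (k : ℕ) : kap a b I Φ c₀ k ≠ 0 := by
  have h0 := kap_zero_ne hI hD hO hc
  rcases kap_mem (c₀ := c₀) hg hO k with h | h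
  · rw [h]; exact h0
  · rw [h]; exact neg_ne_zero.2 h0

lemma cr_pt (k : ℕ) (s : ℝ) :
    cr (Φ k) (pt a b I Z Φ c₀ k s - Z k) = s * kap a b I Φ c₀ k := by
  unfold pt kap
  rw [add_sub_cancel_left, cr_mul_right]; ring

/-- the parallel points are joined by parallel flights -/
lemma pt_succ (hO : Orb a b Λ I Z Φ) (k : ℕ) (s : ℝ) :
    pt a b I Z Φ c₀ k s + tt a b (I (k + 1)) (pt a b I Z Φ c₀ k s) (Φ k) * Φ k
      = pt a b I Z Φ c₀ (k + 1) s := by
  have htr := (hO.hit k).tr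
  have hΦ : Φ k ≠ 0 := cr_ne_zero_left htr
  have h1 : cr (pt a b I Z Φ c₀ (k + 1) s - pt a b I Z Φ c₀ k s) (Φ k) = 0 := by
    have e1 : pt a b I Z Φ c₀ (k + 1) s - pt a b I Z Φ c₀ k s =
        (tt a b (I (k + 1)) (Z k) (Φ k) : ℂ) * Φ k
          + ((s * cc a b I Φ c₀ (k + 1) : ℝ) : ℂ) * (b (I (k + 1)) - a (I (k + 1)))
          - ((s * cc a b I Φ c₀ k : ℝ) : ℂ) * (b (I k) - a (I k)) := by
      unfold pt; rw [hO.nz k]; ring
    rw [e1, cr_sub_left, cr_add_left, cr_mul_left, cr_mul_left, cr_mul_left, cr_self,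
      cr_comm (b (I (k + 1)) - a (I (k + 1))), cr_comm (b (I k) - a (I k))]
    simp only [cc]
    field_simp
    ring
  obtain ⟨μ, hμ⟩ := exists_smul_of_cr_eq_zero hΦ h1
  have h2 : pt a b I Z Φ c₀ k s + μ * Φ k = a (I (k + 1)) +
      ((ss a b (I (k + 1)) (Z k) (Φ k) + s * cc a b I Φ c₀ (k + 1) : ℝ) : ℂ) *
        (b (I (k + 1)) - a (I (k + 1))) := by
    rw [← hμ]
    have h3 := hit_pt (z := Z k) (a := a) (b := b) htr
    rw [← hO.nz k] at h3
    have h4 : pt a b I Z Φ c₀ (k + 1) s = Z (k + 1) + ((s * cc a b I Φ c₀ (k + 1) : ℝ) : ℂ) *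
        (b (I (k + 1)) - a (I (k + 1))) := rfl
    rw [add_sub_cancel, h4, h3]; push_cast; ring
  rw [(tt_of htr h2).1, ← hμ]; ring

lemma continuous_pt (k : ℕ) : Continuous (fun s : ℝ => pt a b I Z Φ c₀ k s) := by
  unfold pt; fun_prop

/-- states of the parallel orbits -/
lemma strip_st (hg : Good a b) (hI : Inv a b D R Λ) (hD : DirOK a b D) (hO : Orb a b Λ I Z Φ)
    {δ : ℝ} (hgap : ∀ s, 0 < s → s < δ → pt a b I Z Φ c₀ 0 s ∈ mir a b (I 0) ∧
      pt a b I Z Φ c₀ 0 s ∉ Vx a b ∧ ¬ Λ (I 0) (pt a b I Z Φ c₀ 0 s) (Φ 0))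
    {w : ℝ} (hw : w ≤ δ) (k : ℕ)
    (hstrip : ∀ l < k, ∀ s, 0 < s → s < w → Hit a b {I l} (pt a b I Z Φ c₀ l s) (Φ l) (I (l + 1)))
    {s : ℝ} (h0 : 0 < s) (h1 : s < w) :
    St a b {I k} (pt a b I Z Φ c₀ k s) (Φ k) ∧ ¬ Λ (I k) (pt a b I Z Φ c₀ k s) (Φ k) := by
  induction k with
  | zero =>
    obtain ⟨g1, g2, g3⟩ := hgap s h0 (by linarith)
    obtain ⟨m1, m2⟩ := mem_of_not_vx g2 g1
    have h3 := hD.np _ (hI.dir _ _ _ (hO.st 0)) (I 0)
    exact ⟨⟨cr_ne_zero_left h3, Or.inr ⟨I 0, rfl, m1, h3, m2⟩⟩, g3⟩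
  | succ k ih =>
    obtain ⟨i1, i2⟩ := ih (fun l hl => hstrip l (by omega))
    have hh := hstrip k (by omega) s h0 h1
    have hst := hit_st i1 hh
    rw [pt_succ hO, ← hO.nd k] at hst
    refine ⟨hst, fun hΛ => i2 ?_⟩
    apply hI.bw _ _ _ _ i1 hh
    rw [pt_succ hO, ← hO.nd k]
    exact hΛ

/-- events: a vertex ends the family of parallel hits -/
def Ev (a b : ι → ℂ) (I : ℕ → ι) (Z Φ : ℕ → ℂ) (c₀ δ R' : ℝ) (k : ℕ) (w s : ℝ) (u : ℂ) : Prop :=
  0 < s ∧ s < w ∧ w ≤ δ ∧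
  (∀ l < k, ∀ s', 0 < s' → s' < w → Hit a b {I l} (pt a b I Z Φ c₀ l s') (Φ l) (I (l + 1))) ∧
  u ∈ Vx a b ∧ ‖u‖ ≤ R' ∧ cr (Φ k) (u - Z k) = s * kap a b I Φ c₀ k

/-- two events with the same data take place at the same distance -/
lemma ev_unique_aux (hg : Good a b) (hI : Inv a b D R Λ) (hD : DirOK a b D)
    (hO : Orb a b Λ I Z Φ) {δ : ℝ}
    (hgap : ∀ s, 0 < s → s < δ → pt a b I Z Φ c₀ 0 s ∈ mir a b (I 0) ∧
      pt a b I Z Φ c₀ 0 s ∉ Vx a b ∧ ¬ Λ (I 0) (pt a b I Z Φ c₀ 0 s) (Φ 0))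
    {R' : ℝ} {k k' : ℕ} {w w' s s' : ℝ} {u : ℂ} (h : Ev a b I Z Φ c₀ δ R' k w s u)
    (h' : Ev a b I Z Φ c₀ δ R' k' w' s' u) (e1 : I k = I k') (e2 : Φ k = Φ k')
    (e3 : kap a b I Φ c₀ k = kap a b I Φ c₀ k') : ¬ s' < s := by
  intro hlt
  obtain ⟨h0, h1, h2, h3, -, -, h4⟩ := h
  obtain ⟨h0', -, -, -, -, -, h4'⟩ := h'
  have he : b (I k) - a (I k) ≠ 0 := sub_ne_zero.2 (hg.ne _).symm
  have hnp := hD.np _ (hI.dir _ _ _ (hO.st k)) (I k)
  -- both points are on the line of the mirror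
  have m1 := cr_of_mem_segment (hI.mem _ _ _ (hO.st k))
  have m2 := cr_of_mem_segment (hI.mem _ _ _ (hO.st k'))
  rw [← e1] at m2
  have m3 : cr (Z k' - Z k) (b (I k) - a (I k)) = 0 := by
    have : Z k' - Z k = (Z k' - a (I k)) - (Z k - a (I k)) := by ring
    rw [this, cr_sub_left, m1, m2, sub_zero]
  obtain ⟨μ, hμ⟩ := exists_smul_of_cr_eq_zero he m3
  have m4 : cr (Φ k) (Z k' - Z k) = (s - s') * kap a b I Φ c₀ k := by
    have : Z k' - Z k = (u - Z k) - (u - Z k') := by ring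
    rw [this, cr_sub_right, h4, e2, h4', ← e3]; ring
  rw [hμ, cr_mul_right] at m4
  have m5 : μ = (s - s') * cc a b I Φ c₀ k := by
    have : (μ - (s - s') * cc a b I Φ c₀ k) * cr (Φ k) (b (I k) - a (I k)) = 0 := by
      rw [sub_mul, m4]; unfold kap; ring
    rcases mul_eq_zero.1 this with h5 | h5
    · linarith
    · exact absurd h5 hnp
  have m6 : Z k' = pt a b I Z Φ c₀ k (s - s') := by
    unfold pt
    rw [← m5, ← hμ]; ring
  have := (strip_st hg hI hD hO hgap h2 k h3 (s := s - s') (by linarith) (by linarith)).2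
  apply this
  rw [← m6, e1, e2]
  exact hO.st k'

lemma ev_unique (hg : Good a b) (hI : Inv a b D R Λ) (hD : DirOK a b D)
    (hO : Orb a b Λ I Z Φ) {δ : ℝ}
    (hgap : ∀ s, 0 < s → s < δ → pt a b I Z Φ c₀ 0 s ∈ mir a b (I 0) ∧
      pt a b I Z Φ c₀ 0 s ∉ Vx a b ∧ ¬ Λ (I 0) (pt a b I Z Φ c₀ 0 s) (Φ 0))
    {R' : ℝ} {k k' : ℕ} {w w' s s' : ℝ} {u : ℂ} (h : Ev a b I Z Φ c₀ δ R' k w s u)
    (h' : Ev a b I Z Φ c₀ δ R' k' w' s' u) (e1 : I k = I k') (e2 : Φ k = Φ k')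
    (e3 : kap a b I Φ c₀ k = kap a b I Φ c₀ k') : s = s' :=
  le_antisymm (not_lt.1 (ev_unique_aux hg hI hD hO hgap h h' e1 e2 e3))
    (not_lt.1 (ev_unique_aux hg hI hD hO hgap h' h e1.symm e2.symm e3.symm))

/-- if the family of parallel orbits ends somewhere, there is an event -/
lemma ev_exists (hg : Good a b) (hI : Inv a b D R Λ) (hD : DirOK a b D)
    (hO : Orb a b Λ I Z Φ) {δ : ℝ}
    (hgap : ∀ s, 0 < s → s < δ → pt a b I Z Φ c₀ 0 s ∈ mir a b (I 0) ∧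
      pt a b I Z Φ c₀ 0 s ∉ Vx a b ∧ ¬ Λ (I 0) (pt a b I Z Φ c₀ 0 s) (Φ 0))
    {R' : ℝ} (hR' : ∀ i, (mir a b i ∩ Metric.closedBall 0 R).Nonempty →
      mir a b i ⊆ Metric.closedBall 0 R')
    {w : ℝ} (hw0 : 0 < w) (hw : w ≤ δ)
    (hbad : ∃ k, ∃ s, 0 < s ∧ s < w ∧ ¬ Hit a b {I k} (pt a b I Z Φ c₀ k s) (Φ k) (I (k + 1))) :
    ∃ k s u, Ev a b I Z Φ c₀ δ R' k w s u := by
  classical
  set k := Nat.find hbad with hk
  obtain ⟨s₁, hs₁0, hs₁w, hs₁⟩ := Nat.find_spec hbad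
  have hstrip : ∀ l < k, ∀ s', 0 < s' → s' < w →
      Hit a b {I l} (pt a b I Z Φ c₀ l s') (Φ l) (I (l + 1)) := by
    intro l hl s' h0 h1
    by_contra hcon
    exact Nat.find_min hbad hl ⟨s', h0, h1, hcon⟩
  have hopen : ∀ s₀, Hit a b {I k} (pt a b I Z Φ c₀ k s₀) (Φ k) (I (k + 1)) →
      ∀ᶠ s in 𝓝 s₀, Hit a b {I k} (pt a b I Z Φ c₀ k s) (Φ k) (I (k + 1)) := by
    intro s₀ h
    exact hit_eventually (a := fun _ : ℝ => a) (b := fun _ => b) (hg.ulf s₀)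
      (fun _ => continuousAt_const) (fun _ => continuousAt_const)
      (continuous_pt k).continuousAt continuousAt_const h
  have hgood0 : ∀ᶠ s in 𝓝 (0 : ℝ), Hit a b {I k} (pt a b I Z Φ c₀ k s) (Φ k) (I (k + 1)) :=
    hopen 0 (by rw [pt_zero]; exact hO.hit k)
  rw [Metric.eventually_nhds_iff] at hgood0
  obtain ⟨ρ, hρ, hρ'⟩ := hgood0
  set B := {s : ℝ | 0 < s ∧ s < w ∧ ¬ Hit a b {I k} (pt a b I Z Φ c₀ k s) (Φ k) (I (k + 1))}
    with hB
  have hBne : B.Nonempty := ⟨s₁, hs₁0, hs₁w, hs₁⟩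
  have hBbd : BddBelow B := ⟨0, fun s hs => hs.1.le⟩
  set s := sInf B with hs
  have hsρ : ρ ≤ s := by
    apply le_csInf hBne
    intro x hx
    by_contra hlt
    exact hx.2.2 (hρ' (by rw [Real.dist_eq, sub_zero, abs_of_pos hx.1]; exact not_le.1 hlt))
  have hs0 : 0 < s := by linarith
  have hsw : s < w := lt_of_le_of_lt (csInf_le hBbd ⟨hs₁0, hs₁w, hs₁⟩) hs₁w
  have hbelow : ∀ x, 0 < x → x < s → Hit a b {I k} (pt a b I Z Φ c₀ k x) (Φ k) (I (k + 1)) := by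
    intro x h0 h1
    by_contra hcon
    have := csInf_le hBbd (show x ∈ B from ⟨h0, by linarith, hcon⟩)
    linarith
  have hns : ¬ Hit a b {I k} (pt a b I Z Φ c₀ k s) (Φ k) (I (k + 1)) := by
    intro h
    have h2 := hopen s h
    rw [Metric.eventually_nhds_iff] at h2
    obtain ⟨η, hη, hη'⟩ := h2
    obtain ⟨x, hx, hxs⟩ := exists_lt_of_csInf_lt hBne (show sInf B < s + η by linarith)
    have hsx : s ≤ x := csInf_le hBbd hx
    exact hx.2.2 (hη' (by rw [Real.dist_eq, abs_of_nonneg (by linarith)]; linarith))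
  obtain ⟨hst, -⟩ := strip_st hg hI hD hO hgap hw k hstrip hs0 hsw
  have hij : I (k + 1) ≠ I k := by
    intro h
    have h1 := (hO.hit k).t0
    rw [h] at h1
    have := tt_of_mem (hD.np _ (hI.dir _ _ _ (hO.st k)) (I k)) (t := 0) (z := Z k)
      (by simpa using hI.mem _ _ _ (hO.st k))
    linarith
  rcases hst.2 with ⟨hA, -⟩ | ⟨i', hA, hz, hi, hki⟩
  · exact absurd hA (Set.singleton_ne_empty _)
  have hii : I k = i' := by
    have : I k ∈ ({i'} : Set ι) := by rw [← hA]; rfl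
    exact this
  subst hii
  have hfreq : ∃ᶠ x in 𝓝 s, Hit a b {I k} (pt a b I Z Φ c₀ k x) (Φ k) (I (k + 1)) := by
    rw [Metric.nhds_basis_ball.frequently_iff]
    intro η hη
    refine ⟨max (s / 2) (s - η / 2), ?_, ?_⟩
    · rw [Metric.mem_ball, Real.dist_eq, abs_lt]
      constructor
      · have := le_max_right (s / 2) (s - η / 2)
        linarith
      · have : max (s / 2) (s - η / 2) < s := max_lt (by linarith) (by linarith)
        linarith
    · apply hbelow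
      · exact lt_of_lt_of_le (by linarith) (le_max_left _ _)
      · exact max_lt (by linarith) (by linarith)
  obtain ⟨hy, u, huv, t, hut, huseg⟩ := exists_vertex (x₀ := s) hij (continuous_pt k).continuousAt
    (hD.np _ (hI.dir _ _ _ (hO.st k))) hki hfreq hns
  refine ⟨k, s, u, hs0, hsw, hw, hstrip, huv, ?_, ?_⟩
  · have c1 : mir a b (I k) ⊆ Metric.closedBall 0 R' :=
      hR' _ ⟨Z k, hI.mem _ _ _ (hO.st k), by simpa using hI.bd _ _ _ (hO.st k)⟩
    have c2 : mir a b (I (k + 1)) ⊆ Metric.closedBall 0 R' :=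
      hR' _ ⟨Z (k + 1), hI.mem _ _ _ (hO.st (k + 1)), by simpa using hI.bd _ _ _ (hO.st (k + 1))⟩
    have c3 := c1 (openSegment_subset_segment ℝ _ _ hz)
    have c4 := c2 hy
    have := segment_subset_closedBall (by simpa using c3) (by simpa using c4) huseg
    simpa using this
  · have : u - Z k = (pt a b I Z Φ c₀ k s - Z k) + t * Φ k := by rw [hut]; ring
    rw [this, cr_add_right, cr_pt, cr_mul_right, cr_self]; ring

/-- **Main lemma.** An infinite orbit that starts at a boundary state is periodic. -/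
theorem orbit_periodic (hg : Good a b) (hI : Inv a b D R Λ) (hD : DirOK a b D)
    (hO : Orb a b Λ I Z Φ) (hc : c₀ ≠ 0) {δ : ℝ} (hδ : 0 < δ)
    (hgap : ∀ s, 0 < s → s < δ → pt a b I Z Φ c₀ 0 s ∈ mir a b (I 0) ∧
      pt a b I Z Φ c₀ 0 s ∉ Vx a b ∧ ¬ Λ (I 0) (pt a b I Z Φ c₀ 0 s) (Φ 0)) :
    ∃ k l, k < l ∧ I k = I l ∧ Z k = Z l ∧ Φ k = Φ l := by
  classical
  have hJ := hg.lf R
  set J := {i | (mir a b i ∩ Metric.closedBall 0 R).Nonempty} with hJdef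
  -- a disc containing the mirrors that are met
  obtain ⟨R', hR'⟩ : ∃ R' : ℝ, ∀ i, (mir a b i ∩ Metric.closedBall 0 R).Nonempty →
      mir a b i ⊆ Metric.closedBall 0 R' := by
    obtain ⟨M, hM⟩ := (hJ.image (fun i => ‖a i‖ + ‖b i‖)).bddAbove
    refine ⟨M, fun i hi z hz => ?_⟩
    have h1 : ‖a i‖ + ‖b i‖ ≤ M := hM ⟨i, hi, rfl⟩
    exact segment_subset_closedBall (by linarith [norm_nonneg (b i)])
      (by linarith [norm_nonneg (a i)]) hz
  set K : Set ℝ := {kap a b I Φ c₀ 0, - kap a b I Φ c₀ 0} with hK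
  have hKm : ∀ k, kap a b I Φ c₀ k ∈ K := fun k => by
    rcases kap_mem (c₀ := c₀) hg hO k with h | h <;> simp [hK, h]
  have hIJ : ∀ k, I k ∈ J := fun k =>
    ⟨Z k, hI.mem _ _ _ (hO.st k), by simpa using hI.bd _ _ _ (hO.st k)⟩
  -- the distances of events are finitely many
  set O : Set ℝ := {s | ∃ k w u, Ev a b I Z Φ c₀ δ R' k w s u} with hOdef
  have hOfin : O.Finite := by
    choose! fk fw fu hf using (show ∀ s ∈ O, ∃ k w u, Ev a b I Z Φ c₀ δ R' k w s u from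
      fun s hs => hs)
    have hT : (J ×ˢ (D ×ˢ (K ×ˢ (Vx a b ∩ Metric.closedBall 0 R')))).Finite :=
      hJ.prod (hD.fin.prod ((Set.toFinite K).prod (hg.finite_vx R')))
    refine Set.Finite.of_injOn (f := fun s => (I (fk s), Φ (fk s), kap a b I Φ c₀ (fk s), fu s))
      ?_ ?_ hT
    · intro s hs
      have h := hf s hs
      exact ⟨hIJ _, hI.dir _ _ _ (hO.st _), hKm _, h.2.2.2.2.1, by simpa using h.2.2.2.2.2.1⟩
    · intro s hs s' hs' heq
      simp only [Prod.mk.injEq] at heq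
      obtain ⟨e1, e2, e3, e4⟩ := heq
      have h' := hf s' hs'
      rw [← e4] at h'
      exact ev_unique hg hI hD hO hgap (hf s hs) h' e1 e2 e3
  -- a strip of positive width is never cut
  obtain ⟨w, hw0, hwδ, hwO⟩ : ∃ w, 0 < w ∧ w ≤ δ ∧ ∀ s ∈ O, w ≤ s := by
    rcases O.eq_empty_or_nonempty with hE | hne
    · exact ⟨δ, hδ, le_refl _, by rw [hE]; simp⟩
    · obtain ⟨m, hm, hm'⟩ := hOfin.exists_minimal hne
      have hmpos : 0 < m := by obtain ⟨k, w, u, h⟩ := hm; exact h.1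
      refine ⟨min δ m, lt_min hδ hmpos, min_le_left _ _, fun s hs => ?_⟩
      rcases le_total m s with h | h
      · exact (min_le_right _ _).trans h
      · exact (min_le_right _ _).trans (hm' hs h)
  have hstrip : ∀ k s, 0 < s → s < w → Hit a b {I k} (pt a b I Z Φ c₀ k s) (Φ k) (I (k + 1)) := by
    by_contra hcon
    push Not at hcon
    obtain ⟨k, s, u, hev⟩ := ev_exists hg hI hD hO hgap hR' hw0 hwδ hcon
    have := hwO s ⟨k, w, u, hev⟩
    have := hev.2.1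
    linarith
  -- recurrence
  set κ := |kap a b I Φ c₀ 0| with hκ
  have hκ0 : 0 < κ := abs_pos.2 (kap_zero_ne hI hD hO hc)
  have hε : 0 < w * κ := mul_pos hw0 hκ0
  have htb : TotallyBounded (Metric.closedBall (0 : ℂ) R) :=
    (isCompact_closedBall 0 R).totallyBounded
  obtain ⟨t, htfin, htcov⟩ := (Metric.totallyBounded_iff.1 htb) (w * κ / 2) (by positivity)
  have hcen : ∀ k, ∃ c ∈ t, dist (Z k) c < w * κ / 2 := by
    intro k
    have h1 : Z k ∈ Metric.closedBall (0 : ℂ) R := by simpa using hI.bd _ _ _ (hO.st k)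
    have h2 := htcov h1
    simp only [mem_iUnion, Metric.mem_ball] at h2
    obtain ⟨c, hc, hd⟩ := h2
    exact ⟨c, hc, hd⟩
  choose cen hcen1 hcen2 using hcen
  have hT2 : (J ×ˢ (D ×ˢ (K ×ˢ t))).Finite := hJ.prod (hD.fin.prod ((Set.toFinite K).prod htfin))
  obtain ⟨k, -, l, -, hkl, heq⟩ := Set.infinite_univ.exists_ne_map_eq_of_mapsTo
    (f := fun k : ℕ => (I k, Φ k, kap a b I Φ c₀ k, cen k)) (t := J ×ˢ (D ×ˢ (K ×ˢ t)))
    (fun k _ => ⟨hIJ _, hI.dir _ _ _ (hO.st _), hKm _, hcen1 k⟩) hT2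
  simp only [Prod.mk.injEq] at heq
  obtain ⟨e1, e2, e3, e4⟩ := heq
  have hdist : ‖Z l - Z k‖ < w * κ := by
    have h1 := hcen2 k
    have h2 := hcen2 l
    rw [← e4] at h2
    have := dist_triangle_right (Z l) (Z k) (cen k)
    rw [dist_eq_norm] at this
    linarith
  have key : ∀ k l, I k = I l → Φ k = Φ l → kap a b I Φ c₀ k = kap a b I Φ c₀ l →
      ‖Z l - Z k‖ < w * κ → Z k ≠ Z l →
      ¬ 0 < cr (Φ k) (Z l - Z k) / kap a b I Φ c₀ k := by
    intro k l e1 e2 e3 hd hne hpos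
    have hnp := hD.np _ (hI.dir _ _ _ (hO.st k)) (I k)
    have he : b (I k) - a (I k) ≠ 0 := sub_ne_zero.2 (hg.ne _).symm
    have m1 := cr_of_mem_segment (hI.mem _ _ _ (hO.st k))
    have m2 := cr_of_mem_segment (hI.mem _ _ _ (hO.st l))
    rw [← e1] at m2
    have m3 : cr (Z l - Z k) (b (I k) - a (I k)) = 0 := by
      have : Z l - Z k = (Z l - a (I k)) - (Z k - a (I k)) := by ring
      rw [this, cr_sub_left, m1, m2, sub_zero]
    obtain ⟨μ, hμ⟩ := exists_smul_of_cr_eq_zero he m3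
    have hkne := kap_ne hg hI hD hO hc k
    set s := cr (Φ k) (Z l - Z k) / kap a b I Φ c₀ k with hs
    have hcne : cc a b I Φ c₀ k ≠ 0 := by
      intro h0; apply hkne; unfold kap; rw [h0, zero_mul]
    have hsμ : s * cc a b I Φ c₀ k = μ := by
      rw [hs, hμ, cr_mul_right]; unfold kap; field_simp
    have hZ : Z l = pt a b I Z Φ c₀ k s := by
      unfold pt; rw [hsμ, ← hμ]; ring
    have hsw : s < w := by
      have h1 : |kap a b I Φ c₀ k| = κ := by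
        rcases kap_mem (c₀ := c₀) hg hO k with h | h <;> rw [h, hκ]
        rw [abs_neg]
      have h2 : |cr (Φ k) (Z l - Z k)| ≤ ‖Z l - Z k‖ := by
        have h3 : |cr (Φ k) (Z l - Z k)| ≤ ‖conj (Φ k) * (Z l - Z k)‖ := Complex.abs_im_le_norm _
        rwa [norm_mul, Complex.norm_conj, hD.one _ (hI.dir _ _ _ (hO.st k)), one_mul] at h3
      have h4 : s * κ < w * κ := by
        calc s * κ = |s| * κ := by rw [abs_of_pos hpos]
          _ = |cr (Φ k) (Z l - Z k)| := by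
            rw [hs, abs_div, h1, div_mul_cancel₀ _ hκ0.ne']
          _ < w * κ := lt_of_le_of_lt h2 hd
      exact lt_of_mul_lt_mul_right h4 hκ0.le
    have := (strip_st hg hI hD hO hgap hwδ k (fun l _ => hstrip l) hpos hsw).2
    apply this
    rw [← hZ, e1, e2]
    exact hO.st l
  have hZ : Z k = Z l := by
    by_contra hne
    have hnp := hD.np _ (hI.dir _ _ _ (hO.st k)) (I k)
    have he : b (I k) - a (I k) ≠ 0 := sub_ne_zero.2 (hg.ne _).symm
    have m1 := cr_of_mem_segment (hI.mem _ _ _ (hO.st k))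
    have m2 := cr_of_mem_segment (hI.mem _ _ _ (hO.st l))
    rw [← e1] at m2
    have m3 : cr (Z l - Z k) (b (I k) - a (I k)) = 0 := by
      have : Z l - Z k = (Z l - a (I k)) - (Z k - a (I k)) := by ring
      rw [this, cr_sub_left, m1, m2, sub_zero]
    have m4 : cr (Φ k) (Z l - Z k) ≠ 0 := by
      intro h0
      exact hne (sub_eq_zero.1 (eq_zero_of_cr hnp h0 m3)).symm
    have hkne := kap_ne hg hI hD hO hc k
    rcases lt_or_gt_of_ne (div_ne_zero m4 hkne) with h | h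
    · apply key l k e1.symm e2.symm e3.symm (by rw [← norm_neg, neg_sub]; exact hdist)
        (fun h => hne h.symm)
      rw [← e2, ← e3]
      have : cr (Φ k) (Z k - Z l) = - cr (Φ k) (Z l - Z k) := by
        rw [← cr_neg_right, neg_sub]
      rw [this, neg_div]
      linarith
    · exact key k l e1 e2 e3 hdist hne h
  rcases lt_or_gt_of_ne hkl with h | h
  · exact ⟨k, l, h, e1, hZ, e2⟩
  · exact ⟨l, k, h, e1.symm, hZ.symm, e2.symm⟩

end

end Pool.Agent.H628_Mirror
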