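import Pool.Agent.H628_Mirror.Defs

/-!
# Mirrors given by centres and inclinations
-/

set_option autoImplicit false

open Complex

namespace Pool.Agent.H628_Mirror

/-- the set of mirrors of length `ε` with centres `c i` and inclinations `θ i` -/
def needles {ι : Type} (ε : ℝ) (c : ι → ℂ) (θ : ι → ℝ) : Set (Set ℂ) :=
  Set.range fun i : ι =>
    segment ℝ (c i - ((ε / 2 : ℝ) : ℂ) * Complex.exp ((θ i : ℂ) * Complex.I))
      (c i + ((ε / 2 : ℝ) : ℂ) * Complex.exp ((θ i : ℂ) * Complex.I))

end Pool.Agent.H628_Mirror
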