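import Pool.Agent.H628_Mirror.Leave
import Pool.Agent.H628_Mirror.Needles

/-!
# Generic inclinations
-/

set_option autoImplicit false

open Complex ComplexConjugate Set Filter Topology MeasureTheory

namespace Pool.Agent.H628_Mirror

section
variable {ι : Type} {ε : ℝ} {c : ι → ℂ} {θ : ι → ℝ}

/-- end points of the mirrors -/
noncomputable def eA (ε : ℝ) (c : ι → ℂ) (θ : ι → ℝ) (i : ι) : ℂ :=
  c i - ((ε / 2 : ℝ) : ℂ) * Complex.exp ((θ i : ℂ) * Complex.I)
/-- end points of the mirrors -/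
noncomputable def eB (ε : ℝ) (c : ι → ℂ) (θ : ι → ℝ) (i : ι) : ℂ :=
  c i + ((ε / 2 : ℝ) : ℂ) * Complex.exp ((θ i : ℂ) * Complex.I)

lemma needles_eq : needles ε c θ = range (mir (eA ε c θ) (eB ε c θ)) := rfl

lemma eB_sub_eA (i : ι) : eB ε c θ i - eA ε c θ i = (ε : ℂ) * Complex.exp ((θ i : ℂ) * Complex.I) := by
  unfold eA eB; push_cast; ring

lemma cr_exp (x y : ℝ) : cr (Complex.exp ((x : ℂ) * Complex.I)) (Complex.exp ((y : ℂ) * Complex.I))
    = Real.sin (y - x) := by
  rw [cr_def, Complex.exp_ofReal_mul_I_re, Complex.exp_ofReal_mul_I_im,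
    Complex.exp_ofReal_mul_I_re, Complex.exp_ofReal_mul_I_im, Real.sin_sub]
  ring

lemma cr_needles (i j : ι) : cr (eB ε c θ i - eA ε c θ i) (eB ε c θ j - eA ε c θ j)
    = ε * (ε * Real.sin (θ j - θ i)) := by
  rw [eB_sub_eA, eB_sub_eA, cr_mul_left, cr_mul_right, cr_exp]

lemma eA_ne_eB (hε : 0 < ε) (i : ι) : eA ε c θ i ≠ eB ε c θ i := by
  intro h
  have h1 := eB_sub_eA (ε := ε) (c := c) (θ := θ) i
  rw [h, sub_self] at h1
  have h2 : (ε : ℂ) ≠ 0 := by exact_mod_cast hε.ne'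
  exact mul_ne_zero h2 (Complex.exp_ne_zero _) h1.symm

lemma mir_subset_ball (hε : 0 < ε) (i : ι) :
    mir (eA ε c θ) (eB ε c θ) i ⊆ Metric.closedBall (c i) (ε / 2) := by
  refine (convex_closedBall (c i) (ε / 2)).segment_subset ?_ ?_
  · rw [mem_closedBall_iff_norm]
    unfold eA
    rw [show c i - ((ε / 2 : ℝ) : ℂ) * Complex.exp ((θ i : ℂ) * Complex.I) - c i
      = -(((ε / 2 : ℝ) : ℂ) * Complex.exp ((θ i : ℂ) * Complex.I)) by ring, norm_neg, norm_mul,
      norm_exp_angle, mul_one, Complex.norm_real, Real.norm_eq_abs, abs_of_pos (by positivity)]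
  · rw [mem_closedBall_iff_norm]
    unfold eB
    rw [add_sub_cancel_left, norm_mul,
      norm_exp_angle, mul_one, Complex.norm_real, Real.norm_eq_abs, abs_of_pos (by positivity)]

lemma norm_centre_le (hε : 0 < ε) {i : ι} {z : ℂ} {R : ℝ} (hz : z ∈ mir (eA ε c θ) (eB ε c θ) i)
    (hR : ‖z‖ ≤ R) : ‖c i‖ ≤ R + ε := by
  have h1 := mir_subset_ball hε i hz
  rw [mem_closedBall_iff_norm] at h1
  have h2 := norm_sub_le z (z - c i)
  rw [sub_sub_cancel] at h2
  linarith

lemma good_needles (hε : 0 < ε) (hc : ∀ R : ℝ, {i | ‖c i‖ ≤ R}.Finite)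
    (hnp : ∀ i j, i ≠ j → Real.sin (θ i - θ j) ≠ 0) : Good (eA ε c θ) (eB ε c θ) := by
  refine ⟨eA_ne_eB hε, fun R => ?_, fun i j hij z hz w hw => ?_⟩
  · refine (hc (R + ε)).subset ?_
    rintro i ⟨z, hz1, hz2⟩
    rw [mem_closedBall_zero_iff] at hz2
    exact norm_centre_le hε hz1 hz2
  · have e1 := cr_of_mem_segment hz.1
    have e2 := cr_of_mem_segment hw.1
    have e3 := cr_of_mem_segment hz.2
    have e4 := cr_of_mem_segment hw.2
    have f1 : cr (z - w) (eB ε c θ i - eA ε c θ i) = 0 := by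
      rw [show z - w = (z - eA ε c θ i) - (w - eA ε c θ i) by ring, cr_sub_left, e1, e2, sub_zero]
    have f2 : cr (eB ε c θ j - eA ε c θ j) (z - w) = 0 := by
      rw [cr_comm, show z - w = (z - eA ε c θ j) - (w - eA ε c θ j) by ring, cr_sub_left, e3, e4]
      ring
    have f3 : cr (eB ε c θ j - eA ε c θ j) (eB ε c θ i - eA ε c θ i) ≠ 0 := by
      rw [cr_needles]
      exact mul_ne_zero hε.ne' (mul_ne_zero hε.ne' (hnp i j hij))
    exact sub_eq_zero.1 (eq_zero_of_cr f3 f2 f1)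

lemma commensurable_needles (hq : ∀ i, ∃ q : ℚ, θ i = q * Real.pi) (i j : ι) :
    ∃ (q : ℚ) (r : ℝ), eB ε c θ j - eA ε c θ j
      = r * Complex.exp ((q : ℂ) * Real.pi * Complex.I) * (eB ε c θ i - eA ε c θ i) := by
  obtain ⟨q, hq1⟩ := hq i
  obtain ⟨q', hq2⟩ := hq j
  refine ⟨q' - q, 1, ?_⟩
  rw [eB_sub_eA, eB_sub_eA, hq1, hq2]
  have : Complex.exp ((((q' : ℝ) * Real.pi : ℝ) : ℂ) * Complex.I)
      = Complex.exp (((q' - q : ℚ) : ℂ) * Real.pi * Complex.I)
        * Complex.exp ((((q : ℝ) * Real.pi : ℝ) : ℂ) * Complex.I) := by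
    rw [← Complex.exp_add]
    congr 1
    push_cast; ring
  rw [this]
  push_cast; ring

end

/-! ### Parameters -/

section
variable {X : Type*} [TopologicalSpace X] {ι : Type} {ε : ℝ} {c : ι → ℂ} {θ : X → ι → ℝ}

lemma continuous_eA (hθ : ∀ i, Continuous fun x => θ x i) (i : ι) :
    Continuous fun x => eA ε c (θ x) i := by
  unfold eA
  have : Continuous fun x => ((θ x i : ℝ) : ℂ) := Complex.continuous_ofReal.comp (hθ i)
  fun_prop

lemma continuous_eB (hθ : ∀ i, Continuous fun x => θ x i) (i : ι) :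
    Continuous fun x => eB ε c (θ x) i := by
  unfold eB
  have : Continuous fun x => ((θ x i : ℝ) : ℂ) := Complex.continuous_ofReal.comp (hθ i)
  fun_prop

lemma ulf_of_finite [Finite ι] (a b : X → ι → ℂ) (x₀ : X) : ULF a b x₀ := fun _ =>
  ⟨univ, finite_univ, Eventually.of_forall fun _ k hk => absurd (mem_univ k) hk⟩

lemma isClosed_MM [Finite ι] (a b : ι → ℂ) : IsClosed (MM a b) :=
  isClosed_iUnion_of_finite fun i => isClosed_mir i

/-- compact sets which miss the mirrors -/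
lemma compact_clear [Finite ι] (hθ : ∀ i, Continuous fun x => θ x i) {x₀ : X} {K : Set ℂ}
    (hK : IsCompact K) (h : Disjoint K (MM (eA ε c (θ x₀)) (eB ε c (θ x₀)))) :
    ∀ᶠ x in 𝓝 x₀, Disjoint K (MM (eA ε c (θ x)) (eB ε c (θ x))) := by
  have key : ∀ᶠ x in 𝓝 x₀, ∀ y ∈ K, y ∉ MM (eA ε c (θ x)) (eB ε c (θ x)) := by
    apply hK.eventually_forall_of_forall_eventually
    intro y hy
    have := clear_eventually (a := fun z : X × ℂ => eA ε c (θ z.1))
      (b := fun z : X × ℂ => eB ε c (θ z.1)) (x₀ := (x₀, y)) (ulf_of_finite _ _ _)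
      (fun k => ((continuous_eA hθ k).comp continuous_fst).continuousAt)
      (fun k => ((continuous_eB hθ k).comp continuous_fst).continuousAt)
      (z := fun z => z.2) (w := fun z => z.2) continuousAt_snd continuousAt_snd (B := ∅) (by
        intro k _
        rw [segment_same, Set.disjoint_singleton_left]
        intro hk
        exact Set.disjoint_left.1 h hy (mem_MM.2 ⟨k, hk⟩))
    filter_upwards [this] with z hz hm
    obtain ⟨k, hk⟩ := mem_MM.1 hm
    have := hz k (by simp)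
    rw [segment_same, Set.disjoint_singleton_left] at this
    exact this hk
  filter_upwards [key] with x hx
  rw [Set.disjoint_left]
  exact hx

/-- big components are stable -/
lemma comp_eventually [Finite ι] (hθ : ∀ i, Continuous fun x => θ x i) {x₀ : X} {q : ℂ} {R : ℝ}
    (hq : q ∉ MM (eA ε c (θ x₀)) (eB ε c (θ x₀)))
    (h : ¬ connectedComponentIn (MM (eA ε c (θ x₀)) (eB ε c (θ x₀)))ᶜ q ⊆ Metric.closedBall 0 R) :
    ∀ᶠ x in 𝓝 x₀,
      ¬ connectedComponentIn (MM (eA ε c (θ x)) (eB ε c (θ x)))ᶜ q ⊆ Metric.closedBall 0 R := by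
  rw [Set.not_subset] at h
  obtain ⟨y, hy, hyR⟩ := h
  set U := connectedComponentIn (MM (eA ε c (θ x₀)) (eB ε c (θ x₀)))ᶜ q with hU
  have hUo : IsOpen U := (isClosed_MM _ _).isOpen_compl.connectedComponentIn
  have hUc : IsConnected U := isConnected_connectedComponentIn_iff.2 hq
  have hUp : IsPathConnected U := hUo.isConnected_iff_isPathConnected.1 hUc
  obtain ⟨γ, hγ⟩ := hUp.joinedIn q (mem_connectedComponentIn hq) y hy
  have hK : IsCompact (range γ) := isCompact_range γ.continuous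
  have hKU : range γ ⊆ U := by rintro _ ⟨t, rfl⟩; exact hγ t
  have hd : Disjoint (range γ) (MM (eA ε c (θ x₀)) (eB ε c (θ x₀))) := by
    rw [Set.disjoint_left]
    intro z hz
    exact connectedComponentIn_subset _ _ (hKU hz)
  filter_upwards [compact_clear hθ hK hd] with x hx hsub
  apply hyR
  apply hsub
  have h1 : range γ ⊆ connectedComponentIn (MM (eA ε c (θ x)) (eB ε c (θ x)))ᶜ q :=
    (isPreconnected_range γ.continuous).subset_connectedComponentIn ⟨0, γ.source⟩
      (fun z hz => Set.disjoint_left.1 hx hz)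
  exact h1 ⟨1, γ.target⟩

/-- Rays leave the disc for all parameters near `x₀`, up to a set of angles of small measure. -/
lemma measure_nbhd [Finite ι] (hθ : ∀ i, Continuous fun x => θ x i) {x₀ : X} {K : Set ℂ}
    (hK : IsCompact K) {R N : ℝ} {η : ENNReal} (hη : η ≠ 0)
    (h : ∀ p ∈ K, {α : ℝ | ¬ Leaves (eA ε c (θ x₀)) (eB ε c (θ x₀)) ∅ p
      (Complex.exp ((α : ℂ) * Complex.I)) R}.Countable) :
    ∀ᶠ x in 𝓝 x₀, ∀ p ∈ K, volume (Icc (-N) N ∩
      {α : ℝ | ¬ Leaves (eA ε c (θ x)) (eB ε c (θ x)) ∅ p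
        (Complex.exp ((α : ℂ) * Complex.I)) R}) ≤ η := by
  have hexp : Continuous fun α : ℝ => Complex.exp ((α : ℂ) * Complex.I) := by fun_prop
  apply hK.eventually_forall_of_forall_eventually
  intro p hp
  set G : Set ℝ := {α : ℝ | Leaves (eA ε c (θ x₀)) (eB ε c (θ x₀)) ∅ p
      (Complex.exp ((α : ℂ) * Complex.I)) R} with hG
  have hGo : IsOpen G := by
    rw [isOpen_iff_mem_nhds]
    intro α hα
    exact leaves_eventually (a := fun _ : ℝ => eA ε c (θ x₀)) (b := fun _ => eB ε c (θ x₀))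
      (ulf_of_finite _ _ _) (fun k => continuousAt_const) (fun k => continuousAt_const)
      (z := fun _ => p) (φ := fun α => Complex.exp ((α : ℂ) * Complex.I)) continuousAt_const
      hexp.continuousAt hα
  have hGc : volume (Icc (-N) N ∩ Gᶜ) = 0 :=
    measure_mono_null inter_subset_right (show volume Gᶜ = 0 from (h p hp).measure_zero volume)
  have hA : MeasurableSet (Icc (-N) N ∩ G) := measurableSet_Icc.inter hGo.measurableSet
  have hfin : volume (Icc (-N) N ∩ G) ≠ ⊤ :=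
    measure_ne_top_of_subset inter_subset_left (by rw [Real.volume_Icc]; exact ENNReal.ofReal_ne_top)
  obtain ⟨C, hCA, hC, hCη⟩ := hA.exists_isCompact_sdiff_lt hfin hη
  have hev : ∀ᶠ z : X × ℂ in 𝓝 (x₀, p), ∀ α ∈ C, Leaves (eA ε c (θ z.1)) (eB ε c (θ z.1)) ∅ z.2
      (Complex.exp ((α : ℂ) * Complex.I)) R := by
    apply hC.eventually_forall_of_forall_eventually
    intro α hα
    have hα' : α ∈ G := (hCA hα).2
    exact leaves_eventually (a := fun z : (X × ℂ) × ℝ => eA ε c (θ z.1.1))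
      (b := fun z => eB ε c (θ z.1.1)) (x₀ := ((x₀, p), α)) (ulf_of_finite _ _ _)
      (fun k => ((continuous_eA hθ k).comp (continuous_fst.comp continuous_fst)).continuousAt)
      (fun k => ((continuous_eB hθ k).comp (continuous_fst.comp continuous_fst)).continuousAt)
      (z := fun z => z.1.2) (φ := fun z => Complex.exp ((z.2 : ℂ) * Complex.I))
      (continuous_snd.comp continuous_fst).continuousAt (hexp.comp continuous_snd).continuousAt hα'
  filter_upwards [hev] with z hz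
  calc volume (Icc (-N) N ∩ {α : ℝ | ¬ Leaves (eA ε c (θ z.1)) (eB ε c (θ z.1)) ∅ z.2
        (Complex.exp ((α : ℂ) * Complex.I)) R})
      ≤ volume ((Icc (-N) N ∩ Gᶜ) ∪ ((Icc (-N) N ∩ G) \ C)) := by
        apply measure_mono
        rintro α ⟨h1, h2⟩
        by_cases hαG : α ∈ G
        · exact Or.inr ⟨⟨h1, hαG⟩, fun hαC => h2 (hz α hαC)⟩
        · exact Or.inl ⟨h1, hαG⟩
    _ ≤ volume (Icc (-N) N ∩ Gᶜ) + volume ((Icc (-N) N ∩ G) \ C) := measure_union_le _ _
    _ ≤ η := by rw [hGc, zero_add]; exact hCη.le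

end

/-! ### Density of commensurable inclinations -/

lemma countable_sin (y : ℝ) : {x : ℝ | Real.sin (x - y) = 0}.Countable := by
  refine (countable_range (fun n : ℤ => y + n * Real.pi)).mono ?_
  intro x hx
  obtain ⟨n, hn⟩ := Real.sin_eq_zero_iff.1 hx
  exact ⟨n, by show y + n * Real.pi = x; linarith⟩

lemma exists_rational {ι : Type} {u v : ι → ℝ} (huv : ∀ i, u i < v i)
    {V : Set ((i : ι) → Icc (u i) (v i))} (hV : IsOpen V) (hne : V.Nonempty) (F : Finset ι) :
    ∃ ω ∈ V, (∀ i ∈ F, ∃ q : ℚ, ((ω i : ℝ)) = q * Real.pi) ∧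
      ∀ i ∈ F, ∀ j ∈ F, i ≠ j → Real.sin ((ω i : ℝ) - ω j) ≠ 0 := by
  classical
  induction F using Finset.induction_on with
  | empty =>
    obtain ⟨ω, hω⟩ := hne
    exact ⟨ω, hω, by simp, by simp⟩
  | insert i F hi ih =>
    obtain ⟨ω, hω, h1, h2⟩ := ih
    have hg : Continuous fun x : Icc (u i) (v i) => Function.update ω i x :=
      continuous_const.update i continuous_id
    have hO := hV.preimage hg
    obtain ⟨W, hW, hWV⟩ := isOpen_induced_iff.1 hO
    have hωW : (ω i : ℝ) ∈ W := by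
      have : ω i ∈ (fun x : Icc (u i) (v i) => Function.update ω i x) ⁻¹' V := by
        show Function.update ω i (ω i) ∈ V
        rw [Function.update_eq_self]; exact hω
      rw [← hWV] at this
      exact this
    have hcl : (ω i : ℝ) ∈ closure (Ioo (u i) (v i)) := by
      rw [closure_Ioo (huv i).ne]; exact (ω i).2
    obtain ⟨x₀, hx₀W, hx₀⟩ := mem_closure_iff.1 hcl W hW hωW
    set Z : Set ℝ := ⋃ j ∈ F, {x : ℝ | Real.sin (x - ω j) = 0} with hZ
    have hZc : Z.Countable := F.countable_toSet.biUnion fun j _ => countable_sin _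
    have hZcl : IsClosed Z := F.finite_toSet.isClosed_biUnion fun j _ =>
      isClosed_eq (by fun_prop) continuous_const
    have hZd : Dense Zᶜ := hZc.dense_compl ℝ
    have hO1 : IsOpen (W ∩ Ioo (u i) (v i)) := hW.inter isOpen_Ioo
    obtain ⟨x₁, hx₁, hx₁Z⟩ := hZd.inter_open_nonempty _ hO1 ⟨x₀, hx₀W, hx₀⟩
    have hO2 : IsOpen ((W ∩ Ioo (u i) (v i)) ∩ Zᶜ) := hO1.inter hZcl.isOpen_compl
    have hO3 : IsOpen {y : ℝ | y * Real.pi ∈ (W ∩ Ioo (u i) (v i)) ∩ Zᶜ} :=
      hO2.preimage (by fun_prop)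
    obtain ⟨q, hq⟩ := Rat.denseRange_cast.exists_mem_open hO3
      ⟨x₁ / Real.pi, by
        show x₁ / Real.pi * Real.pi ∈ (W ∩ Ioo (u i) (v i)) ∩ Zᶜ
        rw [div_mul_cancel₀ _ Real.pi_ne_zero]; exact ⟨hx₁, hx₁Z⟩⟩
    obtain ⟨⟨hqW, hqI⟩, hqZ⟩ : (q : ℝ) * Real.pi ∈ (W ∩ Ioo (u i) (v i)) ∩ Zᶜ := hq
    have hnp : ∀ j ∈ F, Real.sin ((q : ℝ) * Real.pi - ω j) ≠ 0 := by
      intro j hj h0
      apply hqZ
      rw [hZ]
      simp only [mem_iUnion]
      exact ⟨j, hj, h0⟩
    set x : Icc (u i) (v i) := ⟨(q : ℝ) * Real.pi, Ioo_subset_Icc_self hqI⟩ with hx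
    have hne : ∀ j ∈ F, j ≠ i := fun j hj h => hi (h ▸ hj)
    refine ⟨Function.update ω i x, ?_, ?_, ?_⟩
    · have : x ∈ Subtype.val ⁻¹' W := hqW
      rw [hWV] at this
      exact this
    · intro j hj
      rcases Finset.mem_insert.1 hj with h5 | h5
      · subst h5
        rw [Function.update_self]; exact ⟨q, rfl⟩
      · rw [Function.update_of_ne (hne j h5)]; exact h1 j h5
    · intro j hj k hk hjk
      rcases Finset.mem_insert.1 hj with h5 | h5
      · rcases Finset.mem_insert.1 hk with h6 | h6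
        · exact absurd (h5.trans h6.symm) hjk
        · subst h5
          rw [Function.update_self, Function.update_of_ne (hne k h6)]
          exact hnp k h6
      · rcases Finset.mem_insert.1 hk with h6 | h6
        · subst h6
          rw [Function.update_self, Function.update_of_ne (hne j h5), ← neg_sub, Real.sin_neg]
          exact neg_ne_zero.2 (hnp j h5)
        · rw [Function.update_of_ne (hne j h5), Function.update_of_ne (hne k h6)]
          exact h2 j h5 k h6 hjk

end Pool.Agent.H628_Mirror
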