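import Pool.Agent.H628_Mirror.Generic

/-!
# Generic inclinations: the main theorem
-/

set_option autoImplicit false

open Complex ComplexConjugate Set Filter Topology MeasureTheory

namespace Pool.Agent.H628_Mirror

section
variable {ι : Type} {ε : ℝ} {c : ι → ℂ} {u v : ι → ℝ}

/-- the inclinations of the mirrors in `T` -/
def res (T : Set ι) (ω : (i : ι) → Icc (u i) (v i)) : T → ℝ := fun i => (ω i : ℝ)

lemma continuous_res (T : Set ι) (i : T) :
    Continuous fun ω : (i : ι) → Icc (u i) (v i) => res T ω i :=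
  continuous_subtype_val.comp (continuous_apply (i : ι))

lemma key (hε : 0 < ε) (huv : ∀ i, u i < v i) (T : Set ι) [Finite T] (R N : ℝ) {η : ENNReal}
    (hη : η ≠ 0) (q : ℂ) {r : ℝ} (hr : 0 ≤ r) :
    ∀ᶠ ω : (i : ι) → Icc (u i) (v i) in residual _,
      Disjoint (Metric.closedBall q r)
        (MM (eA ε (fun i : T => c i) (res T ω)) (eB ε (fun i : T => c i) (res T ω))) →
      ¬ connectedComponentIn
        (MM (eA ε (fun i : T => c i) (res T ω)) (eB ε (fun i : T => c i) (res T ω)))ᶜ q
          ⊆ Metric.closedBall 0 R →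
      ∀ p ∈ Metric.closedBall q r, volume (Icc (-N) N ∩ {α : ℝ | ¬ Leaves
        (eA ε (fun i : T => c i) (res T ω)) (eB ε (fun i : T => c i) (res T ω)) ∅ p
          (Complex.exp ((α : ℂ) * Complex.I)) R}) ≤ η := by
  classical
  set A : ((i : ι) → Icc (u i) (v i)) → T → ℂ := fun ω => eA ε (fun i : T => c i) (res T ω) with hA
  set B : ((i : ι) → Icc (u i) (v i)) → T → ℂ := fun ω => eB ε (fun i : T => c i) (res T ω) with hB
  have hθ : ∀ i : T, Continuous fun ω : (i : ι) → Icc (u i) (v i) => res T ω i := continuous_res T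
  have hqb : q ∈ Metric.closedBall q r := Metric.mem_closedBall_self hr
  set U : Set ((i : ι) → Icc (u i) (v i)) := {ω | Disjoint (Metric.closedBall q r) (MM (A ω) (B ω)) ∧
    ¬ connectedComponentIn (MM (A ω) (B ω))ᶜ q ⊆ Metric.closedBall 0 R} with hU
  set G : Set ((i : ι) → Icc (u i) (v i)) := {ω | ∀ p ∈ Metric.closedBall q r,
    volume (Icc (-N) N ∩ {α : ℝ | ¬ Leaves (A ω) (B ω) ∅ p
      (Complex.exp ((α : ℂ) * Complex.I)) R}) ≤ η} with hG
  have hUo : IsOpen U := by
    rw [isOpen_iff_mem_nhds]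
    rintro ω ⟨h1, h2⟩
    filter_upwards [compact_clear hθ (isCompact_closedBall q r) h1,
      comp_eventually hθ (Set.disjoint_left.1 h1 hqb) h2] with ω' g1 g2
    exact ⟨g1, g2⟩
  have hO : IsOpen ((closure U)ᶜ ∪ interior G) := isClosed_closure.isOpen_compl.union isOpen_interior
  have hd : Dense ((closure U)ᶜ ∪ interior G) := by
    rw [dense_iff_inter_open]
    intro V hV hVne
    by_cases hVU : (V ∩ U).Nonempty
    · have hFin : T.Finite := Set.toFinite T
      obtain ⟨ω, ⟨hωV, hωU⟩, h1, h2⟩ := exists_rational huv (hV.inter hUo) hVU hFin.toFinset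
      refine ⟨ω, hωV, Or.inr ?_⟩
      rw [mem_interior_iff_mem_nhds]
      obtain ⟨h3, h4⟩ := hωU
      have hg : Good (A ω) (B ω) := by
        refine good_needles hε (fun R => Set.toFinite _) fun i j hij => ?_
        exact h2 i (by simp) j (by simp) (fun h => hij (Subtype.ext h))
      refine measure_nbhd hθ (isCompact_closedBall q r) hη (x₀ := ω) ?_
      intro p hp
      have hpM : p ∉ MM (A ω) (B ω) := Set.disjoint_left.1 h3 hp
      have hpq : connectedComponentIn (MM (A ω) (B ω))ᶜ q = connectedComponentIn (MM (A ω) (B ω))ᶜ p := by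
        apply connectedComponentIn_eq
        have h5 : Metric.closedBall q r ⊆ connectedComponentIn (MM (A ω) (B ω))ᶜ q :=
          (convex_closedBall q r).isPreconnected.subset_connectedComponentIn hqb
            (fun z hz => Set.disjoint_left.1 h3 hz)
        exact h5 hp
      rw [hpq] at h4
      refine ((countable_angle ((countable_badInit (a := A ω) (b := B ω)
        (Q := Vx (A ω) (B ω) ∪ {0, p}) ?_).union
        (countable_badQ (a := A ω) (b := B ω) (Q := Vx (A ω) (B ω) ∪ {0, p}) ?_)))).mono ?_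
      · exact hg.countable_vx.union (by simp)
      · exact hg.countable_vx.union (by simp)
      · intro α hα
        by_contra hno
        apply hα
        have hno' : Complex.exp ((α : ℂ) * Complex.I) ∉
            BadInit (A ω) (B ω) (Vx (A ω) (B ω) ∪ {0, p}) ∪
              BadQ (A ω) (B ω) (Vx (A ω) (B ω) ∪ {0, p}) := hno
        rw [mem_union, not_or] at hno'
        refine leaves_of_commensurable hg hpM h4 ?_ (norm_exp_angle α) hno'.1 hno'.2
        exact commensurable_needles fun i => h1 i (by simp)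
    · obtain ⟨ω, hω⟩ := hVne
      refine ⟨ω, hω, Or.inl fun hcl => hVU ?_⟩
      exact mem_closure_iff.1 hcl V hV hω
  filter_upwards [residual_of_dense_open hO hd] with ω hω h1 h2
  rcases hω with h3 | h3
  · exact absurd (subset_closure (show ω ∈ U from ⟨h1, h2⟩)) h3
  · exact interior_subset h3

lemma residual_nonparallel [Countable ι] (huv : ∀ i, u i < v i) :
    ∀ᶠ ω : (i : ι) → Icc (u i) (v i) in residual _,
      ∀ i j, i ≠ j → Real.sin ((ω i : ℝ) - ω j) ≠ 0 := by
  classical
  rw [eventually_countable_forall]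
  intro i
  rw [eventually_countable_forall]
  intro j
  by_cases hij : i = j
  · exact Eventually.of_forall fun ω h => absurd hij h
  · have hO : IsOpen {ω : (i : ι) → Icc (u i) (v i) | Real.sin ((ω i : ℝ) - ω j) ≠ 0} := by
      apply isOpen_ne_fun _ continuous_const
      exact Real.continuous_sin.comp ((continuous_subtype_val.comp (continuous_apply i)).sub
        (continuous_subtype_val.comp (continuous_apply j)))
    have hd : Dense {ω : (i : ι) → Icc (u i) (v i) | Real.sin ((ω i : ℝ) - ω j) ≠ 0} := by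
      rw [dense_iff_inter_open]
      intro V hV hVne
      obtain ⟨ω, h1, -, h2⟩ := exists_rational huv hV hVne {i, j}
      exact ⟨ω, h1, h2 i (by simp) j (by simp) hij⟩
    filter_upwards [residual_of_dense_open hO hd] with ω hω _ using hω

/-- restriction of a trajectory to a sub-family which contains the mirrors it meets -/
lemma Traj.restrict {a b : ι → ℂ} {p : ℂ} {x d : ℕ → ℂ} {m : ℕ → ι} (hT : Traj a b p x d m)
    (T : Set ι) (hm : ∀ k, m (k + 1) ∈ T) :
    ∃ m' : ℕ → T, Traj (fun i : T => a i) (fun i : T => b i) p x d m' := by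
  have hsub : MM (fun i : T => a i) (fun i : T => b i) ⊆ MM a b := by
    intro z hz
    obtain ⟨i, hi⟩ := mem_MM.1 hz
    exact mem_MM.2 ⟨i, hi⟩
  refine ⟨fun k => ⟨m (k - 1 + 1), hm _⟩, hT.x0, fun h => hT.off (hsub h), hT.one, fun k => ?_,
    fun k h => ?_, fun k => hT.mem k, fun k => hT.rf k⟩
  · obtain ⟨t, ht, h1, h2, h3⟩ := hT.fl k
    exact ⟨t, ht, h1, mem_MM.2 ⟨⟨m (k + 1), hm k⟩, hT.mem k⟩, fun s hs0 hs1 hs => h3 s hs0 hs1 (hsub hs)⟩
  · apply hT.nv k
    rcases h with ⟨i, hi⟩ | ⟨i, j, hij, h1, h2⟩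
    · exact Or.inl ⟨i, hi⟩
    · exact Or.inr ⟨i, j, fun h => hij (Subtype.ext h), h1, h2⟩

theorem generic_main (hε : 0 < ε) (hc : ∀ R : ℝ, {i | ‖c i‖ ≤ R}.Finite)
    (huv : ∀ i, u i < v i) :
    ∀ᶠ θ : (i : ι) → Icc (u i) (v i) in residual _, ∀ p : ℂ,
      p ∉ ⋃₀ needles ε c (fun i => (θ i : ℝ)) →
      ¬ Bornology.IsBounded (connectedComponentIn (⋃₀ needles ε c (fun i => (θ i : ℝ)))ᶜ p) →
      ∀ᵐ α : ℝ, ¬ Exceptional (needles ε c (fun i => (θ i : ℝ))) p α ∧
        ¬ Trapped (needles ε c (fun i => (θ i : ℝ))) p α := by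
  have hι : Countable ι := by
    rw [← Set.countable_univ_iff]
    have : (univ : Set ι) ⊆ ⋃ n : ℕ, {i | ‖c i‖ ≤ (n : ℝ)} := by
      intro i _
      obtain ⟨n, hn⟩ := exists_nat_ge ‖c i‖
      rw [mem_iUnion]
      exact ⟨n, hn⟩
    exact Set.Countable.mono this (countable_iUnion fun n : ℕ => (hc (n : ℝ)).countable)
  set T : ℕ → Set ι := fun R => {i | ‖c i‖ ≤ (R : ℝ) + ε} with hTdef
  have hTf : ∀ R, Finite (T R) := fun R => (hc _).to_subtype
  have hkey : ∀ᶠ θ : (i : ι) → Icc (u i) (v i) in residual _, ∀ R N k j n : ℕ,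
      Disjoint (Metric.closedBall (TopologicalSpace.denseSeq ℂ j) (1 / ((n : ℝ) + 1)))
        (MM (eA ε (fun i : T R => c i) (res (T R) θ)) (eB ε (fun i : T R => c i) (res (T R) θ))) →
      ¬ connectedComponentIn
        (MM (eA ε (fun i : T R => c i) (res (T R) θ)) (eB ε (fun i : T R => c i) (res (T R) θ)))ᶜ
          (TopologicalSpace.denseSeq ℂ j) ⊆ Metric.closedBall 0 (R : ℝ) →
      ∀ p ∈ Metric.closedBall (TopologicalSpace.denseSeq ℂ j) (1 / ((n : ℝ) + 1)),
        volume (Icc (-(N : ℝ)) N ∩ {α : ℝ | ¬ Leaves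
          (eA ε (fun i : T R => c i) (res (T R) θ)) (eB ε (fun i : T R => c i) (res (T R) θ)) ∅ p
            (Complex.exp ((α : ℂ) * Complex.I)) R}) ≤ ((k : ENNReal) + 1)⁻¹ := by
    simp only [eventually_countable_forall]
    intro R N k j n
    exact key hε huv (T R) R N (by simp) _ (by positivity)
  filter_upwards [hkey, residual_nonparallel huv] with θ h1 hnp p hp hC
  set a := eA ε c (fun i => (θ i : ℝ)) with ha
  set b := eB ε c (fun i => (θ i : ℝ)) with hb
  have hg : Good a b := good_needles hε hc hnp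
  have hS : needles ε c (fun i => (θ i : ℝ)) = range (mir a b) := needles_eq
  have hMM := gMM hS
  rw [← hMM] at hp hC
  -- sub-families
  have hgT : ∀ R, Good (fun i : T R => a i) (fun i : T R => b i) := fun R =>
    good_needles (ι := T R) (c := fun i : T R => c i) (θ := fun i : T R => (θ i : ℝ)) hε
      (fun _ => Set.toFinite _) fun i j hij => hnp i j fun h => hij (Subtype.ext h)
  have hMT : ∀ R, MM (fun i : T R => a i) (fun i : T R => b i) ⊆ MM a b := by
    intro R z hz
    obtain ⟨i, hi⟩ := mem_MM.1 hz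
    exact mem_MM.2 ⟨i, hi⟩
  have hnull : ∀ R : ℕ, ∀ᵐ α : ℝ, Leaves (fun i : T R => a i) (fun i : T R => b i) ∅ p
      (Complex.exp ((α : ℂ) * Complex.I)) R := by
    intro R
    have hpT : p ∉ MM (fun i : T R => a i) (fun i : T R => b i) := fun h => hp (hMT R h)
    have hopen : IsOpen (MM (fun i : T R => a i) (fun i : T R => b i))ᶜ := (hgT R).isOpen_compl
    obtain ⟨ρ, hρ, hball⟩ := Metric.isOpen_iff.1 hopen p hpT
    obtain ⟨n, hn⟩ := exists_nat_one_div_lt (show (0 : ℝ) < ρ / 2 by positivity)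
    have hn0 : (0 : ℝ) < 1 / ((n : ℝ) + 1) := by positivity
    obtain ⟨q, hqr, hq⟩ := Metric.dense_iff.1 (TopologicalSpace.denseRange_denseSeq ℂ) p _ hn0
    obtain ⟨j, rfl⟩ := hq
    set q := TopologicalSpace.denseSeq ℂ j with hqdef
    have hpq : p ∈ Metric.closedBall q (1 / ((n : ℝ) + 1)) := by
      rw [Metric.mem_closedBall, dist_comm]; exact (Metric.mem_ball.1 hqr).le
    have hsub : Metric.closedBall q (1 / ((n : ℝ) + 1)) ⊆ Metric.ball p ρ := by
      intro z hz
      rw [Metric.mem_ball]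
      have e1 := Metric.mem_closedBall.1 hz
      have e2 := Metric.mem_ball.1 hqr
      have e3 := dist_triangle z q p
      linarith
    have hdis : Disjoint (Metric.closedBall q (1 / ((n : ℝ) + 1)))
        (MM (fun i : T R => a i) (fun i : T R => b i)) := by
      rw [Set.disjoint_left]
      intro z hz
      exact hball (hsub hz)
    have hcomp : ¬ connectedComponentIn (MM (fun i : T R => a i) (fun i : T R => b i))ᶜ q
        ⊆ Metric.closedBall 0 (R : ℝ) := by
      have e1 : connectedComponentIn (MM (fun i : T R => a i) (fun i : T R => b i))ᶜ q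
          = connectedComponentIn (MM (fun i : T R => a i) (fun i : T R => b i))ᶜ p := by
        apply connectedComponentIn_eq
        have h5 : Metric.closedBall q (1 / ((n : ℝ) + 1)) ⊆
            connectedComponentIn (MM (fun i : T R => a i) (fun i : T R => b i))ᶜ q :=
          (convex_closedBall q _).isPreconnected.subset_connectedComponentIn
            (Metric.mem_closedBall_self hn0.le) (fun z hz => Set.disjoint_left.1 hdis hz)
        exact h5 hpq
      rw [e1]
      intro hsub2
      apply hC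
      refine (Metric.isBounded_closedBall (x := (0 : ℂ)) (r := (R : ℝ))).subset
        (Subset.trans ?_ hsub2)
      exact connectedComponentIn_mono p (compl_subset_compl.2 (hMT R))
    have hle : ∀ N k : ℕ, volume (Icc (-(N : ℝ)) N ∩ {α : ℝ | ¬ Leaves
          (fun i : T R => a i) (fun i : T R => b i) ∅ p
            (Complex.exp ((α : ℂ) * Complex.I)) R}) ≤ ((k : ENNReal) + 1)⁻¹ := fun N k =>
      h1 R N k j n hdis hcomp p hpq
    have hz : ∀ N : ℕ, volume (Icc (-(N : ℝ)) N ∩ {α : ℝ | ¬ Leaves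
          (fun i : T R => a i) (fun i : T R => b i) ∅ p
            (Complex.exp ((α : ℂ) * Complex.I)) R}) = 0 := by
      intro N
      by_contra hne
      obtain ⟨k, hk⟩ := ENNReal.exists_inv_nat_lt hne
      have h2 := hle N k
      have h3 : ((k : ENNReal) + 1)⁻¹ ≤ (k : ENNReal)⁻¹ := ENNReal.inv_le_inv.2 le_self_add
      exact absurd (h2.trans h3) (not_le.2 hk)
    rw [ae_iff]
    have hcov : {α : ℝ | ¬ Leaves (fun i : T R => a i) (fun i : T R => b i) ∅ p
            (Complex.exp ((α : ℂ) * Complex.I)) R} ⊆ ⋃ N : ℕ, (Icc (-(N : ℝ)) N ∩ {α : ℝ | ¬ Leaves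
          (fun i : T R => a i) (fun i : T R => b i) ∅ p
            (Complex.exp ((α : ℂ) * Complex.I)) R}) := by
      intro α hα
      obtain ⟨N, hN⟩ := exists_nat_ge |α|
      rw [mem_iUnion]
      exact ⟨N, abs_le.1 hN, hα⟩
    exact measure_mono_null hcov (measure_iUnion_null hz)
  have hex : ∀ᵐ α : ℝ, ¬ Exceptional (needles ε c (fun i => (θ i : ℝ))) p α := by
    have hcnt := gcountable_exceptional hg hS (p := p) (by rw [← hMM]; exact hp)
    rw [ae_iff]
    simp only [not_not]
    exact hcnt.measure_zero volume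
  filter_upwards [ae_all_iff.2 hnull, hex] with α g1 g2
  refine ⟨g2, ?_⟩
  rintro ⟨x, d, hx, hb'⟩
  obtain ⟨m, hT⟩ := gtraj hg hS (by rw [← hMM]; exact hp) g2 hx
  obtain ⟨R₀, hR₀⟩ := hb'.subset_closedBall 0
  obtain ⟨R, hR⟩ := exists_nat_ge R₀
  have hxR : ∀ k, ‖x k‖ ≤ (R : ℝ) := by
    intro k
    have := hR₀ (mem_range_self k)
    rw [mem_closedBall_zero_iff] at this
    linarith
  obtain ⟨m', hT'⟩ := hT.restrict (T R) (fun k => norm_centre_le hε (hT.mem k) (hxR (k + 1)))
  refine not_leaves (hgT R) hT' hxR ?_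
  rw [hx.2.1]
  exact g1 R

end

end Pool.Agent.H628_Mirror
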