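import Pool.Agent.H628_Mirror.Unfold

/-!
# Closed invariant families of states with finitely many directions have no gaps
-/

set_option autoImplicit false

open Complex ComplexConjugate Set Filter Topology

namespace Pool.Agent.H628_Mirror

variable {ι : Type*} {a b : ι → ℂ}

lemma Good.isOpen_compl (h : Good a b) : IsOpen (MM a b)ᶜ := by
  rw [isOpen_iff_mem_nhds]
  intro z hz
  have := clear_eventually (a := fun _ : ℂ => a) (b := fun _ => b) (x₀ := z) (h.ulf z)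
    (fun k => continuousAt_const) (fun k => continuousAt_const) (z := fun w => w) (w := fun w => w)
    continuousAt_id continuousAt_id (B := ∅) (by
      intro k _
      rw [segment_same, Set.disjoint_singleton_left]
      intro hk; exact hz (mem_MM.2 ⟨k, hk⟩))
  filter_upwards [this] with w hw hm
  obtain ⟨k, hk⟩ := mem_MM.1 hm
  have := hw k (by simp)
  rw [segment_same, Set.disjoint_singleton_left] at this
  exact this hk

lemma isClosed_mir (i : ι) : IsClosed (mir a b i) := by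
  have : mir a b i = (fun θ : ℝ => a i + (θ : ℂ) * (b i - a i)) '' Icc 0 1 := by
    ext z
    rw [mir, mem_segment_iff']
    simp only [mem_image, mem_Icc]
    constructor
    · rintro ⟨τ, h0, h1, rfl⟩; exact ⟨τ, ⟨h0, h1⟩, rfl⟩
    · rintro ⟨τ, ⟨h0, h1⟩, rfl⟩; exact ⟨τ, h0, h1, rfl⟩
  rw [this]
  exact (isCompact_Icc.image (by fun_prop)).isClosed

/-- only the mirror `i` is present near a point of mirror `i` which is not a vertex -/
lemma Good.local_mirror (h : Good a b) {z : ℂ} {i : ι} (hz : ∀ k, k ≠ i → z ∉ mir a b k) :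
    ∀ᶠ w in 𝓝 z, ∀ k, k ≠ i → w ∉ mir a b k := by
  have := clear_eventually (a := fun _ : ℂ => a) (b := fun _ => b) (x₀ := z) (h.ulf z)
    (fun k => continuousAt_const) (fun k => continuousAt_const) (z := fun w => w) (w := fun w => w)
    continuousAt_id continuousAt_id (B := {i}) (by
      intro k hk
      rw [segment_same, Set.disjoint_singleton_left]
      exact hz k hk)
  filter_upwards [this] with w hw k hk
  have := hw k (by simpa using hk)
  rwa [segment_same, Set.disjoint_singleton_left] at this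

lemma St.free (h : Good a b) {A : Set ι} {z φ : ℂ} (hs : St a b A z φ) :
    ∀ᶠ t : ℝ in 𝓝[>] 0, z + t * φ ∉ MM a b := by
  have hc : ContinuousAt (fun t : ℝ => z + (t : ℂ) * φ) 0 := by fun_prop
  have h0 : z + ((0 : ℝ) : ℂ) * φ = z := by simp
  rcases hs.2 with ⟨-, hz⟩ | ⟨i, -, hz, hi, hki⟩
  · have h1 : (MM a b)ᶜ ∈ 𝓝 z := h.isOpen_compl.mem_nhds hz
    have h2 := hc.tendsto
    rw [h0] at h2
    exact nhdsWithin_le_nhds (h2 h1)
  · have h2 := hc.tendsto
    rw [h0] at h2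
    have h3 := h2.eventually (h.local_mirror hki)
    filter_upwards [nhdsWithin_le_nhds h3, self_mem_nhdsWithin] with t ht ht0 hm
    obtain ⟨k, hk⟩ := mem_MM.1 hm
    by_cases hki : k = i
    · subst hki
      have e1 := tt_of_mem hi hk
      have e2 : tt a b k z φ = 0 :=
        tt_of_mem hi (t := 0) (by simpa [mir] using openSegment_subset_segment ℝ _ _ hz)
      have : (0 : ℝ) < t := ht0
      linarith
    · exact ht k hki hk

/-- existence of the first hit -/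
lemma exists_fl (h : Good a b) {A : Set ι} {z φ : ℂ} (hs : St a b A z φ) {t : ℝ} (ht : 0 < t)
    (hm : z + t * φ ∈ MM a b) :
    ∃ r : ℝ, 0 < r ∧ r ≤ t ∧ z + r * φ ∈ MM a b ∧
      ∀ s : ℝ, 0 < s → s < r → z + s * φ ∉ MM a b := by
  have h1 := hs.free h
  rw [eventually_nhdsWithin_iff, Metric.eventually_nhds_iff] at h1
  obtain ⟨ρ, hρ, hfree⟩ := h1
  have hfree' : ∀ s : ℝ, 0 < s → s < ρ → z + s * φ ∉ MM a b := fun s h0 h1 =>
    hfree (by rw [Real.dist_eq, sub_zero, abs_of_pos h0]; exact h1) h0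
  have hρt : ρ ≤ t := by
    by_contra hlt
    exact hfree' t ht (not_le.1 hlt) hm
  have hcl : IsClosed {s : ℝ | z + s * φ ∈ MM a b} := by
    have : IsClosed (MM a b) := by
      rw [← isOpen_compl_iff]; exact h.isOpen_compl
    exact this.preimage (by fun_prop : Continuous fun s : ℝ => z + (s : ℂ) * φ)
  have hK : IsCompact ({s : ℝ | z + s * φ ∈ MM a b} ∩ Icc ρ t) :=
    isCompact_Icc.inter_left hcl
  obtain ⟨r, hr, hr2⟩ := hK.exists_isLeast ⟨t, hm, hρt, le_refl _⟩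
  refine ⟨r, by linarith [hr.2.1], hr.2.2, hr.1, fun s h0 h1 hms => ?_⟩
  by_cases hsρ : s < ρ
  · exact hfree' s h0 hsρ hms
  · have := hr2 ⟨hms, not_lt.1 hsρ, by linarith [hr.2.2]⟩
    linarith

/-- Closed, forward and backward invariant family of bounded states `(i, z, φ)`: the state leaves the
point `z` of mirror `i` in direction `φ`. -/
structure Inv (a b : ι → ℂ) (D : Set ℂ) (R : ℝ) (Λ : ι → ℂ → ℂ → Prop) : Prop where
  mem : ∀ i z φ, Λ i z φ → z ∈ mir a b i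
  nv : ∀ i z φ, Λ i z φ → z ∉ Vx a b
  dir : ∀ i z φ, Λ i z φ → φ ∈ D
  dir' : ∀ i z φ, Λ i z φ → -rf (b i - a i) φ ∈ D
  bd : ∀ i z φ, Λ i z φ → ‖z‖ ≤ R
  cls : ∀ i z φ, z ∈ mir a b i → z ∉ Vx a b → (∀ ε > 0, ∃ z', Λ i z' φ ∧ ‖z' - z‖ < ε) → Λ i z φ
  fw : ∀ i z φ j, Λ i z φ → Hit a b {i} z φ j →
    Λ j (z + tt a b j z φ * φ) (rf (b j - a j) φ)
  bw : ∀ i z φ j, St a b {i} z φ → Hit a b {i} z φ j →
    Λ j (z + tt a b j z φ * φ) (rf (b j - a j) φ) → Λ i z φ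
  ff : ∀ i z φ (t : ℝ), Λ i z φ → 0 ≤ t →
    (∀ k, k ≠ i → Disjoint (segment ℝ z (z + t * φ)) (mir a b k)) → ‖z + t * φ‖ ≤ R
  fb : ∀ i z φ (t : ℝ), Λ i z φ → 0 ≤ t →
    (∀ k, k ≠ i → Disjoint (segment ℝ z (z + t * -rf (b i - a i) φ)) (mir a b k)) →
    ‖z + t * -rf (b i - a i) φ‖ ≤ R

/-- conditions on the set of directions -/
structure DirOK (a b : ι → ℂ) (D : Set ℂ) : Prop where
  fin : D.Finite
  one : ∀ φ ∈ D, ‖φ‖ = 1
  np : ∀ φ ∈ D, ∀ j, cr φ (b j - a j) ≠ 0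

section
variable {D : Set ℂ} {R : ℝ} {Λ : ι → ℂ → ℂ → Prop}

lemma Inv.st (hI : Inv a b D R Λ) (hD : DirOK a b D) {i : ι} {z φ : ℂ} (h : Λ i z φ) :
    St a b {i} z φ := by
  obtain ⟨h1, h2⟩ := mem_of_not_vx (hI.nv i z φ h) (hI.mem i z φ h)
  have h3 := hD.np φ (hI.dir i z φ h) i
  exact ⟨cr_ne_zero_left h3, Or.inr ⟨i, rfl, h1, h3, h2⟩⟩

lemma Inv.exists_fl (hg : Good a b) (hI : Inv a b D R Λ) (hD : DirOK a b D) {i : ι} {z φ : ℂ}
    (h : Λ i z φ) : ∃ y, Fl a b z φ y := by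
  have hs := hI.st hD h
  by_contra hno
  have hno' : ∀ t : ℝ, 0 < t → z + t * φ ∉ MM a b := by
    intro t ht hm
    obtain ⟨r, hr0, -, hr1, hr2⟩ := Pool.Agent.H628_Mirror.exists_fl hg hs ht hm
    exact hno ⟨z + r * φ, r, hr0, rfl, hr1, hr2⟩
  have h1 : ∀ t : ℝ, 0 ≤ t → ‖z + t * φ‖ ≤ R := by
    intro t ht
    apply hI.ff i z φ t h ht
    intro k hk
    rw [Set.disjoint_left]
    intro q hq hqk
    obtain ⟨s, hs0, -, rfl⟩ := mem_segment_add_mul ht hq
    rcases eq_or_lt_of_le hs0 with h3 | h3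
    · subst h3
      exact (mem_of_not_vx (hI.nv i z φ h) (hI.mem i z φ h)).2 k hk (by simpa using hqk)
    · exact hno' s h3 (mem_MM.2 ⟨k, hqk⟩)
  have h2 := h1 (R + ‖z‖ + 1) (by
    have := hI.bd i z φ h
    have := norm_nonneg z
    linarith)
  have h3 : ‖((R + ‖z‖ + 1 : ℝ) : ℂ) * φ‖ = R + ‖z‖ + 1 := by
    rw [norm_mul, hD.one φ (hI.dir i z φ h), mul_one, Complex.norm_real, Real.norm_eq_abs,
      abs_of_nonneg]
    have := hI.bd i z φ h
    have := norm_nonneg z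
    linarith
  have h4 : ‖((R + ‖z‖ + 1 : ℝ) : ℂ) * φ‖ ≤ ‖z + ((R + ‖z‖ + 1 : ℝ) : ℂ) * φ‖ + ‖z‖ := by
    have := norm_sub_le (z + ((R + ‖z‖ + 1 : ℝ) : ℂ) * φ) z
    rwa [add_sub_cancel_left] at this
  linarith

/-- from each state one either flies to a vertex or has a hit -/
lemma Inv.dich (hg : Good a b) (hI : Inv a b D R Λ) (hD : DirOK a b D) {i : ι} {z φ : ℂ}
    (h : Λ i z φ) : (∃ u ∈ Vx a b, Fl a b z φ u) ∨ ∃ j, Hit a b {i} z φ j := by
  obtain ⟨y, hy⟩ := hI.exists_fl hg hD h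
  by_cases hv : y ∈ Vx a b
  · exact Or.inl ⟨y, hv, hy⟩
  · right
    have hm : y ∈ MM a b := by obtain ⟨t, -, -, hm, -⟩ := hy; exact hm
    obtain ⟨j, hj⟩ := mem_MM.1 hm
    exact ⟨j, (hit_of_fl (hI.st hD h) (hg.ne j) hy hv hj).1⟩

/-- reversal of a hit -/
lemma hit_reverse (hg : Good a b) {i j : ι} {z φ : ℂ} (hs : St a b {i} z φ)
    (h : Hit a b {i} z φ j) :
    Hit a b {j} (z + tt a b j z φ * φ) (-φ) i ∧
      z + tt a b j z φ * φ + tt a b i (z + tt a b j z φ * φ) (-φ) * -φ = z := by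
  set y := z + tt a b j z φ * φ with hy
  have hst := hit_st hs h
  have hsy : St a b {j} y (-φ) := by
    refine ⟨neg_ne_zero.2 hs.1, Or.inr ⟨j, rfl, hit_mem h, ?_, hit_not_mem hs h⟩⟩
    rw [cr_neg_left]; exact neg_ne_zero.2 h.tr
  rcases hs.2 with ⟨hA, -⟩ | ⟨i', hA, hz, hi, hki⟩
  · exact absurd hA (Set.singleton_ne_empty i)
  have hii : i = i' := by
    have : i ∈ ({i'} : Set ι) := by rw [← hA]; rfl
    exact this
  subst hii
  have hzv : z ∉ Vx a b := not_vx_of (hg.ne i) hz hki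
  have hzm : z ∈ mir a b i := openSegment_subset_segment ℝ _ _ hz
  have hfl : Fl a b y (-φ) z := by
    refine ⟨tt a b j z φ, h.t0, by rw [hy]; ring, mem_MM.2 ⟨i, hzm⟩, fun s h0 h1 hm => ?_⟩
    have : y + (s : ℂ) * -φ = z + ((tt a b j z φ - s : ℝ) : ℂ) * φ := by
      rw [hy]; push_cast; ring
    rw [this] at hm
    exact hit_free hs h (by linarith) (by linarith) hm
  obtain ⟨h1, h2⟩ := hit_of_fl hsy (hg.ne i) hfl hzv hzm
  exact ⟨h1, h2.symm⟩

/-- the reversed family -/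
lemma Inv.rev (hg : Good a b) (hI : Inv a b D R Λ) (hD : DirOK a b D) :
    Inv a b D R (fun i z ψ => Λ i z (-rf (b i - a i) ψ)) := by
  have he : ∀ i, b i - a i ≠ 0 := fun i => sub_ne_zero.2 (hg.ne i).symm
  have hinv : ∀ i ψ, -rf (b i - a i) (-rf (b i - a i) ψ) = ψ := by
    intro i ψ
    rw [rf_neg, rf_rf (he i), neg_neg]
  refine ⟨fun i z ψ h => hI.mem _ _ _ h, fun i z ψ h => hI.nv _ _ _ h, fun i z ψ h => ?_,
    fun i z ψ h => hI.dir _ _ _ h, fun i z ψ h => hI.bd _ _ _ h, fun i z ψ h1 h2 h3 =>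
    hI.cls i z _ h1 h2 h3, ?_, ?_, ?_, ?_⟩
  · have := hI.dir' _ _ _ h
    rwa [hinv] at this
  · -- forward
    intro i z ψ j h hh
    have hst : St a b {i} z ψ := by
      obtain ⟨h1, h2⟩ := mem_of_not_vx (hI.nv _ _ _ h) (hI.mem _ _ _ h)
      have h3 : cr ψ (b i - a i) ≠ 0 := by
        have := hD.np _ (hI.dir' _ _ _ h) i
        rwa [hinv] at this
      exact ⟨cr_ne_zero_left h3, Or.inr ⟨i, rfl, h1, h3, h2⟩⟩
    obtain ⟨h1, h2⟩ := hit_reverse hg hst hh
    have hsy : St a b {j} (z + tt a b j z ψ * ψ) (-ψ) := by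
      refine ⟨neg_ne_zero.2 hst.1, Or.inr ⟨j, rfl, hit_mem hh, ?_, hit_not_mem hst hh⟩⟩
      rw [cr_neg_left]; exact neg_ne_zero.2 hh.tr
    rw [rf_rf (he j)]
    apply hI.bw j _ _ i hsy h1
    rw [h2, rf_neg]
    exact h
  · -- backward
    intro i z ψ j hst hh h
    rw [rf_rf (he j)] at h
    obtain ⟨h1, h2⟩ := hit_reverse hg hst hh
    have := hI.fw j _ _ i h h1
    rw [h2, rf_neg] at this
    exact this
  · intro i z ψ t h ht hcl
    have := hI.fb i z _ t h ht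
    rw [hinv] at this
    exact this hcl
  · intro i z ψ t h ht hcl
    exact hI.ff i z _ t h ht hcl

end

/-! ### The vertex created when a family of parallel hits ends -/

lemma exists_vertex {X : Type*} [TopologicalSpace X] {i j : ι} {φ : ℂ} {z : X → ℂ} {x₀ : X}
    (hij : j ≠ i) (hz : ContinuousAt z x₀) (np : ∀ m, cr φ (b m - a m) ≠ 0)
    (hzk : ∀ k, k ≠ i → z x₀ ∉ mir a b k)
    (hf : ∃ᶠ x in 𝓝 x₀, Hit a b {i} (z x) φ j) (hn : ¬ Hit a b {i} (z x₀) φ j) :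
    z x₀ + tt a b j (z x₀) φ * φ ∈ mir a b j ∧
    ∃ u ∈ Vx a b, ∃ t : ℝ, u = z x₀ + t * φ ∧
      u ∈ segment ℝ (z x₀) (z x₀ + tt a b j (z x₀) φ * φ) := by
  have hca : ∀ k, ContinuousAt (fun _ : X => a k) x₀ := fun k => continuousAt_const
  have hcb : ∀ k, ContinuousAt (fun _ : X => b k) x₀ := fun k => continuousAt_const
  have hcφ : ContinuousAt (fun _ : X => φ) x₀ := continuousAt_const
  have ht := continuousAt_tt (a := fun _ : X => a) (b := fun _ => b) (hca j) (hcb j) hz hcφ (np j)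
  have hp := continuousAt_pt (a := fun _ : X => a) (b := fun _ => b) (hca j) (hcb j) hz hcφ (np j)
  have hymem : z x₀ + tt a b j (z x₀) φ * φ ∈ mir a b j :=
    (isClosed_mir j).mem_of_frequently_of_tendsto (hf.mono fun x hx => hit_mem' hx) hp
  refine ⟨hymem, ?_⟩
  have ht0 : 0 ≤ tt a b j (z x₀) φ :=
    isClosed_Ici.mem_of_frequently_of_tendsto (s := Ici (0 : ℝ))
      (hf.mono fun x hx => hx.t0.le) ht
  set T := tt a b j (z x₀) φ with hT
  by_cases hyv : z x₀ + T * φ ∈ Vx a b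
  · exact ⟨_, hyv, T, rfl, right_mem_segment ℝ _ _⟩
  obtain ⟨hyo, hyk⟩ := mem_of_not_vx hyv hymem
  have hTpos : 0 < T := by
    rcases eq_or_lt_of_le ht0 with h | h
    · exfalso
      rw [← h] at hymem
      simp only [ofReal_zero, zero_mul, add_zero] at hymem
      exact hzk j hij hymem
    · exact h
  -- the clearance must fail
  have hfail : ∃ m, m ≠ i ∧ m ≠ j ∧ ¬ Disjoint (segment ℝ (z x₀) (z x₀ + T * φ)) (mir a b m) := by
    by_contra hcon
    push Not at hcon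
    apply hn
    obtain ⟨τ, hτ0, hτ1, hτ⟩ := mem_openSegment_iff'.1 hyo
    obtain ⟨-, h2⟩ := tt_of (np j) hτ
    exact ⟨np j, hTpos, by rw [h2]; exact hτ0, by rw [h2]; exact hτ1,
      fun k hk hkj => hcon k (by simpa using hk) hkj⟩
  obtain ⟨m, hmi, hmj, hnd⟩ := hfail
  rw [Set.not_disjoint_iff] at hnd
  obtain ⟨q, hq, hqm⟩ := hnd
  obtain ⟨r, hr0, hr1, hqr⟩ := mem_segment_add_mul ht0 hq
  by_cases hqv : q ∈ Vx a b
  · exact ⟨q, hqv, r, hqr, hq⟩
  exfalso
  obtain ⟨hqo, hqk⟩ := mem_of_not_vx hqv hqm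
  have hr0' : 0 < r := by
    rcases eq_or_lt_of_le hr0 with h | h
    · exfalso
      rw [← h] at hqr
      simp only [ofReal_zero, zero_mul, add_zero] at hqr
      rw [hqr] at hqm
      exact hzk m hmi hqm
    · exact h
  have hr1' : r < T := by
    rcases eq_or_lt_of_le hr1 with h | h
    · exfalso
      rw [h] at hqr
      rw [hqr] at hqm
      exact hyk m hmj hqm
    · exact h
  obtain ⟨τ, hτ0, hτ1, hτ⟩ := mem_openSegment_iff'.1 hqo
  obtain ⟨h1, h2⟩ := tt_of (np m) (hqr ▸ hτ)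
  have htm := continuousAt_tt (a := fun _ : X => a) (b := fun _ => b) (hca m) (hcb m) hz hcφ (np m)
  have hsm := continuousAt_ss (a := fun _ : X => a) (b := fun _ => b) (hca m) (hcb m) hz hcφ (np m)
  have e1 : ∀ᶠ x in 𝓝 x₀, 0 < tt a b m (z x) φ := htm.eventually_const_lt (by
    show 0 < tt a b m (z x₀) φ; rw [h1]; exact hr0')
  have e2 : ∀ᶠ x in 𝓝 x₀, tt a b m (z x) φ < tt a b j (z x) φ := by
    have : ∀ᶠ x in 𝓝 x₀, 0 < tt a b j (z x) φ - tt a b m (z x) φ :=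
      (ht.sub htm).eventually_const_lt (by
        show 0 < tt a b j (z x₀) φ - tt a b m (z x₀) φ
        rw [h1, ← hT]; linarith)
    filter_upwards [this] with x hx
    linarith
  have e3 : ∀ᶠ x in 𝓝 x₀, 0 < ss a b m (z x) φ := hsm.eventually_const_lt (by
    show 0 < ss a b m (z x₀) φ; rw [h2]; exact hτ0)
  have e4 : ∀ᶠ x in 𝓝 x₀, ss a b m (z x) φ < 1 := hsm.eventually_lt_const (by
    show ss a b m (z x₀) φ < 1; rw [h2]; exact hτ1)
  obtain ⟨x, hx, f1, f2, f3, f4⟩ := (hf.and_eventually (e1.and (e2.and (e3.and e4)))).exists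
  refine Set.disjoint_left.1 (hx.cl m (by simpa using hmi) hmj)
    (add_mul_mem_segment (s := tt a b m (z x) φ) f1.le f2.le) ?_
  rw [hit_pt (np m), mir, mem_segment_iff']
  exact ⟨_, f3.le, f4.le, rfl⟩

end Pool.Agent.H628_Mirror
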