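import Pool.Agent.H628_Mirror.LawDet

/-!
# Random mirrors with independent inclinations
-/

set_option autoImplicit false

open Complex ComplexConjugate Set Filter Topology MeasureTheory

namespace Pool.Agent.H628_Mirror

/-! ### Density of laws carried by a dense countable set -/

section
variable {Y : Type*} [MetricSpace Y] [MeasurableSpace Y] [BorelSpace Y]

lemma dense_laws {B : Set Y} (hB : Dense B) (hBc : B.Countable) (hne : B.Nonempty) :
    Dense {μ : ProbabilityMeasure Y | (μ : Measure Y) Bᶜ = 0} := by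
  obtain ⟨e, he⟩ := hBc.exists_eq_range hne
  intro μ
  have hm : ∀ N, AEMeasurable (SimpleFunc.nearestPt e N) (μ : Measure Y) := fun N =>
    (SimpleFunc.measurable _).aemeasurable
  refine mem_closure_of_tendsto (f := fun N => μ.map (hm N)) (b := atTop) ?_
    (Eventually.of_forall fun N => ?_)
  · rw [ProbabilityMeasure.tendsto_iff_forall_integral_tendsto]
    intro f
    have h1 : ∀ N, ∫ y, f y ∂(μ.map (hm N) : Measure Y)
        = ∫ y, f (SimpleFunc.nearestPt e N y) ∂(μ : Measure Y) := by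
      intro N
      rw [ProbabilityMeasure.toMeasure_map, integral_map (hm N)
        f.continuous.aestronglyMeasurable]
    simp_rw [h1]
    refine tendsto_integral_of_dominated_convergence (fun _ => ‖f‖) ?_ (integrable_const _) ?_ ?_
    · intro N
      exact (f.continuous.measurable.comp (SimpleFunc.measurable _)).aestronglyMeasurable
    · intro N
      exact Eventually.of_forall fun y => f.norm_coe_le_norm _
    · refine Eventually.of_forall fun y => ?_
      exact (f.continuous.tendsto y).comp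
        (SimpleFunc.tendsto_nearestPt (by rw [← he]; exact hB y))
  · show (μ.map (hm N) : Measure Y) Bᶜ = 0
    rw [ProbabilityMeasure.toMeasure_map, Measure.map_apply_of_aemeasurable (hm N)
      hBc.measurableSet.compl]
    have : (SimpleFunc.nearestPt e N) ⁻¹' Bᶜ = ∅ := by
      ext y
      simp only [mem_preimage, mem_compl_iff, mem_empty_iff_false, iff_false, not_not]
      rw [he, SimpleFunc.nearestPt, SimpleFunc.map_apply]
      exact mem_range_self _
    rw [this, measure_empty]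

end

/-! ### The joint law of finitely many mirrors -/

section
variable {Ω : Type} [MeasurableSpace Ω] {P : Measure Ω} [IsProbabilityMeasure P] {c : ℕ → Ω → ℂ}

/-- inclinations -/
abbrev Ang : Type := Set.Ico (0 : ℝ) Real.pi

/-- the law of the centres with index in `I` -/
noncomputable def cLaw (P : Measure Ω) [IsProbabilityMeasure P] (hc : ∀ i, Measurable (c i))
    (I : Finset ℕ) : ProbabilityMeasure (I → ℂ) :=
  ⟨P.map fun ω i => c i ω, Measure.isProbabilityMeasure_map
    (measurable_pi_lambda (fun ω (i : I) => c i ω) fun i => hc i).aemeasurable⟩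

/-- the joint law of the mirrors with index in `I` -/
noncomputable def jl (P : Measure Ω) [IsProbabilityMeasure P] (hc : ∀ i, Measurable (c i))
    (I : Finset ℕ) (μ : ProbabilityMeasure Ang) : ProbabilityMeasure ((I → ℂ) × (I → Ang)) :=
  (cLaw P hc I).prod (ProbabilityMeasure.pi fun _ : I => μ)

lemma continuous_jl (hc : ∀ i, Measurable (c i)) (I : Finset ℕ) : Continuous (jl P hc I) := by
  have h1 : Continuous fun μ : ProbabilityMeasure Ang => ProbabilityMeasure.pi fun _ : I => μ :=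
    ProbabilityMeasure.continuous_pi.comp (continuous_pi fun _ => continuous_id)
  exact ProbabilityMeasure.continuous_prod.comp (continuous_const.prodMk h1)

lemma isOpen_jl (hc : ∀ i, Measurable (c i)) (I : Finset ℕ) {O : Set ((I → ℂ) × (I → Ang))}
    (hO : IsOpen O) (r : ENNReal) :
    IsOpen {μ : ProbabilityMeasure Ang | r < (jl P hc I μ : Measure _) O} := by
  rw [isOpen_iff_mem_nhds]
  intro μ₀ h
  have h1 := ProbabilityMeasure.le_liminf_measure_open_of_tendsto
    ((continuous_jl (P := P) hc I).tendsto μ₀) hO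
  exact eventually_lt_of_lt_liminf (lt_of_lt_of_le h h1)

/-- the law of the whole picture projects to the joint laws -/
lemma map_jl (hc : ∀ i, Measurable (c i)) (I : Finset ℕ) (μ : ProbabilityMeasure Ang) :
    (P.prod (Measure.infinitePi fun _ : ℕ => (μ : Measure Ang))).map
      (Prod.map (fun ω (i : I) => c i ω) I.restrict) = (jl P hc I μ : Measure _) := by
  have h : Measure.pi (fun _ : I => (μ : Measure Ang))
      = (Measure.infinitePi fun _ : ℕ => (μ : Measure Ang)).map I.restrict :=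
    (Measure.infinitePi_map_restrict (μ := fun _ : ℕ => (μ : Measure Ang))).symm
  rw [jl, ProbabilityMeasure.toMeasure_prod, ProbabilityMeasure.toMeasure_pi, cLaw,
    ProbabilityMeasure.coe_mk, h, Measure.map_prod_map]
  · exact measurable_pi_lambda (fun ω (i : I) => c i ω) fun i => hc i
  · exact Finset.measurable_restrict I

/-! ### Tests -/

/-- the end points of the mirrors of a finite configuration -/
noncomputable def cA (ε : ℝ) (I : Finset ℕ) (x : (I → ℂ) × (I → Ang)) : I → ℂ :=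
  eA ε x.1 fun i => (x.2 i : ℝ)
/-- the end points of the mirrors of a finite configuration -/
noncomputable def cB (ε : ℝ) (I : Finset ℕ) (x : (I → ℂ) × (I → Ang)) : I → ℂ :=
  eB ε x.1 fun i => (x.2 i : ℝ)

lemma continuous_cA (ε : ℝ) (I : Finset ℕ) (i : I) : Continuous fun x => cA ε I x i := by
  unfold cA eA; fun_prop
lemma continuous_cB (ε : ℝ) (I : Finset ℕ) (i : I) : Continuous fun x => cB ε I x i := by
  unfold cB eB; fun_prop

/-- the open sets of configurations that we want to have full measure -/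
def tst (ε : ℝ) (I : Finset ℕ) (R N k j n : ℕ) : Set ((I → ℂ) × (I → Ang)) :=
  interior {x | GP (cA ε I x) (cB ε I x) ∧ Pass (cA ε I x) (cB ε I x)
    (TopologicalSpace.denseSeq ℂ j) (1 / ((n : ℝ) + 1)) (2 / ((n : ℝ) + 1)) R N
      ((k : ENNReal) + 1)⁻¹}

lemma isOpen_tst (ε : ℝ) (I : Finset ℕ) (R N k j n : ℕ) : IsOpen (tst ε I R N k j n) :=
  isOpen_interior

/-- the good laws -/
def goodLaws (ε : ℝ) (P : Measure Ω) [IsProbabilityMeasure P] (hc : ∀ i, Measurable (c i)) :
    Set (ProbabilityMeasure Ang) :=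
  ⋂ (I : Finset ℕ) (R : ℕ) (N : ℕ) (k : ℕ) (j : ℕ) (n : ℕ) (m : ℕ),
    {μ | 1 - ((m : ENNReal) + 1)⁻¹ < (jl P hc I μ : Measure _) (tst ε I R N k j n)}

lemma isGδ_goodLaws (ε : ℝ) (hc : ∀ i, Measurable (c i)) : IsGδ (goodLaws ε P hc) := by
  unfold goodLaws
  refine .iInter fun I => .iInter fun R => .iInter fun N => .iInter fun k => .iInter fun j =>
    .iInter fun n => .iInter fun m => ?_
  exact (isOpen_jl hc I isOpen_interior _).isGδ

/-- the rotation `t` is good for the centres `z` -/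
def RotGood (ε : ℝ) {I : Type} (z : I → ℂ) (t : ℝ) : Prop :=
  ∀ i j : I, i ≠ j → ∀ q q' : ℚ,
    cr (z i - z j - ((ε / 2 : ℝ) : ℂ) * Complex.exp (((t + q * Real.pi : ℝ) : ℂ) * Complex.I))
      (Complex.exp (((t + q' * Real.pi : ℝ) : ℂ) * Complex.I)) ≠ 0 ∧
    cr (z i - z j + ((ε / 2 : ℝ) : ℂ) * Complex.exp (((t + q * Real.pi : ℝ) : ℂ) * Complex.I))
      (Complex.exp (((t + q' * Real.pi : ℝ) : ℂ) * Complex.I)) ≠ 0

/-- the inclinations `t + q π` in `[0, π)` -/
def rotSet (t : ℝ) : Set Ang := {θ | ∃ q : ℚ, (θ : ℝ) = t + q * Real.pi}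

lemma mem_tst {ε : ℝ} (hε : 0 < ε) {I : Finset ℕ} {t : ℝ} {x : (I → ℂ) × (I → Ang)}
    (h1 : RotGood ε x.1 t) (h2 : ∀ i, x.2 i ∈ rotSet t) (R N k j n : ℕ) :
    x ∈ tst ε I R N k j n := by
  have hgp : GP (cA ε I x) (cB ε I x) := by
    refine gp_needles hε fun i j hij => ?_
    obtain ⟨q, hq⟩ := h2 i
    obtain ⟨q', hq'⟩ := h2 j
    rw [hq, hq']
    exact h1 i j hij q q'
  have hn0 : (0 : ℝ) < (n : ℝ) + 1 := by positivity
  have e2 := pass_eventually (continuous_cA ε I) (continuous_cB ε I) (x₀ := x)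
    (fun i => eA_ne_eB hε i) hgp (commensurable_shift h2) (TopologicalSpace.denseSeq ℂ j)
    (r := 1 / ((n : ℝ) + 1)) (r' := 2 / ((n : ℝ) + 1)) (by positivity)
    (div_lt_div_of_pos_right (by norm_num) hn0) (R : ℝ) (N : ℝ)
    (η := ((k : ENNReal) + 1)⁻¹) (by simp)
  have e1 := gp_eventually (continuous_cA ε I) (continuous_cB ε I) (x₀ := x) hgp
  rw [tst, mem_interior_iff_mem_nhds]
  filter_upwards [e1, e2] with y g1 g2
  exact ⟨g1, g2⟩

lemma measurable_crexp {W : Type*} [MeasurableSpace W] {f : W → ℂ} {g h : W → ℝ}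
    (hf : Measurable f) (hg : Measurable g) (hh : Measurable h) (κ : ℝ) :
    Measurable fun w => cr (f w + (κ : ℂ) * Complex.exp ((g w : ℂ) * Complex.I))
      (Complex.exp ((h w : ℂ) * Complex.I)) := by
  unfold Pool.Agent.H628_Mirror.cr
  fun_prop

lemma measurableSet_rotGood (ε : ℝ) (I : Finset ℕ) (t : ℝ) :
    MeasurableSet {z : I → ℂ | RotGood ε z t} := by
  have : {z : I → ℂ | RotGood ε z t} = ⋂ (i : I) (j : I) (_ : i ≠ j) (q : ℚ) (q' : ℚ),
      ({z | cr (z i - z j - ((ε / 2 : ℝ) : ℂ)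
          * Complex.exp (((t + q * Real.pi : ℝ) : ℂ) * Complex.I))
        (Complex.exp (((t + q' * Real.pi : ℝ) : ℂ) * Complex.I)) ≠ 0} ∩
      {z | cr (z i - z j + ((ε / 2 : ℝ) : ℂ)
          * Complex.exp (((t + q * Real.pi : ℝ) : ℂ) * Complex.I))
        (Complex.exp (((t + q' * Real.pi : ℝ) : ℂ) * Complex.I)) ≠ 0}) := by
    ext z
    simp only [RotGood, mem_ofPred_eq, mem_iInter, mem_inter_iff]
  rw [this]
  refine .iInter fun i => .iInter fun j => .iInter fun _ => .iInter fun q => .iInter fun q' =>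
    .inter ?_ ?_
  · apply MeasurableSet.compl
    apply measurableSet_eq_fun _ measurable_const
    unfold Pool.Agent.H628_Mirror.cr
    fun_prop
  · apply MeasurableSet.compl
    apply measurableSet_eq_fun _ measurable_const
    unfold Pool.Agent.H628_Mirror.cr
    fun_prop

/-- almost every common rotation is good -/
lemma ae_rotGood (ε : ℝ) (hc : ∀ i, Measurable (c i))
    (hinj : ∀ᵐ ω ∂P, Function.Injective fun i => c i ω) :
    ∀ᵐ t : ℝ, ∀ᵐ ω ∂P, RotGood ε (fun i => c i ω) t := by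
  have key : ∀ (κ : ℝ) (i j : ℕ) (q q' : ℚ), i ≠ j → ∀ᵐ t : ℝ, ∀ᵐ ω ∂P,
      cr (c i ω - c j ω + ((κ : ℝ) : ℂ)
        * Complex.exp (((t + q * Real.pi : ℝ) : ℂ) * Complex.I))
      (Complex.exp (((t + q' * Real.pi : ℝ) : ℂ) * Complex.I)) ≠ 0 := by
    intro κ i j q q' hij
    rw [Measure.ae_ae_comm]
    · filter_upwards [hinj] with ω hω
      rw [ae_iff]
      simp only [ne_eq, not_not]
      have hw : c i ω - c j ω ≠ 0 := sub_ne_zero.2 fun h => hij (hω h)
      have := countable_rot hw (-κ) (q * Real.pi) (q' * Real.pi)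
      refine (this.mono ?_).measure_zero volume
      intro t ht
      have ht' : cr (c i ω - c j ω + ((κ : ℝ) : ℂ)
        * Complex.exp (((t + q * Real.pi : ℝ) : ℂ) * Complex.I))
          (Complex.exp (((t + q' * Real.pi : ℝ) : ℂ) * Complex.I)) = 0 := ht
      show cr (c i ω - c j ω - ((-κ : ℝ) : ℂ)
        * Complex.exp (((t + q * Real.pi : ℝ) : ℂ) * Complex.I))
          (Complex.exp (((t + q' * Real.pi : ℝ) : ℂ) * Complex.I)) = 0
      rw [← ht']
      congr 1
      push_cast; ring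
    · apply MeasurableSet.compl
      apply measurableSet_eq_fun _ measurable_const
      have hi := hc i
      have hj := hc j
      apply measurable_crexp
      · exact (hi.comp measurable_snd).sub (hj.comp measurable_snd)
      · exact measurable_fst.add_const _
      · exact measurable_fst.add_const _
  have h1 : ∀ᵐ t : ℝ, ∀ i j : ℕ, ∀ q q' : ℚ, i ≠ j → ∀ᵐ ω ∂P,
      cr (c i ω - c j ω + ((-(ε / 2) : ℝ) : ℂ)
        * Complex.exp (((t + q * Real.pi : ℝ) : ℂ) * Complex.I))
      (Complex.exp (((t + q' * Real.pi : ℝ) : ℂ) * Complex.I)) ≠ 0 := by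
    simp only [ae_all_iff]
    intro i j q q' hij
    exact key _ i j q q' hij
  have h2 : ∀ᵐ t : ℝ, ∀ i j : ℕ, ∀ q q' : ℚ, i ≠ j → ∀ᵐ ω ∂P,
      cr (c i ω - c j ω + ((ε / 2 : ℝ) : ℂ)
        * Complex.exp (((t + q * Real.pi : ℝ) : ℂ) * Complex.I))
      (Complex.exp (((t + q' * Real.pi : ℝ) : ℂ) * Complex.I)) ≠ 0 := by
    simp only [ae_all_iff]
    intro i j q q' hij
    exact key _ i j q q' hij
  filter_upwards [h1, h2] with t g1 g2
  have g1' : ∀ᵐ ω ∂P, ∀ i j : ℕ, ∀ q q' : ℚ, i ≠ j →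
      cr (c i ω - c j ω + ((-(ε / 2) : ℝ) : ℂ)
        * Complex.exp (((t + q * Real.pi : ℝ) : ℂ) * Complex.I))
      (Complex.exp (((t + q' * Real.pi : ℝ) : ℂ) * Complex.I)) ≠ 0 := by
    simp only [ae_all_iff]
    exact g1
  have g2' : ∀ᵐ ω ∂P, ∀ i j : ℕ, ∀ q q' : ℚ, i ≠ j →
      cr (c i ω - c j ω + ((ε / 2 : ℝ) : ℂ)
        * Complex.exp (((t + q * Real.pi : ℝ) : ℂ) * Complex.I))
      (Complex.exp (((t + q' * Real.pi : ℝ) : ℂ) * Complex.I)) ≠ 0 := by
    simp only [ae_all_iff]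
    exact g2
  filter_upwards [g1', g2'] with ω k1 k2 i j hij q q'
  refine ⟨?_, k2 i j q q' hij⟩
  have := k1 i j q q' hij
  convert this using 2
  push_cast; ring

omit [IsProbabilityMeasure P] in
/-- if the differences of the centres do not charge lines, every rotation is good -/
lemma ae_rotGood_of_lines (ε : ℝ) (hl : ∀ i j, i ≠ j → ∀ u v : ℂ, v ≠ 0 →
    ∀ᵐ ω ∂P, ∀ r : ℝ, c i ω - c j ω ≠ u + r * v) (t : ℝ) :
    ∀ᵐ ω ∂P, RotGood ε (fun i => c i ω) t := by
  unfold RotGood
  simp only [ae_all_iff]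
  intro i j hij q q'
  have key : ∀ u : ℂ, ∀ᵐ ω ∂P, cr (c i ω - c j ω - u)
      (Complex.exp (((t + q' * Real.pi : ℝ) : ℂ) * Complex.I)) ≠ 0 := by
    intro u
    filter_upwards [hl i j hij u _ (Complex.exp_ne_zero
      (((t + q' * Real.pi : ℝ) : ℂ) * Complex.I))] with ω hω h0
    obtain ⟨r, hr⟩ := exists_smul_of_cr_eq_zero (Complex.exp_ne_zero _) h0
    exact hω r (by rw [← hr]; ring)
  filter_upwards [key (((ε / 2 : ℝ) : ℂ)
      * Complex.exp (((t + q * Real.pi : ℝ) : ℂ) * Complex.I)),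
    key (-(((ε / 2 : ℝ) : ℂ)
      * Complex.exp (((t + q * Real.pi : ℝ) : ℂ) * Complex.I)))] with ω h1 h2
  refine ⟨h1, ?_⟩
  rwa [sub_neg_eq_add] at h2

lemma dense_rotSet (t : ℝ) : Dense (rotSet t) ∧ (rotSet t).Countable ∧ (rotSet t).Nonempty := by
  have hpi := Real.pi_pos
  have hd : Dense (rotSet t) := by
    rw [Metric.dense_iff]
    intro θ ρ hρ
    have h0 := θ.2.1
    have h1 := θ.2.2
    obtain ⟨s, hs1, hs2⟩ := exists_between (show (θ : ℝ) < min ((θ : ℝ) + ρ) Real.pi from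
      lt_min (by linarith) h1)
    have hs3 := lt_of_lt_of_le hs2 (min_le_left _ _)
    have hs4 := lt_of_lt_of_le hs2 (min_le_right _ _)
    obtain ⟨q, hq1, hq2⟩ := exists_rat_btwn
      (show ((θ : ℝ) - t) / Real.pi < (s - t) / Real.pi by
        apply div_lt_div_of_pos_right _ hpi; linarith)
    rw [div_lt_iff₀ hpi] at hq1
    rw [lt_div_iff₀ hpi] at hq2
    refine ⟨⟨t + q * Real.pi, by linarith, by linarith⟩, ?_, q, rfl⟩
    rw [Metric.mem_ball, Subtype.dist_eq, Real.dist_eq, abs_of_pos (by simp only; linarith)]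
    simp only
    linarith
  refine ⟨hd, ?_, ?_⟩
  · have : (rotSet t) ⊆ (fun θ : Ang => (θ : ℝ)) ⁻¹' (range fun q : ℚ => t + q * Real.pi) := by
      rintro θ ⟨q, hq⟩
      exact ⟨q, hq.symm⟩
    exact ((countable_range _).preimage Subtype.val_injective).mono this
  · have : Nonempty Ang := ⟨⟨0, le_refl _, hpi⟩⟩
    exact hd.nonempty

lemma mem_goodLaws {ε : ℝ} (hε : 0 < ε) (hc : ∀ i, Measurable (c i)) {t : ℝ}
    (ht : ∀ᵐ ω ∂P, RotGood ε (fun i => c i ω) t) {μ : ProbabilityMeasure Ang}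
    (hμ : (μ : Measure Ang) (rotSet t)ᶜ = 0) : μ ∈ goodLaws ε P hc := by
  unfold goodLaws
  simp only [mem_iInter, mem_ofPred_eq]
  intro I R N k j n m
  have h1 : ∀ᵐ z ∂(cLaw P hc I : Measure (I → ℂ)), RotGood ε z t := by
    rw [cLaw, ProbabilityMeasure.coe_mk, ae_map_iff
      (measurable_pi_lambda (fun ω (i : I) => c i ω) fun i => hc i).aemeasurable
      (measurableSet_rotGood ε I t)]
    filter_upwards [ht] with ω hω i j hij q q'
    exact hω i j (fun h => hij (Subtype.ext h)) q q'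
  have h2 : ∀ᵐ θ ∂(Measure.pi fun _ : I => (μ : Measure Ang)), ∀ i, θ i ∈ rotSet t := by
    rw [ae_all_iff]
    intro i
    have := (Measure.tendsto_eval_ae_ae (μ := fun _ : I => (μ : Measure Ang)) (i := i)).eventually
      (show ∀ᵐ y ∂(μ : Measure Ang), y ∈ rotSet t from by rw [ae_iff]; exact hμ)
    exact this
  have h3 : ∀ᵐ x ∂(jl P hc I μ : Measure _), x ∈ tst ε I R N k j n := by
    rw [jl, ProbabilityMeasure.toMeasure_prod, ProbabilityMeasure.toMeasure_pi]
    have e1 := Measure.quasiMeasurePreserving_fst.ae (μb := (cLaw P hc I : Measure (I → ℂ)))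
      (μa := (cLaw P hc I : Measure (I → ℂ)).prod (Measure.pi fun _ : I => (μ : Measure Ang))) h1
    have e2 := Measure.quasiMeasurePreserving_snd.ae
      (μb := (Measure.pi fun _ : I => (μ : Measure Ang)))
      (μa := (cLaw P hc I : Measure (I → ℂ)).prod (Measure.pi fun _ : I => (μ : Measure Ang))) h2
    filter_upwards [e1, e2] with x g1 g2
    exact mem_tst hε g1 g2 R N k j n
  have h4 : (jl P hc I μ : Measure _) (tst ε I R N k j n) = 1 := by
    rw [← prob_compl_eq_zero_iff (isOpen_tst ε I R N k j n).measurableSet]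
    exact h3
  rw [h4]
  exact ENNReal.sub_lt_self ENNReal.one_ne_top one_ne_zero (by simp)

theorem laws_main {ε : ℝ} (hε : 0 < ε) (hc : ∀ i, Measurable (c i))
    (hloc : ∀ᵐ ω ∂P, ∀ R : ℝ, {i | ‖c i ω‖ ≤ R}.Finite) {μ : ProbabilityMeasure Ang}
    (hμ : μ ∈ goodLaws ε P hc) :
    ∀ᵐ x : Ω × (ℕ → Ang) ∂(P.prod (Measure.infinitePi fun _ : ℕ => (μ : Measure Ang))),
      ∀ p : ℂ, p ∉ ⋃₀ needles ε (fun i => c i x.1) (fun i => (x.2 i : ℝ)) →
        ¬ Bornology.IsBounded (connectedComponentIn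
          (⋃₀ needles ε (fun i => c i x.1) (fun i => (x.2 i : ℝ)))ᶜ p) →
        ∀ᵐ α : ℝ, ¬ Exceptional (needles ε (fun i => c i x.1) (fun i => (x.2 i : ℝ))) p α ∧
          ¬ Trapped (needles ε (fun i => c i x.1) (fun i => (x.2 i : ℝ))) p α := by
  have hμ' : ∀ (I : Finset ℕ) (R N k j n : ℕ),
      (jl P hc I μ : Measure _) (tst ε I R N k j n) = 1 := by
    intro I R N k j n
    refine le_antisymm prob_le_one (le_of_not_gt fun hlt => ?_)
    obtain ⟨m, hm⟩ := ENNReal.exists_inv_nat_lt (show 1 - (jl P hc I μ : Measure _)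
      (tst ε I R N k j n) ≠ 0 from (tsub_pos_of_lt hlt).ne')
    unfold goodLaws at hμ
    simp only [mem_iInter, mem_ofPred_eq] at hμ
    have h1 := hμ I R N k j n m
    have h2 : ((m : ENNReal) + 1)⁻¹ ≤ (m : ENNReal)⁻¹ := ENNReal.inv_le_inv.2 le_self_add
    have h3 : ((m : ENNReal) + 1)⁻¹ < 1 - (jl P hc I μ : Measure _) (tst ε I R N k j n) :=
      lt_of_le_of_lt h2 hm
    have h4 : (jl P hc I μ : Measure _) (tst ε I R N k j n) < 1 - ((m : ENNReal) + 1)⁻¹ := by
      rw [lt_tsub_iff_right] at h3 ⊢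
      rwa [add_comm]
    exact absurd h1 (not_lt.2 h4.le)
  have h1 : ∀ᵐ x : Ω × (ℕ → Ang) ∂(P.prod (Measure.infinitePi fun _ : ℕ => (μ : Measure Ang))),
      ∀ (I : Finset ℕ) (R N k j n : ℕ),
        Prod.map (fun ω (i : I) => c i ω) I.restrict x ∈ tst ε I R N k j n := by
    simp only [ae_all_iff]
    intro I R N k j n
    have hm : Measurable (Prod.map (fun ω (i : I) => c i ω) (I.restrict : (ℕ → Ang) → (I → Ang))) :=
      (measurable_pi_lambda (fun ω (i : I) => c i ω) fun i => hc i).prodMap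
        (Finset.measurable_restrict I)
    apply ae_of_ae_map hm.aemeasurable
    rw [map_jl hc I μ]
    have := hμ' I R N k j n
    rw [← prob_compl_eq_zero_iff (isOpen_tst ε I R N k j n).measurableSet] at this
    exact this
  have h2 : ∀ᵐ x : Ω × (ℕ → Ang) ∂(P.prod (Measure.infinitePi fun _ : ℕ => (μ : Measure Ang))),
      ∀ R : ℝ, {i | ‖c i x.1‖ ≤ R}.Finite :=
    Measure.quasiMeasurePreserving_fst.ae hloc
  filter_upwards [h1, h2] with x g1 g2
  intro p hp hC
  refine conclusion hε g2 (fun I => ?_) (fun I R N k j n => ?_) p hp hC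
  · exact (interior_subset (g1 I 0 0 0 0 0)).1
  · exact (interior_subset (g1 I R N k j n)).2

end

end Pool.Agent.H628_Mirror
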