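import Pool.Agent.H628_Mirror.Tests
import Pool.Agent.H628_Mirror.GenericMain

/-!
# Random mirrors: the deterministic part
-/

set_option autoImplicit false

open Complex ComplexConjugate Set Filter Topology MeasureTheory

namespace Pool.Agent.H628_Mirror

section
variable {ι : Type} {ε : ℝ} {c : ι → ℂ} {θ : ι → ℝ}

lemma gp_needles (hε : 0 < ε) (h : ∀ i j, i ≠ j →
    cr (c i - c j - ((ε / 2 : ℝ) : ℂ) * Complex.exp ((θ i : ℂ) * Complex.I))
      (Complex.exp ((θ j : ℂ) * Complex.I)) ≠ 0 ∧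
    cr (c i - c j + ((ε / 2 : ℝ) : ℂ) * Complex.exp ((θ i : ℂ) * Complex.I))
      (Complex.exp ((θ j : ℂ) * Complex.I)) ≠ 0) : GP (eA ε c θ) (eB ε c θ) := by
  intro i j hij
  obtain ⟨h1, h2⟩ := h i j hij
  constructor
  · intro hm
    have h3 := cr_of_mem_segment hm
    rw [eB_sub_eA, cr_mul_right, show eA ε c θ i - eA ε c θ j
      = (c i - c j - ((ε / 2 : ℝ) : ℂ) * Complex.exp ((θ i : ℂ) * Complex.I))
        + ((ε / 2 : ℝ) : ℂ) * Complex.exp ((θ j : ℂ) * Complex.I) by unfold eA; ring,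
      cr_add_left, cr_mul_left, cr_self, mul_zero, add_zero] at h3
    rcases mul_eq_zero.1 h3 with h4 | h4
    · exact hε.ne' h4
    · exact h1 h4
  · intro hm
    have h3 := cr_of_mem_segment hm
    rw [eB_sub_eA, cr_mul_right, show eB ε c θ i - eA ε c θ j
      = (c i - c j + ((ε / 2 : ℝ) : ℂ) * Complex.exp ((θ i : ℂ) * Complex.I))
        + ((ε / 2 : ℝ) : ℂ) * Complex.exp ((θ j : ℂ) * Complex.I) by unfold eA eB; ring,
      cr_add_left, cr_mul_left, cr_self, mul_zero, add_zero] at h3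
    rcases mul_eq_zero.1 h3 with h4 | h4
    · exact hε.ne' h4
    · exact h2 h4

lemma commensurable_shift {t : ℝ} (hq : ∀ i, ∃ q : ℚ, θ i = t + q * Real.pi) (i j : ι) :
    ∃ (q : ℚ) (r : ℝ), eB ε c θ j - eA ε c θ j
      = r * Complex.exp ((q : ℂ) * Real.pi * Complex.I) * (eB ε c θ i - eA ε c θ i) := by
  obtain ⟨q, hq1⟩ := hq i
  obtain ⟨q', hq2⟩ := hq j
  refine ⟨q' - q, 1, ?_⟩
  rw [eB_sub_eA, eB_sub_eA, hq1, hq2]
  have : Complex.exp (((t + (q' : ℝ) * Real.pi : ℝ) : ℂ) * Complex.I)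
      = Complex.exp (((q' - q : ℚ) : ℂ) * Real.pi * Complex.I)
        * Complex.exp (((t + (q : ℝ) * Real.pi : ℝ) : ℂ) * Complex.I) := by
    rw [← Complex.exp_add]
    congr 1
    push_cast; ring
  rw [this]
  push_cast; ring

end

/-! ### Few common rotations are bad -/

lemma countable_sin_eq (β γ : ℝ) : {t : ℝ | Real.sin (t + β) = γ}.Countable := by
  by_cases h : ∃ s, Real.sin s = γ
  · obtain ⟨s, rfl⟩ := h
    refine ((countable_range (fun k : ℤ => s - 2 * k * Real.pi - β)).union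
      (countable_range (fun k : ℤ => (2 * k + 1) * Real.pi - s - β))).mono ?_
    intro t ht
    obtain ⟨k, hk | hk⟩ := Real.sin_eq_sin_iff.1 (show Real.sin (t + β) = Real.sin s from ht)
    · left; exact ⟨k, by show s - 2 * k * Real.pi - β = t; linarith⟩
    · right; exact ⟨k, by show (2 * k + 1) * Real.pi - s - β = t; linarith⟩
  · refine (countable_empty).mono ?_
    intro t ht
    exact h ⟨_, ht⟩

lemma countable_rot {w : ℂ} (hw : w ≠ 0) (κ x y : ℝ) :
    {t : ℝ | cr (w - (κ : ℂ) * Complex.exp (((t + x : ℝ) : ℂ) * Complex.I))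
      (Complex.exp (((t + y : ℝ) : ℂ) * Complex.I)) = 0}.Countable := by
  refine (countable_sin_eq (y - Complex.arg w) (κ * Real.sin (y - x) / ‖w‖)).mono ?_
  intro t ht
  have h1 : cr (w - (κ : ℂ) * Complex.exp (((t + x : ℝ) : ℂ) * Complex.I))
      (Complex.exp (((t + y : ℝ) : ℂ) * Complex.I)) = 0 := ht
  rw [cr_sub_left, cr_mul_left, cr_exp] at h1
  have h2 : cr w (Complex.exp (((t + y : ℝ) : ℂ) * Complex.I))
      = ‖w‖ * Real.sin (t + (y - Complex.arg w)) := by
    nth_rewrite 1 [← Complex.norm_mul_exp_arg_mul_I w]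
    rw [cr_mul_left, cr_exp]
    congr 2; ring
  rw [h2] at h1
  show Real.sin (t + (y - Complex.arg w)) = κ * Real.sin (y - x) / ‖w‖
  rw [eq_div_iff (norm_ne_zero_iff.2 hw)]
  have h3 : t + y - (t + x) = y - x := by ring
  rw [h3] at h1
  linarith

/-! ### The conclusion for a configuration that passes all tests -/

section
variable {ε : ℝ} {c : ℕ → ℂ} {θ : ℕ → ℝ}

theorem conclusion (hε : 0 < ε) (hloc : ∀ R : ℝ, {i | ‖c i‖ ≤ R}.Finite)
    (hgp : ∀ I : Finset ℕ, GP (fun i : I => eA ε c θ i) (fun i : I => eB ε c θ i))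
    (hpass : ∀ (I : Finset ℕ) (R N k j n : ℕ), Pass (fun i : I => eA ε c θ i)
      (fun i : I => eB ε c θ i) (TopologicalSpace.denseSeq ℂ j) (1 / ((n : ℝ) + 1))
        (2 / ((n : ℝ) + 1)) R N ((k : ENNReal) + 1)⁻¹)
    (p : ℂ) (hp : p ∉ ⋃₀ needles ε c θ)
    (hC : ¬ Bornology.IsBounded (connectedComponentIn (⋃₀ needles ε c θ)ᶜ p)) :
    ∀ᵐ α : ℝ, ¬ Exceptional (needles ε c θ) p α ∧ ¬ Trapped (needles ε c θ) p α := by
  classical
  set a := eA ε c θ with ha
  set b := eB ε c θ with hb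
  have hne : ∀ i, a i ≠ b i := eA_ne_eB hε
  have hGP : GP a b := by
    intro i j hij
    have h := hgp {i, j} ⟨i, by simp⟩ ⟨j, by simp⟩ (fun h => hij (by simpa using h))
    exact h
  have hg : Good a b := by
    refine good_of_lf hne hGP fun R => ?_
    refine (hloc (R + ε)).subset ?_
    rintro i ⟨z, hz1, hz2⟩
    rw [mem_closedBall_zero_iff] at hz2
    exact norm_centre_le hε hz1 hz2
  have hS : needles ε c θ = range (mir a b) := needles_eq
  have hMM := gMM hS
  rw [← hMM] at hp hC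
  set T : ℕ → Finset ℕ := fun R => (hloc ((R : ℝ) + ε)).toFinset with hT
  have hmemT : ∀ (R i : ℕ), ‖c i‖ ≤ (R : ℝ) + ε → i ∈ T R := by
    intro R i hi
    rw [hT]
    simpa using hi
  have hgT : ∀ R : ℕ, Good (fun i : T R => a i) (fun i : T R => b i) := fun R =>
    good_of_lf (fun i => hne i) (hgp (T R)) fun _ => Set.toFinite _
  have hMT : ∀ R : ℕ, MM (fun i : T R => a i) (fun i : T R => b i) ⊆ MM a b := by
    intro R z hz
    obtain ⟨i, hi⟩ := mem_MM.1 hz
    exact mem_MM.2 ⟨i, hi⟩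
  have hnull : ∀ R : ℕ, ∀ᵐ α : ℝ, Leaves (fun i : T R => a i) (fun i : T R => b i) ∅ p
      (Complex.exp ((α : ℂ) * Complex.I)) R := by
    intro R
    have hpT : p ∉ MM (fun i : T R => a i) (fun i : T R => b i) := fun h => hp (hMT R h)
    have hopen : IsOpen (MM (fun i : T R => a i) (fun i : T R => b i))ᶜ := (hgT R).isOpen_compl
    obtain ⟨ρ, hρ, hball⟩ := Metric.isOpen_iff.1 hopen p hpT
    obtain ⟨n, hn⟩ := exists_nat_one_div_lt (show (0 : ℝ) < ρ / 4 by positivity)
    have hn0 : (0 : ℝ) < 1 / ((n : ℝ) + 1) := by positivity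
    have hn2 : 2 / ((n : ℝ) + 1) = 2 * (1 / ((n : ℝ) + 1)) := by ring
    obtain ⟨q, hqr, hq⟩ := Metric.dense_iff.1 (TopologicalSpace.denseRange_denseSeq ℂ) p _ hn0
    obtain ⟨j, rfl⟩ := hq
    set q := TopologicalSpace.denseSeq ℂ j with hqdef
    have hpq : p ∈ Metric.closedBall q (1 / ((n : ℝ) + 1)) := by
      rw [Metric.mem_closedBall, dist_comm]; exact (Metric.mem_ball.1 hqr).le
    have hsub : Metric.closedBall q (2 / ((n : ℝ) + 1)) ⊆ Metric.ball p ρ := by
      intro z hz
      rw [Metric.mem_ball]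
      have e1 := Metric.mem_closedBall.1 hz
      have e2 := Metric.mem_ball.1 hqr
      have e3 := dist_triangle z q p
      rw [hn2] at e1
      linarith
    have hdis : Disjoint (Metric.closedBall q (2 / ((n : ℝ) + 1)))
        (MM (fun i : T R => a i) (fun i : T R => b i)) := by
      rw [Set.disjoint_left]
      intro z hz
      exact hball (hsub hz)
    have hcomp : ¬ Bornology.IsBounded
        (connectedComponentIn (MM (fun i : T R => a i) (fun i : T R => b i))ᶜ q) := by
      have e1 : connectedComponentIn (MM (fun i : T R => a i) (fun i : T R => b i))ᶜ q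
          = connectedComponentIn (MM (fun i : T R => a i) (fun i : T R => b i))ᶜ p := by
        apply connectedComponentIn_eq
        have h5 : Metric.closedBall q (2 / ((n : ℝ) + 1)) ⊆
            connectedComponentIn (MM (fun i : T R => a i) (fun i : T R => b i))ᶜ q :=
          (convex_closedBall q _).isPreconnected.subset_connectedComponentIn
            (Metric.mem_closedBall_self (by positivity)) (fun z hz => Set.disjoint_left.1 hdis hz)
        apply h5
        refine Metric.closedBall_subset_closedBall ?_ hpq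
        rw [hn2]; linarith
      rw [e1]
      intro hbd
      exact hC (hbd.subset (connectedComponentIn_mono p (compl_subset_compl.2 (hMT R))))
    have hle : ∀ N k : ℕ, volume (Icc (-(N : ℝ)) N ∩ {α : ℝ | ¬ Leaves
          (fun i : T R => a i) (fun i : T R => b i) ∅ p
            (Complex.exp ((α : ℂ) * Complex.I)) R}) ≤ ((k : ENNReal) + 1)⁻¹ := fun N k =>
      hpass (T R) R N k j n hdis hcomp p hpq
    have hz : ∀ N : ℕ, volume (Icc (-(N : ℝ)) N ∩ {α : ℝ | ¬ Leaves
          (fun i : T R => a i) (fun i : T R => b i) ∅ p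
            (Complex.exp ((α : ℂ) * Complex.I)) R}) = 0 := by
      intro N
      by_contra hne
      obtain ⟨k, hk⟩ := ENNReal.exists_inv_nat_lt hne
      have h2 := hle N k
      have h3 : ((k : ENNReal) + 1)⁻¹ ≤ (k : ENNReal)⁻¹ := ENNReal.inv_le_inv.2 le_self_add
      exact absurd (h2.trans h3) (not_le.2 hk)
    rw [ae_iff]
    have hcov : {α : ℝ | ¬ Leaves (fun i : T R => a i) (fun i : T R => b i) ∅ p
            (Complex.exp ((α : ℂ) * Complex.I)) R} ⊆ ⋃ N : ℕ, (Icc (-(N : ℝ)) N ∩ {α : ℝ | ¬ Leaves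
          (fun i : T R => a i) (fun i : T R => b i) ∅ p
            (Complex.exp ((α : ℂ) * Complex.I)) R}) := by
      intro α hα
      obtain ⟨N, hN⟩ := exists_nat_ge |α|
      rw [mem_iUnion]
      exact ⟨N, abs_le.1 hN, hα⟩
    exact measure_mono_null hcov (measure_iUnion_null hz)
  have hex : ∀ᵐ α : ℝ, ¬ Exceptional (needles ε c θ) p α := by
    have hcnt := gcountable_exceptional hg hS (p := p) (by rw [← hMM]; exact hp)
    rw [ae_iff]
    simp only [not_not]
    exact hcnt.measure_zero volume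
  filter_upwards [ae_all_iff.2 hnull, hex] with α g1 g2
  refine ⟨g2, ?_⟩
  rintro ⟨x, d, hx, hb'⟩
  obtain ⟨m, hTr⟩ := gtraj hg hS (by rw [← hMM]; exact hp) g2 hx
  obtain ⟨R₀, hR₀⟩ := hb'.subset_closedBall 0
  obtain ⟨R, hR⟩ := exists_nat_ge R₀
  have hxR : ∀ k, ‖x k‖ ≤ (R : ℝ) := by
    intro k
    have := hR₀ (mem_range_self k)
    rw [mem_closedBall_zero_iff] at this
    linarith
  obtain ⟨m', hT'⟩ := hTr.restrict (T R : Set ℕ) (fun k =>
    hmemT R _ (norm_centre_le hε (hTr.mem k) (hxR (k + 1))))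
  refine not_leaves (hgT R) hT' hxR ?_
  rw [hx.2.1]
  exact g1 R

end

end Pool.Agent.H628_Mirror
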