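import Mathlib

/-!
# Bounded components and continuous logarithms

A point `q` off a compact set `K` of the plane lies in a bounded component of the complement of `K` if and
only if `z - q` has no continuous logarithm on `K`.
-/

set_option autoImplicit false

open Complex Set Filter Topology

namespace Pool.Agent.H628_Mirror

/-- `g` is a continuous logarithm of `z - q` on `K` -/
def LogOn (K : Set ℂ) (q : ℂ) (g : ℂ → ℂ) : Prop :=
  ContinuousOn g K ∧ ∀ z ∈ K, Complex.exp (g z) = z - q

/-- there is no continuous logarithm around a circle -/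
lemma no_log_circle {q : ℂ} {ρ : ℝ} (hρ : 0 < ρ) {L : ℂ → ℂ} (hL : Continuous L)
    (h : ∀ t : ℝ, Complex.exp (L (q + ρ * Complex.exp (t * I))) = ρ * Complex.exp (t * I)) :
    False := by
  set f : ℝ → ℝ := fun t => (L (q + ρ * Complex.exp (t * I)) - t * I).im with hf
  have hfc : Continuous f := by
    have : Continuous fun t : ℝ => L (q + ρ * Complex.exp (t * I)) := by
      apply hL.comp; fun_prop
    fun_prop
  have hexp : ∀ t : ℝ, Complex.exp (L (q + ρ * Complex.exp (t * I)) - t * I) = ρ := by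
    intro t
    rw [Complex.exp_sub, h t, mul_div_assoc, div_self (Complex.exp_ne_zero _), mul_one]
  have hint : ∀ t : ℝ, ∃ n : ℤ, f t = n * (2 * Real.pi) := by
    intro t
    have h1 : Complex.exp (L (q + ρ * Complex.exp (t * I)) - t * I)
        = Complex.exp ((Real.log ρ : ℝ) : ℂ) := by
      rw [hexp, ← Complex.ofReal_exp, Real.exp_log hρ]
    obtain ⟨n, hn⟩ := Complex.exp_eq_exp_iff_exists_int.1 h1
    refine ⟨n, ?_⟩
    rw [hf]
    simp only
    rw [hn]
    simp
  have hper : f (2 * Real.pi) = f 0 - 2 * Real.pi := by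
    rw [hf]
    have e1 : Complex.exp (((2 * Real.pi : ℝ) : ℂ) * I) = 1 := by
      push_cast; exact Complex.exp_two_pi_mul_I
    have e2 : Complex.exp (((0 : ℝ) : ℂ) * I) = 1 := by simp
    simp only
    rw [e1, e2]
    simp
  obtain ⟨n, hn⟩ := hint 0
  have hpi := Real.pi_pos
  have hmem : f 0 - Real.pi ∈ Icc (f (2 * Real.pi)) (f 0) := by
    rw [hper]; constructor <;> linarith
  obtain ⟨t, -, ht⟩ := intermediate_value_Icc' (show (0 : ℝ) ≤ 2 * Real.pi by positivity)
    hfc.continuousOn hmem
  obtain ⟨m, hm⟩ := hint t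
  rw [ht, hn] at hm
  have h2 : (2 * ((n : ℝ) - m) - 1) * Real.pi = 0 := by linarith
  rcases mul_eq_zero.1 h2 with h3 | h3
  · have h4 : 2 * (n - m) - 1 = 0 := by exact_mod_cast h3
    omega
  · exact hpi.ne' h3

/-- The frontier of a component of the complement of a closed set lies in the closed set. -/
lemma frontier_component {K : Set ℂ} (hK : IsClosed K) (q : ℂ) :
    frontier (connectedComponentIn Kᶜ q) ⊆ K := by
  intro z hz
  by_contra hzK
  have hVo : IsOpen (connectedComponentIn Kᶜ q) := hK.isOpen_compl.connectedComponentIn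
  have hWo : IsOpen (connectedComponentIn Kᶜ z) := hK.isOpen_compl.connectedComponentIn
  have hzW : z ∈ connectedComponentIn Kᶜ z := mem_connectedComponentIn hzK
  have hzcl : z ∈ closure (connectedComponentIn Kᶜ q) := frontier_subset_closure hz
  obtain ⟨w, hwW, hwV⟩ := mem_closure_iff.1 hzcl _ hWo hzW
  have h1 := connectedComponentIn_eq hwW
  have h2 := connectedComponentIn_eq hwV
  rw [h1, ← h2] at hzW
  rw [hVo.frontier_eq] at hz
  exact hz.2 hzW

/-- a point of a bounded component has no continuous logarithm -/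
theorem no_log_of_bounded {K : Set ℂ} (hK : IsClosed K) {q : ℂ} (hq : q ∉ K)
    (hb : Bornology.IsBounded (connectedComponentIn Kᶜ q)) {g : ℂ → ℂ} (hg : LogOn K q g) :
    False := by
  classical
  obtain ⟨G, hG⟩ := ContinuousMap.exists_restrict_eq (Y := ℂ) hK
    ⟨K.domRestrict g, continuousOn_iff_continuous_domRestrict.1 hg.1⟩
  have hGg : ∀ z ∈ K, G z = g z := by
    intro z hz
    exact congrArg (fun f : C(K, ℂ) => f ⟨z, hz⟩) hG
  set V := connectedComponentIn Kᶜ q with hV
  have hqV : q ∈ V := mem_connectedComponentIn hq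
  set F : ℂ → ℂ := V.piecewise (fun z => Complex.exp (G z)) (fun z => z - q) with hF
  have hFc : Continuous F := by
    apply Continuous.piecewise
    · intro z hz
      have hzK := frontier_component hK q hz
      rw [hGg z hzK, hg.2 z hzK]
    · exact Complex.continuous_exp.comp G.continuous
    · fun_prop
  have hF0 : ∀ z, F z ≠ 0 := by
    intro z
    by_cases hz : z ∈ V
    · rw [hF, Set.piecewise_eq_of_mem _ _ _ hz]; exact Complex.exp_ne_zero _
    · rw [hF, Set.piecewise_eq_of_notMem _ _ _ hz]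
      intro h
      exact hz (by rw [sub_eq_zero.1 h]; exact hqV)
  have huniv : IsSimplyConnected (univ : Set ℂ) := by
    have : SimplyConnectedSpace ℂ := inferInstance
    exact (Homeomorph.Set.univ ℂ).toHomotopyEquiv.simplyConnectedSpace
  obtain ⟨L, hLc, hLe⟩ := Complex.exists_continuousOn_eqOn_exp_comp huniv isOpen_univ
    hFc.continuousOn (by rintro ⟨z, -, hz⟩; exact hF0 z hz)
  obtain ⟨ρ, hρ⟩ := hb.subset_closedBall q
  refine no_log_circle (q := q) (ρ := max ρ 0 + 1) (by positivity)
    (continuousOn_univ.1 hLc) fun t => ?_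
  have h1 := hLe (mem_univ (q + ((max ρ 0 + 1 : ℝ) : ℂ) * Complex.exp (t * I)))
  simp only [Function.comp_apply] at h1
  rw [h1, hF, Set.piecewise_eq_of_notMem, add_sub_cancel_left]
  intro hmem
  have h2 := hρ hmem
  rw [mem_closedBall_iff_norm, add_sub_cancel_left, norm_mul, Complex.norm_exp_ofReal_mul_I,
    mul_one, Complex.norm_real, Real.norm_eq_abs, abs_of_pos (by positivity)] at h2
  have := le_max_left ρ 0
  linarith

/-- changing the base point a little -/
lemma LogOn.move {K : Set ℂ} {q q' : ℂ} {g : ℂ → ℂ} (hg : LogOn K q g)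
    (h : ∀ z ∈ K, ‖q - q'‖ < ‖z - q‖) :
    LogOn K q' (fun z => g z + Complex.log (1 + (q - q') / (z - q))) := by
  have hne : ∀ z ∈ K, z - q ≠ 0 := by
    intro z hz h0
    have := h z hz
    rw [h0, norm_zero] at this
    exact absurd this (not_lt.2 (norm_nonneg _))
  have hsl : ∀ z ∈ K, 1 + (q - q') / (z - q) ∈ Complex.slitPlane := by
    intro z hz
    apply Complex.mem_slitPlane_of_norm_lt_one
    rw [norm_div, div_lt_one (norm_pos_iff.2 (hne z hz))]
    exact h z hz
  refine ⟨?_, ?_⟩
  · apply hg.1.add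
    apply ContinuousOn.clog
    · apply continuousOn_const.add
      apply continuousOn_const.div (by fun_prop) hne
    · exact hsl
  · intro z hz
    rw [Complex.exp_add, hg.2 z hz, Complex.exp_log (Complex.slitPlane_ne_zero (hsl z hz))]
    have := hne z hz
    field_simp
    ring

/-- a point far away has a continuous logarithm -/
lemma log_far {K : Set ℂ} {q : ℂ} {R : ℝ} (hR : K ⊆ Metric.closedBall 0 R) (hq : R < ‖q‖) :
    ∃ g, LogOn K q g := by
  by_cases hK : K = ∅
  · exact ⟨fun _ => 0, by rw [hK]; simp [LogOn]⟩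
  have hq0 : q ≠ 0 := by
    rintro rfl
    rw [norm_zero] at hq
    obtain ⟨z, hz⟩ := Set.nonempty_iff_ne_empty.2 hK
    have := hR hz
    rw [mem_closedBall_zero_iff] at this
    linarith [norm_nonneg z]
  refine ⟨fun z => Complex.log (1 + (-z / q)) + Complex.log (-q), ?_, ?_⟩
  · apply ContinuousOn.add _ continuousOn_const
    apply ContinuousOn.clog
    · fun_prop
    · intro z hz
      apply Complex.mem_slitPlane_of_norm_lt_one
      rw [norm_div, norm_neg, div_lt_one (norm_pos_iff.2 hq0)]
      have := hR hz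
      rw [mem_closedBall_zero_iff] at this
      linarith
  · intro z hz
    have h1 : 1 + (-z / q) ∈ Complex.slitPlane := by
      apply Complex.mem_slitPlane_of_norm_lt_one
      rw [norm_div, norm_neg, div_lt_one (norm_pos_iff.2 hq0)]
      have := hR hz
      rw [mem_closedBall_zero_iff] at this
      linarith
    rw [Complex.exp_add, Complex.exp_log (Complex.slitPlane_ne_zero h1),
      Complex.exp_log (neg_ne_zero.2 hq0)]
    field_simp
    ring

/-- a point of an unbounded component has a continuous logarithm -/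
theorem log_of_unbounded {K : Set ℂ} (hK : IsCompact K) {q : ℂ} (hq : q ∉ K)
    (hb : ¬ Bornology.IsBounded (connectedComponentIn Kᶜ q)) : ∃ g, LogOn K q g := by
  obtain ⟨R, hR⟩ := hK.isBounded.subset_closedBall 0
  have h1 : ¬ connectedComponentIn Kᶜ q ⊆ Metric.closedBall 0 R := fun h =>
    hb (Metric.isBounded_closedBall.subset h)
  rw [Set.not_subset] at h1
  obtain ⟨y, hy, hyR⟩ := h1
  rw [mem_closedBall_zero_iff, not_le] at hyR
  set A : Set ℂ := {w | w ∉ K ∧ ∃ g, LogOn K w g} with hA
  set B : Set ℂ := {w | w ∉ K ∧ ¬ ∃ g, LogOn K w g} with hB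
  have key : ∀ w ∉ K, ∃ δ > 0, ∀ w' ∈ Metric.ball w δ, w' ∉ K ∧
      ((∃ g, LogOn K w g) ↔ ∃ g, LogOn K w' g) := by
    intro w hw
    obtain ⟨δ, hδ, hball⟩ := Metric.isOpen_iff.1 hK.isClosed.isOpen_compl w hw
    refine ⟨δ / 2, by positivity, fun w' hw' => ?_⟩
    rw [Metric.mem_ball, dist_eq_norm] at hw'
    have hfar : ∀ z ∈ K, δ ≤ ‖z - w‖ := by
      intro z hz
      by_contra hlt
      rw [not_le] at hlt
      exact hball (by rw [Metric.mem_ball, dist_eq_norm]; exact hlt) hz
    refine ⟨fun h => ?_, ?_, ?_⟩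
    · have := hfar w' h
      linarith
    · rintro ⟨g, hg⟩
      refine ⟨_, hg.move fun z hz => ?_⟩
      rw [norm_sub_rev]
      have := hfar z hz
      linarith
    · rintro ⟨g, hg⟩
      refine ⟨_, hg.move fun z hz => ?_⟩
      have h3 := hfar z hz
      have h4 : ‖z - w‖ ≤ ‖z - w'‖ + ‖w' - w‖ := by
        have := norm_add_le (z - w') (w' - w)
        rwa [sub_add_sub_cancel] at this
      linarith
  have hAo : IsOpen A := by
    rw [Metric.isOpen_iff]
    rintro w ⟨hw, hg⟩
    obtain ⟨δ, hδ, h⟩ := key w hw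
    exact ⟨δ, hδ, fun w' hw' => ⟨(h w' hw').1, (h w' hw').2.1 hg⟩⟩
  have hBo : IsOpen B := by
    rw [Metric.isOpen_iff]
    rintro w ⟨hw, hg⟩
    obtain ⟨δ, hδ, h⟩ := key w hw
    exact ⟨δ, hδ, fun w' hw' => ⟨(h w' hw').1, fun h3 => hg ((h w' hw').2.2 h3)⟩⟩
  have hpre : IsPreconnected (connectedComponentIn Kᶜ q) := isPreconnected_connectedComponentIn
  have hsub : connectedComponentIn Kᶜ q ⊆ A ∪ B := by
    intro w hw
    have hwK : w ∉ K := connectedComponentIn_subset _ _ hw
    by_cases h : ∃ g, LogOn K w g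
    · exact Or.inl ⟨hwK, h⟩
    · exact Or.inr ⟨hwK, h⟩
  have hdis : Disjoint A B := by
    rw [Set.disjoint_left]
    rintro w ⟨-, h⟩ ⟨-, h'⟩
    exact h' h
  have hyA : y ∈ A := ⟨connectedComponentIn_subset _ _ hy, log_far hR hyR⟩
  have := hpre.subset_left_of_subset_union hAo hBo hdis hsub ⟨y, hy, hyA⟩
  exact (this (mem_connectedComponentIn hq)).2

end Pool.Agent.H628_Mirror
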