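import Pool.Agent.H628_Mirror.Gap

/-!
# No boundary states outside the bad directions
-/

set_option autoImplicit false

open Complex ComplexConjugate Set Filter Topology

namespace Pool.Agent.H628_Mirror

variable {ι : Type*} {a b : ι → ℂ} {D : Set ℂ} {R : ℝ} {Λ : ι → ℂ → ℂ → Prop}

lemma path_of_orb {I : ℕ → ι} {Z Φ : ℕ → ℂ} (hO : Orb a b Λ I Z Φ) (k n : ℕ) :
    ∃ w : List ι, w.length = n ∧ Path a b {I k} (Z k) (Φ k) w {I (k + n)} (Z (k + n)) (Φ (k + n)) := by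
  induction n generalizing k with
  | zero => exact ⟨[], rfl, Path.nil _ _ _⟩
  | succ n ih =>
    obtain ⟨w, hw, hp⟩ := ih (k + 1)
    refine ⟨I (k + 1) :: w, by simp [hw], ?_⟩
    have e : k + (n + 1) = k + 1 + n := by omega
    rw [e]
    refine Path.cons (hO.hit k) ?_
    rw [← hO.nz k, ← hO.nd k]
    exact hp

/-- the direction of a periodic path is bad -/
lemma periodic_bad (hne : ∀ j, a j ≠ b j) {Q : Set ℂ} (h0 : (0 : ℂ) ∈ Q) {A A' : Set ι}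
    {z φ : ℂ} {w : List ι} (h : Path a b A z φ w A' z φ) (hw : w ≠ []) (hφ : ‖φ‖ = 1) :
    φ ∈ BadQ a b Q := by
  obtain ⟨T, -, hT, h1, h2⟩ := path_unfold h
  have hφ0 : φ ≠ 0 := by rintro rfl; simp at hφ
  have h3 : Uw a b (w ++ w) z = z + ((2 * T : ℝ) : ℂ) * φ := by
    rw [Uw_append, h1, Uw_add, h1, Lw_mul, h2]; push_cast; ring
  have h4 : Uw a b (w ++ w) z = Uw a b (w ++ w) 0 + z := by
    have := Uw_add (a := a) (b := b) (w ++ w) 0 z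
    rw [zero_add] at this
    rw [this, Lw_double hne w hφ0 h2]
  have h5 : Uw a b (w ++ w) 0 = ((2 * T : ℝ) : ℂ) * φ := by
    rw [h4] at h3; linear_combination h3
  refine ⟨w ++ w, [], 0, h0, 0, h0, ?_⟩
  rw [Uw_nil, sub_zero, h5, nrm_mul hφ (by have := hT hw; linarith)]

lemma orbit_or_vertex (hg : Good a b) (hI : Inv a b D R Λ) (hD : DirOK a b D) {i : ι} {z φ : ℂ}
    (h : Λ i z φ) :
    (∃ (w : List ι) (A' : Set ι) (z' φ' u : ℂ), Path a b {i} z φ w A' z' φ' ∧ Fl a b z' φ' u ∧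
      u ∈ Vx a b) ∨
    ∃ (I : ℕ → ι) (Z Φ : ℕ → ℂ), Orb a b Λ I Z Φ ∧ I 0 = i ∧ Z 0 = z ∧ Φ 0 = φ := by
  by_cases hRV : (∃ (w : List ι) (A' : Set ι) (z' φ' u : ℂ), Path a b {i} z φ w A' z' φ' ∧
      Fl a b z' φ' u ∧ u ∈ Vx a b)
  · exact Or.inl hRV
  right
  set RV : ι × ℂ × ℂ → Prop := fun p => ∃ (w : List ι) (A' : Set ι) (z' φ' u : ℂ),
    Path a b {p.1} p.2.1 p.2.2 w A' z' φ' ∧ Fl a b z' φ' u ∧ u ∈ Vx a b with hRVdef
  have hstep : ∀ p : {p : ι × ℂ × ℂ // Λ p.1 p.2.1 p.2.2 ∧ ¬ RV p},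
      ∃ q : {p : ι × ℂ × ℂ // Λ p.1 p.2.1 p.2.2 ∧ ¬ RV p},
        Hit a b {p.1.1} p.1.2.1 p.1.2.2 q.1.1 ∧
        q.1.2.1 = p.1.2.1 + tt a b q.1.1 p.1.2.1 p.1.2.2 * p.1.2.2 ∧
        q.1.2.2 = rf (b q.1.1 - a q.1.1) p.1.2.2 := by
    rintro ⟨⟨i, z, φ⟩, hΛ, hn⟩
    simp only at hΛ
    rcases hI.dich hg hD hΛ with ⟨u, hu, hf⟩ | ⟨j, hj⟩
    · exact absurd ⟨[], {i}, z, φ, u, Path.nil _ _ _, hf, hu⟩ hn
    · refine ⟨⟨(j, z + tt a b j z φ * φ, rf (b j - a j) φ), hI.fw i z φ j hΛ hj, ?_⟩, hj, rfl, rfl⟩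
      rintro ⟨w, A', z', φ', u, hp, hf, hu⟩
      exact hn ⟨j :: w, A', z', φ', u, Path.cons hj hp, hf, hu⟩
  choose f hf using hstep
  let s : ℕ → {p : ι × ℂ × ℂ // Λ p.1 p.2.1 p.2.2 ∧ ¬ RV p} :=
    fun n => Nat.rec ⟨(i, z, φ), h, hRV⟩ (fun _ p => f p) n
  have hs : ∀ n, s (n + 1) = f (s n) := fun n => rfl
  refine ⟨fun n => (s n).1.1, fun n => (s n).1.2.1, fun n => (s n).1.2.2, ⟨fun k => (s k).2.1,
    fun k => ?_, fun k => ?_, fun k => ?_⟩, rfl, rfl, rfl⟩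
  · show Hit a b {(s k).1.1} (s k).1.2.1 (s k).1.2.2 (s (k + 1)).1.1
    rw [hs]; exact (hf (s k)).1
  · show (s (k + 1)).1.2.1 = (s k).1.2.1 + tt a b (s (k + 1)).1.1 (s k).1.2.1 (s k).1.2.2 * (s k).1.2.2
    rw [hs]; exact (hf (s k)).2.1
  · show (s (k + 1)).1.2.2 = rf (b (s (k + 1)).1.1 - a (s (k + 1)).1.1) (s k).1.2.2
    rw [hs]; exact (hf (s k)).2.2

/-- from a gap state one reaches a vertex -/
lemma gap_vertex (hg : Good a b) (hI : Inv a b D R Λ) (hD : DirOK a b D) {Q : Set ℂ}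
    (h0 : (0 : ℂ) ∈ Q) (hbad : ∀ φ ∈ D, φ ∉ BadQ a b Q) {i : ι} {z φ : ℂ} (h : Λ i z φ)
    {c₀ δ : ℝ} (hc : c₀ ≠ 0) (hδ : 0 < δ)
    (hgap : ∀ s : ℝ, 0 < s → s < δ → z + ((s * c₀ : ℝ) : ℂ) * (b i - a i) ∈ mir a b i ∧
      z + ((s * c₀ : ℝ) : ℂ) * (b i - a i) ∉ Vx a b ∧
      ¬ Λ i (z + ((s * c₀ : ℝ) : ℂ) * (b i - a i)) φ) :
    ∃ (w : List ι) (u : ℂ), u ∈ Vx a b ∧ ∃ T : ℝ, 0 < T ∧ Uw a b w u = z + T * φ := by
  rcases orbit_or_vertex hg hI hD h with ⟨w, A', z', φ', u, hp, hf, hu⟩ | ⟨I, Z, Φ, hO, e1, e2, e3⟩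
  · obtain ⟨T, hT, h1⟩ := path_fl_unfold hp hf
    exact ⟨w, u, hu, T, hT, h1⟩
  · exfalso
    subst e1 e2 e3
    obtain ⟨k, l, hkl, f1, f2, f3⟩ := orbit_periodic (c₀ := c₀) hg hI hD hO hc hδ (by
      intro s hs0 hs1
      have := hgap s hs0 hs1
      simpa only [pt, cc] using this)
    obtain ⟨w, hw, hp⟩ := path_of_orb hO k (l - k)
    have e : k + (l - k) = l := by omega
    rw [e, ← f2, ← f3] at hp
    have hwne : w ≠ [] := by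
      rintro rfl
      simp at hw
      omega
    exact hbad _ (hI.dir _ _ _ (hO.st k))
      (periodic_bad hg.ne h0 hp hwne (hD.one _ (hI.dir _ _ _ (hO.st k))))

/-- **There are no gap states.** -/
theorem no_gap (hg : Good a b) (hI : Inv a b D R Λ) (hD : DirOK a b D) {Q : Set ℂ}
    (h0 : (0 : ℂ) ∈ Q) (hQ : Vx a b ⊆ Q) (hbad : ∀ φ ∈ D, φ ∉ BadQ a b Q) {i : ι} {z φ : ℂ}
    (h : Λ i z φ) {c₀ δ : ℝ} (hc : c₀ ≠ 0) (hδ : 0 < δ)
    (hgap : ∀ s : ℝ, 0 < s → s < δ → z + ((s * c₀ : ℝ) : ℂ) * (b i - a i) ∈ mir a b i ∧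
      z + ((s * c₀ : ℝ) : ℂ) * (b i - a i) ∉ Vx a b ∧
      ¬ Λ i (z + ((s * c₀ : ℝ) : ℂ) * (b i - a i)) φ) : False := by
  have he : b i - a i ≠ 0 := sub_ne_zero.2 (hg.ne i).symm
  obtain ⟨w, u, hu, T, hT, h1⟩ := gap_vertex hg hI hD h0 hbad h hc hδ hgap
  have hinv : -rf (b i - a i) (-rf (b i - a i) φ) = φ := by
    rw [rf_neg, rf_rf he, neg_neg]
  obtain ⟨w', u', hu', T', hT', h2⟩ := gap_vertex (Λ := fun i z ψ => Λ i z (-rf (b i - a i) ψ))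
    hg (hI.rev hg hD) hD h0 hbad (i := i) (z := z) (φ := -rf (b i - a i) φ) (c₀ := c₀) (δ := δ)
    (by show Λ i z _; rw [hinv]; exact h) hc hδ (by
      intro s hs0 hs1
      obtain ⟨g1, g2, g3⟩ := hgap s hs0 hs1
      refine ⟨g1, g2, ?_⟩
      show ¬ Λ i _ _
      rw [hinv]; exact g3)
  have hzl : rho a b i z = z := rho_self (hg.ne i) (cr_of_mem_segment (hI.mem _ _ _ h))
  have h3 : Uw a b (i :: w') u' = z - T' * φ := by
    rw [Uw_cons, h2, rho_add, hzl, rf_mul, rf_neg, rf_rf he]; ring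
  apply hbad φ (hI.dir _ _ _ h)
  refine ⟨w, i :: w', u, hQ hu, u', hQ hu', ?_⟩
  have h4 : Uw a b w u - Uw a b (i :: w') u' = ((T + T' : ℝ) : ℂ) * φ := by
    rw [h1, h3]; push_cast; ring
  rw [h4, nrm_mul (hD.one _ (hI.dir _ _ _ h)) (by linarith)]

/-- The invariant family is open along the mirrors. -/
theorem inv_open (hg : Good a b) (hI : Inv a b D R Λ) (hD : DirOK a b D) {Q : Set ℂ}
    (h0 : (0 : ℂ) ∈ Q) (hQ : Vx a b ⊆ Q) (hbad : ∀ φ ∈ D, φ ∉ BadQ a b Q) {i : ι} {z φ : ℂ}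
    (h : Λ i z φ) : ∀ᶠ s : ℝ in 𝓝 0, Λ i (z + s * (b i - a i)) φ := by
  obtain ⟨hzo, hzk⟩ := mem_of_not_vx (hI.nv _ _ _ h) (hI.mem _ _ _ h)
  -- near `z`, the points of the line are interior points of the mirror, not vertices
  have hloc : ∀ᶠ s : ℝ in 𝓝 0, z + s * (b i - a i) ∈ mir a b i ∧ z + s * (b i - a i) ∉ Vx a b := by
    obtain ⟨τ, hτ0, hτ1, hτ⟩ := mem_openSegment_iff'.1 hzo
    have c1 : ContinuousAt (fun s : ℝ => τ + s) 0 := by fun_prop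
    have e1 : ∀ᶠ s : ℝ in 𝓝 0, 0 < τ + s := c1.eventually_const_lt (by simpa using hτ0)
    have e2 : ∀ᶠ s : ℝ in 𝓝 0, τ + s < 1 := c1.eventually_lt_const (by simpa using hτ1)
    have c2 : ContinuousAt (fun s : ℝ => z + (s : ℂ) * (b i - a i)) 0 := by fun_prop
    have c3 := c2.tendsto
    have e0 : z + ((0 : ℝ) : ℂ) * (b i - a i) = z := by simp
    rw [e0] at c3
    have e3 := c3.eventually (hg.local_mirror hzk)
    filter_upwards [e1, e2, e3] with s f1 f2 f3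
    have hm : z + s * (b i - a i) ∈ openSegment ℝ (a i) (b i) := by
      rw [mem_openSegment_iff']
      exact ⟨τ + s, f1, f2, by rw [hτ]; push_cast; ring⟩
    exact ⟨openSegment_subset_segment ℝ _ _ hm, not_vx_of (hg.ne i) hm f3⟩
  by_contra hcon
  rw [Metric.eventually_nhds_iff] at hloc
  obtain ⟨ρ, hρ, hloc⟩ := hloc
  have hcon' : ∃ s : ℝ, |s| < ρ ∧ ¬ Λ i (z + s * (b i - a i)) φ := by
    by_contra hno
    push Not at hno
    apply hcon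
    rw [Metric.eventually_nhds_iff]
    exact ⟨ρ, hρ, fun s hs => hno s (by simpa [Real.dist_eq] using hs)⟩
  obtain ⟨s₀, hs₀, hns₀⟩ := hcon'
  have hs₀ne : s₀ ≠ 0 := by
    rintro rfl
    apply hns₀; simpa using h
  obtain ⟨c, hcs, hcabs⟩ : ∃ c : ℝ, |s₀| * c = s₀ ∧ |c| = 1 := by
    rcases lt_or_gt_of_ne hs₀ne with h1 | h1
    · exact ⟨-1, by rw [abs_of_neg h1]; ring, by simp⟩
    · exact ⟨1, by rw [abs_of_pos h1]; ring, by simp⟩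
  have hc0 : c ≠ 0 := by
    intro h1; rw [h1, mul_zero] at hcs; exact hs₀ne hcs.symm
  have hr0 : 0 < |s₀| := abs_pos.2 hs₀ne
  set P : ℝ → ℂ := fun s => z + ((s * c : ℝ) : ℂ) * (b i - a i) with hP
  set G : Set ℝ := {s | 0 ≤ s ∧ s ≤ |s₀| ∧ Λ i (P s) φ} with hG
  have hG0 : (0 : ℝ) ∈ G := ⟨le_refl _, hr0.le, by simpa [hP] using h⟩
  have hGbd : BddAbove G := ⟨|s₀|, fun s hs => hs.2.1⟩
  set s₁ := sSup G with hs₁
  have hs₁0 : 0 ≤ s₁ := le_csSup hGbd hG0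
  have hs₁1 : s₁ ≤ |s₀| := csSup_le ⟨0, hG0⟩ fun s hs => hs.2.1
  have hmirP : ∀ s, 0 ≤ s → s ≤ |s₀| → P s ∈ mir a b i ∧ P s ∉ Vx a b := by
    intro s h1 h2
    have := hloc (y := s * c) (by
      rw [Real.dist_eq, sub_zero, abs_mul, hcabs, mul_one, abs_of_nonneg h1]; linarith)
    simpa [hP] using this
  have hΛ₁ : Λ i (P s₁) φ := by
    obtain ⟨m1, m2⟩ := hmirP s₁ hs₁0 hs₁1
    apply hI.cls i _ φ m1 m2
    intro ε hε
    have hcP : ContinuousAt P s₁ := by rw [hP]; fun_prop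
    rw [Metric.continuousAt_iff] at hcP
    obtain ⟨η, hη, hη'⟩ := hcP ε hε
    obtain ⟨s, hsG, hs⟩ := exists_lt_of_lt_csSup ⟨0, hG0⟩ (show s₁ - η < sSup G by linarith)
    have hs' : s ≤ s₁ := le_csSup hGbd hsG
    refine ⟨P s, hsG.2.2, ?_⟩
    have := hη' (x := s) (by rw [Real.dist_eq, abs_lt]; constructor <;> linarith)
    rwa [dist_eq_norm] at this
  have hlt : s₁ < |s₀| := by
    rcases eq_or_lt_of_le hs₁1 with h1 | h1
    · exfalso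
      apply hns₀
      rw [h1, hP] at hΛ₁
      simp only [hcs] at hΛ₁
      exact hΛ₁
    · exact h1
  refine no_gap hg hI hD h0 hQ hbad hΛ₁ hc0 (show 0 < |s₀| - s₁ by linarith) ?_
  intro s h1 h2
  have e : P s₁ + ((s * c : ℝ) : ℂ) * (b i - a i) = P (s₁ + s) := by
    rw [hP]; push_cast; ring
  rw [e]
  obtain ⟨m1, m2⟩ := hmirP (s₁ + s) (by linarith) (by linarith)
  refine ⟨m1, m2, fun hΛ => ?_⟩
  have := le_csSup hGbd (show s₁ + s ∈ G from ⟨by linarith, by linarith, hΛ⟩)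
  linarith

end Pool.Agent.H628_Mirror
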