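import Pool.Agent.H628_Mirror.Core
import Pool.Agent.H628_Mirror.Defs

/-!
# Light rays among segment mirrors: the passage to indexed families
-/

set_option autoImplicit false

open Complex ComplexConjugate Set Filter Topology

namespace Pool.Agent.H628_Mirror

lemma segment_ends {a b a' b' : ℂ} (hab : a ≠ b) (h : segment ℝ a b = segment ℝ a' b') :
    (a = a' ∧ b = b') ∨ (a = b' ∧ b = a') := by
  have h1 : a ∈ segment ℝ a' b' := h ▸ left_mem_segment ℝ a b
  have h2 : b ∈ segment ℝ a' b' := h ▸ right_mem_segment ℝ a b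
  have h3 : a' ∈ segment ℝ a b := h ▸ left_mem_segment ℝ a' b'
  have h4 : b' ∈ segment ℝ a b := h ▸ right_mem_segment ℝ a' b'
  obtain ⟨s, s0, s1, hs⟩ := mem_segment_iff'.1 h1
  obtain ⟨t, t0, t1, ht⟩ := mem_segment_iff'.1 h2
  obtain ⟨u, u0, u1, hu⟩ := mem_segment_iff'.1 h3
  obtain ⟨v, v0, v1, hv⟩ := mem_segment_iff'.1 h4
  have hne : b' - a' ≠ 0 := by
    intro h0
    rw [h0, mul_zero, add_zero] at hs ht
    exact hab (hs.trans ht.symm)
  have e1 : ((s + u * (t - s) : ℝ) : ℂ) * (b' - a') = 0 := by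
    push_cast
    have : a' = a' + s * (b' - a') + u * ((t - s) * (b' - a')) := by
      calc a' = a + u * (b - a) := hu
        _ = _ := by rw [hs, ht]; ring
    linear_combination -this
  have e2 : ((s + v * (t - s) - 1 : ℝ) : ℂ) * (b' - a') = 0 := by
    push_cast
    have : b' = a' + s * (b' - a') + v * ((t - s) * (b' - a')) := by
      calc b' = a + v * (b - a) := hv
        _ = _ := by rw [hs, ht]; ring
    linear_combination -this
  have f1 : s + u * (t - s) = 0 := by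
    rcases mul_eq_zero.1 e1 with h | h
    · exact_mod_cast h
    · exact absurd h hne
  have f2 : s + v * (t - s) - 1 = 0 := by
    rcases mul_eq_zero.1 e2 with h | h
    · exact_mod_cast h
    · exact absurd h hne
  rcases le_total s t with hst | hst
  · have g1 : s = 0 := by nlinarith
    have g2 : t = 1 := by nlinarith
    left
    rw [hs, ht, g1, g2]
    constructor
    · push_cast; ring
    · push_cast; ring
  · have g1 : t = 0 := by nlinarith
    have g2 : s = 1 := by nlinarith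
    right
    rw [hs, ht, g1, g2]
    constructor
    · push_cast; ring
    · push_cast; ring

variable {S : Set (Set ℂ)}

lemma MirrorFamily.exists_index (hS : MirrorFamily S) :
    ∃ a b : S → ℂ, (∀ i : S, (i : Set ℂ) = mir a b i) ∧ Good a b := by
  have h : ∀ i : S, ∃ q : ℂ × ℂ, q.1 ≠ q.2 ∧ (i : Set ℂ) = segment ℝ q.1 q.2 := by
    intro i
    obtain ⟨a, b, h1, h2⟩ := hS.seg i i.2
    exact ⟨(a, b), h1, h2⟩
  choose q hq1 hq2 using h
  have hmir : ∀ i : S, (i : Set ℂ) = mir (fun i => (q i).1) (fun i => (q i).2) i := hq2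
  refine ⟨fun i => (q i).1, fun i => (q i).2, hmir, hq1, ?_, ?_⟩
  · intro R
    have h1 := (hS.locfin (R + 1)).preimage (f := ((↑) : S → Set ℂ)) Subtype.val_injective.injOn
    refine h1.subset ?_
    rintro i ⟨z, hz1, hz2⟩
    refine ⟨i.2, z, ?_, ?_⟩
    · rw [hmir i]; exact hz1
    · rw [mem_closedBall_zero_iff] at hz2
      rw [mem_ball_zero_iff]; linarith
  · intro i j hij
    rw [← hmir i, ← hmir j]
    exact hS.meet i i.2 j j.2 fun h => hij (Subtype.ext h)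

section
variable {a b : S → ℂ} (hm : ∀ i : S, (i : Set ℂ) = mir a b i)
include hm

lemma MM_eq : MM a b = ⋃₀ S := by
  ext z
  rw [mem_MM, mem_sUnion]
  constructor
  · rintro ⟨i, hi⟩; exact ⟨i, i.2, by rw [hm i]; exact hi⟩
  · rintro ⟨m, h1, h2⟩; exact ⟨⟨m, h1⟩, by rw [← hm ⟨m, h1⟩]; exact h2⟩

lemma singular_iff (hg : Good a b) (u : ℂ) : Singular S u ↔ u ∈ Vx a b := by
  constructor
  · rintro (⟨a', b', h1, h2⟩ | ⟨m₁, h1, m₂, h2, h3, h4, h5⟩)
    · left
      refine ⟨⟨_, h1⟩, ?_⟩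
      have h3 : segment ℝ (a ⟨_, h1⟩) (b ⟨_, h1⟩) = segment ℝ a' b' := (hm ⟨_, h1⟩).symm
      rcases segment_ends (hg.ne ⟨_, h1⟩) h3 with ⟨e1, e2⟩ | ⟨e1, e2⟩
      · rw [e1, e2]; exact h2
      · rw [e1, e2]; exact h2.symm
    · right
      exact ⟨⟨m₁, h1⟩, ⟨m₂, h2⟩, fun h => h3 (congrArg Subtype.val h),
        by rw [← hm ⟨m₁, h1⟩]; exact h4, by rw [← hm ⟨m₂, h2⟩]; exact h5⟩
  · rintro (⟨i, h⟩ | ⟨i, j, hij, h1, h2⟩)
    · left
      refine ⟨a i, b i, ?_, h⟩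
      have := hm i
      rw [mir] at this
      rw [← this]; exact i.2
    · right
      exact ⟨i, i.2, j, j.2, fun h => hij (Subtype.ext h), by rw [hm i]; exact h1,
        by rw [hm j]; exact h2⟩

lemma rf_eq_of_segment (hg : Good a b) {a' b' : ℂ} (h1 : segment ℝ a' b' ∈ S) (v : ℂ) :
    (b' - a') / conj (b' - a') * conj v = rf (b ⟨_, h1⟩ - a ⟨_, h1⟩) v := by
  have h3 : segment ℝ (a ⟨_, h1⟩) (b ⟨_, h1⟩) = segment ℝ a' b' := (hm ⟨_, h1⟩).symm
  rcases segment_ends (hg.ne ⟨_, h1⟩) h3 with ⟨e1, e2⟩ | ⟨e1, e2⟩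
  · rw [e1, e2]; rfl
  · rw [e1, e2, rf]
    have : conj (b' - a') = - conj (a' - b') := by rw [← map_neg]; congr 1; ring
    rw [this, show b' - a' = -(a' - b') by ring, neg_div_neg_eq]

/-- a step in terms of the indexed family -/
lemma step_index (hg : Good a b) {x d y d' : ℂ} (h : Step S x d y d') :
    Fl a b x d y ∧ ∃ j : S, y ∈ mir a b j ∧ d' = rf (b j - a j) d := by
  obtain ⟨⟨t, ht, hy, hym, hf⟩, a', b', h1, h2, h3⟩ := h
  refine ⟨⟨t, ht, hy, by rw [MM_eq hm]; exact hym, by rw [MM_eq hm]; exact hf⟩, ⟨_, h1⟩, ?_, ?_⟩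
  · rw [← hm ⟨_, h1⟩]; exact h2
  · rw [h3, rf_eq_of_segment hm hg h1]

lemma step_of_index {x d y : ℂ} {j : S} (h : Fl a b x d y)
    (hj : y ∈ mir a b j) : Step S x d y (rf (b j - a j) d) := by
  obtain ⟨t, ht, hy, hym, hf⟩ := h
  rw [MM_eq hm] at hym hf
  refine ⟨⟨t, ht, hy, hym, hf⟩, a j, b j, ?_, hj, rfl⟩
  have := hm j
  rw [mir] at this
  rw [← this]; exact j.2

end

/-! ### Finite trajectories -/

section
variable {ι : Type*} {a b : ι → ℂ}

lemma fin_path (hg : Good a b) {x d : ℕ → ℂ} {m : ℕ → ι} (h0 : x 0 ∉ MM a b) (hd : d 0 ≠ 0) (n : ℕ)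
    (h : ∀ k < n, Fl a b (x k) (d k) (x (k + 1)) ∧ x (k + 1) ∉ Vx a b ∧
      x (k + 1) ∈ mir a b (m (k + 1)) ∧ d (k + 1) = rf (b (m (k + 1)) - a (m (k + 1))) (d k)) :
    ∃ (w : List ι) (A : Set ι), Path a b ∅ (x 0) (d 0) w A (x n) (d n) ∧ St a b A (x n) (d n) := by
  induction n with
  | zero => exact ⟨[], ∅, Path.nil _ _ _, st_off h0 hd⟩
  | succ n ih =>
    obtain ⟨w, A, hp, hs⟩ := ih fun k hk => h k (by omega)
    obtain ⟨h1, h2, h3, h4⟩ := h n (by omega)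
    obtain ⟨h5, h6⟩ := hit_of_fl hs (hg.ne _) h1 h2 h3
    have h7 := hit_st hs h5
    rw [← h6, ← h4] at h7
    refine ⟨w ++ [m (n + 1)], {m (n + 1)}, path_append hp (Path.cons h5 ?_), h7⟩
    rw [← h6, ← h4]
    exact Path.nil _ _ _

/-- a trajectory which reaches a vertex has its initial direction in the bad set -/
lemma bad_of_vertex (hg : Good a b) {x d : ℕ → ℂ} {m : ℕ → ι} (h0 : x 0 ∉ MM a b)
    (hd : ‖d 0‖ = 1) {Q : Set ℂ} (hQ : Vx a b ⊆ Q) (hpQ : x 0 ∈ Q) (n : ℕ)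
    (h : ∀ k < n, Fl a b (x k) (d k) (x (k + 1)) ∧
      (x (k + 1) ∉ Vx a b → x (k + 1) ∈ mir a b (m (k + 1)) ∧
        d (k + 1) = rf (b (m (k + 1)) - a (m (k + 1))) (d k))) (hv : x n ∈ Vx a b) :
    d 0 ∈ BadQ a b Q := by
  classical
  have hex : ∃ n, x n ∈ Vx a b := ⟨n, hv⟩
  have hspec := Nat.find_spec hex
  have hmin : ∀ k < Nat.find hex, x k ∉ Vx a b := fun k hk => Nat.find_min hex hk
  have hle : Nat.find hex ≤ n := Nat.find_min' hex hv
  set N := Nat.find hex with hN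
  have hN0 : N ≠ 0 := by
    intro h1
    rw [h1] at hspec
    apply h0
    rcases hspec with ⟨i, hi | hi⟩ | ⟨i, j, -, h2, -⟩
    · exact mem_MM.2 ⟨i, hi ▸ left_mem_segment ℝ _ _⟩
    · exact mem_MM.2 ⟨i, hi ▸ right_mem_segment ℝ _ _⟩
    · exact mem_MM.2 ⟨i, h2⟩
  obtain ⟨l, hl⟩ : ∃ l, N = l + 1 := ⟨N - 1, by omega⟩
  have hd0 : d 0 ≠ 0 := by intro h1; rw [h1] at hd; simp at hd
  obtain ⟨w, A, hp, hs⟩ := fin_path (m := m) hg h0 hd0 l (fun k hk => by
    obtain ⟨h1, h2⟩ := h k (by omega)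
    have h3 := hmin (k + 1) (by omega)
    exact ⟨h1, h3, h2 h3⟩)
  obtain ⟨T, hT, h1⟩ := path_fl_unfold hp (h l (by omega)).1
  rw [hl] at hspec
  refine ⟨w, [], x (l + 1), hQ hspec, x 0, hpQ, ?_⟩
  rw [Uw_nil, h1, add_sub_cancel_left, nrm_mul hd hT]

end

/-! ### Angles -/

lemma countable_angle {B : Set ℂ} (hB : B.Countable) :
    {α : ℝ | Complex.exp ((α : ℂ) * Complex.I) ∈ B}.Countable := by
  have : {α : ℝ | Complex.exp ((α : ℂ) * Complex.I) ∈ B}
      = ⋃ c ∈ B, {α : ℝ | Complex.exp ((α : ℂ) * Complex.I) = c} := by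
    ext α; simp
  rw [this]
  refine hB.biUnion fun c _ => ?_
  by_cases hc : ∃ α₀ : ℝ, Complex.exp ((α₀ : ℂ) * Complex.I) = c
  · obtain ⟨α₀, hα₀⟩ := hc
    refine (countable_range (fun n : ℤ => α₀ + n * (2 * Real.pi))).mono ?_
    intro α hα
    have hα' : Complex.exp ((α : ℂ) * Complex.I) = c := hα
    rw [← hα₀, Complex.exp_eq_exp_iff_exists_int] at hα'
    obtain ⟨n, hn⟩ := hα'
    refine ⟨n, ?_⟩
    have h1 : ((α : ℂ) - α₀ - n * (2 * Real.pi)) * Complex.I = 0 := by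
      linear_combination hn
    rcases mul_eq_zero.1 h1 with h2 | h2
    · have h3 : α - α₀ - n * (2 * Real.pi) = 0 := by exact_mod_cast h2
      show α₀ + n * (2 * Real.pi) = α
      linarith
    · exact absurd h2 Complex.I_ne_zero
  · convert Set.countable_empty
    ext α
    simp only [mem_ofPred_eq, mem_empty_iff_false, iff_false]
    exact fun h => hc ⟨α, h⟩

lemma norm_exp_angle (α : ℝ) : ‖Complex.exp ((α : ℂ) * Complex.I)‖ = 1 :=
  Complex.norm_exp_ofReal_mul_I α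

end Pool.Agent.H628_Mirror
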