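import Pool.Agent.H628_Mirror.Config

/-!
# Stability of hits under perturbation of the mirrors, of the starting point and of the direction
-/

set_option autoImplicit false

open Complex ComplexConjugate Set Filter Topology

namespace Pool.Agent.H628_Mirror

variable {ι : Type*} {X : Type*} [TopologicalSpace X]

/-- near the parameter `x₀`, only finitely many mirrors meet a given disc -/
def ULF (a b : X → ι → ℂ) (x₀ : X) : Prop :=
  ∀ R : ℝ, ∃ J : Set ι, J.Finite ∧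
    ∀ᶠ x in 𝓝 x₀, ∀ k, k ∉ J → Disjoint (mir (a x) (b x) k) (Metric.closedBall 0 R)

lemma Good.ulf {a b : ι → ℂ} (h : Good a b) (x₀ : X) : ULF (fun _ => a) (fun _ => b) x₀ := by
  intro R
  refine ⟨_, h.lf R, Eventually.of_forall fun x k hk => ?_⟩
  rw [Set.disjoint_iff_inter_eq_empty]
  by_contra hne
  exact hk (Set.nonempty_iff_ne_empty.2 hne)

lemma segment_subset_closedBall {z w : ℂ} {R : ℝ} (hz : ‖z‖ ≤ R) (hw : ‖w‖ ≤ R) :
    segment ℝ z w ⊆ Metric.closedBall 0 R :=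
  (convex_closedBall (0 : ℂ) R).segment_subset (by simpa using hz) (by simpa using hw)

/-- clearance is an open condition -/
lemma clear_eventually {a b : X → ι → ℂ} {x₀ : X} (hU : ULF a b x₀)
    (ha : ∀ k, ContinuousAt (fun x => a x k) x₀) (hb : ∀ k, ContinuousAt (fun x => b x k) x₀)
    {z w : X → ℂ} (hz : ContinuousAt z x₀) (hw : ContinuousAt w x₀) {B : Set ι}
    (h : ∀ k, k ∉ B → Disjoint (segment ℝ (z x₀) (w x₀)) (mir (a x₀) (b x₀) k)) :
    ∀ᶠ x in 𝓝 x₀, ∀ k, k ∉ B → Disjoint (segment ℝ (z x) (w x)) (mir (a x) (b x) k) := by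
  obtain ⟨J, hJ, hJ'⟩ := hU (‖z x₀‖ + ‖w x₀‖ + 1)
  have h1 : ∀ᶠ x in 𝓝 x₀, ‖z x‖ < ‖z x₀‖ + ‖w x₀‖ + 1 :=
    hz.norm.eventually_lt_const (by linarith [norm_nonneg (w x₀)])
  have h2 : ∀ᶠ x in 𝓝 x₀, ‖w x‖ < ‖z x₀‖ + ‖w x₀‖ + 1 :=
    hw.norm.eventually_lt_const (by linarith [norm_nonneg (z x₀)])
  have h3 : ∀ᶠ x in 𝓝 x₀, ∀ k ∈ J, k ∉ B → Disjoint (segment ℝ (z x) (w x)) (mir (a x) (b x) k) := by
    rw [eventually_all_finite hJ]
    intro k _
    by_cases hk : k ∈ B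
    · exact Eventually.of_forall fun x hx => absurd hk hx
    · have := eventually_disjoint hz hw (ha k) (hb k) (h k hk)
      filter_upwards [this] with x hx _ using hx
  filter_upwards [hJ', h1, h2, h3] with x a1 a2 a3 a4 k hk
  by_cases hkJ : k ∈ J
  · exact a4 k hkJ hk
  · exact ((a1 k hkJ).mono_right (segment_subset_closedBall a2.le a3.le)).symm

lemma continuousAt_tt {a b : X → ι → ℂ} {x₀ : X} {j : ι}
    (ha : ContinuousAt (fun x => a x j) x₀) (hb : ContinuousAt (fun x => b x j) x₀)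
    {z φ : X → ℂ} (hz : ContinuousAt z x₀) (hφ : ContinuousAt φ x₀)
    (h : cr (φ x₀) (b x₀ j - a x₀ j) ≠ 0) :
    ContinuousAt (fun x => tt (a x) (b x) j (z x) (φ x)) x₀ := by
  unfold tt
  exact (cAt_cr (ha.sub hz) (hb.sub ha)).div (cAt_cr hφ (hb.sub ha)) h

lemma continuousAt_ss {a b : X → ι → ℂ} {x₀ : X} {j : ι}
    (ha : ContinuousAt (fun x => a x j) x₀) (hb : ContinuousAt (fun x => b x j) x₀)
    {z φ : X → ℂ} (hz : ContinuousAt z x₀) (hφ : ContinuousAt φ x₀)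
    (h : cr (φ x₀) (b x₀ j - a x₀ j) ≠ 0) :
    ContinuousAt (fun x => ss (a x) (b x) j (z x) (φ x)) x₀ := by
  unfold ss
  exact (cAt_cr hφ (hz.sub ha)).div (cAt_cr hφ (hb.sub ha)) h

lemma continuousAt_pt {a b : X → ι → ℂ} {x₀ : X} {j : ι}
    (ha : ContinuousAt (fun x => a x j) x₀) (hb : ContinuousAt (fun x => b x j) x₀)
    {z φ : X → ℂ} (hz : ContinuousAt z x₀) (hφ : ContinuousAt φ x₀)
    (h : cr (φ x₀) (b x₀ j - a x₀ j) ≠ 0) :
    ContinuousAt (fun x => z x + tt (a x) (b x) j (z x) (φ x) * φ x) x₀ := by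
  have h1 := continuousAt_tt ha hb hz hφ h
  have h2 : ContinuousAt (fun x => ((tt (a x) (b x) j (z x) (φ x) : ℝ) : ℂ)) x₀ :=
    Complex.continuous_ofReal.continuousAt.comp h1
  exact hz.add (h2.mul hφ)

/-- Hits are stable. -/
lemma hit_eventually {a b : X → ι → ℂ} {x₀ : X} (hU : ULF a b x₀)
    (ha : ∀ k, ContinuousAt (fun x => a x k) x₀) (hb : ∀ k, ContinuousAt (fun x => b x k) x₀)
    {z φ : X → ℂ} (hz : ContinuousAt z x₀) (hφ : ContinuousAt φ x₀) {A : Set ι} {j : ι}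
    (h : Hit (a x₀) (b x₀) A (z x₀) (φ x₀) j) :
    ∀ᶠ x in 𝓝 x₀, Hit (a x) (b x) A (z x) (φ x) j := by
  have h1 : ∀ᶠ x in 𝓝 x₀, cr (φ x) (b x j - a x j) ≠ 0 :=
    (cAt_cr hφ ((hb j).sub (ha j))).eventually_ne h.tr
  have ht := continuousAt_tt (ha j) (hb j) hz hφ h.tr
  have hs := continuousAt_ss (ha j) (hb j) hz hφ h.tr
  have hp := continuousAt_pt (ha j) (hb j) hz hφ h.tr
  have h2 := ht.eventually_const_lt h.t0
  have h3 := hs.eventually_const_lt h.s0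
  have h4 := hs.eventually_lt_const h.s1
  have h5 := clear_eventually hU ha hb hz hp (B := A ∪ {j}) (by
    intro k hk
    simp only [union_singleton, mem_insert_iff, not_or] at hk
    exact h.cl k hk.2 hk.1)
  filter_upwards [h1, h2, h3, h4, h5] with x a1 a2 a3 a4 a5
  refine ⟨a1, a2, a3, a4, fun k hkA hkj => a5 k ?_⟩
  simp only [union_singleton, mem_insert_iff, not_or]
  exact ⟨hkj, hkA⟩

/-- Finite paths: `Path a b A z φ w A' z' φ'` says that the ray leaving `z` in direction `φ` is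
reflected successively by the mirrors of the word `w`, never at a vertex, and leaves the last point
`z'` in direction `φ'`. -/
inductive Path (a b : ι → ℂ) : Set ι → ℂ → ℂ → List ι → Set ι → ℂ → ℂ → Prop
  | nil (A : Set ι) (z φ : ℂ) : Path a b A z φ [] A z φ
  | cons {A : Set ι} {z φ : ℂ} {j : ι} {w : List ι} {A' : Set ι} {z' φ' : ℂ}
      (h : Hit a b A z φ j)
      (hp : Path a b {j} (z + tt a b j z φ * φ) (rf (b j - a j) φ) w A' z' φ') :
      Path a b A z φ (j :: w) A' z' φ'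

/-- Paths are stable. -/
lemma path_eventually {a b : X → ι → ℂ} {x₀ : X} (hU : ULF a b x₀)
    (ha : ∀ k, ContinuousAt (fun x => a x k) x₀) (hb : ∀ k, ContinuousAt (fun x => b x k) x₀)
    (w : List ι) : ∀ {z φ : X → ℂ} (_ : ContinuousAt z x₀) (_ : ContinuousAt φ x₀) {A A' : Set ι}
    {z' φ' : ℂ} (_ : Path (a x₀) (b x₀) A (z x₀) (φ x₀) w A' z' φ'),
    ∃ Z Φ : X → ℂ, ContinuousAt Z x₀ ∧ ContinuousAt Φ x₀ ∧ Z x₀ = z' ∧ Φ x₀ = φ' ∧
      ∀ᶠ x in 𝓝 x₀, Path (a x) (b x) A (z x) (φ x) w A' (Z x) (Φ x) := by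
  induction w with
  | nil =>
    intro z φ hz hφ A A' z' φ' h
    cases h
    exact ⟨z, φ, hz, hφ, rfl, rfl, Eventually.of_forall fun x => Path.nil _ _ _⟩
  | cons j w ih =>
    intro z φ hz hφ A A' z' φ' h
    cases h with
    | cons h hp =>
      have e0 : b x₀ j - a x₀ j ≠ 0 := cr_ne_zero_right h.tr
      have c1 := continuousAt_pt (ha j) (hb j) hz hφ h.tr
      have c2 : ContinuousAt (fun x => rf (b x j - a x j) (φ x)) x₀ :=
        cAt_rf ((hb j).sub (ha j)) hφ e0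
      obtain ⟨Z, Φ, hZ, hΦ, hZ0, hΦ0, hev⟩ := ih c1 c2 hp
      refine ⟨Z, Φ, hZ, hΦ, hZ0, hΦ0, ?_⟩
      filter_upwards [hev, hit_eventually hU ha hb hz hφ h] with x a1 a2
      exact Path.cons a2 a1

/-- the ray leaving `z` in direction `φ` gets out of the disc of radius `R` before the next hit -/
def Exit (a b : ι → ℂ) (A : Set ι) (z φ : ℂ) (R : ℝ) : Prop :=
  ∃ t : ℝ, 0 < t ∧ R < ‖z + t * φ‖ ∧
    ∀ k, k ∉ A → Disjoint (segment ℝ z (z + t * φ)) (mir a b k)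

/-- The ray leaving `p` in direction `φ` leaves the disc of radius `R` after finitely many
reflections, none at a vertex. -/
def Leaves (a b : ι → ℂ) (A : Set ι) (p φ : ℂ) (R : ℝ) : Prop :=
  ∃ (w : List ι) (A' : Set ι) (z' φ' : ℂ), Path a b A p φ w A' z' φ' ∧ Exit a b A' z' φ' R

lemma leaves_eventually {a b : X → ι → ℂ} {x₀ : X} (hU : ULF a b x₀)
    (ha : ∀ k, ContinuousAt (fun x => a x k) x₀) (hb : ∀ k, ContinuousAt (fun x => b x k) x₀)
    {z φ : X → ℂ} (hz : ContinuousAt z x₀) (hφ : ContinuousAt φ x₀) {A : Set ι} {R : ℝ}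
    (h : Leaves (a x₀) (b x₀) A (z x₀) (φ x₀) R) :
    ∀ᶠ x in 𝓝 x₀, Leaves (a x) (b x) A (z x) (φ x) R := by
  obtain ⟨w, A', z', φ', hp, t, ht, hR, hcl⟩ := h
  obtain ⟨Z, Φ, hZ, hΦ, hZ0, hΦ0, hev⟩ := path_eventually hU ha hb w hz hφ hp
  subst hZ0 hΦ0
  have c1 : ContinuousAt (fun x => Z x + (t : ℂ) * Φ x) x₀ := hZ.add (continuousAt_const.mul hΦ)
  have h1 := c1.norm.eventually_const_lt hR
  have h2 := clear_eventually hU ha hb hZ c1 hcl
  filter_upwards [hev, h1, h2] with x a1 a2 a3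
  exact ⟨w, A', Z x, Φ x, a1, t, ht, a2, a3⟩

end Pool.Agent.H628_Mirror
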