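import Pool.Agent.H628_Mirror.Encl

/-!
# Stability of the good configurations of finitely many mirrors
-/

set_option autoImplicit false

open Complex ComplexConjugate Set Filter Topology MeasureTheory

namespace Pool.Agent.H628_Mirror

section
variable {ι : Type*} [Finite ι] {a b : ι → ℂ}

omit [Finite ι] in
lemma good_of_lf (hne : ∀ i, a i ≠ b i) (hgp : GP a b) (hlf : ∀ R : ℝ,
    {i | (mir a b i ∩ Metric.closedBall 0 R).Nonempty}.Finite) : Good a b := by
  refine ⟨hne, hlf, fun i j hij z hz w hw => ?_⟩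
  obtain ⟨h0, -, -⟩ := hgp.cross hne hij hz.1 hz.2
  have e1 := cr_of_mem_segment hz.1
  have e2 := cr_of_mem_segment hw.1
  have e3 := cr_of_mem_segment hz.2
  have e4 := cr_of_mem_segment hw.2
  have f1 : cr (z - w) (b i - a i) = 0 := by
    rw [show z - w = (z - a i) - (w - a i) by ring, cr_sub_left, e1, e2, sub_zero]
  have f2 : cr (b j - a j) (z - w) = 0 := by
    rw [cr_comm, show z - w = (z - a j) - (w - a j) by ring, cr_sub_left, e3, e4]
    ring
  have f3 : cr (b j - a j) (b i - a i) ≠ 0 := by
    rw [cr_comm]; exact neg_ne_zero.2 h0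
  exact sub_eq_zero.1 (eq_zero_of_cr f3 f2 f1)

lemma finite_closed_MM (a b : ι → ℂ) : IsClosed (MM a b) :=
  isClosed_iUnion_of_finite fun i => isClosed_mir i

end

section
variable {X : Type*} [TopologicalSpace X] {ι : Type*} [Finite ι] {A B : X → ι → ℂ}

lemma ulf_finite (a b : X → ι → ℂ) (x₀ : X) : ULF a b x₀ := fun _ =>
  ⟨univ, finite_univ, Eventually.of_forall fun _ k hk => absurd (mem_univ k) hk⟩

/-- Rays leave the disc for all parameters near `x₀`, up to a set of angles of small measure. -/
lemma measure_nbhd' (hA : ∀ i, Continuous fun x => A x i) (hB : ∀ i, Continuous fun x => B x i)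
    {x₀ : X} {K : Set ℂ} (hK : IsCompact K) {R N : ℝ} {η : ENNReal} (hη : η ≠ 0)
    (h : ∀ p ∈ K, {α : ℝ | ¬ Leaves (A x₀) (B x₀) ∅ p
      (Complex.exp ((α : ℂ) * Complex.I)) R}.Countable) :
    ∀ᶠ x in 𝓝 x₀, ∀ p ∈ K, volume (Icc (-N) N ∩
      {α : ℝ | ¬ Leaves (A x) (B x) ∅ p (Complex.exp ((α : ℂ) * Complex.I)) R}) ≤ η := by
  have hexp : Continuous fun α : ℝ => Complex.exp ((α : ℂ) * Complex.I) := by fun_prop
  apply hK.eventually_forall_of_forall_eventually
  intro p hp
  set G : Set ℝ := {α : ℝ | Leaves (A x₀) (B x₀) ∅ p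
      (Complex.exp ((α : ℂ) * Complex.I)) R} with hG
  have hGo : IsOpen G := by
    rw [isOpen_iff_mem_nhds]
    intro α hα
    exact leaves_eventually (a := fun _ : ℝ => A x₀) (b := fun _ => B x₀)
      (ulf_finite _ _ _) (fun k => continuousAt_const) (fun k => continuousAt_const)
      (z := fun _ => p) (φ := fun α => Complex.exp ((α : ℂ) * Complex.I)) continuousAt_const
      hexp.continuousAt hα
  have hGc : volume (Icc (-N) N ∩ Gᶜ) = 0 :=
    measure_mono_null inter_subset_right (show volume Gᶜ = 0 from (h p hp).measure_zero volume)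
  have hM : MeasurableSet (Icc (-N) N ∩ G) := measurableSet_Icc.inter hGo.measurableSet
  have hfin : volume (Icc (-N) N ∩ G) ≠ ⊤ :=
    measure_ne_top_of_subset inter_subset_left (by rw [Real.volume_Icc]; exact ENNReal.ofReal_ne_top)
  obtain ⟨C, hCA, hC, hCη⟩ := hM.exists_isCompact_sdiff_lt hfin hη
  have hev : ∀ᶠ z : X × ℂ in 𝓝 (x₀, p), ∀ α ∈ C, Leaves (A z.1) (B z.1) ∅ z.2
      (Complex.exp ((α : ℂ) * Complex.I)) R := by
    apply hC.eventually_forall_of_forall_eventually
    intro α hα
    have hα' : α ∈ G := (hCA hα).2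
    exact leaves_eventually (a := fun z : (X × ℂ) × ℝ => A z.1.1)
      (b := fun z => B z.1.1) (x₀ := ((x₀, p), α)) (ulf_finite _ _ _)
      (fun k => ((hA k).comp (continuous_fst.comp continuous_fst)).continuousAt)
      (fun k => ((hB k).comp (continuous_fst.comp continuous_fst)).continuousAt)
      (z := fun z => z.1.2) (φ := fun z => Complex.exp ((z.2 : ℂ) * Complex.I))
      (continuous_snd.comp continuous_fst).continuousAt (hexp.comp continuous_snd).continuousAt hα'
  filter_upwards [hev] with z hz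
  calc volume (Icc (-N) N ∩ {α : ℝ | ¬ Leaves (A z.1) (B z.1) ∅ z.2
        (Complex.exp ((α : ℂ) * Complex.I)) R})
      ≤ volume ((Icc (-N) N ∩ Gᶜ) ∪ ((Icc (-N) N ∩ G) \ C)) := by
        apply measure_mono
        rintro α ⟨h1, h2⟩
        by_cases hαG : α ∈ G
        · exact Or.inr ⟨⟨h1, hαG⟩, fun hαC => h2 (hz α hαC)⟩
        · exact Or.inl ⟨h1, hαG⟩
    _ ≤ volume (Icc (-N) N ∩ Gᶜ) + volume ((Icc (-N) N ∩ G) \ C) := measure_union_le _ _
    _ ≤ η := by rw [hGc, zero_add]; exact hCη.le

/-- the configuration passes the test: if the ball is clear and its component unbounded, then most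
rays from the smaller ball leave the disc -/
def Pass (a b : ι → ℂ) (q : ℂ) (r r' R N : ℝ) (η : ENNReal) : Prop :=
  Disjoint (Metric.closedBall q r') (MM a b) →
    ¬ Bornology.IsBounded (connectedComponentIn (MM a b)ᶜ q) →
    ∀ p ∈ Metric.closedBall q r, volume (Icc (-N) N ∩ {α : ℝ | ¬ Leaves a b ∅ p
      (Complex.exp ((α : ℂ) * Complex.I)) R}) ≤ η

/-- **Commensurable mirrors in general position pass the tests, and so do all nearby
configurations.** -/
theorem pass_eventually (hA : ∀ i, Continuous fun x => A x i) (hB : ∀ i, Continuous fun x => B x i)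
    {x₀ : X} (hne : ∀ i, A x₀ i ≠ B x₀ i) (hgp : GP (A x₀) (B x₀))
    (hcm : ∀ i j, ∃ (q : ℚ) (r : ℝ), B x₀ j - A x₀ j
      = r * Complex.exp ((q : ℂ) * Real.pi * Complex.I) * (B x₀ i - A x₀ i))
    (q : ℂ) {r r' : ℝ} (hr : 0 ≤ r) (hrr : r < r') (R N : ℝ) {η : ENNReal} (hη : η ≠ 0) :
    ∀ᶠ x in 𝓝 x₀, Pass (A x) (B x) q r r' R N η := by
  have hqr : ∀ {s : ℝ}, 0 ≤ s → q ∈ Metric.closedBall q s := fun hs => Metric.mem_closedBall_self hs
  by_cases h1 : Disjoint (Metric.closedBall q r) (MM (A x₀) (B x₀))
  · have hqM : q ∉ MM (A x₀) (B x₀) := Set.disjoint_left.1 h1 (hqr hr)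
    by_cases h2 : Bornology.IsBounded (connectedComponentIn (MM (A x₀) (B x₀))ᶜ q)
    · filter_upwards [bounded_eventually (fun i => (hA i).continuousAt)
        (fun i => (hB i).continuousAt) hne hgp hqM h2] with x hx h3 h4
      exact absurd (hx (Set.disjoint_left.1 h3 (hqr (hr.trans hrr.le)))) h4
    · have hg : Good (A x₀) (B x₀) := good_of_lf hne hgp fun _ => Set.toFinite _
      have key := measure_nbhd' hA hB (x₀ := x₀) (isCompact_closedBall q r) (R := R) (N := N) hη ?_
      · filter_upwards [key] with x hx _ _ using hx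
      intro p hp
      have hpM : p ∉ MM (A x₀) (B x₀) := Set.disjoint_left.1 h1 hp
      have hpq : connectedComponentIn (MM (A x₀) (B x₀))ᶜ q
          = connectedComponentIn (MM (A x₀) (B x₀))ᶜ p := by
        apply connectedComponentIn_eq
        have h5 : Metric.closedBall q r ⊆ connectedComponentIn (MM (A x₀) (B x₀))ᶜ q :=
          (convex_closedBall q r).isPreconnected.subset_connectedComponentIn (hqr hr)
            (fun z hz => Set.disjoint_left.1 h1 hz)
        exact h5 hp
      have h4 : ¬ connectedComponentIn (MM (A x₀) (B x₀))ᶜ p ⊆ Metric.closedBall 0 R := by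
        intro h
        apply h2
        rw [hpq]
        exact Metric.isBounded_closedBall.subset h
      refine ((countable_angle ((countable_badInit (a := A x₀) (b := B x₀)
        (Q := Vx (A x₀) (B x₀) ∪ {0, p}) ?_).union
        (countable_badQ (a := A x₀) (b := B x₀) (Q := Vx (A x₀) (B x₀) ∪ {0, p}) ?_)))).mono ?_
      · exact hg.countable_vx.union (by simp)
      · exact hg.countable_vx.union (by simp)
      · intro α hα
        by_contra hno
        apply hα
        have hno' : Complex.exp ((α : ℂ) * Complex.I) ∉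
            BadInit (A x₀) (B x₀) (Vx (A x₀) (B x₀) ∪ {0, p}) ∪
              BadQ (A x₀) (B x₀) (Vx (A x₀) (B x₀) ∪ {0, p}) := hno
        rw [mem_union, not_or] at hno'
        exact leaves_of_commensurable hg hpM h4 hcm (norm_exp_angle α) hno'.1 hno'.2
  · rw [Set.not_disjoint_iff] at h1
    obtain ⟨y, hy, hyM⟩ := h1
    obtain ⟨i, hi⟩ := mem_MM.1 hyM
    obtain ⟨s, hs0, hs1, hs⟩ := mem_segment_iff'.1 hi
    have hc : Continuous fun x => dist (A x i + (s : ℂ) * (B x i - A x i)) q := by
      have := hA i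
      have := hB i
      fun_prop
    have hev : ∀ᶠ x in 𝓝 x₀, dist (A x i + (s : ℂ) * (B x i - A x i)) q < r' := by
      apply hc.continuousAt.eventually_lt_const
      show dist (A x₀ i + (s : ℂ) * (B x₀ i - A x₀ i)) q < r'
      rw [← hs]
      exact lt_of_le_of_lt (Metric.mem_closedBall.1 hy) hrr
    filter_upwards [hev] with x hx h3
    exact absurd (mem_MM.2 ⟨i, mem_segment_iff'.2 ⟨s, hs0, hs1, rfl⟩⟩)
      (Set.disjoint_left.1 h3 (Metric.mem_closedBall.2 hx.le))

omit [Finite ι] in
/-- general position is an open condition on finitely many mirrors -/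
lemma gp_eventually [Finite ι] (hA : ∀ i, Continuous fun x => A x i)
    (hB : ∀ i, Continuous fun x => B x i) {x₀ : X} (hgp : GP (A x₀) (B x₀)) :
    ∀ᶠ x in 𝓝 x₀, GP (A x) (B x) := by
  unfold GP
  rw [eventually_all]
  intro i
  rw [eventually_all]
  intro j
  by_cases hij : i = j
  · exact Eventually.of_forall fun x h => absurd hij h
  · obtain ⟨h1, h2⟩ := hgp i j hij
    have e1 := eventually_disjoint (p := fun x => A x i) (q := fun x => A x i)
      (a := fun x => A x j) (b := fun x => B x j) (x := x₀) (hA i).continuousAt (hA i).continuousAt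
      (hA j).continuousAt (hB j).continuousAt (by
        rw [segment_same, Set.disjoint_singleton_left]; exact h1)
    have e2 := eventually_disjoint (p := fun x => B x i) (q := fun x => B x i)
      (a := fun x => A x j) (b := fun x => B x j) (x := x₀) (hB i).continuousAt (hB i).continuousAt
      (hA j).continuousAt (hB j).continuousAt (by
        rw [segment_same, Set.disjoint_singleton_left]; exact h2)
    filter_upwards [e1, e2] with x g1 g2 _
    rw [segment_same, Set.disjoint_singleton_left] at g1 g2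
    exact ⟨g1, g2⟩

end

end Pool.Agent.H628_Mirror
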