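import Pool.Agent.H628_Mirror.Clopen

/-!
# Bounded trajectories with finitely many directions
-/

set_option autoImplicit false

open Complex ComplexConjugate Set Filter Topology

namespace Pool.Agent.H628_Mirror

variable {ι : Type*} {a b : ι → ℂ}

/-- An infinite trajectory none of whose reflections takes place at a vertex: `x 0 = p` and `x (k+1)`
are the successive reflection points, `d k` is the direction after `x k`, and `m (k+1)` is the mirror
met at `x (k+1)`. -/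
structure Traj (a b : ι → ℂ) (p : ℂ) (x d : ℕ → ℂ) (m : ℕ → ι) : Prop where
  x0 : x 0 = p
  off : p ∉ MM a b
  one : ‖d 0‖ = 1
  fl : ∀ k, Fl a b (x k) (d k) (x (k + 1))
  nv : ∀ k, x (k + 1) ∉ Vx a b
  mem : ∀ k, x (k + 1) ∈ mir a b (m (k + 1))
  rf : ∀ k, d (k + 1) = rf (b (m (k + 1)) - a (m (k + 1))) (d k)

/-- the mirror on which the `k`-th point lies -/
def Ak (m : ℕ → ι) : ℕ → Set ι
  | 0 => ∅
  | k + 1 => {m (k + 1)}

section
variable {p : ℂ} {x d : ℕ → ℂ} {m : ℕ → ι} {R : ℝ}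

lemma Traj.hit_of_st (hg : Good a b) (hT : Traj a b p x d m) {k : ℕ}
    (hs : St a b (Ak m k) (x k) (d k)) : Hit a b (Ak m k) (x k) (d k) (m (k + 1)) ∧
      x (k + 1) = x k + tt a b (m (k + 1)) (x k) (d k) * d k :=
  hit_of_fl hs (hg.ne _) (hT.fl k) (hT.nv k) (hT.mem k)

lemma Traj.st (hg : Good a b) (hT : Traj a b p x d m) (k : ℕ) : St a b (Ak m k) (x k) (d k) := by
  induction k with
  | zero =>
    refine st_off (by rw [hT.x0]; exact hT.off) ?_
    intro h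
    have := hT.one
    rw [h] at this; simp at this
  | succ k ih =>
    obtain ⟨h1, h2⟩ := hT.hit_of_st hg ih
    have := hit_st ih h1
    rw [← h2, ← hT.rf k] at this
    exact this

lemma Traj.hit (hg : Good a b) (hT : Traj a b p x d m) (k : ℕ) :
    Hit a b (Ak m k) (x k) (d k) (m (k + 1)) ∧
      x (k + 1) = x k + tt a b (m (k + 1)) (x k) (d k) * d k :=
  hT.hit_of_st hg (hT.st hg k)

lemma Traj.norm (hg : Good a b) (hT : Traj a b p x d m) (k : ℕ) : ‖d k‖ = 1 := by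
  induction k with
  | zero => exact hT.one
  | succ k ih => rw [hT.rf k, norm_rf (sub_ne_zero.2 (hg.ne _).symm), ih]

lemma Traj.path (hg : Good a b) (hT : Traj a b p x d m) (k : ℕ) :
    ∃ w, Path a b ∅ p (d 0) w (Ak m k) (x k) (d k) := by
  induction k with
  | zero => exact ⟨[], by rw [← hT.x0]; exact Path.nil _ _ _⟩
  | succ k ih =>
    obtain ⟨w, hw⟩ := ih
    refine ⟨w ++ [m (k + 1)], path_append hw (Path.cons (hT.hit hg k).1 ?_)⟩
    rw [← (hT.hit hg k).2, ← hT.rf k]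
    exact Path.nil _ _ _

lemma nrm_neg (v : ℂ) : nrm (-v) = -nrm v := by
  unfold nrm; rw [norm_neg]; ring

lemma badQ_neg {Q : Set ℂ} {c : ℂ} (h : c ∈ BadQ a b Q) : -c ∈ BadQ a b Q := by
  obtain ⟨w, w', u, hu, u', hu', rfl⟩ := h
  refine ⟨w', w, u', hu', u, hu, ?_⟩
  rw [← nrm_neg]; congr 1; ring

lemma np_of (hg : Good a b) {Q : Set ℂ} (hQ : Vx a b ⊆ Q) {φ : ℂ} (h1 : ‖φ‖ = 1)
    (hφ : φ ∉ BadQ a b Q) (j : ι) : cr φ (b j - a j) ≠ 0 := by
  intro h
  have he : b j - a j ≠ 0 := sub_ne_zero.2 (hg.ne j).symm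
  obtain ⟨μ, hμ⟩ := exists_smul_of_cr_eq_zero he h
  have hμ0 : μ ≠ 0 := by
    rintro rfl
    rw [hμ] at h1; simp at h1
  have hμc : (μ : ℂ) ≠ 0 := by exact_mod_cast hμ0
  have hva : a j ∈ Q := hQ (Or.inl ⟨j, Or.inl rfl⟩)
  have hvb : b j ∈ Q := hQ (Or.inl ⟨j, Or.inr rfl⟩)
  rcases lt_or_gt_of_ne hμ0 with h2 | h2
  · apply hφ
    refine ⟨[], [], a j, hva, b j, hvb, ?_⟩
    have e : Uw a b [] (a j) - Uw a b [] (b j) = ((-μ⁻¹ : ℝ) : ℂ) * φ := by
      rw [Uw_nil, Uw_nil, hμ]; push_cast; field_simp; ring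
    rw [e, nrm_mul h1 (by rw [neg_pos]; exact inv_lt_zero.2 h2)]
  · apply hφ
    refine ⟨[], [], b j, hvb, a j, hva, ?_⟩
    have e : Uw a b [] (b j) - Uw a b [] (a j) = ((μ⁻¹ : ℝ) : ℂ) * φ := by
      rw [Uw_nil, Uw_nil, hμ]; push_cast; field_simp
    rw [e, nrm_mul h1 (inv_pos.2 h2)]

/-- all directions of a trajectory with good initial direction are good -/
lemma Traj.not_bad (hg : Good a b) (hT : Traj a b p x d m) {Q : Set ℂ}
    (h : d 0 ∉ BadInit a b Q) (k : ℕ) : d k ∉ BadQ a b Q := by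
  intro hk
  obtain ⟨w, hw⟩ := hT.path hg k
  obtain ⟨T, -, -, -, h2⟩ := path_unfold hw
  exact h ⟨w, d k, hk, h2.symm⟩

/-- the directions of the trajectory and their opposites -/
def Dd (d : ℕ → ℂ) : Set ℂ := {c | ∃ k, c = d k ∨ c = -d k}

lemma finite_Dd (hfin : (range d).Finite) : (Dd d).Finite := by
  refine (hfin.union (hfin.image fun c => -c)).subset ?_
  rintro c ⟨k, rfl | rfl⟩
  · exact Or.inl ⟨k, rfl⟩
  · exact Or.inr ⟨d k, ⟨k, rfl⟩, rfl⟩

lemma Traj.dd_not_bad (hg : Good a b) (hT : Traj a b p x d m) {Q : Set ℂ}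
    (h : d 0 ∉ BadInit a b Q) : ∀ φ ∈ Dd d, φ ∉ BadQ a b Q := by
  rintro φ ⟨k, rfl | rfl⟩
  · exact hT.not_bad hg h k
  · intro h1
    have := badQ_neg h1
    rw [neg_neg] at this
    exact hT.not_bad hg h k this

lemma Traj.dirOK (hg : Good a b) (hT : Traj a b p x d m) {Q : Set ℂ} (hQ : Vx a b ⊆ Q)
    (h : d 0 ∉ BadInit a b Q) (hfin : (range d).Finite) : DirOK a b (Dd d) := by
  have h1 : ∀ φ ∈ Dd d, ‖φ‖ = 1 := by
    rintro φ ⟨k, rfl | rfl⟩
    · exact hT.norm hg k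
    · rw [norm_neg]; exact hT.norm hg k
  exact ⟨finite_Dd hfin, h1, fun φ hφ j => np_of hg hQ (h1 φ hφ) (hT.dd_not_bad hg h φ hφ) j⟩

/-- the limit states of the trajectory -/
def Lam (a b : ι → ℂ) (x d : ℕ → ℂ) (m : ℕ → ι) : ι → ℂ → ℂ → Prop := fun i z φ =>
  z ∈ mir a b i ∧ z ∉ Vx a b ∧ ∀ ε > 0, ∃ᶠ k in atTop, m k = i ∧ d k = φ ∧ ‖x k - z‖ < ε

lemma lam_freq {i : ι} {z φ : ℂ} (h : Lam a b x d m i z φ) {P : ℂ → Prop}
    (hP : ∀ᶠ w in 𝓝 z, P w) : ∃ᶠ k in atTop, m k = i ∧ d k = φ ∧ P (x k) := by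
  obtain ⟨ε, hε, h'⟩ := Metric.eventually_nhds_iff.1 hP
  exact (h.2.2 ε hε).mono fun k ⟨h1, h2, h3⟩ => ⟨h1, h2, h' (by rwa [dist_eq_norm])⟩

lemma Ak_of_le {k : ℕ} (hk : 1 ≤ k) : Ak m k = {m k} := by
  obtain ⟨l, rfl⟩ : ∃ l, k = l + 1 := ⟨k - 1, by omega⟩
  rfl

/-- a clear segment on a ray stays in the disc, when the next hit is in the disc -/
lemma clear_bd {i j : ι} {w ψ : ℂ} (hs : St a b {i} w ψ) (hh : Hit a b {i} w ψ j)
    (h0 : ‖w‖ ≤ R) (h1 : ‖w + tt a b j w ψ * ψ‖ ≤ R) {t : ℝ} (ht : 0 ≤ t)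
    (hc : ∀ k, k ≠ i → Disjoint (segment ℝ w (w + t * ψ)) (mir a b k)) : ‖w + t * ψ‖ ≤ R := by
  have hji : j ≠ i := by
    rintro rfl
    rcases hs.2 with ⟨hA, -⟩ | ⟨i', hA, hz, hi, -⟩
    · exact Set.singleton_ne_empty j hA
    · have : j = i' := by
        have : j ∈ ({i'} : Set ι) := by rw [← hA]; rfl
        exact this
      subst this
      have h3 : tt a b j w ψ = 0 :=
        tt_of_mem hi (t := 0) (by simpa [mir] using openSegment_subset_segment ℝ _ _ hz)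
      have := hh.t0
      linarith
  rcases le_or_gt (tt a b j w ψ) t with h | h
  · exfalso
    exact Set.disjoint_left.1 (hc j hji) (add_mul_mem_segment hh.t0.le h) (hit_mem' hh)
  · have := segment_subset_closedBall h0 h1 (add_mul_mem_segment (z := w) (φ := ψ) ht h.le)
    simpa using this

lemma lam_st {D : Set ℂ} (hD : DirOK a b D) {i : ι} {z φ : ℂ} (hφ : φ ∈ D)
    (h1 : z ∈ mir a b i) (h2 : z ∉ Vx a b) : St a b {i} z φ := by
  obtain ⟨h3, h4⟩ := mem_of_not_vx h2 h1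
  exact ⟨cr_ne_zero_left (hD.np φ hφ i), Or.inr ⟨i, rfl, h3, hD.np φ hφ i, h4⟩⟩

lemma pt_close {i : ι} {z φ : ℂ} (h : cr φ (b i - a i) ≠ 0) {ε : ℝ} (hε : 0 < ε) :
    ∀ᶠ w in 𝓝 z, ‖(w + tt a b i w φ * φ) - (z + tt a b i z φ * φ)‖ < ε := by
  have h3 := continuousAt_pt (a := fun _ : ℂ => a) (b := fun _ => b) (x₀ := z) (j := i)
    continuousAt_const continuousAt_const (z := fun w => w) (φ := fun _ => φ) continuousAt_id
    continuousAt_const h
  have := (h3.sub (continuousAt_const (y := z + tt a b i z φ * φ))).norm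
  refine this.eventually_lt_const ?_
  simpa using hε

lemma hit_near (hg : Good a b) {A : Set ι} {i : ι} {z φ : ℂ} (h : Hit a b A z φ i) :
    ∀ᶠ w in 𝓝 z, Hit a b A w φ i :=
  hit_eventually (a := fun _ : ℂ => a) (b := fun _ => b) (hg.ulf z)
    (fun k => continuousAt_const) (fun k => continuousAt_const) (z := fun w => w)
    (φ := fun _ => φ) continuousAt_id continuousAt_const h

lemma clear_near (hg : Good a b) {B : Set ι} {z : ℂ} {v : ℂ}
    (h : ∀ k, k ∉ B → Disjoint (segment ℝ z (z + v)) (mir a b k)) :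
    ∀ᶠ w in 𝓝 z, ∀ k, k ∉ B → Disjoint (segment ℝ w (w + v)) (mir a b k) :=
  clear_eventually (a := fun _ : ℂ => a) (b := fun _ => b) (x₀ := z) (hg.ulf z)
    (fun k => continuousAt_const) (fun k => continuousAt_const) (z := fun w => w)
    (w := fun w => w + v) continuousAt_id (by fun_prop) h

/-- data at a late time -/
lemma Traj.late (hg : Good a b) (hT : Traj a b p x d m) {k : ℕ} (hk : 2 ≤ k) :
    St a b {m k} (x k) (d k) ∧ Hit a b {m k} (x k) (d k) (m (k + 1)) ∧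
    St a b {m k} (x k) (-d (k - 1)) ∧ Hit a b {m k} (x k) (-d (k - 1)) (m (k - 1)) ∧
    x (k - 1) = x k + tt a b (m (k - 1)) (x k) (-d (k - 1)) * -d (k - 1) ∧
    d k = Pool.Agent.H628_Mirror.rf (b (m k) - a (m k)) (d (k - 1)) := by
  obtain ⟨l, rfl⟩ : ∃ l, k = l + 2 := ⟨k - 2, by omega⟩
  have e1 : l + 2 - 1 = l + 1 := rfl
  rw [e1]
  have s1 := hT.st hg (l + 2)
  have s2 := hT.hit hg (l + 2)
  have s3 := hT.st hg (l + 1)
  have s4 := hT.hit hg (l + 1)
  rw [Ak_of_le (by omega)] at s1 s2 s3 s4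
  obtain ⟨r1, r2⟩ := hit_reverse hg s3 s4.1
  have s5 := s4.2
  have e2 : l + 1 + 1 = l + 2 := rfl
  rw [e2] at s5 r1 r2 s4
  rw [← s5] at r1 r2
  refine ⟨s1, s2.1, ⟨neg_ne_zero.2 s3.1, Or.inr ⟨m (l + 2), rfl, ?_, ?_, ?_⟩⟩, r1, r2.symm,
    hT.rf (l + 1)⟩
  · have := hit_mem s4.1
    rwa [← s5] at this
  · rw [cr_neg_left]; exact neg_ne_zero.2 s4.1.tr
  · intro k hk
    have := hit_not_mem s3 s4.1 k hk
    rwa [← s5] at this

theorem lam_inv (hg : Good a b) (hT : Traj a b p x d m) (hR : ∀ k, ‖x k‖ ≤ R)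
    (hD : DirOK a b (Dd d)) : Inv a b (Dd d) R (Lam a b x d m) := by
  have he : ∀ j, b j - a j ≠ 0 := fun j => sub_ne_zero.2 (hg.ne j).symm
  have hdir : ∀ i z φ, Lam a b x d m i z φ → φ ∈ Dd d := by
    intro i z φ h
    obtain ⟨k, h1, h2, h3⟩ := (h.2.2 1 one_pos).exists
    exact ⟨k, Or.inl h2.symm⟩
  -- frequently late data
  have hlate : ∀ {i : ι} {z φ : ℂ}, Lam a b x d m i z φ → ∀ {P : ℂ → Prop},
      (∀ᶠ w in 𝓝 z, P w) → ∃ᶠ k in atTop, 2 ≤ k ∧ m k = i ∧ d k = φ ∧ P (x k) := by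
    intro i z φ h P hP
    refine ((lam_freq h hP).and_eventually (eventually_ge_atTop 2)).mono ?_
    rintro k ⟨⟨h1, h2, h3⟩, h4⟩
    exact ⟨h4, h1, h2, h3⟩
  refine ⟨fun i z φ h => h.1, fun i z φ h => h.2.1, hdir, ?_, ?_, ?_, ?_, ?_, ?_, ?_⟩
  · -- dir'
    intro i z φ h
    obtain ⟨k, h0, h1, h2, -⟩ := (hlate h (P := fun _ => True) (by simp)).exists
    obtain ⟨-, -, -, -, -, h3⟩ := hT.late hg h0
    refine ⟨k - 1, Or.inr ?_⟩
    rw [← h2, h3, ← h1, rf_rf (he _)]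
  · -- bd
    intro i z φ h
    by_contra hlt
    rw [not_le] at hlt
    have : ∀ᶠ w in 𝓝 z, R < ‖w‖ := (continuous_norm.continuousAt).eventually_const_lt hlt
    obtain ⟨k, -, -, -, h1⟩ := (hlate h this).exists
    linarith [hR k]
  · -- cls
    intro i z φ h1 h2 h3
    refine ⟨h1, h2, fun ε hε => ?_⟩
    obtain ⟨z', h4, h5⟩ := h3 (ε / 2) (by positivity)
    refine (h4.2.2 (ε / 2) (by positivity)).mono ?_
    rintro k ⟨e1, e2, e3⟩
    refine ⟨e1, e2, ?_⟩
    have := norm_add_le (x k - z') (z' - z)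
    rw [show x k - z' + (z' - z) = x k - z by ring] at this
    linarith
  · -- fw
    intro i z φ j h hh
    have hst := lam_st hD (hdir i z φ h) h.1 h.2.1
    refine ⟨hit_mem' hh, hit_not_vx hst hh, fun ε hε => ?_⟩
    have e4 := hlate h ((hit_near hg hh).and (pt_close hh.tr hε))
    have e5 : ∃ᶠ k in atTop, m (k + 1) = j ∧ d (k + 1) = rf (b j - a j) φ ∧
        ‖x (k + 1) - (z + tt a b j z φ * φ)‖ < ε := by
      refine e4.mono ?_
      rintro k ⟨h0, h1, h2, h3, h4⟩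
      obtain ⟨s1, s2, -, -, -, -⟩ := hT.late hg h0
      rw [h1, h2] at s1 s2
      have h5 := hit_unique s1 s2 h3
      have h6 := (hT.hit hg k).2
      refine ⟨h5, ?_, ?_⟩
      · rw [hT.rf k, h5, h2]
      · rw [h6, h5, h2]; exact h4
    exact (tendsto_add_atTop_nat 1).frequently e5
  · -- bw
    intro i z φ j hst hh h
    obtain ⟨r1, r2⟩ := hit_reverse hg hst hh
    have hz : z ∈ mir a b i ∧ z ∉ Vx a b := by
      rcases hst.2 with ⟨hA, -⟩ | ⟨i', hA, hz, hi, hki⟩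
      · exact absurd hA (Set.singleton_ne_empty i)
      · have : i = i' := by
          have : i ∈ ({i'} : Set ι) := by rw [← hA]; rfl
          exact this
        subst this
        exact ⟨openSegment_subset_segment ℝ _ _ hz, not_vx_of (hg.ne i) hz hki⟩
    refine ⟨hz.1, hz.2, fun ε hε => ?_⟩
    have e4 := hlate h ((hit_near hg r1).and (pt_close r1.tr hε))
    rw [r2] at e4
    have e5 : ∃ᶠ k in atTop, m (k - 1) = i ∧ d (k - 1) = φ ∧ ‖x (k - 1) - z‖ < ε := by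
      refine e4.mono ?_
      rintro k ⟨h0, h1, h2, h3, h4⟩
      obtain ⟨-, -, s3, s4, s5, s6⟩ := hT.late hg h0
      have h6 : d (k - 1) = φ := by
        rw [h2, h1] at s6
        rw [← rf_rf (he j) (d (k - 1)), ← s6, rf_rf (he j)]
      rw [h6, h1] at s3 s4
      rw [h6] at s5
      have h5 := hit_unique s3 s4 h3
      rw [h5] at s5
      exact ⟨h5, h6, by rw [s5]; exact h4⟩
    exact (tendsto_sub_atTop_nat 1).frequently e5
  · -- ff
    intro i z φ t h ht hc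
    by_contra hlt
    rw [not_le] at hlt
    have e2 : ∀ᶠ w in 𝓝 z, R < ‖w + t * φ‖ := by
      have : ContinuousAt (fun w : ℂ => ‖w + t * φ‖) z := by fun_prop
      exact this.eventually_const_lt hlt
    have e1 := clear_near hg (B := {i}) (z := z) (v := t * φ) (fun k hk => hc k (by simpa using hk))
    obtain ⟨k, h0, h1, h2, h3, h4⟩ := (hlate h (e1.and e2)).exists
    obtain ⟨s1, s2, -, -, -, -⟩ := hT.late hg h0
    have h6 := (hT.hit hg k).2
    rw [h1, h2] at s1 s2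
    rw [h2] at h6
    have := clear_bd s1 s2 (hR k) (by rw [← h6]; exact hR (k + 1)) ht
      (fun l hl => h3 l (by simpa using hl))
    linarith
  · -- fb
    intro i z φ t h ht hc
    by_contra hlt
    rw [not_le] at hlt
    have e2 : ∀ᶠ w in 𝓝 z, R < ‖w + t * -rf (b i - a i) φ‖ := by
      have : ContinuousAt (fun w : ℂ => ‖w + t * -rf (b i - a i) φ‖) z := by fun_prop
      exact this.eventually_const_lt hlt
    have e1 := clear_near hg (B := {i}) (z := z) (v := t * -rf (b i - a i) φ)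
      (fun k hk => hc k (by simpa using hk))
    obtain ⟨k, h0, h1, h2, h3, h4⟩ := (hlate h (e1.and e2)).exists
    obtain ⟨-, -, s3, s4, s5, s6⟩ := hT.late hg h0
    have h6 : d (k - 1) = rf (b i - a i) φ := by
      rw [h2, h1] at s6
      rw [s6, rf_rf (he i)]
    rw [h6, h1] at s3 s4
    rw [h6] at s5
    have := clear_bd s3 s4 (hR k) (by rw [← s5]; exact hR (k - 1)) ht
      (fun l hl => h3 l (by simpa using hl))
    linarith

end

end Pool.Agent.H628_Mirror
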