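import Pool.Agent.H628_Mirror.Ext
import Pool.Agent.H628_Mirror.Escape

/-!
# Mirrors with two directions
-/

set_option autoImplicit false

open Complex ComplexConjugate Set Filter Topology

namespace Pool.Agent.H628_Mirror

/-! ### Irrational rotations -/

lemma toCircle_surj : Function.Surjective (AddCircle.toCircle (T := 2 * Real.pi)) := by
  intro z
  obtain ⟨θ, hθ⟩ := (AddCircle.homeomorphCircle (T := 2 * Real.pi) Real.two_pi_pos.ne').surjective z
  exact ⟨θ, by rw [← hθ, AddCircle.homeomorphCircle_apply]⟩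

lemma dense_pow_circle {z : Circle} (h : ¬ IsOfFinOrder z) : DenseRange (fun n : ℕ => z ^ n) := by
  have : Fact (0 < 2 * Real.pi) := ⟨Real.two_pi_pos⟩
  obtain ⟨θ, hθ⟩ := toCircle_surj z
  have h1 : ¬ IsOfFinAddOrder θ := by
    intro hfin
    apply h
    obtain ⟨n, hn, h2⟩ := isOfFinAddOrder_iff_nsmul_eq_zero.1 hfin
    refine isOfFinOrder_iff_pow_eq_one.2 ⟨n, hn, ?_⟩
    rw [← hθ, ← AddCircle.toCircle_nsmul, h2, AddCircle.toCircle_zero]
  have h2 : DenseRange (fun n : ℤ => n • θ) := AddCircle.denseRange_zsmul_iff.2 (addOrderOf_eq_zero h1)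
  have h3 : DenseRange (fun n : ℕ => n • θ) := denseRange_zsmul_iff_nsmul.1 h2
  have h4 : DenseRange (AddCircle.toCircle ∘ fun n : ℕ => n • θ) :=
    toCircle_surj.denseRange.comp h3 AddCircle.continuous_toCircle
  have h5 : (AddCircle.toCircle ∘ fun n : ℕ => n • θ) = fun n : ℕ => z ^ n := by
    funext n
    simp only [Function.comp_apply]
    rw [AddCircle.toCircle_nsmul, hθ]
  rwa [h5] at h4

/-- powers of a unit complex number of infinite order approximate every unit number, from every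
exponent on -/
lemma exists_pow_near {z : ℂ} (hz : ‖z‖ = 1) (h : ∀ n : ℕ, 0 < n → z ^ n ≠ 1) {c : ℂ} (hc : ‖c‖ = 1)
    {τ : ℝ} (hτ : 0 < τ) : ∃ n : ℕ, ‖z ^ n - c‖ < τ := by
  set Z : Circle := ⟨z, mem_sphere_zero_iff_norm.2 hz⟩ with hZ
  set C : Circle := ⟨c, mem_sphere_zero_iff_norm.2 hc⟩ with hC
  have h1 : ¬ IsOfFinOrder Z := by
    intro hfin
    obtain ⟨n, hn, h2⟩ := isOfFinOrder_iff_pow_eq_one.1 hfin
    apply h n hn
    have := congrArg (fun w : Circle => (w : ℂ)) h2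
    simpa using this
  obtain ⟨n, hn⟩ := (dense_pow_circle h1).exists_mem_open (Metric.isOpen_ball (x := C) (ε := τ))
    ⟨C, Metric.mem_ball_self hτ⟩
  refine ⟨n, ?_⟩
  have h2 : dist ((Z ^ n : Circle) : ℂ) (C : ℂ) < τ := hn
  rw [dist_eq_norm, Circle.coe_pow] at h2
  exact h2

lemma rf_unit {f : ℂ} (hf : ‖f‖ = 1) (v : ℂ) : rf f v = f ^ 2 * conj v := by
  have h1 : conj f * f = 1 := by
    rw [mul_comm, Complex.mul_conj, Complex.normSq_eq_norm_sq, hf]; simp
  have h2 : conj f ≠ 0 := by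
    intro h; rw [h] at h1; simp at h1
  unfold rf
  rw [div_eq_iff_mul_eq h2 |>.2 (show f ^ 2 * conj f = f by linear_combination f * h1)]

/-- **Barriers.** If the reflections in the direction `f` are never almost grazing, and the others
are in the direction `g` or perpendicular to `g`, then only finitely many directions occur. -/
lemma finite_of_not_grazing {f g : ℂ} (hf : ‖f‖ = 1) (hg : ‖g‖ = 1) {d : ℕ → ℂ} (hd : ‖d 0‖ = 1)
    {τ : ℝ} (hτ : 0 < τ)
    (hstep : ∀ k, (d (k + 1) = rf f (d k) ∧ τ ≤ |cr (d k) f|) ∨ d (k + 1) = rf g (d k) ∨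
      d (k + 1) = -rf g (d k)) :
    (range d).Finite := by
  have hf0 : f ≠ 0 := by rintro rfl; simp at hf
  have hg0 : g ≠ 0 := by rintro rfl; simp at hg
  have hff : conj f * f = 1 := by
    rw [mul_comm, Complex.mul_conj, Complex.normSq_eq_norm_sq, hf]; simp
  have hgg : conj g * g = 1 := by
    rw [mul_comm, Complex.mul_conj, Complex.normSq_eq_norm_sq, hg]; simp
  set z : ℂ := (g * conj f) ^ 2 with hz
  have hz1 : ‖z‖ = 1 := by
    rw [hz, norm_pow, norm_mul, Complex.norm_conj, hf, hg]; norm_num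
  have hz0 : z ≠ 0 := by rintro h; rw [h] at hz1; simp at hz1
  have hzc : conj z * z = 1 := by
    rw [mul_comm, Complex.mul_conj, Complex.normSq_eq_norm_sq, hz1]; simp
  have hzc' : conj z = z⁻¹ := eq_inv_of_mul_eq_one_left hzc
  set V : ℤ → ℂ := fun n => z ^ n * d 0 with hV
  set W : ℤ → ℂ := fun n => rf f (V n) with hW
  have hconjz : ∀ n : ℤ, conj (z ^ n) = (z ^ n)⁻¹ := by
    intro n
    rw [map_zpow₀, hzc', inv_zpow]
  have r2 : ∀ n, rf f (W n) = V n := fun n => rf_rf hf0 _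
  have r3 : ∀ n, rf g (V (n + 1)) = W n := by
    intro n
    simp only [hW, hV]
    rw [rf_unit hg, rf_unit hf, map_mul, map_mul, hconjz, hconjz, zpow_add_one₀ hz0, mul_inv]
    have e : z⁻¹ = (conj g * f) ^ 2 := by
      rw [← hzc', hz, map_pow, map_mul, Complex.conj_conj]
    rw [e]
    linear_combination ((z ^ n)⁻¹ * conj (d 0) * f ^ 2 * (conj g * g + 1)) * hgg
  have r4 : ∀ n, rf g (W n) = V (n + 1) := by
    intro n
    rw [← r3 n, rf_rf hg0]
  have hW' : ∀ n, |cr (W n) f| = |cr (V n) f| := by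
    intro n
    simp only [hW]
    rw [cr_rf_self hf0, abs_neg]
  -- the moves, up to sign
  have hsign : ∀ {u v : ℂ}, (u = v ∨ u = -v) → ∀ h : ℂ, (rf h u = rf h v ∨ rf h u = -rf h v) := by
    rintro u v (rfl | rfl) h
    · exact Or.inl rfl
    · exact Or.inr (rf_neg _ _)
  have hneg : ∀ {u v : ℂ}, (u = v ∨ u = -v) → (-u = v ∨ -u = -v) := by
    rintro u v (rfl | rfl)
    · exact Or.inr rfl
    · exact Or.inl (neg_neg _)
  have habs : ∀ {u v : ℂ}, (u = v ∨ u = -v) → |cr u f| = |cr v f| := by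
    rintro u v (rfl | rfl)
    · rfl
    · rw [cr_neg_left, abs_neg]
  by_cases hfin : ∃ N : ℕ, 0 < N ∧ z ^ N = 1
  · -- finite order
    obtain ⟨N, hN, hzN⟩ := hfin
    have hmem : ∀ k, (∃ n, d k = V n ∨ d k = -V n) ∨ ∃ n, d k = W n ∨ d k = -W n := by
      intro k
      induction k with
      | zero => exact Or.inl ⟨0, Or.inl (by simp [hV])⟩
      | succ k ih =>
        rcases ih with ⟨n, hn⟩ | ⟨n, hn⟩
        · rcases hstep k with ⟨h1, -⟩ | h1 | h1
          · exact Or.inr ⟨n, by rw [h1]; exact hsign hn f⟩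
          · refine Or.inr ⟨n - 1, ?_⟩
            rw [h1, ← r3 (n - 1), sub_add_cancel]
            exact hsign hn g
          · refine Or.inr ⟨n - 1, ?_⟩
            rw [h1, ← r3 (n - 1), sub_add_cancel]
            exact hneg (hsign hn g)
        · rcases hstep k with ⟨h1, -⟩ | h1 | h1
          · exact Or.inl ⟨n, by rw [h1, ← r2]; exact hsign hn f⟩
          · exact Or.inl ⟨n + 1, by rw [h1, ← r4]; exact hsign hn g⟩
          · exact Or.inl ⟨n + 1, by rw [h1, ← r4]; exact hneg (hsign hn g)⟩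
    have hVf : (range V).Finite := by
      refine (finite_roots hN (d 0 ^ N)).subset ?_
      rintro _ ⟨n, rfl⟩
      show (z ^ n * d 0) ^ N = d 0 ^ N
      rw [mul_pow, ← zpow_natCast, ← zpow_mul, mul_comm n, zpow_mul, zpow_natCast, hzN, one_zpow,
        one_mul]
    have hWf : (range W).Finite := by
      refine (hVf.image (rf f)).subset ?_
      rintro _ ⟨n, rfl⟩
      exact ⟨V n, ⟨n, rfl⟩, rfl⟩
    refine ((hVf.union (hVf.image fun v => -v)).union (hWf.union (hWf.image fun v => -v))).subset ?_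
    rintro _ ⟨k, rfl⟩
    rcases hmem k with ⟨n, hn | hn⟩ | ⟨n, hn | hn⟩
    · exact Or.inl (Or.inl ⟨n, hn.symm⟩)
    · exact Or.inl (Or.inr ⟨V n, ⟨n, rfl⟩, hn.symm⟩)
    · exact Or.inr (Or.inl ⟨n, hn.symm⟩)
    · exact Or.inr (Or.inr ⟨W n, ⟨n, rfl⟩, hn.symm⟩)
  · push Not at hfin
    have hd0 : d 0 ≠ 0 := by intro h; rw [h] at hd; simp at hd
    have hc1 : ‖f * (d 0)⁻¹‖ = 1 := by rw [norm_mul, norm_inv, hf, hd]; simp
    -- the upper barrier
    obtain ⟨n₂, hn₂⟩ := exists_pow_near hz1 (fun n hn => hfin n hn) hc1 hτ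
    -- the lower barrier
    have hzi : ‖z⁻¹‖ = 1 := by rw [norm_inv, hz1]; simp
    obtain ⟨n₁, hn₁⟩ := exists_pow_near (c := z * (f * (d 0)⁻¹)) hzi
      (fun n hn h => hfin n hn (by rw [inv_pow, inv_eq_one] at h; exact h))
      (by rw [norm_mul, hz1, hc1, one_mul]) hτ
    have hbar : ∀ n : ℤ, ‖z ^ n - f * (d 0)⁻¹‖ < τ → |cr (V n) f| < τ := by
      intro n hn
      have e1 : cr (V n) f = cr (V n - f) f := by rw [cr_sub_left, cr_self, sub_zero]
      have e2 : V n - f = (z ^ n - f * (d 0)⁻¹) * d 0 := by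
        simp only [hV]; field_simp
      rw [e1]
      calc |cr (V n - f) f| ≤ ‖V n - f‖ * ‖f‖ := abs_cr_le _ _
        _ = ‖z ^ n - f * (d 0)⁻¹‖ := by rw [e2, norm_mul, hd, hf]; ring
        _ < τ := hn
    have b2 : |cr (V (n₂ : ℤ)) f| < τ := hbar _ (by rw [zpow_natCast]; exact hn₂)
    have b1 : |cr (V (-(n₁ : ℤ) - 1)) f| < τ := by
      apply hbar
      have e1 : z ^ (-(n₁ : ℤ) - 1) - f * (d 0)⁻¹ = z⁻¹ * ((z⁻¹) ^ n₁ - z * (f * (d 0)⁻¹)) := by
        rw [zpow_sub_one₀ hz0, zpow_neg, zpow_natCast, inv_pow]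
        field_simp
      rw [e1, norm_mul, hzi, one_mul]
      exact hn₁
    set m₁ : ℤ := -(n₁ : ℤ) - 1 with hm₁
    set m₂ : ℤ := (n₂ : ℤ) with hm₂
    have hm₁0 : m₁ < 0 := by omega
    have hm₂0 : 0 ≤ m₂ := by omega
    have hmem : ∀ k, (∃ n, m₁ < n ∧ n ≤ m₂ ∧ (d k = V n ∨ d k = -V n)) ∨
        ∃ n, m₁ ≤ n ∧ n < m₂ ∧ (d k = W n ∨ d k = -W n) := by
      intro k
      induction k with
      | zero => exact Or.inl ⟨0, hm₁0, hm₂0, Or.inl (by simp [hV])⟩
      | succ k ih =>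
        rcases ih with ⟨n, hn1, hn2, hn⟩ | ⟨n, hn1, hn2, hn⟩
        · rcases hstep k with ⟨h1, h2⟩ | h1 | h1
          · right
            refine ⟨n, hn1.le, ?_, by rw [h1]; exact hsign hn f⟩
            rcases lt_or_eq_of_le hn2 with h3 | h3
            · exact h3
            · exfalso
              rw [habs hn, h3] at h2
              linarith
          · right
            refine ⟨n - 1, by omega, by omega, ?_⟩
            rw [h1, ← r3 (n - 1), sub_add_cancel]
            exact hsign hn g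
          · right
            refine ⟨n - 1, by omega, by omega, ?_⟩
            rw [h1, ← r3 (n - 1), sub_add_cancel]
            exact hneg (hsign hn g)
        · rcases hstep k with ⟨h1, h2⟩ | h1 | h1
          · left
            refine ⟨n, ?_, hn2.le, by rw [h1, ← r2]; exact hsign hn f⟩
            rcases lt_or_eq_of_le hn1 with h3 | h3
            · exact h3
            · exfalso
              rw [habs hn, ← h3, hW'] at h2
              linarith
          · left
            exact ⟨n + 1, by omega, by omega, by rw [h1, ← r4]; exact hsign hn g⟩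
          · left
            exact ⟨n + 1, by omega, by omega, by rw [h1, ← r4]; exact hneg (hsign hn g)⟩
    have f1 := (Set.finite_Icc m₁ m₂).image V
    have f2 := (Set.finite_Icc m₁ m₂).image W
    refine ((f1.union (f1.image fun v => -v)).union (f2.union (f2.image fun v => -v))).subset ?_
    rintro _ ⟨k, rfl⟩
    rcases hmem k with ⟨n, hn1, hn2, hn | hn⟩ | ⟨n, hn1, hn2, hn | hn⟩
    · exact Or.inl (Or.inl ⟨n, ⟨hn1.le, hn2⟩, hn.symm⟩)
    · exact Or.inl (Or.inr ⟨V n, ⟨n, ⟨hn1.le, hn2⟩, rfl⟩, hn.symm⟩)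
    · exact Or.inr (Or.inl ⟨n, ⟨hn1, hn2.le⟩, hn.symm⟩)
    · exact Or.inr (Or.inr ⟨W n, ⟨n, ⟨hn1, hn2.le⟩, rfl⟩, hn.symm⟩)

end Pool.Agent.H628_Mirror
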