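import Pool.Agent.H628_Mirror.TwoDir

/-!
# Mirrors with two directions: the theorem
-/

set_option autoImplicit false

open Complex ComplexConjugate Set Filter Topology

namespace Pool.Agent.H628_Mirror

section
variable {ι : Type*} {a b : ι → ℂ}

theorem not_leaves_at {p : ℂ} {x d : ℕ → ℂ} {m : ℕ → ι} {R : ℝ} (hg : Good a b)
    (hT : Traj a b p x d m) (hR : ∀ k, ‖x k‖ ≤ R) (l : ℕ) :
    ¬ Leaves a b (Ak m l) (x l) (d l) R := by
  rintro ⟨w, A', z', φ', hp, t, ht, hlt, hc⟩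
  obtain ⟨e1, e2, e3⟩ := path_of_traj hg hT hp
  set n := l + w.length
  obtain ⟨h1, h2⟩ := hT.hit hg n
  rw [e1, e2] at hlt hc
  rw [e3] at hc
  rcases le_or_gt (tt a b (m (n + 1)) (x n) (d n)) t with h | h
  · exact Set.disjoint_left.1 (hc _ (not_mem_Ak hg hT n)) (add_mul_mem_segment h1.t0.le h)
      (hit_mem' h1)
  · have h3 := segment_subset_closedBall (hR n) (hR (n + 1))
    rw [h2] at h3
    have := h3 (add_mul_mem_segment (z := x n) (φ := d n) ht.le h.le)
    rw [mem_closedBall_zero_iff] at this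
    linarith

/-- escaping rays leave every disc -/
theorem leaves_of_escapes {S : Set (Set ℂ)} (hS : S = range (mir a b)) (hg : Good a b)
    {A : Set ι} {z φ : ℂ} (hs : StW a b A z φ) (h1 : ‖φ‖ = 1) (hE : Escapes S z φ) (R : ℝ) :
    Leaves a b A z φ R := by
  by_contra hL
  have hnv : ∀ w A' z' φ', Path a b A z φ w A' z' φ' → ∀ u ∈ Vx a b, ¬ Fl a b z' φ' u := by
    intro w A' z' φ' hp u hu hf
    obtain ⟨x, d, g1, g2, g3, g4, g5⟩ := path_seq hS hp hs
    have hum : u ∈ MM a b := by obtain ⟨t, -, -, hm, -⟩ := hf; exact hm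
    obtain ⟨j, hj⟩ := mem_MM.1 hum
    refine hE.1 w.length (Function.update x (w.length + 1) u)
      (Function.update d (w.length + 1) (rf (b j - a j) φ')) ?_ ?_ ?_ ?_
    · rw [Function.update_of_ne (by omega)]; exact g1
    · rw [Function.update_of_ne (by omega)]; exact g2
    · intro k hk
      rw [Function.update_of_ne (show k ≠ w.length + 1 by omega),
        Function.update_of_ne (show k ≠ w.length + 1 by omega)]
      rcases Nat.lt_or_eq_of_le hk with h | h
      · rw [Function.update_of_ne (show k + 1 ≠ w.length + 1 by omega),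
          Function.update_of_ne (show k + 1 ≠ w.length + 1 by omega)]
        exact g5 k h
      · rw [h, Function.update_self, Function.update_self, g3, g4]
        exact gstep_of hS hf hj
    · rw [Function.update_self, gsingular hg hS]
      exact hu
  obtain ⟨x, d, m, g1, g2, g3⟩ := exists_seq hg hs h1 hnv hL
  apply hE.2
  refine ⟨x, d, g1, g2, fun k => ?_, ?_⟩
  · obtain ⟨f1, f2, f3, -⟩ := g3 k
    rw [f3]
    exact gstep_of hS f1 f2
  · rw [Metric.isBounded_iff_subset_closedBall 0]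
    refine ⟨max R ‖z‖, ?_⟩
    rintro _ ⟨k, rfl⟩
    rw [mem_closedBall_zero_iff]
    cases k with
    | zero => rw [g1]; exact le_max_right _ _
    | succ k => exact (g3 k).2.2.2.trans (le_max_left _ _)

/-- the ray that continues a mirror beyond its end point -/
lemma stW_end {i : ι} {e₀ g : ℂ} (hg : Good a b) (hdis : ∀ k, k ≠ i → e₀ ∉ mir a b k)
    (h : (∃ μ : ℝ, 0 < μ ∧ g = μ * (b i - a i) ∧ e₀ = b i) ∨
      ∃ μ : ℝ, μ < 0 ∧ g = μ * (b i - a i) ∧ e₀ = a i) : StW a b {i} e₀ g := by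
  have he : b i - a i ≠ 0 := sub_ne_zero.2 (hg.ne i).symm
  have hg0 : g ≠ 0 := by
    rcases h with ⟨μ, h1, h2, -⟩ | ⟨μ, h1, h2, -⟩
    · rw [h2]
      exact mul_ne_zero (by exact_mod_cast h1.ne') he
    · rw [h2]
      exact mul_ne_zero (by exact_mod_cast h1.ne) he
  refine ⟨hg0, fun k hk => hdis k (by simpa using hk), ?_⟩
  intro k hk s hs hm
  have hk' : k = i := hk
  subst hk'
  obtain ⟨τ, h0, h1, h2⟩ := mem_segment_iff'.1 hm
  rcases h with ⟨μ, h3, h4, h5⟩ | ⟨μ, h3, h4, h5⟩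
  · rw [h4, h5] at h2
    have h6 : ((1 + s * μ - τ : ℝ) : ℂ) * (b k - a k) = 0 := by
      push_cast; linear_combination h2
    rcases mul_eq_zero.1 h6 with h7 | h7
    · have h8 : 1 + s * μ - τ = 0 := by exact_mod_cast h7
      have : 0 < s * μ := mul_pos hs h3
      linarith
    · exact he h7
  · rw [h4, h5] at h2
    have h6 : ((s * μ - τ : ℝ) : ℂ) * (b k - a k) = 0 := by
      push_cast; linear_combination h2
    rcases mul_eq_zero.1 h6 with h7 | h7
    · have h8 : s * μ - τ = 0 := by exact_mod_cast h7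
      have : s * μ < 0 := mul_neg_of_pos_of_neg hs h3
      linarith
    · exact he h7

/-- the ray leaves the disc after the reflections in the mirrors of the word `w` -/
def LeavesW (a b : ι → ℂ) (A : Set ι) (p φ : ℂ) (R : ℝ) (w : List ι) : Prop :=
  ∃ (A' : Set ι) (z' φ' : ℂ), Path a b A p φ w A' z' φ' ∧ Exit a b A' z' φ' R

lemma leavesW_eventually {X : Type*} [TopologicalSpace X] {x₀ : X} (hg : Good a b)
    {z φ : X → ℂ} (hz : ContinuousAt z x₀) (hφ : ContinuousAt φ x₀) {A : Set ι} {R : ℝ}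
    {w : List ι} (h : LeavesW a b A (z x₀) (φ x₀) R w) :
    ∀ᶠ x in 𝓝 x₀, LeavesW a b A (z x) (φ x) R w := by
  obtain ⟨A', z', φ', hp, t, ht, hR, hcl⟩ := h
  obtain ⟨Z, Φ, hZ, hΦ, hZ0, hΦ0, hev⟩ := path_eventually (a := fun _ : X => a) (b := fun _ => b)
    (hg.ulf x₀) (fun k => continuousAt_const) (fun k => continuousAt_const) w hz hφ hp
  subst hZ0 hΦ0
  have c1 : ContinuousAt (fun x => Z x + (t : ℂ) * Φ x) x₀ := hZ.add (continuousAt_const.mul hΦ)
  have h1 := c1.norm.eventually_const_lt hR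
  have h2 := clear_eventually (a := fun _ : X => a) (b := fun _ => b)
    (hg.ulf x₀) (fun k => continuousAt_const) (fun k => continuousAt_const) hZ c1 hcl
  filter_upwards [hev, h1, h2] with x a1 a2 a3
  exact ⟨A', Z x, Φ x, a1, t, ht, a2, a3⟩

/-- the reversed trajectory -/
lemma rev_path {p : ℂ} {x d : ℕ → ℂ} {m : ℕ → ι} (hg : Good a b) (hT : Traj a b p x d m)
    {w : List ι} : ∀ {l : ℕ} {A' : Set ι} {z' φ' : ℂ}, w.length + 2 ≤ l →
      Path a b {m l} (x l) (-d (l - 1)) w A' z' φ' →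
      z' = x (l - w.length) ∧ φ' = -d (l - w.length - 1) ∧ A' = {m (l - w.length)} := by
  induction w with
  | nil =>
    intro l A' z' φ' _ h
    cases h
    exact ⟨rfl, rfl, rfl⟩
  | cons j w ih =>
    intro l A' z' φ' hl h
    rw [List.length_cons] at hl
    cases h with
    | cons h hp =>
      obtain ⟨-, -, s3, s4, s5, -⟩ := hT.late hg (show 2 ≤ l by omega)
      have h2 := hit_unique s3 h s4
      subst h2
      obtain ⟨-, -, -, -, -, s6⟩ := hT.late hg (show 2 ≤ l - 1 by omega)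
      have e1 : rf (b (m (l - 1)) - a (m (l - 1))) (-d (l - 1)) = -d (l - 1 - 1) := by
        rw [rf_neg, s6, rf_rf (sub_ne_zero.2 (hg.ne _).symm)]
      rw [← s5, e1] at hp
      obtain ⟨e1, e2, e3⟩ := ih (l := l - 1) (by omega) hp
      have e : l - (m (l - 1) :: w).length = l - 1 - w.length := by
        rw [List.length_cons]; omega
      rw [e]
      exact ⟨e1, e2, e3⟩

theorem not_leaves_rev {p : ℂ} {x d : ℕ → ℂ} {m : ℕ → ι} {R : ℝ} (hg : Good a b)
    (hT : Traj a b p x d m) (hR : ∀ k, ‖x k‖ ≤ R) {l : ℕ} {w : List ι} (hl : w.length + 2 ≤ l) :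
    ¬ LeavesW a b {m l} (x l) (-d (l - 1)) R w := by
  rintro ⟨A', z', φ', hp, t, ht, hlt, hc⟩
  obtain ⟨e1, e2, e3⟩ := rev_path hg hT hl hp
  set n := l - w.length with hn
  obtain ⟨-, -, s3, s4, s5, -⟩ := hT.late hg (show 2 ≤ n by omega)
  rw [e1, e2] at hlt hc
  rw [e3] at hc
  have := clear_bd s3 s4 (hR n) (by rw [← s5]; exact hR _) ht.le
    (fun k hk => hc k (by simpa using hk))
  linarith

/-- leaving along the mirror, from its end point or from any of its points -/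
lemma leaves_from {i : ι} (hdis : ∀ j, i ≠ j → Disjoint (mir a b i) (mir a b j))
    {y : ℂ} (hy : y ∈ mir a b i) {R : ℝ} {ψ : ℂ} {μ : ℝ} (hψ : ψ = μ * (b i - a i))
    (h : (0 < μ ∧ Leaves a b {i} (b i) ψ R) ∨ (μ < 0 ∧ Leaves a b {i} (a i) ψ R)) :
    Leaves a b {i} y ψ R := by
  have hconv : Convex ℝ (mir a b i) := convex_segment _ _
  obtain ⟨θ, hθ0, hθ1, hθ⟩ := mem_segment_iff'.1 hy
  rcases h with ⟨h1, hL⟩ | ⟨h1, hL⟩
  · have hμc : (μ : ℂ) ≠ 0 := by exact_mod_cast h1.ne'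
    have ht : 0 ≤ (1 - θ) / μ := div_nonneg (by linarith) h1.le
    have e1 : y + (((1 - θ) / μ : ℝ) : ℂ) * ψ = b i := by
      rw [hθ, hψ]; push_cast; field_simp; ring
    refine leaves_along ht ?_ ?_
    · intro k hk
      rw [e1]
      exact (hdis k hk.symm).mono_left (hconv.segment_subset hy (right_mem_segment ℝ _ _))
    · rw [e1]; exact hL
  · have hμc : (μ : ℂ) ≠ 0 := by exact_mod_cast h1.ne
    have ht : 0 ≤ -θ / μ := div_nonneg_of_nonpos (by linarith) h1.le
    have e1 : y + ((-θ / μ : ℝ) : ℂ) * ψ = a i := by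
      rw [hθ, hψ]; push_cast; field_simp; ring
    refine leaves_along ht ?_ ?_
    · intro k hk
      rw [e1]
      exact (hdis k hk.symm).mono_left (hconv.segment_subset hy (left_mem_segment ℝ _ _))
    · rw [e1]; exact hL

/-- the unit vector along mirror `i` -/
noncomputable def un (a b : ι → ℂ) (i : ι) : ℂ := ((‖b i - a i‖ : ℝ) : ℂ)⁻¹ * (b i - a i)

/-- A bounded trajectory has no almost grazing reflections at arbitrarily small angles in the mirrors
of a class `P`, if for each mirror of the class that it meets one of the two continuation rays leaves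
the disc. -/
theorem not_grazing {p : ℂ} {x d : ℕ → ℂ} {m : ℕ → ι} {R : ℝ} (hg : Good a b) {P : ι → Prop}
    (hdis : ∀ i j, P i → i ≠ j → Disjoint (mir a b i) (mir a b j))
    (hT : Traj a b p x d m) (hR : ∀ k, ‖x k‖ ≤ R)
    (hE : ∀ i, P i → (∃ k, i = m (k + 1)) →
      Leaves a b {i} (b i) (un a b i) R ∨ Leaves a b {i} (a i) (-un a b i) R) :
    ∃ τ : ℝ, 0 < τ ∧ ∀ k, P (m (k + 1)) →
      τ ≤ |cr (d (k + 1)) (b (m (k + 1)) - a (m (k + 1)))| := by
  by_contra hcon
  push Not at hcon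
  have h0 : ∀ n : ℕ, ∃ k, P (m (k + 1)) ∧
      |cr (d (k + 1)) (b (m (k + 1)) - a (m (k + 1)))| < 1 / ((n : ℝ) + 1) :=
    fun n => hcon _ (by positivity)
  choose κ hκP hκ using h0
  -- the times are late
  have hκinf : ∀ K : ℕ, ∀ᶠ n in atTop, K < κ n := by
    intro K
    have h1 : ∀ k ∈ Iic K, ∀ᶠ n : ℕ in atTop,
        1 / ((n : ℝ) + 1) < |cr (d (k + 1)) (b (m (k + 1)) - a (m (k + 1)))| := by
      intro k _
      have h2 : 0 < |cr (d (k + 1)) (b (m (k + 1)) - a (m (k + 1)))| := by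
        rw [abs_pos, hT.rf k, cr_rf_self (sub_ne_zero.2 (hg.ne _).symm)]
        exact neg_ne_zero.2 (hT.hit hg k).1.tr
      exact tendsto_one_div_add_atTop_nhds_zero_nat.eventually_lt_const h2
    have h3 := (eventually_all_finite (Set.finite_Iic K)).2 h1
    filter_upwards [h3] with n hn
    by_contra hle
    rw [not_lt] at hle
    have := hn (κ n) hle
    linarith [hκ n]
  set U : Ultrafilter ℕ := hyperfilter ℕ with hU
  have hUle : (U : Filter ℕ) ≤ atTop := by
    rw [hU, ← Nat.cofinite_eq_atTop]; exact hyperfilter_le_cofinite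
  have hJ := hg.lf R
  -- the mirror
  obtain ⟨i, hiJ, hi⟩ : ∃ i ∈ {i | (mir a b i ∩ Metric.closedBall 0 R).Nonempty},
      ∀ᶠ n in (U : Filter ℕ), m (κ n + 1) = i := by
    rw [← Ultrafilter.eventually_exists_mem_iff hJ]
    exact Filter.Eventually.of_forall fun n => ⟨_, ⟨x (κ n + 1), hT.mem _, by
      rw [mem_closedBall_zero_iff]; exact hR _⟩, rfl⟩
  have he : b i - a i ≠ 0 := sub_ne_zero.2 (hg.ne i).symm
  -- limits
  obtain ⟨y, hyR, hy⟩ := (isCompact_closedBall (0 : ℂ) R).ultrafilter_le_nhds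
    (U.map fun n => x (κ n + 1)) (by
      rw [le_principal_iff]
      exact Filter.Eventually.of_forall (f := (U : Filter ℕ)) fun n => by simpa using hR (κ n + 1))
  obtain ⟨ψ, hψ1, hψ⟩ := (isCompact_sphere (0 : ℂ) 1).ultrafilter_le_nhds
    (U.map fun n => d (κ n + 1)) (by
      rw [le_principal_iff]
      exact Filter.Eventually.of_forall (f := (U : Filter ℕ)) fun n => by
        simpa using hT.norm hg (κ n + 1))
  have hy' : Tendsto (fun n => x (κ n + 1)) U (𝓝 y) := hy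
  have hψ' : Tendsto (fun n => d (κ n + 1)) U (𝓝 ψ) := hψ
  have hψn : ‖ψ‖ = 1 := by simpa using hψ1
  have hymem : y ∈ mir a b i := by
    refine (isClosed_mir i).mem_of_tendsto hy' ?_
    filter_upwards [hi] with n hn
    rw [← hn]; exact hT.mem _
  have hcr : cr ψ (b i - a i) = 0 := by
    have hc : Continuous (fun w : ℂ => |cr w (b i - a i)|) := by
      unfold Pool.Agent.H628_Mirror.cr; fun_prop
    have e1 : Tendsto (fun n => |cr (d (κ n + 1)) (b i - a i)|) U (𝓝 |cr ψ (b i - a i)|) :=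
      (hc.tendsto ψ).comp hψ'
    have e2 : Tendsto (fun n : ℕ => 1 / ((n : ℝ) + 1)) U (𝓝 0) :=
      tendsto_one_div_add_atTop_nhds_zero_nat.mono_left hUle
    have e3 : |cr ψ (b i - a i)| ≤ 0 := by
      refine le_of_tendsto_of_tendsto e1 e2 ?_
      filter_upwards [hi] with n hn
      have := hκ n
      rw [hn] at this
      exact this.le
    exact abs_eq_zero.1 (le_antisymm e3 (abs_nonneg _))
  obtain ⟨μ, hμ⟩ := exists_smul_of_cr_eq_zero he hcr
  have hμ0 : μ ≠ 0 := by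
    rintro rfl
    rw [hμ] at hψn; simp at hψn
  have him : ∃ k, i = m (k + 1) := by
    obtain ⟨n, hn⟩ := hi.exists
    exact ⟨κ n, hn.symm⟩
  have hPi : P i := by
    obtain ⟨n, hn⟩ := hi.exists
    rw [← hn]; exact hκP n
  have hdi := hdis i
  -- forward
  have hfwd : ¬ Leaves a b {i} y ψ R := by
    intro hL
    have hev := leaves_eventually (a := fun _ : ℂ × ℂ => a) (b := fun _ => b) (x₀ := (y, ψ))
      (hg.ulf _) (fun k => continuousAt_const) (fun k => continuousAt_const)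
      (z := fun q => q.1) (φ := fun q => q.2) continuousAt_fst continuousAt_snd hL
    have hlim : Tendsto (fun n => (x (κ n + 1), d (κ n + 1))) U (𝓝 (y, ψ)) := hy'.prodMk_nhds hψ'
    obtain ⟨n, h1, h2⟩ := ((hlim.eventually hev).and hi).exists
    refine not_leaves_at hg hT hR (κ n + 1) ?_
    show Leaves a b {m (κ n + 1)} (x (κ n + 1)) (d (κ n + 1)) R
    rw [h2]
    exact h1
  -- backward
  have hbwd : ¬ Leaves a b {i} y (-ψ) R := by
    rintro ⟨w, A', z', φ', hp, hex⟩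
    have hev := leavesW_eventually (x₀ := (y, -ψ)) hg (z := fun q : ℂ × ℂ => q.1)
      (φ := fun q => q.2) continuousAt_fst continuousAt_snd ⟨A', z', φ', hp, hex⟩
    have hd : Tendsto (fun n => -d (κ n)) U (𝓝 (-ψ)) := by
      have hc : ContinuousAt (fun v : ℂ => -rf (b i - a i) v) ψ :=
        (cAt_rf continuousAt_const continuousAt_id he).neg
      have e1 : rf (b i - a i) ψ = ψ := by rw [hμ, rf_mul, rf_self he]
      have e2 : Tendsto (fun n => -rf (b i - a i) (d (κ n + 1))) U (𝓝 (-rf (b i - a i) ψ)) :=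
        hc.tendsto.comp hψ'
      rw [e1] at e2
      refine e2.congr' ?_
      filter_upwards [hi] with n hn
      rw [hT.rf (κ n), hn, rf_rf he]
    have hlim : Tendsto (fun n => (x (κ n + 1), -d (κ n))) U (𝓝 (y, -ψ)) := hy'.prodMk_nhds hd
    obtain ⟨n, ⟨h1, h2⟩, h3⟩ := (((hlim.eventually hev).and hi).and
      (hUle (hκinf (w.length + 1)))).exists
    refine not_leaves_rev hg hT hR (l := κ n + 1) (w := w) (by omega) ?_
    show LeavesW a b {m (κ n + 1)} (x (κ n + 1)) (-d (κ n)) R w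
    rw [h2]
    exact h1
  -- the unit vector
  have hun : un a b i = ((‖b i - a i‖⁻¹ : ℝ) : ℂ) * (b i - a i) := by
    unfold un; push_cast; ring
  have hpos : 0 < ‖b i - a i‖⁻¹ := inv_pos.2 (norm_pos_iff.2 he)
  have hψu : ψ = un a b i ∨ ψ = -un a b i := by
    rcases lt_or_gt_of_ne hμ0 with h1 | h1
    · right
      rw [hμ, norm_mul, Complex.norm_real, Real.norm_eq_abs, abs_of_neg h1] at hψn
      have h6 : -μ = ‖b i - a i‖⁻¹ := eq_inv_of_mul_eq_one_left hψn
      rw [hμ, hun, ← h6]; push_cast; ring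
    · left
      rw [hμ, norm_mul, Complex.norm_real, Real.norm_eq_abs, abs_of_pos h1] at hψn
      have h6 : μ = ‖b i - a i‖⁻¹ := eq_inv_of_mul_eq_one_left hψn
      rw [hμ, hun, ← h6]
  have hun' : -un a b i = ((-‖b i - a i‖⁻¹ : ℝ) : ℂ) * (b i - a i) := by
    rw [hun]; push_cast; ring
  rcases hE i hPi him with hL | hL
  · have h1 : Leaves a b {i} y (un a b i) R :=
      leaves_from (fun j hj => hdi j hPi hj) hymem hun (Or.inl ⟨hpos, hL⟩)
    rcases hψu with h | h
    · exact hfwd (by rw [h]; exact h1)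
    · exact hbwd (by rw [h, neg_neg]; exact h1)
  · have h1 : Leaves a b {i} y (-un a b i) R :=
      leaves_from (fun j hj => hdi j hPi hj) hymem hun' (Or.inr ⟨by linarith, hL⟩)
    rcases hψu with h | h
    · exact hbwd (by rw [h]; exact h1)
    · exact hfwd (by rw [h]; exact h1)

end

lemma rf_dir {e f : ℂ} (he : e ≠ 0) (h : ∃ r : ℝ, e = r * f) (v : ℂ) : rf e v = rf f v := by
  obtain ⟨r, hr⟩ := h
  have hr0 : r ≠ 0 := by
    rintro rfl
    rw [hr] at he; simp at he
  rw [hr, rf_mul_left hr0]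

/-- a unit vector parallel to `f` -/
lemma exists_unit (f : ℂ) : ∃ f' : ℂ, ‖f'‖ = 1 ∧ ∀ e : ℂ, e ≠ 0 → (∃ r : ℝ, e = r * f) →
    ∃ r : ℝ, e = r * f' := by
  by_cases hf : f = 0
  · refine ⟨1, by simp, ?_⟩
    rintro e he' ⟨r, hr⟩
    rw [hf, mul_zero] at hr
    exact absurd hr he'
  · refine ⟨((‖f‖ : ℝ) : ℂ)⁻¹ * f, ?_, ?_⟩
    · rw [norm_mul, norm_inv, Complex.norm_real, norm_norm, inv_mul_cancel₀]
      exact norm_ne_zero_iff.2 hf
    · rintro e - ⟨r, hr⟩
      refine ⟨r * ‖f‖, ?_⟩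
      have : ((‖f‖ : ℝ) : ℂ) ≠ 0 := by exact_mod_cast norm_ne_zero_iff.2 hf
      rw [hr]; push_cast; field_simp

lemma rf_I (f v : ℂ) : rf (Complex.I * f) v = -rf f v := by
  by_cases hf : f = 0
  · simp [rf, hf]
  have : conj f ≠ 0 := by simpa using hf
  unfold rf
  rw [map_mul, Complex.conj_I]
  field_simp

/-- **Mirrors parallel to `f`, or to `g`, or perpendicular to `g`.** -/
theorem two_directions {S : Set (Set ℂ)} (hS : MirrorFamily S) {f g : ℂ}
    (hdir : ∀ a b : ℂ, segment ℝ a b ∈ S → (∃ r : ℝ, b - a = r * f) ∨ (∃ r : ℝ, b - a = r * g) ∨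
      ∃ r : ℝ, b - a = r * (Complex.I * g))
    (hdis : ∀ a b : ℂ, segment ℝ a b ∈ S → (∃ r : ℝ, b - a = r * f) → ∀ m ∈ S,
      m ≠ segment ℝ a b → Disjoint (segment ℝ a b) m)
    {p : ℂ} (hp : p ∉ ⋃₀ S) (hC : ¬ Bornology.IsBounded (connectedComponentIn (⋃₀ S)ᶜ p)) :
    ∃ E : Set ℝ, E.Countable ∧ ∀ α : ℝ, α ∉ E → ¬ Exceptional S p α ∧
      ∀ x d : ℕ → ℂ, IsRay S p α x d → Bornology.IsBounded (Set.range x) →
        ∃ a b : ℂ, segment ℝ a b ∈ S ∧ (∃ r : ℝ, b - a = r * f) ∧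
          (∃ k : ℕ, x (k + 1) ∈ segment ℝ a b) ∧
          ¬ Escapes S b (((‖b - a‖ : ℝ) : ℂ)⁻¹ * (b - a)) ∧
          ¬ Escapes S a (((‖a - b‖ : ℝ) : ℂ)⁻¹ * (a - b)) := by
  refine ⟨_, finite_directions hS hp hC, ?_⟩
  intro α hα
  simp only [mem_ofPred_eq, not_or] at hα
  obtain ⟨h1, h2⟩ := hα
  refine ⟨h1, fun x d hx hb => ?_⟩
  by_contra hno
  push Not at hno
  apply h2
  refine ⟨x, d, hx, hb, ?_⟩
  obtain ⟨a, b, hm, hg⟩ := hS.exists_index
  have hSr : S = range (mir a b) := by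
    ext s
    constructor
    · intro hs; exact ⟨⟨s, hs⟩, (hm ⟨s, hs⟩).symm⟩
    · rintro ⟨i, rfl⟩; rw [← hm i]; exact i.2
  obtain ⟨m, hT⟩ := gtraj hg hSr hp h1 hx
  obtain ⟨R, hR'⟩ := hb.subset_closedBall 0
  have hR : ∀ k, ‖x k‖ ≤ R := by
    intro k
    have := hR' (mem_range_self k)
    rwa [mem_closedBall_zero_iff] at this
  have he : ∀ j, b j - a j ≠ 0 := fun j => sub_ne_zero.2 (hg.ne j).symm
  have hsegS : ∀ i : S, segment ℝ (a i) (b i) ∈ S := by
    intro i
    have := hm i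
    rw [mir] at this
    rw [← this]; exact i.2
  have hdisj : ∀ i j : S, (∃ r : ℝ, b i - a i = r * f) → i ≠ j →
      Disjoint (mir a b i) (mir a b j) := by
    intro i j hi hij
    have h3 := hdis (a i) (b i) (hsegS i) hi j j.2 (by
      intro h
      apply hij
      apply Subtype.ext
      rw [h]; exact hm i)
    rw [hm j] at h3
    exact h3
  obtain ⟨τ, hτ, hgr⟩ := not_grazing (P := fun i : S => ∃ r : ℝ, b i - a i = r * f) hg hdisj hT hR
    (by
    intro i hPi hi
    obtain ⟨k, hk⟩ := hi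
    have hxi : x (k + 1) ∈ mir a b i := by rw [hk]; exact hT.mem k
    have hpos : 0 < ‖b i - a i‖⁻¹ := inv_pos.2 (norm_pos_iff.2 (he i))
    have hun : un a b i = ((‖b i - a i‖⁻¹ : ℝ) : ℂ) * (b i - a i) := by
      unfold un; push_cast; ring
    have hun1 : ‖un a b i‖ = 1 := by
      rw [hun, norm_mul, Complex.norm_real, Real.norm_eq_abs, abs_of_pos hpos,
        inv_mul_cancel₀ (norm_ne_zero_iff.2 (he i))]
    have hend : ∀ {e₀ g : ℂ}, e₀ ∈ mir a b i →
        ((∃ μ : ℝ, 0 < μ ∧ g = μ * (b i - a i) ∧ e₀ = b i) ∨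
        ∃ μ : ℝ, μ < 0 ∧ g = μ * (b i - a i) ∧ e₀ = a i) → StW a b {i} e₀ g := fun hmem h =>
      stW_end hg (fun k hk hm' => Set.disjoint_left.1 (hdisj i k hPi hk.symm) hmem hm') h
    by_cases hE : Escapes S (b i) (un a b i)
    · left
      exact leaves_of_escapes hSr hg (hend (right_mem_segment ℝ _ _)
        (Or.inl ⟨_, hpos, hun, rfl⟩)) hun1 hE R
    · right
      have e1 : -un a b i = ((‖a i - b i‖ : ℝ) : ℂ)⁻¹ * (a i - b i) := by
        unfold un; rw [norm_sub_rev (a i) (b i)]; ring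
      have hE' : Escapes S (a i) (-un a b i) := by
        by_contra hE2
        rw [e1] at hE2
        exact hE2 (hno (a i) (b i) (hsegS i) hPi ⟨k, hxi⟩ hE)
      refine leaves_of_escapes hSr hg (hend (left_mem_segment ℝ _ _)
        (Or.inr ⟨-‖b i - a i‖⁻¹, by linarith, ?_, rfl⟩)) (by rw [norm_neg]; exact hun1) hE' R
      rw [hun]; push_cast; ring)
  -- normalised directions
  obtain ⟨f', hf'1, hf'⟩ := exists_unit f
  obtain ⟨g', hg'1, hg'⟩ := exists_unit g
  -- a bound for the lengths of the mirrors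
  obtain ⟨M, hM0, hM⟩ : ∃ M : ℝ, 0 < M ∧ ∀ k, ‖b (m (k + 1)) - a (m (k + 1))‖ ≤ M := by
    obtain ⟨M, hM⟩ := ((hg.lf R).image (fun i => ‖b i - a i‖)).bddAbove
    refine ⟨max M 1, lt_of_lt_of_le one_pos (le_max_right _ _), fun k => ?_⟩
    refine le_trans (hM ⟨m (k + 1), ⟨x (k + 1), hT.mem _, ?_⟩, rfl⟩) (le_max_left _ _)
    rw [mem_closedBall_zero_iff]; exact hR _
  refine finite_of_not_grazing hf'1 hg'1 (d := d) hT.one (τ := τ / M) (by positivity) ?_
  intro k
  rcases hdir _ _ (hsegS (m (k + 1))) with h3 | h3 | h3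
  · left
    have h4 := hf' _ (he _) h3
    refine ⟨by rw [hT.rf k, rf_dir (he _) h4], ?_⟩
    have h5 := hgr k h3
    rw [hT.rf k, cr_rf_self (he _), abs_neg] at h5
    obtain ⟨r, hr⟩ := h4
    have h6 : ‖b (m (k + 1)) - a (m (k + 1))‖ = |r| := by
      rw [hr, norm_mul, hf'1, mul_one, Complex.norm_real, Real.norm_eq_abs]
    have h7 := hM k
    rw [h6] at h7
    rw [hr, cr_mul_right, abs_mul] at h5
    rw [div_le_iff₀ hM0]
    calc τ ≤ |r| * |cr (d k) f'| := h5
      _ ≤ M * |cr (d k) f'| := mul_le_mul_of_nonneg_right h7 (abs_nonneg _)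
      _ = |cr (d k) f'| * M := mul_comm _ _
  · right; left
    rw [hT.rf k, rf_dir (he _) (hg' _ (he _) h3)]
  · right; right
    obtain ⟨r, hr⟩ := h3
    have hg0 : g ≠ 0 := by
      rintro rfl
      apply he (m (k + 1))
      rw [hr]; simp
    obtain ⟨r', hr'⟩ := hg' g hg0 ⟨1, by simp⟩
    have h4 : ∃ r : ℝ, b (m (k + 1)) - a (m (k + 1)) = r * (Complex.I * g') :=
      ⟨r * r', by rw [hr, hr']; push_cast; ring⟩
    rw [hT.rf k, rf_dir (he _) h4, rf_I]

end Pool.Agent.H628_Mirror
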