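import Pool.Agent.H628_Mirror.Stab

/-!
# Unfolding, and the countable set of bad directions
-/

set_option autoImplicit false

open Complex ComplexConjugate Set Filter Topology

namespace Pool.Agent.H628_Mirror

variable {ι : Type*} {a b : ι → ℂ}

/-- reflection of the plane in the line of mirror `j` -/
noncomputable def rho (a b : ι → ℂ) (j : ι) (z : ℂ) : ℂ := a j + rf (b j - a j) (z - a j)

/-- the unfolding isometry of a word -/
noncomputable def Uw (a b : ι → ℂ) : List ι → ℂ → ℂ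
  | [], z => z
  | j :: w, z => rho a b j (Uw a b w z)

/-- its linear part -/
noncomputable def Lw (a b : ι → ℂ) : List ι → ℂ → ℂ
  | [], v => v
  | j :: w, v => rf (b j - a j) (Lw a b w v)

@[simp] lemma Uw_nil (z : ℂ) : Uw a b [] z = z := rfl
@[simp] lemma Lw_nil (z : ℂ) : Lw a b [] z = z := rfl
lemma Uw_cons (j : ι) (w : List ι) (z : ℂ) : Uw a b (j :: w) z = rho a b j (Uw a b w z) := rfl
lemma Lw_cons (j : ι) (w : List ι) (v : ℂ) :
    Lw a b (j :: w) v = rf (b j - a j) (Lw a b w v) := rfl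

lemma rho_add (j : ι) (z v : ℂ) : rho a b j (z + v) = rho a b j z + rf (b j - a j) v := by
  unfold rho
  rw [show z + v - a j = (z - a j) + v by ring, rf_add]; ring

lemma Uw_add (w : List ι) (z v : ℂ) : Uw a b w (z + v) = Uw a b w z + Lw a b w v := by
  induction w generalizing z v with
  | nil => rfl
  | cons j w ih => rw [Uw_cons, ih, rho_add, ← Uw_cons, ← Lw_cons]

lemma Lw_mul (w : List ι) (t : ℝ) (v : ℂ) : Lw a b w (t * v) = t * Lw a b w v := by
  induction w with
  | nil => rfl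
  | cons j w ih => rw [Lw_cons, ih, rf_mul, ← Lw_cons]

lemma Lw_append (w w' : List ι) (v : ℂ) : Lw a b (w ++ w') v = Lw a b w (Lw a b w' v) := by
  induction w with
  | nil => rfl
  | cons j w ih => rw [List.cons_append, Lw_cons, ih, ← Lw_cons]

lemma Uw_append (w w' : List ι) (v : ℂ) : Uw a b (w ++ w') v = Uw a b w (Uw a b w' v) := by
  induction w with
  | nil => rfl
  | cons j w ih => rw [List.cons_append, Uw_cons, ih, ← Uw_cons]

lemma Lw_form (hne : ∀ j, a j ≠ b j) (w : List ι) :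
    ∃ c : ℂ, conj c * c = 1 ∧ ((∀ v, Lw a b w v = c * v) ∨ (∀ v, Lw a b w v = c * conj v)) := by
  induction w with
  | nil => exact ⟨1, by simp, Or.inl fun v => by simp⟩
  | cons j w ih =>
    obtain ⟨c, hc, h⟩ := ih
    have he : b j - a j ≠ 0 := sub_ne_zero.2 (hne j).symm
    have he' : conj (b j - a j) ≠ 0 := (map_ne_zero _).2 he
    have hd : conj ((b j - a j) / conj (b j - a j)) * ((b j - a j) / conj (b j - a j)) = 1 := by
      rw [map_div₀, conj_conj]; field_simp
    refine ⟨(b j - a j) / conj (b j - a j) * conj c, ?_, ?_⟩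
    · rw [map_mul, conj_conj]
      linear_combination (conj ((b j - a j) / conj (b j - a j)) *
        ((b j - a j) / conj (b j - a j))) * hc + hd
    · rcases h with h | h
      · right; intro v; rw [Lw_cons, h, rf, map_mul]; ring
      · left; intro v; rw [Lw_cons, h, rf, map_mul, conj_conj]; ring

lemma Lw_double (hne : ∀ j, a j ≠ b j) (w : List ι) {φ : ℂ} (hφ : φ ≠ 0) (h : Lw a b w φ = φ)
    (v : ℂ) : Lw a b (w ++ w) v = v := by
  obtain ⟨c, hc, hf⟩ := Lw_form hne w
  rw [Lw_append]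
  rcases hf with hf | hf
  · have h1 : c * φ = φ := by rw [← hf, h]
    have h2 : c = 1 := by
      have : (c - 1) * φ = 0 := by linear_combination h1
      rcases mul_eq_zero.1 this with h3 | h3
      · exact sub_eq_zero.1 h3
      · exact absurd h3 hφ
    rw [hf, hf, h2]; ring
  · rw [hf, hf, map_mul, conj_conj]; linear_combination v * hc

lemma norm_Lw (hne : ∀ j, a j ≠ b j) (w : List ι) (v : ℂ) : ‖Lw a b w v‖ = ‖v‖ := by
  induction w with
  | nil => rfl
  | cons j w ih => rw [Lw_cons, norm_rf (sub_ne_zero.2 (hne j).symm), ih]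

lemma rho_self {j : ι} (hne : a j ≠ b j) {z : ℂ} (h : cr (z - a j) (b j - a j) = 0) :
    rho a b j z = z := by
  have he : b j - a j ≠ 0 := sub_ne_zero.2 hne.symm
  obtain ⟨μ, hμ⟩ := exists_smul_of_cr_eq_zero he h
  unfold rho
  rw [hμ, rf_mul, rf_self he, ← hμ]; ring

lemma rho_hit {A : Set ι} {z φ : ℂ} {j : ι} (h : Hit a b A z φ j) :
    rho a b j (z + tt a b j z φ * φ) = z + tt a b j z φ * φ := by
  apply rho_self (hit_ne h)
  exact cr_of_mem_segment (hit_mem' h)

/-- unfolding of a path -/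
lemma path_unfold {A : Set ι} {z φ : ℂ} {w : List ι} {A' : Set ι} {z' φ' : ℂ}
    (h : Path a b A z φ w A' z' φ') :
    ∃ T : ℝ, 0 ≤ T ∧ (w ≠ [] → 0 < T) ∧ Uw a b w z' = z + T * φ ∧ Lw a b w φ' = φ := by
  induction h with
  | nil A z φ => exact ⟨0, le_refl _, by simp, by simp, rfl⟩
  | @cons A z φ j w A' z' φ' h hp ih =>
    obtain ⟨T, hT, -, h1, h2⟩ := ih
    have he : b j - a j ≠ 0 := cr_ne_zero_right h.tr
    refine ⟨tt a b j z φ + T, by have := h.t0; linarith, fun _ => by have := h.t0; linarith, ?_, ?_⟩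
    · rw [Uw_cons, h1, rho_add, rho_hit h, rf_mul, rf_rf he]; push_cast; ring
    · rw [Lw_cons, h2, rf_rf he]

lemma path_norm {A : Set ι} {z φ : ℂ} {w : List ι} {A' : Set ι} {z' φ' : ℂ}
    (h : Path a b A z φ w A' z' φ') : ‖φ'‖ = ‖φ‖ := by
  induction h with
  | nil A z φ => rfl
  | @cons A z φ j w A' z' φ' h hp ih => rw [ih, norm_rf (cr_ne_zero_right h.tr)]

lemma path_st {A : Set ι} {z φ : ℂ} {w : List ι} {A' : Set ι} {z' φ' : ℂ}
    (h : Path a b A z φ w A' z' φ') (hs : St a b A z φ) : St a b A' z' φ' := by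
  induction h with
  | nil A z φ => exact hs
  | @cons A z φ j w A' z' φ' h hp ih => exact ih (hit_st hs h)

lemma path_append {A : Set ι} {z φ : ℂ} {w : List ι} {A' : Set ι} {z' φ' : ℂ}
    (h : Path a b A z φ w A' z' φ') {w' : List ι} {A'' : Set ι} {z'' φ'' : ℂ}
    (h' : Path a b A' z' φ' w' A'' z'' φ'') : Path a b A z φ (w ++ w') A'' z'' φ'' := by
  induction h with
  | nil A z φ => exact h'
  | @cons A z φ j w A' z' φ' h hp ih => exact Path.cons h (ih h')

/-- a path followed by a flight to a point `u` -/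
lemma path_fl_unfold {A : Set ι} {z φ : ℂ} {w : List ι} {A' : Set ι} {z' φ' u : ℂ}
    (h : Path a b A z φ w A' z' φ') (hf : Fl a b z' φ' u) :
    ∃ T : ℝ, 0 < T ∧ Uw a b w u = z + T * φ := by
  obtain ⟨T, hT, -, h1, h2⟩ := path_unfold h
  obtain ⟨t, ht, hu, -, -⟩ := hf
  refine ⟨T + t, by linarith, ?_⟩
  rw [hu, Uw_add, h1, Lw_mul, h2]; push_cast; ring

/-! ### Bad directions -/

/-- the unit vector in the direction of `v` -/
noncomputable def nrm (v : ℂ) : ℂ := ((‖v‖ : ℝ) : ℂ)⁻¹ * v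

lemma nrm_mul {φ : ℂ} {T : ℝ} (hφ : ‖φ‖ = 1) (hT : 0 < T) : nrm (T * φ) = φ := by
  unfold nrm
  rw [norm_mul, hφ, mul_one, Complex.norm_real, Real.norm_eq_abs, abs_of_pos hT]
  have : (T : ℂ) ≠ 0 := by exact_mod_cast hT.ne'
  field_simp

/-- directions from unfolded points of `Q` to unfolded points of `Q` -/
def BadQ (a b : ι → ℂ) (Q : Set ℂ) : Set ℂ :=
  {c | ∃ w w' : List ι, ∃ u ∈ Q, ∃ u' ∈ Q, c = nrm (Uw a b w u - Uw a b w' u')}

lemma countable_badQ [Countable ι] {Q : Set ℂ} (hQ : Q.Countable) : (BadQ a b Q).Countable := by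
  have : BadQ a b Q = ⋃ w : List ι, ⋃ w' : List ι,
      (fun p : ℂ × ℂ => nrm (Uw a b w p.1 - Uw a b w' p.2)) '' (Q ×ˢ Q) := by
    ext c
    simp only [BadQ, mem_ofPred_eq, mem_iUnion, mem_image, mem_prod, Prod.exists]
    constructor
    · rintro ⟨w, w', u, hu, u', hu', rfl⟩; exact ⟨w, w', u, u', ⟨hu, hu'⟩, rfl⟩
    · rintro ⟨w, w', u, u', ⟨hu, hu'⟩, rfl⟩; exact ⟨w, w', u, hu, u', hu', rfl⟩
  rw [this]
  exact countable_iUnion fun w => countable_iUnion fun w' => (hQ.prod hQ).image _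

/-- initial directions which lead to a bad direction -/
def BadInit (a b : ι → ℂ) (Q : Set ℂ) : Set ℂ :=
  {c | ∃ w : List ι, ∃ c' ∈ BadQ a b Q, c = Lw a b w c'}

lemma countable_badInit [Countable ι] {Q : Set ℂ} (hQ : Q.Countable) :
    (BadInit a b Q).Countable := by
  have : BadInit a b Q = ⋃ w : List ι, (fun c' => Lw a b w c') '' BadQ a b Q := by
    ext c
    simp only [BadInit, mem_ofPred_eq, mem_iUnion, mem_image]
    constructor
    · rintro ⟨w, c', h, rfl⟩; exact ⟨w, c', h, rfl⟩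
    · rintro ⟨w, c', h, rfl⟩; exact ⟨w, c', h, rfl⟩
  rw [this]
  exact countable_iUnion fun w => (countable_badQ hQ).image _

lemma Good.countable (h : Good a b) : Countable ι := by
  rw [← Set.countable_univ_iff]
  have : (univ : Set ι) ⊆ ⋃ n : ℕ, {i | (mir a b i ∩ Metric.closedBall 0 (n : ℝ)).Nonempty} := by
    intro i _
    obtain ⟨n, hn⟩ := exists_nat_ge ‖a i‖
    rw [mem_iUnion]
    exact ⟨n, a i, left_mem_segment ℝ _ _, by simpa using hn⟩
  refine Set.Countable.mono this ?_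
  exact countable_iUnion fun n : ℕ => (h.lf (n : ℝ)).countable

lemma Good.countable_vx (h : Good a b) : (Vx a b).Countable := by
  have := h.countable
  have hsub : Vx a b ⊆ (⋃ i, {a i}) ∪ (⋃ i, {b i}) ∪ ⋃ i, ⋃ j, ⋃ _ : i ≠ j, (mir a b i ∩ mir a b j) := by
    rintro u (⟨i, hi | hi⟩ | ⟨i, j, hij, h1, h2⟩)
    · left; left; rw [mem_iUnion]; exact ⟨i, hi⟩
    · left; right; rw [mem_iUnion]; exact ⟨i, hi⟩
    · right
      simp only [mem_iUnion]
      exact ⟨i, j, hij, h1, h2⟩
  refine Set.Countable.mono hsub ?_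
  refine ((countable_iUnion fun i => countable_singleton _).union
    (countable_iUnion fun i => countable_singleton _)).union ?_
  refine countable_iUnion fun i => countable_iUnion fun j => countable_iUnion fun hij => ?_
  exact (h.pw i j hij).countable

/-- the vertices in a disc are finitely many -/
lemma Good.finite_vx (h : Good a b) (R : ℝ) : (Vx a b ∩ Metric.closedBall 0 R).Finite := by
  have hJ := h.lf R
  set J := {i | (mir a b i ∩ Metric.closedBall 0 R).Nonempty} with hJdef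
  have : Vx a b ∩ Metric.closedBall 0 R ⊆ (a '' J) ∪ (b '' J) ∪
      ⋃ i ∈ J, ⋃ j ∈ J, {u | i ≠ j ∧ u ∈ mir a b i ∩ mir a b j} := by
    rintro u ⟨⟨i, hi | hi⟩ | ⟨i, j, hij, h1, h2⟩, hu⟩
    · left; left
      exact ⟨i, ⟨a i, left_mem_segment ℝ _ _, hi ▸ hu⟩, hi.symm⟩
    · left; right
      exact ⟨i, ⟨b i, right_mem_segment ℝ _ _, hi ▸ hu⟩, hi.symm⟩
    · right
      simp only [mem_iUnion]
      exact ⟨i, ⟨u, h1, hu⟩, j, ⟨u, h2, hu⟩, hij, h1, h2⟩
  refine Set.Finite.subset ?_ this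
  refine ((hJ.image _).union (hJ.image _)).union ?_
  refine hJ.biUnion fun i _ => hJ.biUnion fun j _ => ?_
  by_cases hij : i = j
  · convert Set.finite_empty
    ext u; simp [hij]
  · exact (h.pw i j hij).finite.subset fun u hu => hu.2

end Pool.Agent.H628_Mirror
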